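import Pool.Agent.Lib.MP_095a31_lc.H87Calc
import Pool.Agent.Lib.MP_329f2d_lc.H38G3

/-! Choice in a generic extension seen from the ground model; ZF from levels; the collapse. -/

open ZFSet Order

namespace Pool.Agent.Lib.MP_095a31_lc

open MP_329f2d_lc

section Names

variable {K : Set V} {P G : V} (hK : ZFm K ∅) (hc : K.Countable) (hP : P ∈ K) (hPo : Po P)
  (hG : Generic K P G)
include hK hc hP hPo hG

/-- An enumeration of a ground model set in the extension gives a ground model relation that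
determines every member from a condition and an ordinal. -/
theorem wo_name {S : V} (hS : S ∈ K)
    (h : ∃ α ∈ Ext K G, IsOrdinal α ∧ ∃ f ∈ Ext K G, Onto f α S) :
    ∃ F ∈ K, (∀ p ξ y y', In3 F p ξ y → In3 F p ξ y' → y = y') ∧
      ∀ s ∈ S, ∃ p ξ, pair p p ∈ P ∧ IsOrdinal ξ ∧ In3 F p ξ s := by
  obtain ⟨α, h1, h2, f, h3, h4⟩ := h
  obtain ⟨F, f1, f2, f3⟩ := exists_funNm hK hP hPo hG hc (ext_ord hK hP hPo hG α h1 h2) hS h3 h4.fn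
  refine ⟨F, f1, f2.uniq, fun s hs => ?_⟩
  obtain ⟨ξ, h5, h6⟩ := h4.2 s hs
  obtain ⟨p, h7, h8⟩ := (f3 ξ h5 s hs).1 h6
  exact ⟨p, ξ, hG.1.cond h7, h2.mem h5, h8⟩

/-- A choice function in the extension gives a ground model relation that chooses from a
condition. -/
theorem choice_name {S f : V} (hS : S ∈ K) (hf : f ∈ Ext K G) (h1 : Fn f)
    (h2 : ∀ s ∈ S, ∃ b ∈ s, pair s b ∈ f) :
    ∃ F ∈ K, (∀ p s y y', In3 F p s y → In3 F p s y' → y = y') ∧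
      ∀ s ∈ S, ∃ p, pair p p ∈ P ∧ ∃ b ∈ s, In3 F p s b := by
  obtain ⟨F, f1, f2, f3⟩ := exists_funNm hK hP hPo hG hc hS (hK.union _ hS) hf h1
  refine ⟨F, f1, f2.uniq, fun s hs => ?_⟩
  obtain ⟨b, h5, h6⟩ := h2 s hs
  obtain ⟨p, h7, h8⟩ := (f3 s hs b (mem_sUnion.2 ⟨s, hs, h5⟩)).1 h6
  exact ⟨p, hG.1.cond h7, b, h5, h8⟩

end Names

/-- ZF from levels, separation and collection. -/
theorem zf_of_levels {N : Set V} (tr : Trs N) (om : omega ∈ N)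
    (lev : ∀ a ∈ N, ∃ A ∈ N, ∀ x ∈ N, rank x ≤ rank a → x ∈ A)
    (sep : ∀ (φ : Fml) (v : ℕ → V), (∀ i, v i ∈ N) → ∀ a ∈ N,
      ∃ b ∈ N, ∀ x, x ∈ b ↔ x ∈ a ∧ Sat N ∅ φ (cons x v))
    (coll : ∀ (φ : Fml) (v : ℕ → V), (∀ i, v i ∈ N) → ∀ a ∈ N,
      (∀ x ∈ a, ∃ y ∈ N, Sat N ∅ φ (cons y (cons x v))) →
      ∃ b ∈ N, ∀ x ∈ a, ∃ y ∈ b, Sat N ∅ φ (cons y (cons x v))) :
    ZFm N ∅ ∧ ∀ a ∈ N, ∃ p ∈ N, ∀ z ∈ N, z ⊆ a → z ∈ p := by
  refine ⟨⟨tr, om, fun x hx y hy => ?_, fun x hx => ?_, sep, coll⟩, fun a ha => (lev a ha).imp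
    fun A hA => ⟨hA.1, fun z hz h => hA.2 z hz (rank_mono h)⟩⟩
  · obtain ⟨A, h1, h2, h3⟩ : ∃ A ∈ N, x ∈ A ∧ y ∈ A := by
      rcases le_total (rank x) (rank y) with h | h
      · exact (lev y hy).imp fun A hA => ⟨hA.1, hA.2 x hx h, hA.2 y hy le_rfl⟩
      · exact (lev x hx).imp fun A hA => ⟨hA.1, hA.2 x hx le_rfl, hA.2 y hy h⟩
    obtain ⟨b, b1, b2⟩ := sep (.neg (.and (.neg (.eq 0 1)) (.neg (.eq 0 2)))) (cons x fun _ => y)
      (cons_mem hx fun _ => hy) A h1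
    convert b1 using 1
    ext z
    rw [b2, mem_pair]
    simp only [Sat, cons]
    exact ⟨fun h => ⟨h.elim (· ▸ h2) (· ▸ h3), by tauto⟩, by tauto⟩
  · obtain ⟨A, h1, h2⟩ := lev x hx
    obtain ⟨b, b1, b2⟩ := sep (.ex (.and (.mem 0 2) (.mem 1 0))) (fun _ => x) (fun _ => hx) A h1
    convert b1 using 1
    ext z
    rw [b2, mem_sUnion]
    exact ⟨fun ⟨y, y1, y2⟩ => ⟨h2 z (tr y (tr x hx y y1) z y2)
      ((rank_lt_of_mem y2).trans (rank_lt_of_mem y1)).le, y, tr x hx y y1, y1, y2⟩,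
      fun ⟨_, y, _, y1, y2⟩ => ⟨y, y1, y2⟩⟩

/-- With levels, the rank initial segments of the model are sets of the model. -/
theorem level_mem {N : Set V} (hN : ZFm N ∅)
    (lev : ∀ a ∈ N, ∃ A ∈ N, ∀ x ∈ N, rank x ≤ rank a → x ∈ A) {l : V} (hl : l ∈ N) :
    ∃ A ∈ N, ∀ x, x ∈ A ↔ x ∈ N ∧ rank x < rank l := by
  obtain ⟨A, h1, h2⟩ := lev l hl
  exact ⟨_, tm2 (K := ZF) (t := fun _ A l => ZFSet.sep (fun x => rank x < rank l) A) hN h1 hl,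
    fun x => mem_sep.trans ⟨fun h => ⟨hN.mem h.1 h1, h.2⟩, fun h => ⟨h2 x h.1 h.2.le, h.2⟩⟩⟩

set_option synthInstance.maxSize 100000 in
/-- A critical point is a cardinal. -/
theorem card_of_crit {N : Set V} (hN : ZFm N ∅) {d : V} (hd : d ∈ N) (ho : IsOrdinal d)
    (h : ∀ l ∈ N, IsOrdinal l → d ∈ l → ∃ (A B : Set V) (m : V → V → Prop), Trs B ∧
      (∀ x, x ∈ A ↔ x ∈ N ∧ rank x < rank l) ∧ Emb A B m ∧ (∀ a ∈ d, m a a) ∧
      ∃ d', m d d' ∧ l ∈ d') : Card N d := by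
  refine ⟨hd, ho, fun α hα ⟨f, hf, h1⟩ => ?_⟩
  obtain ⟨A, B, m, hB, hA, e, h2, d', h3, h4⟩ := h _ (tm2 (K := ZF)
    (t := fun _ f d => (max (rank f) (rank d) + 1).toZFSet) hN hf hd) (isOrdinal_toZFSet _)
    ((ho.rank_lt_iff_mem (isOrdinal_toZFSet _)).1 (by
      rw [Ordinal.rank_toZFSet]; exact lt_add_one_iff.2 (le_max_right _ _)))
  rw [Ordinal.rank_toZFSet] at hA
  have tA : Trs A := fun x hx y hy => (hA y).2
    ⟨hN.mem hy ((hA x).1 hx).1, (rank_lt_of_mem hy).trans ((hA x).1 hx).2⟩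
  obtain ⟨f', h5⟩ := e.total f ((hA f).2 ⟨hf, lt_add_one_iff.2 (le_max_left _ _)⟩)
  let In : V → V → V → Prop := fun f x y => ∃ z ∈ f, (∀ u ∈ z, x ∈ u ∧ ∀ w ∈ u, w = x ∨ w = y) ∧
    (∃ u ∈ z, ∀ w ∈ u, w = x) ∧ ∃ u ∈ z, y ∈ u
  have hI : ∀ f x y, In f x y ↔ pair x y ∈ f := fun f x y => by
    refine ⟨fun ⟨z, z1, z2, ⟨u, u1, u2⟩, u', u3, u4⟩ => ?_, fun H => ⟨_, H, ?_⟩⟩
    · convert z1 using 1
      have e1 : u = {x} := ZFSet.ext fun w =>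
        ⟨fun hw => mem_singleton.2 (u2 w hw), fun hw => mem_singleton.1 hw ▸ (z2 u u1).1⟩
      have e2 : ∀ s ∈ z, y ∈ s → s = {x, y} := fun s hs hy => ZFSet.ext fun w =>
        ⟨fun hw => mem_pair.2 ((z2 s hs).2 w hw), fun hw => (mem_pair.1 hw).elim
          (· ▸ (z2 s hs).1) (· ▸ hy)⟩
      ext s
      simp only [ZFSet.pair, mem_pair]
      refine ⟨fun H => H.elim (fun e => e ▸ e1 ▸ u1) fun e => e ▸ e2 u' u3 u4 ▸ u3, fun hs => ?_⟩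
      by_cases hy : y ∈ s
      · exact .inr (e2 s hs hy)
      · exact .inl (ZFSet.ext fun w => ⟨fun hw => mem_singleton.2 (((z2 s hs).2 w hw).resolve_right
          fun e => hy (e ▸ hw)), fun hw => mem_singleton.1 hw ▸ (z2 s hs).1⟩)
    · simp [ZFSet.pair]
  have h6 := (pe3 (K := Trs) (fun _ f α d => ∀ y ∈ d, ∃ x ∈ α, In f x y) e.pe tA hB e.dom h5
    (h2 α hα) h3).1 fun y hy => (h1.2 y hy).imp fun x hx => ⟨hx.1, (hI _ _ _).2 hx.2⟩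
  have h7 := (pe1 (K := Trs) (fun _ f => ∀ z ∈ f, ∀ u ∈ z, ∀ x ∈ u, ∀ u' ∈ z, ∀ y ∈ u',
    ∀ z' ∈ f, ∀ u'' ∈ z', ∀ y' ∈ u'', In f x y → In f x y' → y = y') e.pe tA hB e.dom h5).1
    fun _ _ _ _ x _ _ _ y _ _ _ _ _ y' _ a b => h1.fn x y y' ((hI _ _ _).1 a) ((hI _ _ _).1 b)
  obtain ⟨x, x1, x2⟩ := h6 _ h4
  have x3 : rank d ≤ rank (max (rank f) (rank d) + 1).toZFSet := by
    rw [Ordinal.rank_toZFSet]; exact (le_max_right _ _).trans le_self_add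
  generalize (max (rank f) (rank d) + 1).toZFSet = q at x2 x3
  obtain ⟨y, y1⟩ := (h1.1.2 x (by exact x1)).exists
  have y2 := (pair_mem_prod.1 (h1.1.1 y1)).2
  have y3 := (pe3 (K := Trs) (fun _ f x y => In f x y) e.pe tA hB e.dom h5
    (h2 x (ho.mem_trans x1 hα)) (h2 y y2)).1 ((hI _ _ _).2 y1)
  have y4 := h7 _ ((hI _ _ _).1 y3) {x, y} (by simp [ZFSet.pair]) x (by simp) {x, y}
    (by simp [ZFSet.pair]) y (by simp) _ ((hI _ _ _).1 x2) {x, q} (by simp [ZFSet.pair]) q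
    (by simp) y3 x2
  exact (rank_lt_of_mem (y4 ▸ y2)).not_ge x3

theorem finite_iff_bdd {a p : V} (h1 : p ⊆ prod omega a) (h2 : Fn p) :
    (p : Set V).Finite ↔ ∃ n ∈ omega, ∀ z ∈ p, fst z ∈ n := by
  constructor
  · intro h
    have : ∀ z ∈ p, ∃ k, fst z = nat k := fun z hz => by
      obtain ⟨x, hx, y, -, rfl⟩ := mem_prod.1 (h1 hz)
      simpa using mem_omega.1 hx
    choose! k hk using this
    obtain ⟨n, hn⟩ := (h.image k).bddAbove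
    exact ⟨_, nat_mem_omega (n + 1), fun z hz => by
      rw [hk z hz, nat_mem_nat]; exact Nat.lt_succ_of_le (hn ⟨z, hz, rfl⟩)⟩
  · rintro ⟨_, hn, h⟩
    obtain ⟨n, rfl⟩ := mem_omega.1 hn
    refine ((Set.finite_lt_nat n).image fun k => pair (nat k) (ap p (nat k))).subset fun z hz => ?_
    obtain ⟨x, -, y, -, rfl⟩ := mem_prod.1 (h1 hz)
    obtain ⟨k, hk, e⟩ := mem_nat.1 (h _ hz)
    rw [fst_pair] at e
    exact ⟨k, hk, by simp only [← e, h2.ap_eq hz]⟩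

theorem finite_mem {N : Set V} (hN : ZFm N ∅) {p : V} (h : (p : Set V).Finite)
    (h1 : ∀ z ∈ p, z ∈ N) : p ∈ N := by
  generalize hs : (p : Set V) = s at h
  induction s, h using Set.Finite.induction_on generalizing p with
  | empty => exact (ZFSet.ext fun z => by simpa using Set.ext_iff.1 hs z : p = ∅) ▸ hN.empty
  | @insert x s hx _ ih =>
    have e : ∀ z, z ∈ p ↔ z = x ∨ z ∈ s := Set.ext_iff.1 hs
    have : p = insert x (p \ {x}) := ZFSet.ext fun z => by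
      simp only [mem_insert_iff, mem_sdiff, mem_singleton, e]; tauto
    rw [this]
    refine hN.insert (h1 x ((e x).2 (.inl rfl))) (ih (fun z hz => h1 z (mem_sdiff.1 hz).1) ?_)
    ext z
    simp only [SetLike.mem_coe, mem_sdiff, mem_singleton, e]
    exact ⟨fun h => h.1.resolve_left h.2, fun h => ⟨.inr h, fun e => hx (e ▸ h)⟩⟩

set_option synthInstance.maxSize 100000 in
/-- The collapse of a set of a model of ZF is a forcing notion of the model. -/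
theorem col_mem {N : Set V} (hN : ZFm N ∅) (pow : ∀ a ∈ N, ∃ p ∈ N, ∀ z ∈ N, z ⊆ a → z ∈ p)
    {a C : V} (ha : a ∈ N) (hC : ∀ z, z ∈ C ↔ ∃ p q, z = pair p q ∧
      (p ⊆ prod omega a ∧ Fn p ∧ (p : Set V).Finite) ∧
      (q ⊆ prod omega a ∧ Fn q ∧ (q : Set V).Finite) ∧ q ⊆ p) : C ∈ N ∧ Po C := by
  have h0 := tm1 (K := ZF) (t := fun _ a => prod omega a) hN ha
  obtain ⟨P, h1, h2⟩ := pow _ h0
  have h3 : ∀ p : V, p ⊆ prod omega a → (p : Set V).Finite → p ∈ P := fun p h h' =>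
    h2 p (finite_mem hN h' fun z hz => hN.mem (h hz) h0) h
  refine ⟨?_, fun e => ?_, fun z hz => ?_, fun p q r h h' => ?_⟩
  · convert tm2 (K := ZF) (t := fun _ a P => ZFSet.sep (fun z => ∃ p q, z = pair p q ∧
      (p ⊆ prod omega a ∧ Fn p ∧ ∃ n ∈ omega, ∀ z ∈ p, fst z ∈ n) ∧
      (q ⊆ prod omega a ∧ Fn q ∧ ∃ n ∈ omega, ∀ z ∈ q, fst z ∈ n) ∧ q ⊆ p) (prod P P)) hN ha h1
      using 1
    ext z
    rw [hC, mem_sep]
    constructor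
    · rintro ⟨p, q, rfl, a1, a2, a3⟩
      exact ⟨pair_mem_prod.2 ⟨h3 p a1.1 a1.2.2, h3 q a2.1 a2.2.2⟩, p, q, rfl,
        ⟨a1.1, a1.2.1, (finite_iff_bdd a1.1 a1.2.1).1 a1.2.2⟩,
        ⟨a2.1, a2.2.1, (finite_iff_bdd a2.1 a2.2.1).1 a2.2.2⟩, a3⟩
    · rintro ⟨-, p, q, rfl, a1, a2, a3⟩
      exact ⟨p, q, rfl, ⟨a1.1, a1.2.1, (finite_iff_bdd a1.1 a1.2.1).2 a1.2.2⟩,
        ⟨a2.1, a2.2.1, (finite_iff_bdd a2.1 a2.2.1).2 a2.2.2⟩, a3⟩
  · have e0 : (∅ : V) ⊆ prod omega a ∧ Fn ∅ ∧ ((∅ : V) : Set V).Finite :=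
      ⟨empty_subset _, fun _ _ _ h => (notMem_empty _ h).elim, by simp⟩
    exact notMem_empty _ (e ▸ (hC _).2 ⟨∅, ∅, rfl, e0, e0, empty_subset _⟩)
  · obtain ⟨p, q, rfl, a1, a2, -⟩ := (hC z).1 hz
    exact ⟨p, q, rfl, (hC _).2 ⟨p, p, rfl, a1, a1, fun _ h => h⟩,
      (hC _).2 ⟨q, q, rfl, a2, a2, fun _ h => h⟩⟩
  · obtain ⟨_, _, e, a1, -, a3⟩ := (hC _).1 h
    obtain ⟨_, _, e', -, a2, a4⟩ := (hC _).1 h'
    obtain ⟨rfl, rfl⟩ := pair_inj.1 e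
    obtain ⟨rfl, rfl⟩ := pair_inj.1 e'
    exact (hC _).2 ⟨_, _, rfl, a1, a2, fun _ h => a3 (a4 h)⟩

theorem exists_generic' {K : Set V} (hK : K.Countable) {P : V} (hP : Po P) : ∃ G, Generic K P G := by
  obtain ⟨z, hz⟩ := (eq_empty_or_nonempty P).resolve_left hP.1
  obtain ⟨p, _, -, hp, -⟩ := hP.2.1 z hz
  exact (exists_generic hK hP hp).imp fun _ h => h.1

end Pool.Agent.Lib.MP_095a31_lc
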