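import Pool.Agent.Lib.MP_095a31_lc.Stmt
import Pool.Agent.Lib.MP_095a31_lc.H87Ctm

/-!
A family without choice functions in any set generic extension.
-/

namespace Pool.Agent.Lib.MP_095a31_lc

open ZFSet Pool.Agent.Lib.MP_329f2d_lc

set_option synthInstance.maxSize 100000 in
theorem exists_funNm' {K : Set V} {P G : V} (hK : ZFm K ∅) (hP : P ∈ K) (hPo : Po P)
    (hG : Generic K P G) {a b f : V} (ha : a ∈ K) (hb : b ∈ K) (hf : f ∈ Ext K G)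
    (h1 : ∀ x y y', pair x y ∈ f → pair x y' ∈ f → y = y') :
    ∃ F ∈ K, FunNm P F a b ∧
      ∀ x ∈ a, ∀ y ∈ b, pair x y ∈ f ↔ ∃ r ∈ G, In3 F r x y := by
  obtain ⟨f, hf, rfl⟩ := hf
  let S : V → V → V → Prop := fun r x y => pair r r ∈ P ∧ FM P r (opn P (chk P x) (chk P y)) f ∧
    ∀ y' ∈ b, ∀ r', pair r' r ∈ P → FM P r' (opn P (chk P x) (chk P y')) f → y' = y
  have hF := (cls3 (K := ZF) (S := fun _ P f b z => pair (fst z) (fst z) ∈ P ∧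
    FM P (fst z) (opn P (chk P (fst (snd z))) (chk P (snd (snd z)))) f ∧
    ∀ y' ∈ b, ∀ r', pair r' (fst z) ∈ P → FM P r' (opn P (chk P (fst (snd z))) (chk P y')) f →
      y' = snd (snd z)) hK hP hf hb).sep hK
    (tm3 (K := ZF) (t := fun _ P a b => prod (⋃₀ ⋃₀ P) (prod a b)) hK hP ha hb)
  set F := ZFSet.sep _ (prod (⋃₀ ⋃₀ P) (prod a b)) with hFd
  have hI : ∀ r x y, In3 F r x y ↔ x ∈ a ∧ y ∈ b ∧ S r x y := by
    intro r x y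
    simp only [In3, hFd, mem_sep, pair_mem_prod, fst_pair, snd_pair]
    exact ⟨fun h => ⟨h.1.2.1, h.1.2.2, h.2⟩, fun h => ⟨⟨left_mem_sUnion h.2.2.1, h.1, h.2.1⟩, h.2.2⟩⟩
  have hv : ∀ x ∈ a, ∀ y ∈ b, pair x y ∈ val G f ↔
      ∃ p ∈ G, FM P p (opn P (chk P x) (chk P y)) f := fun x hx y hy => by
    rw [← pair_mem_val_iff hK hP hPo hG (chk_mem hK hP (hK.mem hx ha)) (chk_mem hK hP (hK.mem hy hb))
      hf, val_chk hG.1, val_chk hG.1]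
  refine ⟨F, hF, ⟨fun z hz => ?_, fun r r' x y h hr => ?_, fun r x y y' h h' => ?_⟩,
    fun x hx y hy => ⟨fun h => ?_, fun ⟨r, hr, h⟩ => ?_⟩⟩
  · obtain ⟨r, -, w, hw, rfl⟩ := mem_prod.1 (mem_sep.1 hz).1
    obtain ⟨x, hx, y, hy, rfl⟩ := mem_prod.1 hw
    exact ⟨r, x, hx, y, hy, rfl, ((hI r x y).1 hz).2.2.1⟩
  · rw [hI] at h ⊢
    exact ⟨h.1, h.2.1, hPo.left hr, h.2.2.2.1.mono hPo hr,
      fun y' hy' r'' h' => h.2.2.2.2 y' hy' r'' (hPo.trans h' hr)⟩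
  · rw [hI] at h h'
    exact h'.2.2.2.2 y h.2.1 r h.2.2.1 h.2.2.2.1
  · obtain ⟨p, hp, h2⟩ := (hv x hx y hy).1 h
    obtain ⟨r, hr, h3, h4⟩ := Generic.meet hK hP hPo hG (cls5 (K := ZF) (S := fun _ P f b x y r =>
      (∀ y' ∈ b, ∀ r', pair r' r ∈ P → FM P r' (opn P (chk P x) (chk P y')) f → y' = y) ∨
      ∃ y' ∈ b, y' ≠ y ∧ FM P r (opn P (chk P x) (chk P y')) f) hK hP hf hb (hK.mem hx ha)
      (hK.mem hy hb)) hp fun q hq => by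
        by_cases hc : ∀ y' ∈ b, ∀ r', pair r' q ∈ P →
            FM P r' (opn P (chk P x) (chk P y')) f → y' = y
        · exact ⟨q, hPo.left hq, .inl hc⟩
        · push Not at hc
          obtain ⟨y', a1, r', a2, a3, a4⟩ := hc
          exact ⟨r', a2, .inr ⟨y', a1, a4, a3⟩⟩
    rcases h4 with h4 | ⟨y', a1, a2, a3⟩
    · exact ⟨r, hr, (hI _ _ _).2 ⟨hx, hy, hPo.left h3, h2.mono hPo h3, h4⟩⟩
    · exact absurd (h1 x y' y ((hv x hx y' a1).2 ⟨r, hr, a3⟩) h) a2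
  · exact (hv x hx y hy).2 ⟨r, hr, ((hI _ _ _).1 h).2.2.2.1⟩

/-- Some family `F` of nonempty sets in `N` has no selector in `N`, even with the help of a
parameter from `D`. -/
def Wild (N : Set V) (D : V) : Prop :=
  ∃ F ∈ N, ∅ ∉ F ∧ ∀ E ∈ N, ∃ Y ∈ F, ∀ p ∈ D, ∀ s ∈ Y, pair p (pair Y s) ∈ E →
    ∃ s', s' ≠ s ∧ pair p (pair Y s') ∈ E

theorem Wild.not_ac {N : Set V} (hN : ZFm N ∅) {P G : V} (hP : P ∈ N) (hPo : Po P)
    (hw : Wild N (⋃₀ ⋃₀ P)) (hG : Generic N P G) : ¬ AC (Ext N G) := by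
  intro h
  obtain ⟨F, f1, f2, f3⟩ := hw
  obtain ⟨f, h1, h2, h3⟩ := h F (subset_ext hN hP hPo hG f1) f2
  obtain ⟨E, e1, e2, e3⟩ := exists_funNm' hN hP hPo hG f1 (hN.union _ f1) h1 fun x y z a b =>
    (h2.2 x (pair_mem_prod.1 (h2.1 a)).1).unique a b
  obtain ⟨Y, y1, y2⟩ := f3 E e1
  obtain ⟨s, s1, -⟩ := h2.2 Y y1
  obtain ⟨p, p1, p2⟩ := (e3 Y y1 s (pair_mem_prod.1 (h2.1 s1)).2).1 s1
  obtain ⟨s', a, b⟩ := y2 p (left_mem_sUnion (hG.1.cond p1)) s (h3 _ _ s1) p2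
  exact a (e2.uniq _ _ _ _ b p2)

/-- The collapse is a forcing notion in `N`. -/
theorem exists_col {N : Set V} (hN : ZFm N ∅) {d D : V} (hD : D ∈ N) (h : IsVh N d D)
    (hp : ∀ a ∈ N, ∃ p ∈ N, ∀ z ∈ N, z ⊆ a → z ∈ p) : ∃ P ∈ N, IsCol N d P ∧ Po P := by
  let C := ZFSet.sep (fun z => ∃ p q, z = pair p q ∧ FinP N d p ∧ FinP N d q ∧ q ⊆ p)
    (prod (powerset (prod omega D)) (powerset (prod omega D)))
  have e : ∀ p, FinP N d p ↔ p ⊆ prod omega D ∧ Fn p ∧ (p : Set V).Finite := fun p =>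
    ⟨fun ⟨a, b, c⟩ => ⟨fun z hz => by
      obtain ⟨n, n1, x, x1, x2, rfl⟩ := b z hz
      exact pair_mem_prod.2 ⟨n1, (h x).2 ⟨x1, x2⟩⟩, c, a⟩, fun ⟨a, b, c⟩ => ⟨c, fun z hz => by
      obtain ⟨n, n1, x, x1, rfl⟩ := mem_prod.1 (a hz)
      exact ⟨n, n1, x, ((h x).1 x1).1, ((h x).1 x1).2, rfl⟩, b⟩⟩
  have hC : IsCol N d C := fun z => mem_sep.trans (and_iff_right_of_imp fun ⟨p, q, e', a, b, _⟩ =>
    e' ▸ pair_mem_prod.2 ⟨mem_powerset.2 ((e p).1 a).1, mem_powerset.2 ((e q).1 b).1⟩)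
  have := col_mem hN hp hD (C := C) fun z => by simpa only [e] using hC z
  exact ⟨C, this.1, hC, this.2⟩

/-- ZF from the levels, separation of subsets of levels, and bounding.  `N` is transitive, `o`
ranges over the ordinals of `N`. -/
theorem zfull_of_levels {N : Set V} (tr : ∀ x ∈ N, ∀ y ∈ x, y ∈ N) (om : omega ∈ N)
    (cov : ∀ x ∈ N, ∀ y ∈ N, ∃ o ∈ N, IsOrdinal o ∧ rank x < rank o ∧ rank y < rank o)
    (lev : ∀ o ∈ N, IsOrdinal o → ∃ D ∈ N, IsVh N o D)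
    (sep : ∀ (φ : Fml) (v : ℕ → V), (∀ i, v i ∈ N) → ∀ a ∈ N,
      ∃ b ∈ N, ∀ x, x ∈ b ↔ x ∈ a ∧ Sat N ∅ φ (cons x v))
    (bd : ∀ (φ : Fml) (v : ℕ → V), (∀ i, v i ∈ N) → ∀ a ∈ N, ∃ o ∈ N, ∀ x ∈ a,
      (∃ y ∈ N, Sat N ∅ φ (cons y (cons x v))) →
        ∃ y ∈ N, rank y < rank o ∧ Sat N ∅ φ (cons y (cons x v))) : ZFull N := by
  have lv : ∀ a ∈ N, ∃ A ∈ N, ∀ x, x ∈ N → rank x ≤ rank a → x ∈ A := fun a ha => by
    obtain ⟨o, o1, o2, o3, -⟩ := cov a ha a ha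
    exact (lev o o1 o2).imp fun D hD => ⟨hD.1, fun x hx h => (hD.2 x).2 ⟨hx, h.trans_lt o3⟩⟩
  refine zf_of_levels tr om lv sep fun φ v hv a ha H => ?_
  obtain ⟨o, o1, o2⟩ := bd φ v hv a ha
  obtain ⟨A, a1, a2⟩ := lv o o1
  exact ⟨A, a1, fun x hx => (o2 x hx (H x hx)).imp fun y hy => ⟨a2 y hy.1 hy.2.1.le, hy.2.2⟩⟩

/-- The final assembly. -/
theorem final_of {N d : V} (hc : (N : Set V).Countable) (hz : ZFull N) (he : Extendible N d)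
    (hw : ∀ D ∈ N, Wild N D) :
    ∃ N d : V, (N : Set V).Countable ∧ ZFull N ∧ Extendible N d ∧
      (∃ P ∈ N, IsCol N d P ∧ Po P) ∧
      ∀ P ∈ N, Po P → (∃ G, Generic N P G) ∧ ∀ G, Generic N P G → ¬ AC (Ext N G) := by
  refine ⟨N, d, hc, hz, he, ?_, fun P hP hPo => ⟨exists_generic' hc hPo, fun G hG =>
    (hw _ (hz.1.fld hP)).not_ac hz.1 hP hPo hG⟩⟩
  obtain ⟨t, -, -, M, m1, -, -, -, -, m2, -⟩ := he.2.2 _ (hz.1.insert he.1 he.1)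
    (isOrdinal_succ he.2.1) (mem_insert _ _)
  refine exists_col hz.1 (tm2 (K := ZF) (t := fun _ A l => ZFSet.sep (fun x => rank x < rank l) A)
    hz.1 m1 he.1) (fun x => mem_sep.trans ⟨fun h => ⟨hz.1.mem h.1 m1, h.2⟩, fun h =>
      ⟨(m2 x).2 ⟨h.1, h.2.trans (rank_lt_of_mem (mem_insert _ _))⟩, h.2⟩⟩) hz.2

end Pool.Agent.Lib.MP_095a31_lc
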