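import Pool.Agent.Lib.MP_095a31_lc.H87Calc

/-! Elementary embeddings between rank initial segments and what they preserve. -/

open ZFSet Order

namespace Pool.Agent.Lib.MP_095a31_lc

open MP_329f2d_lc

/-- `j` is an elementary embedding of `V_l` into `V_t` with critical point `d`, both sides being
models of ZF. -/
structure Lift (d l t : Ordinal.{0}) (j : V → V) : Prop where
  src : RK (vonNeumann l)
  tgt : RK (vonNeumann t)
  emb : Emb (vonNeumann l) (vonNeumann t) fun x y => rank x < l ∧ y = j x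
  fixo : ∀ a < d, j a.toZFSet = a.toZFSet
  lt : d < l
  big : l < rank (j d.toZFSet)

theorem zfm_up {l t : Ordinal.{0}} {m : V → V → Prop} (h : Emb (vonNeumann l) (vonNeumann t) m)
    (hl : ZFm (vonNeumann l) ∅) : ZFm (vonNeumann t) ∅ := by
  have t1 : ∀ {t : Ordinal.{0}}, Trs (vonNeumann t) := fun x hx _ hy =>
    isTransitive_vonNeumann _ x hx hy
  obtain ⟨b, hb⟩ := h.total _ hl.omega
  have ext : ∀ a ∈ vonNeumann t, ∀ b : V, (∀ z ∈ b, z ∈ vonNeumann t) →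
      (∀ z ∈ (vonNeumann t : Set V), z ∈ a ↔ z ∈ b) → a = b := fun a ha b hb H =>
    ZFSet.ext fun z => ⟨fun hz => (H z (t1 a ha z hz)).1 hz, fun hz => (H z (hb z hz)).2 hz⟩
  refine ⟨t1, ?_, fun x hx y hy => ?_, fun x hx => mem_vonNeumann.2
    ((rank_sUnion_le x).trans_lt (mem_vonNeumann.1 hx)), fun φ v _ a ha => ⟨a.sep _,
      mem_vonNeumann.2 ((rank_mono sep_subset).trans_lt (mem_vonNeumann.1 ha)), fun _ => mem_sep⟩,
    fun φ v hv a ha => ?_⟩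
  · exact isOm_iff.1 ((pe1 (K := Trs) (fun _ x => IsOm x) h.pe t1 t1 h.dom hb).1
      (isOm_iff.2 rfl)) ▸ (h.dom _ _ hb).2
  · obtain ⟨p, hp, H⟩ := df_up (K := Trs) (fun W v => ∃ p ∈ W, ∀ z ∈ W, z ∈ p ↔ z = v 0 ∨ z = v 1)
      h.pe t1 t1 h.dom hb (fun v hv => ⟨_, hl.pair _ (hv 0) _ (hv 1), fun z _ => mem_pair⟩)
      (cons x fun _ => y) (cons_mem hx fun _ => hy)
    rw [← ext p hp {x, y} (fun z hz => (mem_pair.1 hz).elim (· ▸ hx) (· ▸ hy))
      fun z hz => (H z hz).trans mem_pair.symm]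
    exact hp
  · exact df_up (K := Trs) (fun W v => (∀ x ∈ v 0, ∃ y ∈ W,
      Sat W ∅ φ (cons y (cons x fun i => v i.succ))) → ∃ b ∈ W, ∀ x ∈ v 0, ∃ y ∈ b,
      Sat W ∅ φ (cons y (cons x fun i => v i.succ))) h.pe t1 t1 h.dom hb
      (fun v hv => hl.coll φ (fun i => v i.succ) (fun i => hv _) _ (hv 0)) (cons a v)
      (cons_mem ha hv)

/-- From the embeddings of an extendible cardinal to embeddings between models. -/
theorem exists_lift {d : V} (hd : IsOrdinal d)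
    (h : ∀ l : Ordinal.{0}, d ∈ l.toZFSet → ∃ (t : Ordinal.{0}) (j : V),
      Emb (vonNeumann l) (vonNeumann t) (fun x y => pair x y ∈ j) ∧ (∀ a ∈ d, pair a a ∈ j) ∧
      ∃ d', pair d d' ∈ j ∧ l.toZFSet ∈ d') (α : Ordinal.{0}) :
    ∃ l t j, α < l ∧ Lift (rank d) l t j := by
  obtain ⟨l, h1, h2⟩ := exists_rk (max α (rank d))
  have h3 : rank d < l := (le_max_right _ _).trans_lt h1
  obtain ⟨t, j, e, h4, d', h5, h6⟩ := h l (by
    rw [← hd.toZFSet_rank_eq]; exact Ordinal.toZFSet_mem_toZFSet_iff.2 h3)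
  have h7 : ∀ x y, pair x y ∈ j → ap j x = y := fun x y H =>
    ap_eq H fun z hz => e.pe.loc_unique hz H
  have h8 : (fun x y => rank x < l ∧ y = ap j x) = fun x y => pair x y ∈ j := by
    ext x y
    refine ⟨fun ⟨a, b⟩ => ?_, fun H => ⟨mem_vonNeumann.1 (e.dom _ _ H).1, (h7 _ _ H).symm⟩⟩
    obtain ⟨z, hz⟩ := e.total x (mem_vonNeumann.2 a)
    rwa [b, h7 _ _ hz]
  refine ⟨l, t, ap j, (le_max_left _ _).trans_lt h1, h2, rk_vonNeumann (zfm_up e h2.1), h8 ▸ e,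
    fun a ha => h7 _ _ (h4 _ ?_), h3, ?_⟩
  · rw [← hd.toZFSet_rank_eq]; exact Ordinal.toZFSet_mem_toZFSet_iff.2 ha
  · rw [hd.toZFSet_rank_eq, h7 _ _ h5]
    simpa using rank_lt_of_mem h6

theorem RK.lim {l : Ordinal.{0}} (h : RK (vonNeumann l)) : IsSuccLimit l :=
  Ordinal.isSuccLimit_iff.2 ⟨fun e => by simpa [e] using h.1.omega,
    isSuccPrelimit_of_succ_lt fun a ha => by
      simpa using mem_vonNeumann.1 (h.1.singleton (x := a.toZFSet) (mem_vonNeumann.2 (by simpa)))⟩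

/-- The action of `j` on ordinals. -/
noncomputable def jo (j : V → V) (a : Ordinal.{0}) : Ordinal.{0} := rank (j a.toZFSet)

namespace Lift

set_option linter.unusedVariables false

variable {d l t : Ordinal.{0}} {j : V → V} (h : Lift d l t j) {Γ : Type}
include h

theorem iff [Countable Γ] (P : Set V → (Γ → V) → Prop) [Df RK P] {v : Γ → V}
    (hv : ∀ i, rank (v i) < l) : P (vonNeumann l) v ↔ P (vonNeumann t) fun i => j (v i) :=
  PE.iff (K := RK) P h.emb.pe h.src h.tgt h.emb.dom (a := d.toZFSet) (b := j d.toZFSet)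
    ⟨by simpa using h.lt, rfl⟩ fun i => ⟨hv i, rfl⟩

theorem tm [Countable Γ] (s : Set V → (Γ → V) → V) [Tm RK s] {v : Γ → V}
    (hv : ∀ i, rank (v i) < l) : j (s (vonNeumann l) v) = s (vonNeumann t) fun i => j (v i) :=
  (Emb.tm (K := RK) s h.emb h.src h.tgt (w := fun i => j (v i)) fun i => ⟨hv i, rfl⟩).2.symm

theorem rank_tm (s : Set V → (Γ → V) → V) [hs : Tm RK s] {v : Γ → V}
    (hv : ∀ i, rank (v i) < l) : rank (s (vonNeumann l) v) < l :=
  mem_vonNeumann.1 (hs.mem _ h.src v fun i => mem_vonNeumann.2 (hv i))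

theorem rank_lt {x : V} (hx : rank x < l) : rank (j x) < t :=
  mem_vonNeumann.1 (h.emb.dom x _ ⟨hx, rfl⟩).2

theorem iff1 (P : V → Prop) [Df RK fun _ (v : ℕ → V) => P (v 0)] {a : V}
    (ha : rank a < l) :
    P a ↔ P (j a) :=
  pe1 (K := RK) (fun _ => P) h.emb.pe h.src h.tgt h.emb.dom ⟨ha, rfl⟩

theorem tm1 (s : V → V) [Tm RK fun _ (v : ℕ → V) => s (v 0)] {a : V}
    (ha : rank a < l) :
    j (s a) = s (j a) :=
  (emb1 (K := RK) (fun _ => s) h.emb h.src h.tgt ⟨ha, rfl⟩).2.symm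

theorem rk1 (s : V → V) [Tm RK fun _ (v : ℕ → V) => s (v 0)] {a : V}
    (ha : rank a < l) :
    rank (s a) < l :=
  mem_vonNeumann.1 (MP_329f2d_lc.tm1 (K := RK) (t := fun _ => s) h.src (mem_vonNeumann.2 ha))

theorem iff2 (P : V → V → Prop) [Df RK fun _ (v : ℕ → V) => P (v 0) (v 1)] {a b : V}
    (ha : rank a < l) (hb : rank b < l) :
    P a b ↔ P (j a) (j b) :=
  pe2 (K := RK) (fun _ => P) h.emb.pe h.src h.tgt h.emb.dom ⟨ha, rfl⟩ ⟨hb, rfl⟩

theorem tm2 (s : V → V → V) [Tm RK fun _ (v : ℕ → V) => s (v 0) (v 1)] {a b : V}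
    (ha : rank a < l) (hb : rank b < l) :
    j (s a b) = s (j a) (j b) :=
  (emb2 (K := RK) (fun _ => s) h.emb h.src h.tgt ⟨ha, rfl⟩ ⟨hb, rfl⟩).2.symm

theorem rk2 (s : V → V → V) [Tm RK fun _ (v : ℕ → V) => s (v 0) (v 1)] {a b : V}
    (ha : rank a < l) (hb : rank b < l) :
    rank (s a b) < l :=
  mem_vonNeumann.1 (MP_329f2d_lc.tm2 (K := RK) (t := fun _ => s) h.src (mem_vonNeumann.2 ha) (mem_vonNeumann.2 hb))

theorem iff3 (P : V → V → V → Prop) [Df RK fun _ (v : ℕ → V) => P (v 0) (v 1) (v 2)] {a b c : V}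
    (ha : rank a < l) (hb : rank b < l) (hc : rank c < l) :
    P a b c ↔ P (j a) (j b) (j c) :=
  pe3 (K := RK) (fun _ => P) h.emb.pe h.src h.tgt h.emb.dom ⟨ha, rfl⟩ ⟨hb, rfl⟩ ⟨hc, rfl⟩

theorem tm3 (s : V → V → V → V) [Tm RK fun _ (v : ℕ → V) => s (v 0) (v 1) (v 2)] {a b c : V}
    (ha : rank a < l) (hb : rank b < l) (hc : rank c < l) :
    j (s a b c) = s (j a) (j b) (j c) :=
  (emb3 (K := RK) (fun _ => s) h.emb h.src h.tgt ⟨ha, rfl⟩ ⟨hb, rfl⟩ ⟨hc, rfl⟩).2.symm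

theorem rk3 (s : V → V → V → V) [Tm RK fun _ (v : ℕ → V) => s (v 0) (v 1) (v 2)] {a b c : V}
    (ha : rank a < l) (hb : rank b < l) (hc : rank c < l) :
    rank (s a b c) < l :=
  mem_vonNeumann.1 (MP_329f2d_lc.tm3 (K := RK) (t := fun _ => s) h.src (mem_vonNeumann.2 ha) (mem_vonNeumann.2 hb) (mem_vonNeumann.2 hc))

theorem iff4 (P : V → V → V → V → Prop) [Df RK fun _ (v : ℕ → V) => P (v 0) (v 1) (v 2) (v 3)] {a b c e : V}
    (ha : rank a < l) (hb : rank b < l) (hc : rank c < l) (he : rank e < l) :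
    P a b c e ↔ P (j a) (j b) (j c) (j e) :=
  pe4 (K := RK) (fun _ => P) h.emb.pe h.src h.tgt h.emb.dom ⟨ha, rfl⟩ ⟨hb, rfl⟩ ⟨hc, rfl⟩ ⟨he, rfl⟩

theorem tm4 (s : V → V → V → V → V) [Tm RK fun _ (v : ℕ → V) => s (v 0) (v 1) (v 2) (v 3)] {a b c e : V}
    (ha : rank a < l) (hb : rank b < l) (hc : rank c < l) (he : rank e < l) :
    j (s a b c e) = s (j a) (j b) (j c) (j e) :=
  (emb4 (K := RK) (fun _ => s) h.emb h.src h.tgt ⟨ha, rfl⟩ ⟨hb, rfl⟩ ⟨hc, rfl⟩ ⟨he, rfl⟩).2.symm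

theorem rk4 (s : V → V → V → V → V) [Tm RK fun _ (v : ℕ → V) => s (v 0) (v 1) (v 2) (v 3)] {a b c e : V}
    (ha : rank a < l) (hb : rank b < l) (hc : rank c < l) (he : rank e < l) :
    rank (s a b c e) < l :=
  mem_vonNeumann.1 (MP_329f2d_lc.tm4 (K := RK) (t := fun _ => s) h.src (mem_vonNeumann.2 ha) (mem_vonNeumann.2 hb) (mem_vonNeumann.2 hc) (mem_vonNeumann.2 he))

theorem iff5 (P : V → V → V → V → V → Prop) [Df RK fun _ (v : ℕ → V) => P (v 0) (v 1) (v 2) (v 3) (v 4)] {a b c e f : V}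
    (ha : rank a < l) (hb : rank b < l) (hc : rank c < l) (he : rank e < l) (hf : rank f < l) :
    P a b c e f ↔ P (j a) (j b) (j c) (j e) (j f) :=
  pe5 (K := RK) (fun _ => P) h.emb.pe h.src h.tgt h.emb.dom ⟨ha, rfl⟩ ⟨hb, rfl⟩ ⟨hc, rfl⟩ ⟨he, rfl⟩ ⟨hf, rfl⟩

theorem tm5 (s : V → V → V → V → V → V) [Tm RK fun _ (v : ℕ → V) => s (v 0) (v 1) (v 2) (v 3) (v 4)] {a b c e f : V}
    (ha : rank a < l) (hb : rank b < l) (hc : rank c < l) (he : rank e < l) (hf : rank f < l) :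
    j (s a b c e f) = s (j a) (j b) (j c) (j e) (j f) :=
  (emb5 (K := RK) (fun _ => s) h.emb h.src h.tgt ⟨ha, rfl⟩ ⟨hb, rfl⟩ ⟨hc, rfl⟩ ⟨he, rfl⟩ ⟨hf, rfl⟩).2.symm

theorem rk5 (s : V → V → V → V → V → V) [Tm RK fun _ (v : ℕ → V) => s (v 0) (v 1) (v 2) (v 3) (v 4)] {a b c e f : V}
    (ha : rank a < l) (hb : rank b < l) (hc : rank c < l) (he : rank e < l) (hf : rank f < l) :
    rank (s a b c e f) < l :=
  mem_vonNeumann.1 (MP_329f2d_lc.tm5 (K := RK) (t := fun _ => s) h.src (mem_vonNeumann.2 ha) (mem_vonNeumann.2 hb) (mem_vonNeumann.2 hc) (mem_vonNeumann.2 he) (mem_vonNeumann.2 hf))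

theorem iff6 (P : V → V → V → V → V → V → Prop) [Df RK fun _ (v : ℕ → V) => P (v 0) (v 1) (v 2) (v 3) (v 4) (v 5)] {a b c e f g : V}
    (ha : rank a < l) (hb : rank b < l) (hc : rank c < l) (he : rank e < l) (hf : rank f < l) (hg : rank g < l) :
    P a b c e f g ↔ P (j a) (j b) (j c) (j e) (j f) (j g) :=
  pe6 (K := RK) (fun _ => P) h.emb.pe h.src h.tgt h.emb.dom ⟨ha, rfl⟩ ⟨hb, rfl⟩ ⟨hc, rfl⟩ ⟨he, rfl⟩ ⟨hf, rfl⟩ ⟨hg, rfl⟩

theorem tm6 (s : V → V → V → V → V → V → V) [Tm RK fun _ (v : ℕ → V) => s (v 0) (v 1) (v 2) (v 3) (v 4) (v 5)] {a b c e f g : V}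
    (ha : rank a < l) (hb : rank b < l) (hc : rank c < l) (he : rank e < l) (hf : rank f < l) (hg : rank g < l) :
    j (s a b c e f g) = s (j a) (j b) (j c) (j e) (j f) (j g) :=
  (emb6 (K := RK) (fun _ => s) h.emb h.src h.tgt ⟨ha, rfl⟩ ⟨hb, rfl⟩ ⟨hc, rfl⟩ ⟨he, rfl⟩ ⟨hf, rfl⟩ ⟨hg, rfl⟩).2.symm

theorem rk6 (s : V → V → V → V → V → V → V) [Tm RK fun _ (v : ℕ → V) => s (v 0) (v 1) (v 2) (v 3) (v 4) (v 5)] {a b c e f g : V}
    (ha : rank a < l) (hb : rank b < l) (hc : rank c < l) (he : rank e < l) (hf : rank f < l) (hg : rank g < l) :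
    rank (s a b c e f g) < l :=
  mem_vonNeumann.1 (MP_329f2d_lc.tm6 (K := RK) (t := fun _ => s) h.src (mem_vonNeumann.2 ha) (mem_vonNeumann.2 hb) (mem_vonNeumann.2 hc) (mem_vonNeumann.2 he) (mem_vonNeumann.2 hf) (mem_vonNeumann.2 hg))

theorem iff7 (P : V → V → V → V → V → V → V → Prop) [Df RK fun _ (v : ℕ → V) => P (v 0) (v 1) (v 2) (v 3) (v 4) (v 5) (v 6)] {a b c e f g i : V}
    (ha : rank a < l) (hb : rank b < l) (hc : rank c < l) (he : rank e < l) (hf : rank f < l) (hg : rank g < l) (hi : rank i < l) :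
    P a b c e f g i ↔ P (j a) (j b) (j c) (j e) (j f) (j g) (j i) :=
  pe7 (K := RK) (fun _ => P) h.emb.pe h.src h.tgt h.emb.dom ⟨ha, rfl⟩ ⟨hb, rfl⟩ ⟨hc, rfl⟩ ⟨he, rfl⟩ ⟨hf, rfl⟩ ⟨hg, rfl⟩ ⟨hi, rfl⟩

theorem tm7 (s : V → V → V → V → V → V → V → V) [Tm RK fun _ (v : ℕ → V) => s (v 0) (v 1) (v 2) (v 3) (v 4) (v 5) (v 6)] {a b c e f g i : V}
    (ha : rank a < l) (hb : rank b < l) (hc : rank c < l) (he : rank e < l) (hf : rank f < l) (hg : rank g < l) (hi : rank i < l) :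
    j (s a b c e f g i) = s (j a) (j b) (j c) (j e) (j f) (j g) (j i) :=
  (emb7 (K := RK) (fun _ => s) h.emb h.src h.tgt ⟨ha, rfl⟩ ⟨hb, rfl⟩ ⟨hc, rfl⟩ ⟨he, rfl⟩ ⟨hf, rfl⟩ ⟨hg, rfl⟩ ⟨hi, rfl⟩).2.symm

theorem rk7 (s : V → V → V → V → V → V → V → V) [Tm RK fun _ (v : ℕ → V) => s (v 0) (v 1) (v 2) (v 3) (v 4) (v 5) (v 6)] {a b c e f g i : V}
    (ha : rank a < l) (hb : rank b < l) (hc : rank c < l) (he : rank e < l) (hf : rank f < l) (hg : rank g < l) (hi : rank i < l) :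
    rank (s a b c e f g i) < l :=
  mem_vonNeumann.1 (MP_329f2d_lc.tm7 (K := RK) (t := fun _ => s) h.src (mem_vonNeumann.2 ha) (mem_vonNeumann.2 hb) (mem_vonNeumann.2 hc) (mem_vonNeumann.2 he) (mem_vonNeumann.2 hf) (mem_vonNeumann.2 hg) (mem_vonNeumann.2 hi))

theorem iff8 (P : V → V → V → V → V → V → V → V → Prop) [Df RK fun _ (v : ℕ → V) => P (v 0) (v 1) (v 2) (v 3) (v 4) (v 5) (v 6) (v 7)] {a b c e f g i k : V}
    (ha : rank a < l) (hb : rank b < l) (hc : rank c < l) (he : rank e < l) (hf : rank f < l) (hg : rank g < l) (hi : rank i < l) (hk : rank k < l) :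
    P a b c e f g i k ↔ P (j a) (j b) (j c) (j e) (j f) (j g) (j i) (j k) :=
  pe8 (K := RK) (fun _ => P) h.emb.pe h.src h.tgt h.emb.dom ⟨ha, rfl⟩ ⟨hb, rfl⟩ ⟨hc, rfl⟩ ⟨he, rfl⟩ ⟨hf, rfl⟩ ⟨hg, rfl⟩ ⟨hi, rfl⟩ ⟨hk, rfl⟩

theorem tm8 (s : V → V → V → V → V → V → V → V → V) [Tm RK fun _ (v : ℕ → V) => s (v 0) (v 1) (v 2) (v 3) (v 4) (v 5) (v 6) (v 7)] {a b c e f g i k : V}
    (ha : rank a < l) (hb : rank b < l) (hc : rank c < l) (he : rank e < l) (hf : rank f < l) (hg : rank g < l) (hi : rank i < l) (hk : rank k < l) :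
    j (s a b c e f g i k) = s (j a) (j b) (j c) (j e) (j f) (j g) (j i) (j k) :=
  (emb8 (K := RK) (fun _ => s) h.emb h.src h.tgt ⟨ha, rfl⟩ ⟨hb, rfl⟩ ⟨hc, rfl⟩ ⟨he, rfl⟩ ⟨hf, rfl⟩ ⟨hg, rfl⟩ ⟨hi, rfl⟩ ⟨hk, rfl⟩).2.symm

theorem rk8 (s : V → V → V → V → V → V → V → V → V) [Tm RK fun _ (v : ℕ → V) => s (v 0) (v 1) (v 2) (v 3) (v 4) (v 5) (v 6) (v 7)] {a b c e f g i k : V}
    (ha : rank a < l) (hb : rank b < l) (hc : rank c < l) (he : rank e < l) (hf : rank f < l) (hg : rank g < l) (hi : rank i < l) (hk : rank k < l) :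
    rank (s a b c e f g i k) < l :=
  mem_vonNeumann.1 (MP_329f2d_lc.tm8 (K := RK) (t := fun _ => s) h.src (mem_vonNeumann.2 ha) (mem_vonNeumann.2 hb) (mem_vonNeumann.2 hc) (mem_vonNeumann.2 he) (mem_vonNeumann.2 hf) (mem_vonNeumann.2 hg) (mem_vonNeumann.2 hi) (mem_vonNeumann.2 hk))

theorem tm0 (s : V) [hs : Tm RK fun _ (v : ℕ → V) => s] : j s = s :=
  h.tm (fun _ (v : ℕ → V) => s) (v := fun _ => d.toZFSet) fun _ => by simpa using h.lt

theorem mem_iff {x y : V} (hx : rank x < l) (hy : rank y < l) : j x ∈ j y ↔ x ∈ y :=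
  (h.iff2 (· ∈ ·) hx hy).symm

theorem inj {x y : V} (hx : rank x < l) (hy : rank y < l) : j x = j y ↔ x = y :=
  (h.iff2 (· = ·) hx hy).symm

theorem mem {x y : V} (hxy : x ∈ y) (hy : rank y < l) : j x ∈ j y :=
  (h.mem_iff ((rank_lt_of_mem hxy).trans hy) hy).2 hxy

theorem pair {x y : V} (hx : rank x < l) (hy : rank y < l) : j (pair x y) = pair (j x) (j y) :=
  h.tm2 ZFSet.pair hx hy

theorem rank_eq {x : V} (hx : rank x < l) : rank (j x) = jo j (rank x) := by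
  rw [jo, h.tm1 (fun x => (rank x).toZFSet) hx, Ordinal.rank_toZFSet]

theorem ord {a : Ordinal.{0}} (ha : a < l) : j a.toZFSet = (jo j a).toZFSet :=
  ((h.iff1 IsOrdinal (by simpa using ha)).1 (isOrdinal_toZFSet a)).toZFSet_rank_eq.symm

theorem jo_lt {a : Ordinal.{0}} (ha : a < l) : jo j a < t := h.rank_lt (by simpa using ha)

theorem jo_lt_iff {a b : Ordinal.{0}} (ha : a < l) (hb : b < l) : jo j a < jo j b ↔ a < b := by
  rw [← Ordinal.toZFSet_mem_toZFSet_iff, ← h.ord ha, ← h.ord hb,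
    h.mem_iff (by simpa using ha) (by simpa using hb), Ordinal.toZFSet_mem_toZFSet_iff]

theorem jo_le_iff {a b : Ordinal.{0}} (ha : a < l) (hb : b < l) : jo j a ≤ jo j b ↔ a ≤ b := by
  rw [← not_lt, h.jo_lt_iff hb ha, not_lt]

theorem jo_fix {a : Ordinal.{0}} (ha : a < d) : jo j a = a := by
  rw [jo, h.fixo a ha, Ordinal.rank_toZFSet]

theorem lt_jo : l < jo j d := h.big

theorem jo_lt_t : jo j d < t := h.jo_lt h.lt

theorem le_jo {a : Ordinal.{0}} (ha : a < l) : a ≤ jo j a := by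
  rcases lt_or_ge a d with h1 | h1
  · exact (h.jo_fix h1).ge
  · exact (ha.trans h.big).le.trans ((h.jo_le_iff h.lt ha).2 h1)

theorem vonNeumann_eq {a : Ordinal.{0}} (ha : a < l) : j (vonNeumann a) = vonNeumann (jo j a) := by
  have := h.tm1 (fun x => vonNeumann (rank x)) (a := a.toZFSet) (by simpa using ha)
  rwa [Ordinal.rank_toZFSet] at this

/-- Sets of rank below the critical point are fixed. -/
theorem fix {x : V} : rank x < d → j x = x := by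
  induction x using (InvImage.wf rank Ordinal.lt_wf).induction with
  | _ x ih =>
    intro hx
    have h1 := hx.trans h.lt
    ext z
    constructor
    · intro hz
      have h2 := rank_lt_of_mem hz
      rw [h.rank_eq h1, h.jo_fix hx] at h2
      rwa [← ih z h2 (h2.trans hx), h.mem_iff (h2.trans h1) h1] at hz
    · intro hz
      have h2 := rank_lt_of_mem hz
      rw [← ih z h2 (h2.trans hx)]
      exact h.mem hz h1

theorem rank_lt_of_fix {x : V} (hx : rank x < l) (e : j x = x) : rank x < d := by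
  by_contra h1
  have h2 := (h.jo_le_iff h.lt hx).2 (not_lt.1 h1)
  rw [← h.rank_eq hx, e] at h2
  exact (hx.trans h.big).not_ge h2

/-- Below the critical point, `j y` and `y` have the same members. -/
theorem mem_low {x y : V} (hx : rank x < d) (hy : rank y < l) : x ∈ j y ↔ x ∈ y := by
  rw [← h.mem_iff (hx.trans h.lt) hy, h.fix hx]

theorem lam : Lam d := by
  have hl := h.src.lim
  have h0 : ∀ s : V, s ⊆ d.toZFSet → j s = s → rank s < d := fun s hs e =>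
    h.rank_lt_of_fix ((rank_mono hs).trans_lt (by simpa using h.lt)) e
  have lim : IsSuccLimit d := Ordinal.isSuccLimit_iff.2 ⟨fun e => by
    have := h.rank_lt_of_fix (x := ∅) (by simpa using hl.bot_lt) (h.tm0 ∅)
    simp [e] at this, isSuccPrelimit_of_succ_lt fun a ha => by
      have h1 : rank a.toZFSet < d := by simpa using ha
      simpa using h.rank_lt_of_fix (x := {a.toZFSet}) (by simpa using hl.succ_lt (ha.trans h.lt))
        ((h.tm1 (fun x => {x}) (h1.trans h.lt)).trans (by rw [h.fix h1]))⟩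
  refine ⟨lim, fun a ha f hf => ?_⟩
  set g := graph (fun x => (f x).toZFSet) a
  have hg : rank g < l := by
    refine (rank_mono (y := prod a d.toZFSet) fun z hz => ?_).trans_lt
      (h.rk2 prod (ha.trans h.lt) (by simpa using h.lt))
    obtain ⟨x, hx, rfl⟩ := mem_graph.1 hz
    exact pair_mem_prod.2 ⟨hx, Ordinal.toZFSet_mem_toZFSet_iff.2 (hf x hx)⟩
  have e : ∀ x ∈ a, ap g x = (f x).toZFSet := fun x hx => ap_graph hx
  refine ⟨_, h0 (img (ap g) a) (fun z hz => ?_) ?_, fun x hx => ?_⟩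
  · obtain ⟨x, hx, rfl⟩ := mem_img.1 hz
    exact e x hx ▸ Ordinal.toZFSet_mem_toZFSet_iff.2 (hf x hx)
  · rw [h.tm2 (fun g a => img (ap g) a) hg (ha.trans h.lt), h.fix ha]
    refine img_congr fun x hx => ?_
    have h1 := (rank_lt_of_mem hx).trans ha
    rw [← h.fix h1, ← h.tm2 ap hg (h1.trans h.lt), h.fix h1, e x hx, h.fixo _ (hf x hx)]
  · simpa using rank_lt_of_mem (mem_img.2 ⟨x, hx, e x hx⟩)

theorem lam_iff {a : Ordinal.{0}} (ha : a < l) : Lam (jo j a) ↔ Lam a := by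
  have := h.iff1 (fun x => Lam (rank x)) (a := a.toZFSet) (by simpa using ha)
  rw [Ordinal.rank_toZFSet] at this
  exact this.symm

theorem lam_jo : Lam (jo j d) := (h.lam_iff h.lt).2 h.lam

theorem omega_lt : Ordinal.omega0 < d := by
  have := h.rank_lt_of_fix (mem_vonNeumann.1 h.src.1.omega) (h.tm0 omega)
  rwa [rank_omega] at this

end Lift

end Pool.Agent.Lib.MP_095a31_lc
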