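import Pool.Agent.Lib.MP_095a31_lc.Stmt
import Pool.Agent.Lib.MP_095a31_lc.H87Lift

/-! Embeddings between models from an extendible cardinal of the universe. -/

namespace Pool.Agent.Lib.MP_095a31_lc

open ZFSet Pool.Agent.Lib.MP_329f2d_lc

theorem Extendible.lift {d : V} (h : Extendible Set.univ d) (α : Ordinal.{0}) :
    ∃ l t j, α < l ∧ Lift (rank d) l t j := by
  refine exists_lift h.2.1 (fun l hl => ?_) α
  obtain ⟨t, -, -, M, -, N, -, j, -, h1, h2, h3, h4⟩ :=
    h.2.2 _ trivial (isOrdinal_toZFSet l) hl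
  obtain rfl : M = vonNeumann l := ZFSet.ext fun x => by simpa [mem_vonNeumann] using h1 x
  obtain rfl : N = vonNeumann (rank t) := ZFSet.ext fun x => by simpa [mem_vonNeumann] using h2 x
  exact ⟨_, j, h3.emb, h4⟩

end Pool.Agent.Lib.MP_095a31_lc
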