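import Pool.Agent.Lib.MP_095a31_lc.H91Nm

/-! The unfolding equation of `Fo`, generated once for all later files. -/

namespace Pool.Agent.Lib.MP_095a31_lc

theorem fo_unfold_once : True := (fun _ => trivial) @Fo.eq_def

end Pool.Agent.Lib.MP_095a31_lc
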