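import Pool.Agent.Lib.MP_095a31_lc.H7Col

/-!
All extendible cardinals of a countable elementary submodel at once.
-/

open ZFSet Order

namespace Pool.Agent.Lib.MP_095a31_lc

open MP_329f2d_lc

/-- The tasks for all extendible cardinals and for the elementary submodel. -/
structure Chain.GenAll (Ch : Chain) (x₀ : V) : Prop where
  base : Ch.Meets fun _ _ y => y = ck x₀
  lift₁ : Ch.Meets fun c l y => ∃ δ μ μ' δ' J, env l 0 = cko δ ∧ env l 1 = cko μ ∧ y = cko μ' ∧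
    J ∈ NM ∧ Ty c J ∧ μ < δ' ∧ LiftAt δ μ μ' δ' c J
  lift₂ : Ch.Meets fun c l y => ∃ δ μ μ' δ', env l 0 = cko δ ∧ env l 1 = cko μ ∧
    env l 2 = cko μ' ∧ μ < δ' ∧ LiftAt δ μ μ' δ' c y
  tot : Ch.Meets fun c l y => Ac (env l 0) y ∧ ∃ b ∈ NM, Ty c b ∧ IsOp c y (env l 1) b
  fam : Ch.Meets fun c l y => ∃ δ, env l 0 = cko δ ∧ FamAt δ c y
  emp : Ch.Meets fun c l y => ∃ δ, env l 0 = cko δ ∧
    ∃ α < δ, y = cko α ∧ ∀ k w, ¬ El c (lv δ α) k w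
  suc : Ch.Meets fun _ l y => ∃ β, env l 0 = cko β ∧ y = cko (β + 1)
  elt : Ch.Meets fun _ l y => Ac (env l 0) y
  sk : ∀ φ, Ch.Meets fun _ l y => ∃ (v : ℕ → V) (z : V), (∀ n, env l n = ck (v n)) ∧ y = ck z ∧
    Sat Set.univ ∅ φ (cons z v)

theorem exists_all (x₀ : V) : ∃ Ch : Chain, Ch.GenZF ∧ Ch.GenAll x₀ := by
  have : Countable Fml := H85.code_inj.countable
  obtain ⟨Ch, h1, h2⟩ := exists_chain₂ (ι := Fml) (κ := ℕ) (fun φ =>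
    [fun c l _ => Fo AA NM φ c (env l),
     fun c l y => y ∈ NM ∧ Fo AA NM φ c (cons y (env l)),
     fun c l _ => ∃ γ, env l 0 = cko γ ∧ Fo AA (AN γ) φ c (env l.tail),
     fun c l y => ∃ γ, env l 0 = cko γ ∧ y ∈ AN γ ∧ Fo AA (AN γ) φ c (cons y (env l.tail)),
     fun c l y => ∃ γ, env l 0 = cko γ ∧ y ∈ AN γ ∧ Fo AA NM φ c (cons y (env l.tail)),
     fun c l y => ∃ β, env l 0 = cko β ∧ y ∈ AN (β + 1) ∧ SepAt NM φ β c (env l.tail) y,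
     fun c l y => ∃ β γ, env l 0 = cko β ∧ y = cko γ ∧ ColAt φ β γ c (env l.tail),
     fun _ l y => ∃ (v : ℕ → V) (z : V), (∀ n, env l n = ck (v n)) ∧ y = ck z ∧
      Sat Set.univ ∅ φ (cons z v)])
    fun n =>
    [fun c l y => Ac (env l 1) y ∧ Eqf AA c (env l 0) y,
     fun c l y => Ac (env l 1) y ∧ Eqf AA c y (env l 0),
     fun c l y => (Ac (env l 0) y ∧ ∀ g, Arr g → src g = c → ∀ z, Ac (push g (env l 1)) z →
        ¬ Eqf AA (tgt g) (push g y) z) ∨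
      (Ac (env l 1) y ∧ ∀ g, Arr g → src g = c → ∀ z, Ac (push g (env l 0)) z →
        ¬ Eqf AA (tgt g) z (push g y)),
     fun c l y => ∃ w, IsUp c (env l 0) y w,
     fun c l y => IsUp c (env l 0) (env l 1) y,
     fun _ _ y => y = cko n,
     fun _ _ y => y = cko Ordinal.omega0,
     fun _ l y => ∃ α, y = cko α ∧ env l 0 ∈ AN α,
     fun _ l y => ∃ α β, env l 1 = cko α ∧ y = cko β ∧ β < α ∧ env l 0 ∈ AN (β + 1),
     fun c l y => ∃ α, env l 0 = cko α ∧ y = vN α c,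
     fun _ _ y => y = ck x₀,
     fun c l y => ∃ δ μ μ' δ' J, env l 0 = cko δ ∧ env l 1 = cko μ ∧ y = cko μ' ∧ J ∈ NM ∧
      Ty c J ∧ μ < δ' ∧ LiftAt δ μ μ' δ' c J,
     fun c l y => ∃ δ μ μ' δ', env l 0 = cko δ ∧ env l 1 = cko μ ∧ env l 2 = cko μ' ∧ μ < δ' ∧
      LiftAt δ μ μ' δ' c y,
     fun c l y => Ac (env l 0) y ∧ ∃ b ∈ NM, Ty c b ∧ IsOp c y (env l 1) b,
     fun c l y => ∃ δ, env l 0 = cko δ ∧ FamAt δ c y,
     fun c l y => ∃ δ, env l 0 = cko δ ∧ ∃ α < δ, y = cko α ∧ ∀ k w, ¬ El c (lv δ α) k w,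
     fun _ l y => ∃ β, env l 0 = cko β ∧ y = cko (β + 1),
     fun _ l y => Ac (env l 0) y]
  simp only [List.mem_cons, List.not_mem_nil, or_false, forall_eq_or_imp, forall_eq] at h1 h2
  obtain ⟨a1, a2, a3, a4, a5, -, a7, a8, a9, a10, a11, a12, a13, a14, a15, a16, a17, a18⟩ := h2 0
  exact ⟨Ch, ⟨⟨a1, a2, a3⟩, ⟨a4, a5⟩, ⟨fun _ _ => push_mem_NM, subset_rfl, fun φ => (h1 φ).1,
    fun φ => (h1 φ).2.1⟩, fun φ => (h1 φ).2.2.1, fun φ => (h1 φ).2.2.2.1,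
    fun φ => (h1 φ).2.2.2.2.1, fun n => (h2 n).2.2.2.2.2.1, a7, a8, a9, a10,
    fun φ => (h1 φ).2.2.2.2.2.1, fun φ => (h1 φ).2.2.2.2.2.2.1⟩,
    ⟨a11, a12, a13, a14, a15, a16, a17, a18, fun φ => (h1 φ).2.2.2.2.2.2.2⟩⟩

namespace Chain

variable {Ch : Chain} {x₀ x y z : V} {δ : O}

theorem GenAll.ext (A : Ch.GenAll x₀) (h : Ch.Ord δ) : Ch.GenExt δ where
  crit i _ _ := (h.mem i).imp fun _ H => ⟨H.1, .inl ⟨_, H.2, rfl⟩⟩
  lift₁ := (A.lift₁.ord h).congr fun c l y => by simp [cko_inj, cons]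
  lift₂ := (A.lift₂.ord h).congr fun c l y => by simp [cko_inj, cons]
  tot := A.tot

theorem GenAll.fam' (A : Ch.GenAll x₀) (h : Ch.Ord δ) : Ch.GenFam δ where
  fam := (A.fam.ord h).congr fun c l y => by simp [cko_inj, cons]
  emp := (A.emp.ord h).congr fun c l y => by simp [cko_inj, cons]
  suc := A.suc
  elt := A.elt

/-- The sets whose check names occur in the chain. -/
def Hul (Ch : Chain) (x : V) : Prop := ∃ i, ck x ∈ Ch.X i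

/-- The value of a check name. -/
noncomputable def cv (Ch : Chain) (x : V) : V := Ch.val 0 (ck x)

theorem Hul.cv_mem (h : Ch.Hul x) : Ch.cv x ∈ Ch.N := by
  obtain ⟨k, h⟩ := h
  rw [cv, val_ck 0 k]
  exact val_mem h

theorem mem_cv : z ∈ Ch.cv x ↔ ∃ y ∈ x, Ch.Hul y ∧ Ch.cv y = z := by
  rw [cv, mem_val]
  constructor
  · rintro ⟨j, y, -, h1, h2, rfl⟩
    rw [push_ck] at h2
    obtain ⟨w, hw, rfl⟩ := ac_ck.1 h2
    exact ⟨w, hw, ⟨j, h1⟩, val_ck 0 j w⟩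
  · rintro ⟨y, hy, ⟨j, h1⟩, rfl⟩
    refine ⟨j, ck y, j.zero_le, h1, ?_, val_ck j 0 y⟩
    rw [push_ck]
    exact ac_ck.2 ⟨_, hy, rfl⟩

theorem hul_stage {v : ℕ → V} (hv : ∀ n, Ch.Hul (v n)) (m : ℕ) :
    ∃ i, ∀ n < m, ck (v n) ∈ Ch.X i := by
  induction m with
  | zero => exact ⟨0, by simp⟩
  | succ m ih =>
    obtain ⟨i, hi⟩ := ih
    obtain ⟨j, hj⟩ := hv m
    refine ⟨max i j, fun n hn => ?_⟩
    rcases (Nat.lt_succ_iff.1 hn).eq_or_lt with rfl | hn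
    · simpa using Ch.push (le_max_right i j) hj
    · simpa using Ch.push (le_max_left i j) (hi n hn)

theorem GenAll.wit (A : Ch.GenAll x₀) (φ : Fml) {v : ℕ → V} (hv : ∀ n, Ch.Hul (v n))
    (H : Sat Set.univ ∅ φ (cons z v)) : ∃ z, Ch.Hul z ∧ Sat Set.univ ∅ φ (cons z v) := by
  obtain ⟨m, hm⟩ := H85.sat_congr Set.univ ∅ φ
  obtain ⟨i, hi⟩ := hul_stage hv m
  have e : ∀ f n, env (((List.range m).map fun n => ck (v n)).map (MP_095a31_lc.push f)) n =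
      ck (if n < m then v n else ∅) := fun f n => by
    rw [env_map, pushv]
    split_ifs with h
    · rw [env_range (fun n => ck (v n)) h, push_ck]
    · simp [env, List.getD, h]
  have c : ∀ z, Sat Set.univ ∅ φ (cons z v) ↔
      Sat Set.univ ∅ φ (cons z fun n => if n < m then v n else ∅) := fun z => hm _ _ (by
    rintro (_ | n) hn
    · rfl
    · exact (if_pos (by omega)).symm)
  obtain ⟨j, -, y, hy, w, z', w1, rfl, w2⟩ := (A.sk φ).here (i := i)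
    (l := (List.range m).map fun n => ck (v n)) (fun x hx => by
      obtain ⟨n, hn, rfl⟩ := List.mem_map.1 hx
      exact hi n (List.mem_range.1 hn))
    fun n _ _ => ⟨ck z, ck_mem_NM, ty_ck, _, z, e n, rfl, (c z).1 H⟩
  obtain rfl : w = fun n => if n < m then v n else ∅ :=
    funext fun n => ck_inj.1 ((w1 n).symm.trans (e _ n))
  exact ⟨z', ⟨j, hy⟩, (c z').2 w2⟩

theorem GenAll.cv_inj (A : Ch.GenAll x₀) (hx : Ch.Hul x) (hy : Ch.Hul y)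
    (e : Ch.cv x = Ch.cv y) : x = y := by
  induction x using mem_wf.induction generalizing y with
  | _ x ih =>
  have w : ∀ a b z, Ch.Hul a → Ch.Hul b → z ∈ a → z ∉ b → ∃ z, Ch.Hul z ∧ z ∈ a ∧ z ∉ b :=
    fun a b z ha hb h1 h2 => A.wit (.and (.mem 0 1) (.neg (.mem 0 2))) (z := z)
      (v := cons a fun _ => b) (cons_mem (W := {x | Ch.Hul x}) ha fun _ => hb) ⟨h1, h2⟩
  ext z
  refine ⟨fun h => by_contra fun h' => ?_, fun h => by_contra fun h' => ?_⟩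
  · obtain ⟨z, z1, z2, z3⟩ := w x y z hx hy h h'
    obtain ⟨u, u1, u2, u3⟩ := mem_cv.1 (e ▸ mem_cv.2 ⟨z, z2, z1, rfl⟩ : Ch.cv z ∈ Ch.cv y)
    exact z3 (ih z z2 z1 u2 u3.symm ▸ u1)
  · obtain ⟨z, z1, z2, z3⟩ := w y x z hy hx h h'
    obtain ⟨u, u1, u2, u3⟩ := mem_cv.1 (e ▸ mem_cv.2 ⟨z, z2, z1, rfl⟩ : Ch.cv z ∈ Ch.cv x)
    exact z3 (ih u u1 u2 z1 u3 ▸ u1)

theorem GenAll.elem (A : Ch.GenAll x₀) {W : Set V} (hW : ∀ z, z ∈ W ↔ ∃ x, Ch.Hul x ∧ Ch.cv x = z)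
    (φ : Fml) : ∀ v : ℕ → V, (∀ n, Ch.Hul (v n)) →
      (Sat W ∅ φ (fun n => Ch.cv (v n)) ↔ Sat Set.univ ∅ φ v) := by
  have e : ∀ (a : V) (v : ℕ → V),
      cons (Ch.cv a) (fun n => Ch.cv (v n)) = fun n => Ch.cv (cons a v n) :=
    fun a v => funext fun n => by cases n <;> rfl
  induction φ with
  | mem i j =>
    refine fun v hv => ⟨fun h => ?_, fun h => mem_cv.2 ⟨_, h, hv i, rfl⟩⟩
    obtain ⟨u, u1, u2, u3⟩ := mem_cv.1 h
    exact (A.cv_inj u2 (hv i) u3 ▸ u1 : v i ∈ v j)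
  | eq i j => exact fun v hv => ⟨A.cv_inj (hv i) (hv j), congrArg Ch.cv⟩
  | pred i => exact fun v _ => Iff.rfl
  | neg φ ih => exact fun v hv => not_congr (ih v hv)
  | and φ ψ ih ih' => exact fun v hv => and_congr (ih v hv) (ih' v hv)
  | ex φ ih =>
    refine fun v hv => ⟨fun ⟨x, hx, h⟩ => ?_, fun ⟨z, _, h⟩ => ?_⟩
    · obtain ⟨a, ha, rfl⟩ := (hW x).1 hx
      rw [e] at h
      exact ⟨a, trivial, (ih _ (cons_mem (W := {x | Ch.Hul x}) ha hv)).1 h⟩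
    · obtain ⟨a, ha, h⟩ := A.wit φ hv h
      refine ⟨_, (hW _).2 ⟨a, ha, rfl⟩, ?_⟩
      rw [e]
      exact (ih _ (cons_mem (W := {x | Ch.Hul x}) ha hv)).2 h

end Chain

theorem Extendible.card {N : Set V} {d : V} (h2 : ZFull N) (h3 : Extendible N d) : Card N d := by
  refine card_of_crit h2.1 h3.1 h3.2.1 fun l hl ho hd => ?_
  obtain ⟨t, -, -, A, -, B, -, j, -, a1, a2, a3, a4⟩ := h3.2.2 l hl ho hd
  exact ⟨A, B, _, fun x hx y hy => (a2 y).2 ⟨h2.1.trans x ((a2 x).1 hx).1 y hy,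
    (ZFSet.rank_lt_of_mem hy).trans ((a2 x).1 hx).2⟩, a1, a3.emb, a4⟩

theorem main_all (x₀ : V) : ∃ (W N : V) (π : V → V), (N : Set V).Countable ∧ ZFull N ∧
    IsTransitive W ∧ W ⊆ N ∧ (∀ a ∈ N, IsOrdinal a → a ∈ W) ∧
    (∀ (φ : Fml) (v : ℕ → V), (∀ i, v i ∈ W) →
      (Sat W ∅ φ v ↔ Sat Set.univ ∅ φ fun i => π (v i))) ∧
    (∃ x ∈ W, π x = x₀) ∧
    ∀ d ∈ W, Extendible Set.univ (π d) → Card N d ∧ Extendible N d ∧
      ∃ P ∈ N, IsCol N d P ∧ Po P ∧ (∃ G, Generic N P G) ∧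
        ∀ G, Generic N P G → ¬ CC (Ext N G) := by
  obtain ⟨Ch, G, A⟩ := exists_all x₀
  have hz := G.zfull
  obtain ⟨W, hW⟩ : ∃ W : V, ∀ z, z ∈ W ↔ ∃ x, Ch.Hul x ∧ Ch.cv x = z :=
    ⟨ZFSet.sep (fun z => ∃ x, Ch.Hul x ∧ Ch.cv x = z) Ch.N, fun z =>
      mem_sep.trans (and_iff_right_of_imp fun ⟨_, h, e⟩ => e ▸ h.cv_mem)⟩
  choose! π p1 p2 using fun z hz => (hW z).1 hz
  refine ⟨W, Ch.N, π, Chain.N_countable, hz, fun z hz y hy => ?_, fun z hz => ?_,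
    fun a ha ho => ?_, fun φ v hv => ?_, ?_, fun d hd h => ?_⟩
  · rw [← p2 z hz] at hy
    obtain ⟨u, -, hu⟩ := Chain.mem_cv.1 hy
    exact (hW y).2 ⟨u, hu⟩
  · exact p2 z hz ▸ (p1 z hz).cv_mem
  · obtain ⟨α, h1, rfl⟩ := G.ord_eq ha ho
    exact (hW _).2 ⟨α.toZFSet, h1, rfl⟩
  · rw [← A.elem hW φ _ fun n => p1 _ (hv n)]
    simp only [fun n => p2 _ (hv n)]
  · obtain ⟨j, -, y, h1, rfl⟩ := A.base.here (i := 0) (l := []) (by simp) fun n _ _ =>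
      ⟨_, ck_mem_NM, ty_ck, rfl⟩
    have h2 := (hW _).2 ⟨x₀, ⟨j, h1⟩, rfl⟩
    exact ⟨_, h2, A.cv_inj (p1 _ h2) ⟨j, h1⟩ (p2 _ h2)⟩
  have ho : Ch.Ord (rank (π d)) := by
    rw [Chain.Ord, cko, h.2.1.toZFSet_rank_eq]
    exact p1 d hd
  have ed : d = Ch.o (rank (π d)) := by
    rw [Chain.o, cko, h.2.1.toZFSet_rank_eq]
    exact (p2 d hd).symm
  generalize π d = d₀ at h ho ed
  subst ed
  have E := A.ext ho
  have he : Extendible Ch.N (Ch.o (rank d₀)) := Chain.extendible G E fun μ c hμ hc => by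
    obtain ⟨l, t, j, h1, h2⟩ := h.lift μ
    obtain ⟨f, N, h3⟩ := (h2.jn hμ h1).lift hc
    exact ⟨f, _, _, N, h3.1, h3.2.1, h3.2.2.1, h3.2.2.2.1, h1.trans h2.lt_jo, h3.2.2.2.2⟩
  obtain ⟨l, t, j, -, h2⟩ := h.lift 0
  obtain ⟨P, p1, p2, p3⟩ : ∃ P ∈ Ch.N, IsCol Ch.N (Ch.o (rank d₀)) P ∧ Po P := by
    obtain ⟨D, d1, -, d2⟩ := G.exists_lev ho
    exact exists_col hz.1 d1 d2 hz.2
  exact ⟨he.card hz, he, P, p1, p2, p3, exists_generic' Chain.N_countable p3,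
    fun _ hG => (chain_wildC G E (A.fam' ho) h2.lam).not_cc hz.1 he.1 p1 p2 p3 hG⟩

end Pool.Agent.Lib.MP_095a31_lc
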