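import Pool.Agent.Lib.MP_095a31_lc.H91Laws

/-!
The master object.
-/

open ZFSet Order

namespace Pool.Agent.Lib.MP_095a31_lc

open MP_329f2d_lc

/-- What the construction of the master object needs from the embedding. -/
structure Jd (δ a κ θ : O) (J : V → V) : Prop where
  lam : Lam δ
  lamκ : Lam κ
  le₁ : δ ≤ a
  lt₂ : a < κ
  le₃ : κ ≤ θ
  small : rank (M a) < κ
  mem : ∀ k ∈ M a, J k ∈ M θ
  src : ∀ k ∈ M a, src (J k) = J (src k)
  tgt : ∀ k ∈ M a, tgt (J k) = J (tgt k)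
  cmp : ∀ k ∈ M a, ∀ l ∈ M a, MP_095a31_lc.src l = MP_095a31_lc.tgt k →
    J (cmp l k) = cmp (J l) (J k)
  idA : ∀ c, Ob c → res a c = c → J (idA c) = idA (J c)
  up : ∀ k ∈ M a, resA κ (J k) = J (resA δ k)
  low : ∀ k ∈ M a, resA δ (J k) = resA δ k
  east : ∀ c, Ob c → res a c = c → ∀ ζ, δ ≤ ζ → ζ < κ → IsSuccLimit ζ →
    ∀ k y, ¬ El (J c) ζ k y

theorem exists_rec {α : Type 1} [Inhabited α] (step : O → (O → α) → α)
    (hs : ∀ h F G, (∀ z < h, F z = G z) → step h F = step h G) :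
    ∃ R : O → α, ∀ h, R h = step h R := by
  classical
  let R : O → α := Ordinal.lt_wf.fix fun h ih =>
    step h fun z => if H : z < h then ih z H else default
  refine ⟨R, fun h => ?_⟩
  rw [show R h = step h fun z => if z < h then R z else default from Ordinal.lt_wf.fix_eq _ h]
  exact hs _ _ _ fun z hz => if_pos hz

/-- The facts of level `z` of the master object. -/
def MF (δ a : O) (J : V → V) (z : O) (m : V) (H : V → V) (u : V) : Prop :=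
  δ ≤ z ∧ ∃ k ∈ M z, src k = m ∧
    ((∃ y, u = tp z 0 k k y y ∧ El (J (res a (tgt k))) z (H k) y) ∨
    (∃ l y y', u = tp z 1 k l y y' ∧ l ∈ M z ∧ src l = tgt k ∧
      ∃ w, Trn (J (res a (tgt k))) z (H k) l y w ∧ Ap (J (resA a l)) z (H (cmp l k)) w y') ∨
    ∃ y q, u = tp z 2 k k y q ∧ Bit (J (res a (tgt k))) z (H k) y q)

/-- The components of level `z` of the arrows out of the images. -/
def HF (δ a : O) (J : V → V) (z : O) (H : V → V) (k l y y' : V) : Prop :=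
  z < δ ∧ y = y' ∧ El (tgt k) z l y ∨
    δ ≤ z ∧ ∃ w, Ap (J (resA a l)) z (H (cmp l (resA z k))) y w ∧ Ap k z l w y'

/-- The recursion that defines the master object. -/
structure Tw (δ a : O) (J : V → V) (m : O → V) (H : O → V → V) : Prop where
  mem : ∀ h u, u ∈ m h ↔ ∃ z < h, MF δ a J z (m z) (H z) u
  shp : ∀ h k, H h k = ar (res h (J (res a (tgt k)))) (tgt k) (bod (H h k))
  bod : ∀ h k u, u ∈ bod (H h k) ↔
    ∃ z < h, ∃ l y y', u = tp z 3 l l y y' ∧ HF δ a J z (H z) k l y y'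

theorem mem_tc_of_mem {x y z : V} (h : x ∈ tc y) (h' : y ∈ tc z) : x ∈ tc z :=
  tc_subset (tc_trans z) (tc_trans z y h') h

theorem bod_tc {f x : V} (h : x ∈ bod f) : x ∈ tc f := by
  obtain ⟨y, y1, y2⟩ := mem_sUnion.1 h
  obtain ⟨z, z1, z2⟩ := mem_sUnion.1 (mem_sep.1 y1).1
  obtain ⟨u, u1, u2⟩ := mem_sUnion.1 z1
  obtain ⟨w, w1, w2⟩ := mem_sUnion.1 (mem_sep.1 u1).1
  have t := tc_trans f
  exact t _ (t _ (t _ (t _ (subset_tc f w1) w2) u2) z2) y2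

theorem tgt_tc {f x : V} (h : x ∈ tgt f) : x ∈ tc f := by
  obtain ⟨y, y1, y2⟩ := mem_sUnion.1 h
  obtain ⟨z, z1, z2⟩ := mem_sUnion.1 (mem_sep.1 y1).1
  obtain ⟨u, u1, u2⟩ := mem_sUnion.1 z1
  obtain ⟨w, w1, w2⟩ := mem_sUnion.1 (mem_sep.1 u1).1
  have t := tc_trans f
  exact t _ (t _ (t _ (t _ (subset_tc f w1) w2) u2) z2) y2

theorem exists_tw (δ a : O) (J : V → V) : ∃ m H, Tw δ a J m H := by
  let X : V → V := fun s => tc (s ∪ (img (fun l => J (resA a l)) s ∪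
    img (fun l => J (res a (tgt l))) s))
  have x0 : ∀ {s x}, x ∈ s → x ∈ X s := fun h => subset_tc _ (mem_union.2 (.inl h))
  have x1 : ∀ {s l x}, l ∈ s → x ∈ tc (J (resA a l)) → x ∈ X s := fun h h' => mem_tc_of_mem h'
    (subset_tc _ (mem_union.2 (.inr (mem_union.2 (.inl (mem_img.2 ⟨_, h, rfl⟩))))))
  have x2 : ∀ {s l x}, l ∈ s → x ∈ tc (J (res a (tgt l))) → x ∈ X s := fun h h' => mem_tc_of_mem h'
    (subset_tc _ (mem_union.2 (.inr (mem_union.2 (.inr (mem_img.2 ⟨_, h, rfl⟩))))))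
  obtain ⟨R, hR⟩ := exists_rec (α := V × (V → V)) (fun h F =>
    (ZFSet.sep (fun u => ∃ z < h, MF δ a J z (F z).1 (F z).2 u) (Tb (X (M h))), fun k =>
      ar (res h (J (res a (tgt k)))) (tgt k) (ZFSet.sep (fun u => ∃ z < h, ∃ l y y',
        u = tp z 3 l l y y' ∧ HF δ a J z (F z).2 k l y y') (Tb (X (tc k))))))
    fun h F G e => by
      refine Prod.ext ?_ (funext fun k => ?_) <;> dsimp only
      · congr 1
        funext u
        exact propext (exists_congr fun z => and_congr_right fun hz => by rw [e z hz])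
      · congr 2
        funext u
        exact propext (exists_congr fun z => and_congr_right fun hz => by rw [e z hz])
  refine ⟨fun h => (R h).1, fun h => (R h).2, fun h u => ?_, fun h k => ?_, fun h k u => ?_⟩
  · conv_lhs => rw [hR h]
    dsimp only
    refine mem_sep.trans (and_iff_right_of_imp ?_)
    rintro ⟨z, hz, -, k, k1, -, ⟨y, rfl, H⟩ | ⟨l, y, y', rfl, l1, -, w, H, H'⟩ | ⟨y, q, rfl, H⟩⟩
    all_goals
      have k2 := M_mono hz.le k1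
      have t := mem_tc_of_tp (subset_tc _ H)
    · exact tp_mem_Tb (x2 k2 t.1) (x0 k2) (x0 k2) (x2 k2 t.2.2.2.1) (x2 k2 t.2.2.2.1)
    · exact tp_mem_Tb (x2 k2 t.1) (x0 k2) (x0 (M_mono hz.le l1)) (x2 k2 t.2.2.2.1)
        (x1 (M_mono hz.le l1) (mem_tc_of_tp (bod_tc H')).2.2.2.2)
    · exact tp_mem_Tb (x2 k2 t.1) (x0 k2) (x0 k2) (x2 k2 t.2.2.2.1) (x2 k2 t.2.2.2.2)
  · rw [hR h]
    simp
  · conv_lhs => rw [hR h]
    simp only [bod_ar]
    refine mem_sep.trans (and_iff_right_of_imp ?_)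
    rintro ⟨z, hz, l, y, y', rfl, ⟨-, rfl, H⟩ | ⟨-, w, H, H'⟩⟩
    · have t := mem_tc_of_tp (tgt_tc H)
      exact tp_mem_Tb (x0 t.1) (x0 t.2.1) (x0 t.2.1) (x0 t.2.2.2.1) (x0 t.2.2.2.1)
    · have t := mem_tc_of_tp (bod_tc H')
      exact tp_mem_Tb (x0 t.1) (x0 t.2.1) (x0 t.2.1) (x1 t.2.1 (mem_tc_of_tp (bod_tc H)).2.2.2.1)
        (x0 t.2.2.2.2)

theorem ArLev.of_res {S f g : V} {η : O} (H : ArLev S η g)
    (e : resA (η + 1) f = resA (η + 1) g) : ArLev S η f := by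
  have h0 : η < η + 1 := lt_add_one η
  have e0 : resA η f = resA η g := by rw [← resA_resA_le h0.le, e, resA_resA_le h0.le]
  have e1 : res η (tgt f) = res η (tgt g) := by rw [← tgt_resA, e0, tgt_resA]
  have s : ∀ t k l y z, tp η t k l y z ∈ src f ↔ tp η t k l y z ∈ src g := fun t k l y z => by
    simpa [h0] using congrArg (fun x => tp η t k l y z ∈ src x) e
  have t : ∀ t k l y z, tp η t k l y z ∈ tgt f ↔ tp η t k l y z ∈ tgt g := fun t k l y z => by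
    simpa [h0] using congrArg (fun x => tp η t k l y z ∈ tgt x) e
  have b : ∀ l y z, Ap f η l y z ↔ Ap g η l y z := fun l y z => by
    simpa [h0] using congrArg (fun x => Ap x η l y z) e
  obtain ⟨a1, a2, a3, a4, a5, a6, a7, a8⟩ := H
  constructor <;> simp only [e0, e1, b, El, Trn, Bit, s, t] <;> assumption

namespace Jd

variable {δ a κ θ z : O} {J : V → V} (h : Jd δ a κ θ J) {c k l : V}
include h

theorem memA (hl : Arr l) : J (resA a l) ∈ M θ := h.mem _ (hl.resA_mem a)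

theorem arr (hl : Arr l) : Arr (J (resA a l)) := arr_of_mem (h.memA hl)

theorem srcA (hl : Arr l) :
    MP_095a31_lc.src (J (resA a l)) = J (res a (MP_095a31_lc.src l)) := by
  rw [h.src _ (hl.resA_mem a), src_resA]

theorem tgtA (hl : Arr l) :
    MP_095a31_lc.tgt (J (resA a l)) = J (res a (MP_095a31_lc.tgt l)) := by
  rw [h.tgt _ (hl.resA_mem a), tgt_resA]

theorem ob (hc : Ob c) : Ob (J (res a c)) := by
  have := (h.arr hc.idA).src
  rwa [h.srcA hc.idA, src_idA] at this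

theorem cmpA (hl : Arr l) (hk : Arr k) (e : MP_095a31_lc.src l = MP_095a31_lc.tgt k) :
    J (resA a (MP_095a31_lc.cmp l k)) = MP_095a31_lc.cmp (J (resA a l)) (J (resA a k)) := by
  rw [resA_cmp, h.cmp _ (hk.resA_mem a) _ (hl.resA_mem a) (by simp [e])]

theorem idJ (hc : Ob c) : J (resA a (MP_095a31_lc.idA c)) = MP_095a31_lc.idA (J (res a c)) := by
  rw [resA_idA, h.idA _ (hc.res a) res_res_self]

theorem lowA (hl : Arr l) (hz : z ≤ δ) : resA z (J (resA a l)) = resA z l := by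
  rw [← resA_resA_le hz, h.low _ (hl.resA_mem a), resA_resA_le h.le₁, resA_resA_le hz]

theorem cutA (hl : Arr l) (hz : δ ≤ z) :
    resA (z + 1) (J (resA a (resA z l))) = resA (z + 1) (J (resA a l)) := by
  rcases le_or_gt a z with h1 | h1
  · rw [resA_resA_le h1]
  · have h2 : z + 1 ≤ κ := add_one_le_of_lt (h1.trans h.lt₂)
    rw [← resA_resA_le h2, h.up _ ((hl.resA z).resA_mem a), ← resA_resA_le h2 (k := J (resA a l)),
      h.up _ (hl.resA_mem a), resA_resA_le h.le₁, resA_resA_le h.le₁, resA_resA_le hz]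

theorem cutA' (hl : Arr l) (z : O) : resA z (J (resA a (resA z l))) = resA z (J (resA a l)) := by
  rcases le_total δ z with h1 | h1
  · rw [← resA_resA_le (lt_add_one z).le, h.cutA hl h1, resA_resA_le (lt_add_one z).le]
  · rw [h.lowA hl h1, h.lowA (hl.resA z) h1, resA_resA_self]

theorem lowO (hc : Ob c) (hz : z ≤ δ) : res z (J (res a c)) = res z c := by
  simpa [h.idJ hc] using congrArg MP_095a31_lc.src (h.lowA hc.idA hz)

theorem cutO (hc : Ob c) (hz : δ ≤ z) (t : ℕ) (k l y w : V) :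
    tp z t k l y w ∈ J (res a (res z c)) ↔ tp z t k l y w ∈ J (res a c) := by
  have := congrArg (fun x => tp z t k l y w ∈ MP_095a31_lc.src x) (h.cutA hc.idA hz)
  simpa [resA_idA (γ := z), h.idJ hc, h.idJ (hc.res z)] using this

theorem cutO' (hc : Ob c) (z : O) : res z (J (res a (res z c))) = res z (J (res a c)) := by
  simpa [resA_idA (γ := z), h.idJ hc, h.idJ (hc.res z)] using
    congrArg MP_095a31_lc.src (h.cutA' hc.idA z)

theorem cutAp (hl : Arr l) (hz : δ ≤ z) {k y w : V} :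
    Ap (J (resA a (resA z l))) z k y w ↔ Ap (J (resA a l)) z k y w := by
  simpa using congrArg (fun x => Ap x z k y w) (h.cutA hl hz)

theorem lowAp (hl : Arr l) (hz : z < δ) {k y w : V} : Ap (J (resA a l)) z k y w ↔ Ap l z k y w := by
  simpa [hz] using congrArg (fun x => Ap x z k y w) (h.lowA hl le_rfl)

theorem lt_of_el (hc : Ob c) (hz : δ ≤ z) {y : V} (H : El (J (res a c)) z k y) : δ < z :=
  hz.lt_of_ne fun e => h.east _ (hc.res a) res_res_self z hz (e ▸ h.le₁.trans_lt h.lt₂)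
    (e ▸ h.lam.1) k y H

end Jd

namespace Tw

variable {δ a κ θ h z : O} {J : V → V} {m : O → V} {H : O → V → V} (T : Tw δ a J m H)
  {k l y w q : V}
include T

theorem el : El (m h) z k y ↔
    z < h ∧ δ ≤ z ∧ k ∈ M z ∧ src k = m z ∧ El (J (res a (tgt k))) z (H z k) y := by
  rw [El, T.mem]
  constructor
  · rintro ⟨z', h1, h2, k', h3, h4, ⟨y', e, h5⟩ | ⟨_, _, _, e, -⟩ | ⟨_, _, e, -⟩⟩ <;>
      simp only [tp_inj] at e
    · obtain ⟨rfl, -, rfl, -, rfl, -⟩ := e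
      exact ⟨h1, h2, h3, h4, h5⟩
    all_goals omega
  · exact fun ⟨h1, h2, h3, h4, h5⟩ => ⟨z, h1, h2, k, h3, h4, .inl ⟨y, rfl, h5⟩⟩

theorem trn : Trn (m h) z k l y w ↔ z < h ∧ δ ≤ z ∧ k ∈ M z ∧ src k = m z ∧ l ∈ M z ∧
    src l = tgt k ∧ ∃ u, Trn (J (res a (tgt k))) z (H z k) l y u ∧
      Ap (J (resA a l)) z (H z (cmp l k)) u w := by
  rw [Trn, T.mem]
  constructor
  · rintro ⟨z', h1, h2, k', h3, h4, ⟨y', e, h5⟩ | ⟨_, _, _, e, h5⟩ | ⟨_, _, e, -⟩⟩ <;>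
      simp only [tp_inj] at e
    · omega
    · obtain ⟨rfl, -, rfl, rfl, rfl, rfl⟩ := e
      exact ⟨h1, h2, h3, h4, h5⟩
    · omega
  · exact fun ⟨h1, h2, h3, h4, h5⟩ => ⟨z, h1, h2, k, h3, h4, .inr (.inl ⟨l, y, w, rfl, h5⟩)⟩

theorem bit : Bit (m h) z k y q ↔
    z < h ∧ δ ≤ z ∧ k ∈ M z ∧ src k = m z ∧ Bit (J (res a (tgt k))) z (H z k) y q := by
  rw [Bit, T.mem]
  constructor
  · rintro ⟨z', h1, h2, k', h3, h4, ⟨y', e, h5⟩ | ⟨_, _, _, e, -⟩ | ⟨_, _, e, h5⟩⟩ <;>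
      simp only [tp_inj] at e
    · omega
    · omega
    · obtain ⟨rfl, -, rfl, -, rfl, rfl⟩ := e
      exact ⟨h1, h2, h3, h4, h5⟩
  · exact fun ⟨h1, h2, h3, h4, h5⟩ => ⟨z, h1, h2, k, h3, h4, .inr (.inr ⟨y, q, rfl, h5⟩)⟩

theorem ap : Ap (H h k) z l y w ↔ z < h ∧ HF δ a J z (H z) k l y w := by
  rw [Ap, T.bod]
  constructor
  · rintro ⟨z', h1, l', y', w', e, h2⟩
    obtain ⟨rfl, -, rfl, -, rfl, rfl⟩ := tp_inj.1 e
    exact ⟨h1, h2⟩
  · exact fun ⟨h1, h2⟩ => ⟨z, h1, l, y, w, rfl, h2⟩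

theorem ap_hi (hz : δ ≤ z) : Ap (H h k) z l y w ↔ z < h ∧
    ∃ u, Ap (J (resA a l)) z (H z (cmp l (resA z k))) y u ∧ Ap k z l u w := by
  simp [T.ap, HF, hz, hz.not_gt]

theorem ap_lo (hz : z < δ) : Ap (H h k) z l y w ↔ z < h ∧ y = w ∧ El (tgt k) z l y := by
  simp [T.ap, HF, hz, hz.not_ge]

theorem res_m (hz : z ≤ h) : res z (m h) = m z := by
  have e : ∀ {x u}, MF δ a J x (m x) (H x) u → rank (fst u) = x := by
    rintro x u ⟨-, k, -, -, ⟨y, rfl, -⟩ | ⟨_, _, _, rfl, -⟩ | ⟨_, _, rfl, -⟩⟩ <;> simp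
  ext u
  rw [mem_res, T.mem, T.mem]
  exact ⟨fun ⟨⟨x, _, h2⟩, h3⟩ => ⟨x, e h2 ▸ h3, h2⟩,
    fun ⟨x, h1, h2⟩ => ⟨⟨x, h1.trans_le hz, h2⟩, (e h2).symm ▸ h1⟩⟩

theorem src_H : src (H h k) = res h (J (res a (tgt k))) := by rw [T.shp, src_ar]

theorem tgt_H : tgt (H h k) = tgt k := by rw [T.shp, tgt_ar]

theorem shape : Shape (H h k) :=
  ⟨by rw [T.src_H, T.tgt_H]; exact T.shp h k, fun u hu => by
    obtain ⟨z, -, l, y, w, e, -⟩ := (T.bod _ _ _).1 hu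
    exact ⟨z, l, y, w, e⟩⟩

variable (D : Jd δ a κ θ J)
include D

theorem res_H (hk : Arr k) (hz : z ≤ h) : resA z (H h k) = H z (resA z k) := by
  refine T.shape.resA.ext T.shape ?_ (by simp [T.tgt_H]) fun η l y w => ?_
  · rw [src_resA, T.src_H, T.src_H, res_res_le hz, tgt_resA, D.cutO' hk.tgt]
  · rw [Ap_resA, T.ap, T.ap]
    by_cases h1 : η < z
    · simp [HF, h1, h1.trans_le hz, resA_resA_le h1.le]
    · simp [h1]

theorem low_H (hk : k ∈ M z) (hz : z ≤ δ) : H z k = idA (tgt k) := by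
  have e : res z (tgt k) = tgt k := by rw [← tgt_resA, resA_of_mem hk]
  refine T.shape.ext shape_idA ?_ (by simp [T.tgt_H]) fun η l y w => ?_
  · rw [T.src_H, D.lowO (arr_of_mem hk).tgt hz, e, src_idA]
  · rw [Ap_idA]
    by_cases h1 : η < z
    · simp [T.ap_lo (h1.trans_le hz), h1]
    · rw [T.ap, ← e]
      simp [h1]

theorem comm (h : O) : ∀ k ∈ M h, ∀ l ∈ M h, src l = tgt k →
    cmp (H h (cmp l k)) (resA h (J (resA a l))) = cmp l (H h k) := by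
  induction h using WellFoundedLT.induction with
  | ind h ih =>
  intro k hk l hl e
  have ak := arr_of_mem hk
  have al := arr_of_mem hl
  have alk := al.cmp ak e
  refine shape_cmp.ext shape_cmp (by simp [T.src_H, D.srcA al, e]) (by simp [T.tgt_H])
    fun z n y w => ?_
  rw [Ap_cmp, Ap_cmp]
  by_cases hz : z < h
  swap
  · refine iff_of_false (fun ⟨u, h1, _⟩ => hz (T.ap.1 h1).1) fun ⟨u, h1, _⟩ => hz ?_
    rw [← resA_of_mem hl] at h1
    exact (Ap_resA.1 h1).2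
  rw [T.res_H D alk hz.le]
  have hn : ∀ u w, Ap l z n u w → n ∈ M z ∧ src n = res z (tgt l) := fun u w H =>
    (al.tgt.lev z).el _ _ ((al.lev z).ap _ _ _ H).2
  rcases lt_or_ge z δ with h1 | h1
  · simp only [T.ap_lo h1, T.low_H D (alk.resA_mem z) h1.le, Ap_resA, D.lowAp al h1, hz, true_and,
      and_true, tgt_cmp, tgt_resA]
    constructor
    · rintro ⟨u, ⟨rfl, h2⟩, h3⟩
      have h4 := (al.tgt.lev z).el _ _ h2
      rw [← h4.2, (arr_of_mem h4.1).cmp_id] at h3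
      exact ⟨y, h3, rfl, e ▸ ((al.lev z).ap _ _ _ h3).1⟩
    · rintro ⟨u, h2, rfl, -⟩
      have h4 := hn _ _ h2
      rw [← h4.2, (arr_of_mem h4.1).cmp_id]
      exact ⟨w, ⟨rfl, ((al.lev z).ap _ _ _ h2).2⟩, h2⟩
  · have key : n ∈ M z → src n = res z (tgt l) → ∀ u,
        Ap (J (resA a (cmp n (resA z l)))) z (H z (cmp n (resA z (cmp l k)))) y u ↔
        ∃ v, Ap (J (resA a n)) z (H z (cmp n (resA z (cmp l k)))) v u ∧
          Ap (J (resA a l)) z (cmp n (H z (resA z (cmp l k)))) y v := fun n1 n2 u => by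
      rw [D.cmpA (arr_of_mem n1) (al.resA z) (by simp [n2]), Ap_cmp,
        ih z hz _ (alk.resA_mem z) n n1 (by simp [n2])]
      simp only [D.cutAp al h1]
    simp only [T.ap_hi h1, Ap_resA, hz, true_and, and_true, Ap_cmp (g := l), cmp_assoc, ← resA_cmp]
    constructor
    · rintro ⟨v, ⟨u, h2, x, h3, h4⟩, h5⟩
      exact ⟨x, h3, u, (key (hn _ _ h3).1 (hn _ _ h3).2 u).2 ⟨v, h2, h5⟩, h4⟩
    · rintro ⟨x, h3, u, h2, h4⟩
      obtain ⟨v, h5, h6⟩ := (key (hn _ _ h3).1 (hn _ _ h3).2 u).1 h2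
      exact ⟨v, ⟨u, h5, x, h3, h4⟩, h6⟩

theorem fam (hk : k ∈ M z) (e : src k = m z) (hz : δ < z) (hq : Sec (tgt k) z q) :
    Fam (H z k) q ↔ Fam k q := by
  have ak := arr_of_mem hk
  rw [hq.fam_iff hz, hq.fam_iff hz]
  refine exists_congr fun x => and_congr_right fun h1 => and_congr_right fun h2 =>
    forall₂_congr fun ζ p => forall₂_congr fun h3 h4 => ?_
  have h5 := h1.trans h3
  have h6 := (hq.at h4).1.1
  simp only [Im, T.tgt_H, T.ap_hi h5, h6, true_and]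
  refine ⟨fun ⟨_, u, _, h7⟩ => ⟨u, h7⟩, fun ⟨u, h7⟩ => ⟨u, u, ?_, h7⟩⟩
  have h8 := ((ak.lev ζ).ap _ _ _ h7).1
  rw [e, T.el] at h8
  rw [top, D.idJ (ak.tgt.res ζ), Ap_idA]
  simpa [top] using h8.2.2.2.2

/-- The transition of the master object, read through naturality. -/
theorem step (hk : k ∈ M z) (hl : l ∈ M z) (e' : src l = tgt k) {l' u u' v : V}
    (h1 : Ap (J (resA a l)) z (H z (cmp l k)) u v)
    (h2 : Trn (J (res a (tgt k))) z (cmp l (H z k)) l' u u') {v' : V}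
    (h3 : Trn (J (res a (tgt l))) z (H z (cmp l k)) l' v v') :
    Ap (J (resA a l)) z (cmp l' (H z (cmp l k))) u' v' := by
  have al := arr_of_mem hl
  refine ((D.arr al).lev z).nat _ _ _ _ _ _ h1 ?_ ?_
  · rwa [T.comm D z k hk l hl e', D.srcA al, e']
  · rwa [D.tgtA al]

theorem ap_cmp (hk : k ∈ M z) (hl : l ∈ M z) (e' : src l = tgt k) {l' : V} (hl' : l' ∈ M z)
    (e'' : src l' = tgt l) {u : V} :
    Ap (J (resA a (cmp l' l))) z (H z (cmp (cmp l' l) k)) u w ↔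
      ∃ v, Ap (J (resA a l')) z (H z (cmp l' (cmp l k))) v w ∧
        Ap (J (resA a l)) z (cmp l' (H z (cmp l k))) u v := by
  rw [D.cmpA (arr_of_mem hl') (arr_of_mem hl) e'', Ap_cmp, cmp_assoc,
    T.comm D z _ (cmp_mem_M hl hk e') l' hl' (by simpa using e'')]

theorem obLev (B : ∀ k ∈ M z, src k = m z → H z k ∈ M z) (hz : z < h) : ObLev (M z) z (m h) := by
  have O : ∀ {k}, k ∈ M z → ObLev (M z) z (J (res a (tgt k))) := fun hk =>
    (D.ob (arr_of_mem hk).tgt).lev z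
  have A : ∀ {l}, l ∈ M z → ArLev (M z) z (J (resA a l)) := fun hl => (D.arr (arr_of_mem hl)).lev z
  have C := T.comm D z
  refine ⟨fun k y H1 => ?_, fun k l y w H1 => ?_, fun k l y H1 hl e => ?_,
    fun k l y w w' H1 H2 => ?_, fun k l y y' w H1 H2 => ?_, fun k y H1 => ?_,
    fun k l l' y w x H1 H2 => ?_, fun k y q H1 => ?_, fun k l y w q H1 hq => ?_,
    fun e => ⟨0, fun k y H1 => ?_⟩⟩
  · rw [T.res_m hz.le]
    exact ⟨(T.el.1 H1).2.2.1, (T.el.1 H1).2.2.2.1⟩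
  · obtain ⟨h1, h2, h3, h4, h5, h6, u, h7, h8⟩ := T.trn.1 H1
    refine ⟨T.el.2 ⟨h1, h2, h3, h4, ((O h3).tr _ _ _ _ h7).1⟩, h5, h6,
      T.el.2 ⟨h1, h2, cmp_mem_M h5 h3 h6, by simpa using h4, ?_⟩⟩
    simpa [D.tgtA (arr_of_mem h5)] using ((A h5).ap _ _ _ h8).2
  · obtain ⟨h1, h2, h3, h4, h5⟩ := T.el.1 H1
    obtain ⟨u, hu⟩ := (O h3).tot _ l y h5 hl (e.trans T.tgt_H.symm)
    obtain ⟨w, hw⟩ := (A hl).tot (H z (cmp l k)) u (B _ (cmp_mem_M hl h3 e) (by simpa using h4))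
      (by simp [T.src_H, D.tgtA (arr_of_mem hl)])
      (by rw [C k h3 l hl e, D.srcA (arr_of_mem hl), e]; exact ((O h3).tr _ _ _ _ hu).2.2.2)
    exact ⟨w, T.trn.2 ⟨h1, h2, h3, h4, hl, e, u, hu, hw⟩⟩
  · obtain ⟨-, -, h3, -, h5, -, u, h7, h8⟩ := T.trn.1 H1
    obtain ⟨-, -, -, -, -, -, u', h7', h8'⟩ := T.trn.1 H2
    obtain rfl := (O h3).fn _ _ _ _ _ h7 h7'
    exact (A h5).fn _ _ _ _ h8 h8'
  · obtain ⟨-, -, h3, -, h5, -, u, h7, h8⟩ := T.trn.1 H1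
    obtain ⟨-, -, -, -, -, -, u', h7', h8'⟩ := T.trn.1 H2
    obtain rfl := (A h5).inj _ _ _ _ h8 h8'
    exact (O h3).inj _ _ _ _ _ h7 h7'
  · obtain ⟨h1, h2, h3, h4, h5⟩ := T.el.1 H1
    have ak := arr_of_mem h3
    refine T.trn.2 ⟨h1, h2, h3, h4, ?_, src_idA, y,
      by simpa only [T.tgt_H] using (O h3).one _ _ h5, ?_⟩
    · have := ak.tgt.top_mem z
      rwa [top, ← tgt_resA, resA_of_mem h3] at this
    · rw [D.idJ ak.tgt, ak.id_cmp, Ap_idA]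
      exact ⟨rfl, h5⟩
  · obtain ⟨h1, h2, h3, h4, h5, h6, u, h7, h8⟩ := T.trn.1 H1
    obtain ⟨-, -, -, -, h5', h6', u', h7', h8'⟩ := T.trn.1 H2
    rw [tgt_cmp] at h6' h7'
    obtain ⟨v, hv⟩ := (O h3).tot _ l' u ((O h3).tr _ _ _ _ h7).2.2.2 h5' (by simpa using h6')
    exact T.trn.2 ⟨h1, h2, h3, h4, cmp_mem_M h5' h5 h6', by simpa using h6, v,
      (O h3).mul _ _ _ _ _ _ h7 hv, (T.ap_cmp D h3 h5 h6 h5' h6').2
        ⟨u', h8', T.step D h3 h5 h6 h8 hv h7'⟩⟩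
  · obtain ⟨h1, h2, h3, h4, h5⟩ := T.bit.1 H1
    obtain ⟨b1, b2, b3⟩ := (O h3).bit _ _ _ h5
    rw [T.tgt_H] at b2
    exact ⟨T.el.2 ⟨h1, h2, h3, h4, b1⟩, b2,
      (T.fam D h3 h4 (D.lt_of_el (arr_of_mem h3).tgt h2 b1) b2).1 b3⟩
  · obtain ⟨h1, h2, h3, h4, h5, h6, u, h7, h8⟩ := T.trn.1 H1
    have ak := arr_of_mem h3
    have al := arr_of_mem h5
    have h9 := cmp_mem_M h5 h3 h6
    have hδ := D.lt_of_el ak.tgt h2 ((O h3).tr _ _ _ _ h7).1
    have b1 := (O h3).dec _ _ _ _ q h7 (by rwa [T.tgt_H])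
    have b2 := (A h5).bit _ _ _ (actS l q) h8
    rw [C k h3 l h5 h6, D.srcA al, D.tgtA al, h6] at b2
    simp only [T.bit, h1, h2, h3, h4, h9, src_cmp, tgt_cmp, true_and, b1]
    refine ⟨fun H => (b2 ((O h3).bit _ _ _ H).2.2).1 H, fun H => (b2 ?_).2 H⟩
    have b3 := (O h5).bit _ _ _ H
    rw [T.tgt_H] at b3
    exact (Sec.fam_act al (arr_of_mem (B k h3 h4)) (h6.trans T.tgt_H.symm) (by rwa [T.tgt_H])).2
      ((T.fam D h3 h4 hδ hq).2 ((hq.fam_act al ak h6).1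
        ((T.fam D h9 (by simpa using h4) hδ b3.2.1).1 b3.2.2)))
  · exact absurd ((T.el.1 H1).2.1.trans e.le) D.lam.1.bot_lt.not_ge

theorem arLev (B : ∀ k ∈ M z, src k = m z → H z k ∈ M z) (hk : k ∈ M h) (e : src k = m h)
    (hz : z < h) (hδ : δ ≤ z) : ArLev (M z) z (H h k) := by
  have ak := arr_of_mem hk
  have O : ∀ {c}, Ob c → ObLev (M z) z (J (res a c)) := fun hc => (D.ob hc).lev z
  have A : ∀ {l}, l ∈ M z → ArLev (M z) z (J (resA a l)) := fun hl => (D.arr (arr_of_mem hl)).lev z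
  have K := ak.lev z
  have OC := ak.tgt.lev z
  have OM := ak.src.lev z
  have k1 := ak.resA_mem z
  have k2 : src (resA z k) = m z := by rw [src_resA, e, T.res_m hz.le]
  have c0 := ak.tgt.res z
  have C : ∀ {l}, l ∈ M z → src l = res z (tgt k) →
      cmp (H z (cmp l (resA z k))) (resA z (J (resA a l))) = cmp l (H z (resA z k)) :=
    fun hl e => T.comm D z _ k1 _ hl (by simpa using e)
  have S : ∀ t n l y w, tp z t n l y w ∈ src (H h k) ↔
      tp z t n l y w ∈ J (res a (res z (tgt k))) := fun t n l y w => by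
    rw [T.src_H, tp_mem_res, D.cutO ak.tgt hδ, and_iff_left hz]
  have L : ∀ {l u w}, Ap k z l u w → l ∈ M z ∧ src l = res z (tgt k) := fun H =>
    OC.el _ _ (K.ap _ _ _ H).2
  have R := T.res_H D ak hz.le
  have tr : ∀ {l l' u v}, l ∈ M z → src l = res z (tgt k) → l' ∈ M z → src l' = tgt l →
      (Trn (src k) z (cmp l (resA z k)) l' u v ↔ ∃ x,
        Trn (J (res a (tgt l))) z (H z (cmp l (resA z k))) l' u x ∧
        Ap (J (resA a l')) z (H z (cmp l' (cmp l (resA z k)))) x v) := fun h1 h2 h3 h4 => by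
    simp [e, T.trn, T.res_m hz.le, hz, hδ, h3, h4, cmp_mem_M h1 k1 (by simpa using h2)]
  refine ⟨fun l y w H1 => ?_, fun l y hl e' H1 => ?_, fun l y w w' H1 H2 => ?_,
    fun l y y' w H1 H2 => ?_, fun l l' y w y' w' H1 H2 H3 => ?_, fun l l' w y' w' H1 H2 => ?_,
    fun l y w q H1 H2 => ?_, fun e => absurd (hδ.trans e.le) D.lam.1.bot_lt.not_ge⟩
  · obtain ⟨-, u, h1, h2⟩ := (T.ap_hi hδ).1 H1
    have h3 := ((A (L h2).1).ap _ _ _ h1).1
    rw [C (L h2).1 (L h2).2, D.srcA (arr_of_mem (L h2).1), (L h2).2] at h3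
    exact ⟨(S _ _ _ _ _).2 (R ▸ h3), by rw [T.tgt_H]; exact (K.ap _ _ _ h2).2⟩
  · rw [T.tgt_H] at e'
    have h1 := cmp_mem_M hl k1 (by simpa using e')
    have h2 : src (cmp l (resA z k)) = m z := by rw [src_cmp, k2]
    obtain ⟨u, hu⟩ := (A hl).tot _ y (B _ h1 h2) (by simp [T.src_H, D.tgtA (arr_of_mem hl)])
      (by rw [C hl e', D.srcA (arr_of_mem hl), e', ← R]; exact (S _ _ _ _ _).1 H1)
    obtain ⟨w, hw⟩ := K.tot l u hl e' (by
      rw [e, T.el]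
      exact ⟨hz, hδ, h1, h2, by simpa [D.tgtA (arr_of_mem hl)] using ((A hl).ap _ _ _ hu).2⟩)
    exact ⟨w, (T.ap_hi hδ).2 ⟨hz, u, hu, hw⟩⟩
  · obtain ⟨-, u, h1, h2⟩ := (T.ap_hi hδ).1 H1
    obtain ⟨-, u', h1', h2'⟩ := (T.ap_hi hδ).1 H2
    obtain rfl := (A (L h2).1).fn _ _ _ _ h1 h1'
    exact K.fn _ _ _ _ h2 h2'
  · obtain ⟨-, u, h1, h2⟩ := (T.ap_hi hδ).1 H1
    obtain ⟨-, u', h1', h2'⟩ := (T.ap_hi hδ).1 H2
    obtain rfl := K.inj _ _ _ _ h2 h2'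
    exact (A (L h2).1).inj _ _ _ _ h1 h1'
  · obtain ⟨-, u, h1, h2⟩ := (T.ap_hi hδ).1 H1
    obtain ⟨l1, l2⟩ := L h2
    rw [T.tgt_H] at H3
    obtain ⟨-, l3, l4, -⟩ := OC.tr _ _ _ _ H3
    obtain ⟨v, hv⟩ := OM.tot _ l' u (K.ap _ _ _ h2).1 l3 (by simpa using l4)
    obtain ⟨x, x1, x2⟩ := (tr l1 l2 l3 l4).1 hv
    refine (T.ap_hi hδ).2 ⟨hz, v, (T.ap_cmp D k1 l1 (by simpa using l2) l3 l4).2 ⟨x, x2,
      T.step D k1 l1 (by simpa using l2) h1 ?_ x1⟩, K.nat _ _ _ _ _ _ h2 hv H3⟩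
    rw [tgt_resA, ← R]
    exact (S _ _ _ _ _).1 H2
  · obtain ⟨-, v, h1, h2⟩ := (T.ap_hi hδ).1 H2
    rw [T.tgt_H] at H1
    obtain ⟨l0, l3, l4, -⟩ := OC.tr _ _ _ _ H1
    obtain ⟨l1, l2⟩ := OC.el _ _ l0
    obtain ⟨u, hu⟩ := K.car _ _ _ _ _ H1 h2
    obtain ⟨v', hv⟩ := OM.tot _ l' u (K.ap _ _ _ hu).1 l3 (by simpa using l4)
    obtain rfl := K.inj _ _ _ _ h2 (K.nat _ _ _ _ _ _ hu hv H1)
    obtain ⟨x, x1, x2⟩ := (tr l1 l2 l3 l4).1 hv
    obtain ⟨x', x3, x4⟩ := (T.ap_cmp D k1 l1 (by simpa using l2) l3 l4).1 h1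
    obtain rfl := (A l3).inj _ _ _ _ x2 x3
    rw [← D.tgtA (arr_of_mem l1)] at x1
    obtain ⟨y, hy⟩ := (A l1).car _ _ _ _ _ x1 x4
    exact ⟨y, (T.ap_hi hδ).2 ⟨hz, u, hy, hu⟩⟩
  · obtain ⟨-, u, h1, h2⟩ := (T.ap_hi hδ).1 H1
    obtain ⟨l1, l2⟩ := L h2
    have al := arr_of_mem l1
    have h3 := cmp_mem_M l1 k1 (by simpa using l2)
    have h4 : src (cmp l (resA z k)) = m z := by rw [src_cmp, k2]
    have b1 := (A l1).bit _ _ _ q h1
    rw [C l1 l2, D.srcA al, D.tgtA al, l2] at b1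
    rw [R] at H2
    rw [Bit, S, R, T.tgt_H]
    refine (b1 H2).trans ?_
    have b2 : Bit (src k) z (cmp l (resA z k)) u q ↔
        Bit (J (res a (tgt l))) z (H z (cmp l (resA z k))) u q := by
      simp [e, T.bit, T.res_m hz.le, hz, hδ, h3]
    by_cases hq : Sec (tgt l) z q
    · rw [← C l1 l2] at H2
      exact b2.symm.trans (K.bit _ _ _ _ h2 ((T.fam D h3 h4 (D.lt_of_el al.tgt hδ
        (by simpa [D.tgtA al] using ((A l1).ap _ _ _ h1).2)) (by simpa using hq)).1 H2.of_cmp))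
    · exact iff_of_false (fun H => hq (by simpa [T.tgt_H] using ((O al.tgt).bit _ _ _ H).2.1))
        fun H => hq (OC.bit _ _ _ H).2.1

theorem mem_M (h : O) : ∀ k ∈ M h, src k = m h → H h k ∈ M h := by
  induction h using WellFoundedLT.induction with
  | ind h ih =>
  intro k hk e
  have ak := arr_of_mem hk
  refine mem_M_iff.2 ⟨arr_of T.shape (by rw [T.src_H]; exact (D.ob ak.tgt).res h)
    (by rw [T.tgt_H]; exact ak.tgt) fun z => ?_, by rw [T.res_H D ak le_rfl, resA_of_mem hk]⟩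
  by_cases hz : z < h
  · rcases lt_or_ge z δ with h1 | h1
    · refine (ak.tgt.idA.lev z).of_res ?_
      rw [T.res_H D ak (add_one_le_of_lt hz), T.low_H D (ak.resA_mem _) (add_one_le_of_lt h1),
        tgt_resA, resA_idA]
    · exact T.arLev D (ih z hz) hk e hz h1
  · constructor <;> simp [T.ap, T.src_H, hz]

theorem ob (h : O) : Ob (m h) := by
  refine ob_of (fun u hu => ?_) (fun β hβ => ?_) fun z => ?_
  · obtain ⟨z, -, -, k, k1, -, H⟩ := (T.mem h u).1 hu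
    have hc := D.ob (arr_of_mem k1).tgt
    rcases H with ⟨y, rfl, H⟩ | ⟨l, y, w, rfl, l1, -, u, H, H'⟩ | ⟨y, q, rfl, H⟩ <;>
      rw [rank_fst_tp, tp_mem_Lab]
    · exact ⟨Lab.of_mem k1, Lab.of_mem k1, H.lab hc, H.lab hc⟩
    · have al := D.arr (arr_of_mem l1)
      exact ⟨Lab.of_mem k1, Lab.of_mem l1, ((hc.lev z).tr _ _ _ _ H).1.lab hc,
        ((al.lev z).ap _ _ _ H').2.lab al.tgt⟩
    · exact ⟨Lab.of_mem k1, Lab.of_mem k1, ((hc.lev z).bit _ _ _ H).1.lab hc, H.lab hc⟩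
  · rcases le_or_gt β δ with h1 | h1
    · exact ⟨0, hβ.1.bot_lt, fun ζ _ h2 _ k y H => (h2.trans_le h1).not_ge (T.el.1 H).2.1⟩
    rcases le_or_gt β κ with h2 | h2
    · exact ⟨δ, h1, fun ζ h3 h4 h5 k y H => D.east _ ((arr_of_mem (T.el.1 H).2.2.1).tgt.res a)
        res_res_self ζ h3 (h4.trans_le h2) h5 _ _ (T.el.1 H).2.2.2.2⟩
    · choose! f f1 f2 using fun x (hx : x ∈ M a) => (arr_of_mem (D.mem x hx)).src.east β hβ
      obtain ⟨b, b1, b2⟩ := hβ.2 κ h2.le D.lamκ _ D.small f f1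
      refine ⟨b, b1, fun ζ h3 h4 h5 k y H1 => ?_⟩
      obtain ⟨-, -, k1, -, H1⟩ := T.el.1 H1
      have hc := (arr_of_mem k1).tgt
      have h6 := hc.idA.resA_mem a
      refine f2 _ h6 ζ ((b2 _ h6).le.trans h3) h4 h5 (H ζ k) y ?_
      rwa [D.srcA hc.idA, src_idA]
  · by_cases hz : z < h
    · exact T.obLev D (T.mem_M D z) hz
    · constructor <;> simp [T.el, T.trn, T.bit, hz]

end Tw

theorem exists_master {δ a κ θ : O} {J : V → V} (h : Jd δ a κ θ J) :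
    ∃ (m : V) (H : V → V), Ob m ∧ res θ m = m ∧
      (∀ k ∈ M θ, src k = m → H k ∈ M θ ∧ src (H k) = J (res a (tgt k)) ∧ tgt (H k) = tgt k) ∧
      ∀ k ∈ M θ, ∀ l ∈ M θ, src k = m → src l = tgt k →
        cmp (H (cmp l k)) (J (resA a l)) = cmp l (H k) := by
  obtain ⟨m, H, T⟩ := exists_tw δ a J
  refine ⟨m θ, H θ, T.ob h θ, T.res_m le_rfl, fun k hk e => ⟨T.mem_M h θ k hk e, ?_, T.tgt_H⟩,
    fun k hk l hl _ e => ?_⟩
  · have hc := (arr_of_mem hk).tgt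
    simpa [T.src_H, h.idJ hc] using congrArg src (resA_of_mem (h.memA hc.idA))
  · rw [← T.comm h θ k hk l hl e, resA_of_mem (h.memA (arr_of_mem hl))]

end Pool.Agent.Lib.MP_095a31_lc
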