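import Pool.Agent.Lib.MP_095a31_lc.H85Gen
import Pool.Agent.Lib.MP_095a31_lc.H91Master

/-!
Names of points.
-/

open ZFSet Order

namespace Pool.Agent.Lib.MP_095a31_lc

open MP_329f2d_lc

/-- The name of a section. -/
noncomputable def qd (F : O → V → V → V) (η : O) (e q : V) : V :=
  mkN η e (img (fun u => pair (idA (res η e)) (opN η e (ck (fst u)) (F (rank (fst u)) e (snd u))))
    (ZFSet.sep (fun u => rank (fst u) < η) q))

open Classical in
/-- The name of a point. -/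
noncomputable def cdS (η : O) (F : O → V → V → V) (e y : V) : V :=
  if η = 0 then ck y else mkN (η + 1) e (img (fun u => pair (fst u) (qd F η (tgt (fst u)) (snd u)))
    (ZFSet.sep (fun u => src (fst u) = res (η + 1) e ∧ ∃ z, Act (fst u) η y z ∧
      Bit (tgt (fst u)) η (top (tgt (fst u)) η) z (snd u)) (prod (M (η + 1)) (Lab (M η) η))))

theorem exists_cd : ∃ F : O → V → V → V, ∀ η, F η = cdS η F :=
  exists_rec cdS fun η F G h => by
    have : qd F η = qd G η := by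
      funext e q
      unfold qd
      rw [img_congr fun u hu => by rw [h _ (mem_sep.1 hu).2]]
    unfold cdS
    rw [this]

/-- Transports of names of points. -/
def Cd (F : O → V → V → V) (η : O) (e y t : V) : Prop :=
  ∃ f x, f ∈ M (η + 1) ∧ tgt f = res (η + 1) e ∧ Act f η x y ∧ t = push f (F η (src f) x)

/-- Transports of names of sections. -/
def Qd (F : O → V → V → V) (η : O) (e q s : V) : Prop :=
  ∃ f p, f ∈ M η ∧ tgt f = res η e ∧ Sec (src f) η p ∧ q = actS f p ∧ s = push f (qd F η (src f) p)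

theorem act_zero {l y z : V} (hl : Arr l) (H : Act l 0 y z) : y = z := by
  have h1 := ((hl.src.lev 0).one _ _ (H.pt hl).1)
  obtain ⟨w, h2, h3⟩ := H
  rw [resA_zero] at h2
  rw [tgt_top, res_zero, mem_M_zero.1 (ob_empty.idA_mem res_empty)] at h1
  rw [(hl.src.lev 0).fn _ _ _ _ _ h1 h2]
  exact (hl.lev 0).zero rfl _ _ _ h3

section

variable {F : O → V → V → V} (hF : ∀ η, F η = cdS η F) {η γ ζ : O} {e y z t s q l u : V}

theorem lev_qd : lev (qd F η e q) ≤ η := lev_mkN.le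

theorem qd_res_aux (H : ∀ ζ < η, ∀ e y, F ζ (res η e) y = F ζ e y) :
    qd F η (res η e) q = qd F η e q := by
  simp only [qd, mkN, opN, upN, res_res_self]
  exact congrArg _ (img_congr fun u hu => by rw [H _ (mem_sep.1 hu).2])

theorem Qd.push (hl : Arr l) (h : Qd F η (src l) q s) : Qd F η (tgt l) (actS l q) (push l s) := by
  obtain ⟨f, p, h1, h2, h3, rfl, rfl⟩ := h
  have af := arr_of_mem h1
  have e : src (resA η l) = tgt f := by simp [h2]
  refine ⟨cmp (resA η l) f, p, cmp_mem_M (hl.resA_mem η) h1 e, by simp, by simpa using h3, ?_, ?_⟩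
  · rw [actS_cmp (hl.resA η) af e, (h3.act af).actS_resA le_rfl]
  · rw [← push_push (hl.resA η) af e, src_cmp, push_resA (lev_push_le.trans lev_qd)]

include hF

theorem cd_res (H : η < γ) : F η (res γ e) y = F η e y := by
  rw [hF η]
  simp only [cdS, mkN, res_res_le (add_one_le_of_lt H)]

theorem lev_cd : lev (F η e y) ≤ η + 1 := by
  rw [hF η, cdS]
  split_ifs <;> simp

theorem ty_cd (he : Ob e) : Ty e (F η e y) := by
  rw [hF η, cdS]
  split_ifs
  exacts [ty_ck, ty_mkN he]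

theorem nm_cd (η : O) : ∀ e y, Ob e → F η e y ∈ NM := by
  induction η using WellFoundedLT.induction with
  | ind η ih =>
  intro e y he
  rw [hF η, cdS]
  split_ifs
  · exact ck_mem_NM
  refine nm_mem_NM (he.top_mem _) fun u hu => ?_
  obtain ⟨v, hv, rfl⟩ := mem_img.1 hu
  obtain ⟨k, hk, p, -, rfl⟩ := mem_prod.1 (mem_sep.1 hv).1
  have hc := (arr_of_mem hk).tgt
  refine ⟨_, by simpa using hk, _, ?_, rfl⟩
  rw [fst_pair]
  refine nm_mem_NM (hc.top_mem _) fun u hu => ?_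
  obtain ⟨v, hv, rfl⟩ := mem_img.1 hu
  exact ⟨_, hc.top_mem _, _, opN_mem_NM hc ck_mem_NM (ih _ (mem_sep.1 hv).2 _ _ hc), rfl⟩

theorem Cd.push (hl : Arr l) (H : Act l η y z) (h : Cd F η (src l) y t) :
    Cd F η (tgt l) z (push l t) := by
  obtain ⟨f, x, h1, h2, h3, rfl⟩ := h
  have af := arr_of_mem h1
  have e : src (resA (η + 1) l) = tgt f := by simp [h2]
  refine ⟨cmp (resA (η + 1) l) f, x, cmp_mem_M (hl.resA_mem _) h1 e, by simp,
    (act_cmp (hl.resA _) af e).2 ⟨y, h3, (Act_resA (lt_add_one η)).2 H⟩, ?_⟩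
  rw [← push_push (hl.resA _) af e, src_cmp, push_resA (lev_push_le.trans (lev_cd hF))]

theorem Cd.bit (h0 : η ≠ 0) (h : Cd F η e y t) (H : Ac t s) :
    ∃ q, Bit e η (top e η) y q ∧ Qd F η e q s := by
  obtain ⟨f, x, h1, h2, h3, rfl⟩ := h
  have af := arr_of_mem h1
  rw [hF η, cdS, if_neg h0, ac_push_mkN af] at H
  obtain ⟨k, _, l, a1, a2, a3, a4, -, rfl⟩ := H
  obtain ⟨v, hv, e'⟩ := mem_img.1 a1
  obtain ⟨k, hk, p, -, rfl⟩ := mem_prod.1 (mem_sep.1 hv).1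
  obtain ⟨-, w, b1, b2⟩ := (mem_sep.1 hv).2
  simp only [fst_pair, snd_pair, pair_inj] at e' b1 b2
  obtain ⟨rfl, rfl⟩ := e'
  have al := arr_of_mem a2
  have ak := arr_of_mem hk
  rw [resA_of_mem h1] at a4
  subst a4
  obtain ⟨w', c1, c2⟩ := (act_cmp al ak a3).1 h3
  obtain rfl := c1.fn ak b1
  have hs : Sec (src l) η p := by
    rw [a3, ← Sec_res le_rfl, ← tgt_top]
    exact ((ak.tgt.lev η).bit _ _ _ b2).2.1
  rw [← a3] at b2
  have b3 := (bit_act al c2 hs).1 b2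
  rw [tgt_cmp] at h2
  refine ⟨actS l p, by simpa [h2, top_res (lt_add_one η).le] using b3, resA η l, p,
    al.resA_mem η, by simp [h2, res_res_le (lt_add_one η).le], by simpa [Sec_res] using hs,
    (hs.actS_resA le_rfl).symm, ?_⟩
  rw [src_resA, qd_res_aux fun ζ h _ _ => cd_res hF h, push_resA lev_qd, a3]

theorem Cd.ac (h0 : η ≠ 0) (h : Cd F η e y t) (H : Bit e η (top e η) y q) :
    ∃ s, Ac t s ∧ Qd F η e q s := by
  obtain ⟨f, x, h1, h2, h3, rfl⟩ := h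
  have af := arr_of_mem h1
  have b1 : Bit (tgt f) η (top (tgt f) η) y q := by simpa [h2, top_res (lt_add_one η).le] using H
  have hs : Sec (tgt f) η q := by
    rw [← Sec_res le_rfl, ← tgt_top]
    exact ((af.tgt.lev η).bit _ _ _ b1).2.1
  refine ⟨_, ?_, idA (res η (tgt f)), q, af.tgt.top_mem η,
    by simp [h2, res_res_le (lt_add_one η).le], by simpa [Sec_res] using hs,
    (((Sec_res le_rfl).2 hs).actS_id (af.tgt.res η)).symm, rfl⟩
  rw [hF η, cdS, if_neg h0, ac_push_mkN af]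
  refine ⟨f, qd F η (tgt f) q, idA (tgt f), mem_img.2 ⟨pair f q, mem_sep.2 ⟨pair_mem_prod.2
    ⟨h1, b1.lab af.tgt⟩, by simpa using ⟨(res_src_of_mem h1).symm, y, h3, b1⟩⟩, by simp⟩,
    af.tgt.idA_mem (res_tgt_of_mem h1), src_idA, by rw [af.id_cmp, resA_of_mem h1],
    lev_mkN.le.trans le_self_add, ?_⟩
  rw [src_idA, qd_res_aux fun ζ h _ _ => cd_res hF h, ← resA_idA, push_resA lev_qd]

theorem qd_op (he : Ob e) {f x : V} (h1 : f ∈ M η) (h2 : tgt f = res η e) (h : ζ < η)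
    (H : Act f ζ x y) : ∃ t, Cd F ζ e y t ∧
      IsOp e (push f (opN η (src f) (cko ζ) (F ζ (src f) x))) (cko ζ) t := by
  have af := arr_of_mem h1
  have h3 := add_one_le_of_lt h
  have h4 := (isOp_opN (γ := η) af.src cko_mem_NM (nm_cd hF ζ _ x af.src)
    (by simp [cko] : lev (cko ζ) ≤ η) ((lev_cd hF).trans h3)).push af
  rw [push_cko, h2] at h4
  refine ⟨_, ⟨resA (ζ + 1) f, x, af.resA_mem _, by simp [h2, res_res_le h3],
    (Act_resA (lt_add_one ζ)).2 H, ?_⟩, h4.of_res he (lev_push_le.trans lev_opN.le)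
    (by simp [cko]) (lev_push_le.trans ((lev_cd hF).trans h3))⟩
  rw [src_resA, cd_res hF (lt_add_one ζ), push_resA (lev_cd hF)]

theorem Qd.at (he : Ob e) (h : Qd F η e q s) (H : Ac s u) :
    ∃ ζ y t, At q ζ y ∧ Cd F ζ e y t ∧ IsOp e u (cko ζ) t := by
  obtain ⟨f, p, h1, h2, h3, rfl, rfl⟩ := h
  have af := arr_of_mem h1
  rw [qd, ac_push_mkN af] at H
  obtain ⟨k, _, l, a1, a2, a3, a4, -, rfl⟩ := H
  obtain ⟨v, hv, e'⟩ := mem_img.1 a1
  obtain ⟨ζ, x, rfl, b1, b2⟩ := h3.shp v (mem_sep.1 hv).1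
  simp only [fst_pair, snd_pair, pair_inj, Ordinal.rank_toZFSet] at e'
  obtain ⟨rfl, rfl⟩ := e'
  rw [tgt_idA] at a3
  rw [resA_of_mem h1, ← a3, (arr_of_mem a2).cmp_id] at a4
  subst a4
  obtain ⟨y, hy⟩ := b2.act af
  exact ⟨ζ, y, (qd_op hF he h1 h2 b1.1 hy).imp fun t ht =>
    ⟨At_actS.2 ⟨x, (mem_sep.1 hv).1, hy⟩, ht⟩⟩

theorem Qd.ac (he : Ob e) (h : Qd F η e q s) (H : At q ζ y) :
    ∃ u t, Ac s u ∧ Cd F ζ e y t ∧ IsOp e u (cko ζ) t := by
  obtain ⟨f, p, h1, h2, h3, rfl, rfl⟩ := h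
  have af := arr_of_mem h1
  obtain ⟨x, x1, x2⟩ := At_actS.1 H
  have h4 := (h3.at x1).1.1
  obtain ⟨t, ht⟩ := qd_op hF he h1 h2 h4 x2
  refine ⟨_, t, ?_, ht⟩
  rw [qd, ac_push_mkN af]
  refine ⟨_, _, f, mem_img.2 ⟨_, mem_sep.2 ⟨x1, by simpa using h4⟩, rfl⟩, h1,
    by simp [res_src_of_mem h1], by rw [res_src_of_mem h1, af.cmp_id, resA_of_mem h1],
    lev_opN.le, by simp [cko]⟩

theorem Cd.uniq (η : O) : ∀ e y y' t t', Ob e → Pt e η y → Pt e η y' → Cd F η e y t →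
    Cd F η e y' t' → Eqf AA e t t' → y = y' := by
  induction η using WellFoundedLT.induction with
  | ind η ih =>
  have Q : ∀ e q q' s s', Ob e → Sec e η q → Sec e η q' → Qd F η e q s → Qd F η e q' s' →
      Eqf AA e s s' → q = q' := fun e q q' s s' he h1 h2 h3 h4 h5 => h1.ext h2 fun ζ y hy => by
    have a1 := Qd.push (q := q) (s := s) he.idA (by rwa [src_idA])
    rw [tgt_idA, h1.actS_id he] at a1
    obtain ⟨u, t, a2, a3, a4⟩ := a1.ac hF he hy
    obtain ⟨g, g1, g2, u', g3, g4⟩ := (eqf_iff.1 h5).1 _ he.idA src_idA u a2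
    replace g1 : Arr g := g1
    rw [tgt_idA] at g2
    subst g2
    rw [g1.cmp_id] at g3
    obtain ⟨ζ', z', t', b1, b2, b3⟩ := (h4.push g1).at hF g1.tgt g3
    have b4 := a4.push g1
    rw [push_cko] at b4
    obtain ⟨c1, c2⟩ := IsOp.eqf g4 b4 b3
    obtain rfl := Ordinal.toZFSet_injective (c1.ck_eq g1.tgt)
    obtain ⟨y', d1, d2⟩ := At_actS.1 b1
    obtain ⟨z, hz⟩ := (h1.at hy).2.act g1
    obtain rfl := ih ζ (h1.at hy).1.1 _ _ _ _ _ g1.tgt (hz.pt g1).2 (d2.pt g1).2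
      (a3.push hF g1 hz) b2 c2
    rwa [hz.inj g1 d2]
  intro e y y' t t' he h1 h2 h3 h4 h5
  by_cases h0 : η = 0
  · subst h0
    obtain ⟨f, x, a1, -, a2, rfl⟩ := h3
    obtain ⟨f', x', a1', -, a2', rfl⟩ := h4
    rw [hF 0, cdS, cdS, if_pos rfl, if_pos rfl, push_ck, push_ck] at h5
    rw [← act_zero (arr_of_mem a1) a2, ← act_zero (arr_of_mem a1') a2', h5.ck_eq he]
  by_contra hne
  obtain ⟨l, z, z', q, l1, rfl, l3, l4, l5, l6, l7⟩ :=
    sep_pt (pos_iff_ne_zero.2 h0) he h1 h2 hne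
  obtain ⟨s, s1, s2⟩ := (h3.push hF l1 l3).ac hF h0 l6
  obtain ⟨g, g1, g2, s', g3, g4⟩ := (eqf_iff.1 h5).1 _ l1 rfl s s1
  replace g1 : Arr g := g1
  rw [← g2] at l5 s2 l7
  obtain ⟨w, hw⟩ := (g2 ▸ (l4.pt l1).2 : Pt (src g) η z').act g1
  rw [← push_push g1 l1 g2] at g3
  obtain ⟨q', q1, q2⟩ := (Cd.push hF g1 hw (g2 ▸ h4.push hF l1 l4)).bit hF h0 g3
  have q3 : Sec (tgt g) η q' := by
    rw [← Sec_res le_rfl, ← tgt_top]
    exact ((g1.tgt.lev η).bit _ _ _ q1).2.1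
  obtain rfl := Q _ _ _ _ _ g1.tgt (l5.act g1) q3 (s2.push g1) q2 g4
  exact l7 ((bit_act g1 hw l5).2 q1)

theorem cd_bound (η : O) : ∃ ρ, ∀ e y, Ob e → Pt e η y → F η e y ∈ AN ρ := by
  obtain ⟨ρ, h⟩ := exists_AN_bound (S := img (fun u => F η (src (fst u)) (snd u))
    (prod (M (η + 1)) (Lab (M η) η))) fun t ht => by
      obtain ⟨u, hu, rfl⟩ := mem_img.1 ht
      obtain ⟨k, hk, _, -, rfl⟩ := mem_prod.1 hu
      exact nm_cd hF η _ _ (by simpa using (arr_of_mem hk).src)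
  exact ⟨ρ, fun e y he hy => h _ (mem_img.2 ⟨pair (top e (η + 1)) y,
    pair_mem_prod.2 ⟨he.top_mem _, El.lab he hy⟩, by simp [cd_res hF (lt_add_one η)]⟩)⟩

end

/-- Points have names that are stable under transport, and distinct points have names that are
never forced to be equal. -/
theorem exists_code : ∃ (Code : O → V → V → V → Prop) (ρ : O → O),
    (∀ η e y, Ob e → Pt e η y → ∃ t ∈ AN (ρ η), Ty e t ∧ lev t ≤ η + 1 ∧ Code η e y t) ∧
    (∀ η l y z t, Arr l → Act l η y z → Code η (src l) y t → Code η (tgt l) z (push l t)) ∧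
    ∀ η e y y' t t', Ob e → Pt e η y → Pt e η y' → Code η e y t → Code η e y' t' →
      Eqf AA e t t' → y = y' := by
  obtain ⟨F, hF⟩ := exists_cd
  choose ρ hρ using cd_bound hF
  refine ⟨Cd F, ρ, fun η e y he hy => ⟨F η e y, hρ η e y he hy, ty_cd hF he, lev_cd hF,
    top e (η + 1), y, he.top_mem _, tgt_top, ?_, ?_⟩, fun η l y z t hl => Cd.push hF hl,
    Cd.uniq hF⟩
  · exact (act_id (he.res _)).2 ⟨rfl, (Pt_res (lt_add_one η)).2 hy⟩
  · rw [src_top, cd_res hF (lt_add_one η), top, ← resA_idA, push_resA (lev_cd hF),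
      push_id he (nm_cd hF η e y he) (ty_cd hF he)]

theorem wild_dense (γ : O) : ∃ ρ, ∀ c, Ob c → ∃ Y ∈ AN ρ, Ty c Y ∧ WildAt γ c Y := by
  obtain ⟨C, ρ, C1, C2, C3⟩ := exists_code
  obtain ⟨η, h1, h2⟩ : ∃ η, γ ≤ η ∧ 1 ≤ η := ⟨max γ 1, le_max_left _ _, le_max_right _ _⟩
  have h0 := lt_add_one η
  refine ⟨max (ρ η) η + 1, fun c hc => ⟨mkN (η + 1) c (ZFSet.sep (fun u => lev (snd u) ≤ η + 1 ∧
    ∃ y, Pt (tgt (fst u)) η y ∧ ¬ Im (fst u) η y ∧ C η (tgt (fst u)) y (snd u))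
    (prod (M (η + 1)) (AN (ρ η)))), mem_AN.2 ⟨_, lt_add_one _, η + 1,
      add_le_add (le_max_right _ _) one_le_two, _, _, rfl, hc.top_mem _, fun u hu => ?_⟩,
    ty_mkN hc, fun f hf e => ?_, fun f s hf e H => ?_⟩⟩
  · obtain ⟨k, hk, t, ht, rfl⟩ := mem_prod.1 (mem_sep.1 hu).1
    exact pair_mem_prod.2 ⟨hk, AN_mono (le_max_left _ _) ht⟩
  · obtain ⟨l, y, l1, l2, l3, l4⟩ := new_pt h2 hf.tgt
    have a := l1.cmp hf l2
    have a' := a.resA (η + 1)
    have p : Pt (tgt (resA (η + 1) (cmp l f))) η y := by simpa [Pt_res h0] using l3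
    obtain ⟨t, t1, -, t3, t4⟩ := C1 η _ y a'.tgt p
    refine ⟨l, push (idA (tgt (resA (η + 1) (cmp l f)))) t, l1, l2, ?_⟩
    rw [← e, ← src_cmp (g := l), ac_push_mkN a]
    exact ⟨resA (η + 1) (cmp l f), t, idA _, mem_sep.2 ⟨pair_mem_prod.2 ⟨a.resA_mem _, t1⟩, by
      simpa only [fst_pair, snd_pair] using ⟨t3, y, p, fun H => l4 ((Im_resA h0).1 H).of_cmp, t4⟩⟩,
      a'.tgt.idA_mem (by simp), src_idA, a'.id_cmp.symm, t3, rfl⟩
  · rw [← e, ac_push_mkN hf] at H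
    obtain ⟨k, t, l, a1, a2, a3, a4, a5, rfl⟩ := H
    obtain ⟨-, y, b1, b2, b3⟩ := (mem_sep.1 a1).2
    simp only [fst_pair, snd_pair] at b1 b2 b3
    have al := arr_of_mem a2
    have ak := arr_of_mem (pair_mem_prod.1 (mem_sep.1 a1).1).1
    rw [← a3] at b1 b3
    obtain ⟨z, hz⟩ := b1.act al
    have e1 : tgt l = res (η + 1) (tgt f) := by simpa using (congrArg tgt a4).symm
    obtain ⟨g₁, g₂, y₁, y₂, c1, c2, c3, c4, c5, c6, c7, c8, c9, c0⟩ := double_pt h2 hf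
      ((Pt_res h0).1 (e1 ▸ (hz.pt al).2)) fun H => b2 ((im_act al ak a3 hz).1
        (a4 ▸ (Im_resA h0).2 H))
    refine ⟨g₁, g₂, c1, c2, c3, c4, c5, c6, by rw [← resA_resA_le h1, c7, resA_resA_le h1],
      fun g hg e' H => c0 ?_⟩
    have b4 := C2 η l y z t al hz b3
    have b5 : lev (push l t) ≤ η + 1 := lev_push_le.trans a5
    have key : ∀ {g' y'}, Arr g' → src g' = tgt f → src g = tgt g' → Act g' η z y' → ∃ w,
        Act g η y' w ∧ C η (res (η + 1) (tgt g)) w (push g (push g' (push l t))) := by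
      intro g' y' d1 d2 d3 d4
      obtain ⟨w, hw⟩ := (d3 ▸ (d4.pt d1).2 : Pt (src g) η y').act hg
      have d5 := hg.cmp d1 d3
      have := C2 η _ z w _ (d5.resA (η + 1)) ((Act_resA h0).2 ((act_cmp hg d1 d3).2 ⟨_, d4, hw⟩))
        (by rwa [src_resA, src_cmp, d2, ← e1])
      rw [tgt_resA, tgt_cmp, push_resA b5, ← push_push hg d1 d3] at this
      exact ⟨w, hw, this⟩
    obtain ⟨w₁, d1, d2⟩ := key c1 c3 e' c8
    obtain ⟨w₂, d3, d4⟩ := key c2 c4 (e'.trans c5) c9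
    obtain rfl := C3 η _ _ _ _ _ (hg.tgt.res _) ((Pt_res h0).2 (d1.pt hg).2)
      ((Pt_res h0).2 (d3.pt hg).2) d2 d4 ((eqf_res hg.tgt
        (lev_push_le.trans (lev_push_le.trans b5)) (lev_push_le.trans (lev_push_le.trans b5))).2 H)
    exact d1.inj hg d3

end Pool.Agent.Lib.MP_095a31_lc
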