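import Pool.Agent.Lib.MP_095a31_lc.H85ZF

/-!
Extendibility in the model of a generic chain.
-/

open ZFSet Order

namespace Pool.Agent.Lib.MP_095a31_lc

open MP_329f2d_lc

theorem LiftAt.push {δ μ μ' δ' : O} {f J : V} (hf : Arr f) (h : LiftAt δ μ μ' δ' (src f) J) :
    LiftAt δ μ μ' δ' (tgt f) (push f J) := by
  obtain ⟨ρ, h1, h2, h3, h4, h5⟩ := h
  refine ⟨fun g x => ρ (cmp g f) x, fun g x hg e hx tx => ?_, fun g z hg e hz => ?_,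
    fun g g' x hg e hg' e' hx tx => ?_, fun φ g v hg e hv H => ?_, fun g hg e => ?_⟩
  · have := h1 (cmp g f) x (hg.cmp hf e) src_cmp hx (by rwa [tgt_cmp])
    rwa [tgt_cmp, ← push_push hg hf e] at this
  · have := h2 (cmp g f) z (hg.cmp hf e) src_cmp (by rwa [← push_push hg hf e])
    rwa [tgt_cmp] at this
  · have := h3 (cmp g f) g' x (hg.cmp hf e) src_cmp hg' (by rwa [tgt_cmp]) hx (by rwa [tgt_cmp])
    rwa [← cmp_assoc] at this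
  · have := h4 φ (cmp g f) v (hg.cmp hf e) src_cmp (by rwa [tgt_cmp]) (by rwa [tgt_cmp])
    rwa [tgt_cmp] at this
  · exact h5 (cmp g f) (hg.cmp hf e) src_cmp

namespace Chain

variable {Ch : Chain} {δ μ μ' δ' : O}

theorem GenExt.ord (E : Ch.GenExt δ) : Ch.Ord δ := by
  obtain ⟨j, -, y, hy, rfl⟩ := E.crit.dense (i := 0) (l := []) (by simp) fun n hn _ =>
    ⟨idA (tgt n), cko δ, hn.tgt.idA, src_idA, cko_mem_NM, ty_cko, rfl⟩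
  exact ⟨j, hy⟩

theorem GenExt.exists_lift (E : Ch.GenExt δ) (hμ : Ch.Ord μ)
    (hl : ∀ c, Ob c → ∃ f μ' δ' J, Arr f ∧ src f = c ∧ J ∈ NM ∧ Ty (tgt f) J ∧
      μ < δ' ∧ LiftAt δ μ μ' δ' (tgt f) J) :
    ∃ i μ' δ', ∃ J ∈ Ch.X i, Ch.Ord μ' ∧ μ < δ' ∧ LiftAt δ μ μ' δ' (Ch.c i) J := by
  obtain ⟨i₀, h0⟩ := hμ
  obtain ⟨i₁, l1, y, hy, μ₁, μ', δ', J, e1, rfl, hJ, -, lt, H⟩ :=
    E.lift₁.dense (i := i₀) (l := [cko μ]) (by simpa using h0) fun n hn _ => by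
      obtain ⟨f, μ', δ', J, a1, a2, a3, a4, a5, a6⟩ := hl (tgt n) hn.tgt
      exact ⟨f, cko μ', a1, a2, cko_mem_NM, ty_cko, μ, μ', δ', J, push_cko, rfl, a3, a4, a5, a6⟩
  obtain rfl : μ = μ₁ := cko_inj.1 (push_cko.symm.trans e1)
  have h1 : cko μ ∈ Ch.X i₁ := by simpa using Ch.push l1 h0
  obtain ⟨i₂, -, J', hJ', μ₁, μ₂, δ₂, e1, e2, lt', H'⟩ :=
    E.lift₂.dense (i := i₁) (l := [cko μ, cko μ']) (by simpa using ⟨h1, hy⟩) fun n hn e => by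
      refine ⟨idA (tgt n), MP_095a31_lc.push n J, hn.tgt.idA, src_idA, push_mem_NM hn hJ, ?_, μ,
        μ', δ', push_cko, push_cko, lt, ?_⟩ <;> rw [tgt_idA]
      · exact ty_push hn
      · exact LiftAt.push hn (e ▸ H)
  obtain rfl : μ = μ₁ := cko_inj.1 (push_cko.symm.trans e1)
  obtain rfl : μ' = μ₂ := cko_inj.1 (push_cko.symm.trans e2)
  exact ⟨i₂, μ', δ₂, J', hJ', ⟨i₁, hy⟩, lt', H'⟩

end Chain

theorem extendible_aux {Ch : Chain} {δ : O} (G : Ch.GenZF) (E : Ch.GenExt δ)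
    (hl : ∀ μ c, δ < μ → Ob c → ∃ f μ' δ' J, Arr f ∧ src f = c ∧ J ∈ NM ∧ Ty (tgt f) J ∧
      μ < δ' ∧ LiftAt δ μ μ' δ' (tgt f) J) : Extendible Ch.N (Ch.o δ) := by
  refine ⟨E.ord.o_mem, Chain.isOrdinal_o δ, fun l hlN ho hd => ?_⟩
  obtain ⟨μ, hμ, rfl⟩ := G.ord_eq hlN ho
  have lt : δ < μ := E.ord.o_mem_o.1 hd
  obtain ⟨i, μ', δ', J, hJ, hμ', lt', ρ, h1, h2, h3, h4, h5⟩ :=
    E.exists_lift hμ fun c => hl μ c lt
  obtain ⟨D, d1, d2, d3⟩ := G.exists_lev hμ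
  obtain ⟨D', d1', d2', d3'⟩ := G.exists_lev hμ'
  have ty : ∀ {k x}, i ≤ k → Ty (Ch.c k) x → Ty (tgt (Ch.f i k)) x := fun h hx => by
    rwa [Ch.tgt_f h]
  have mem : ∀ {k x}, i ≤ k → x ∈ AN μ → Ty (Ch.c k) x →
      ρ (Ch.f i k) x ∈ AN μ' ∧ Ty (Ch.c k) (ρ (Ch.f i k) x) := fun h hx tx => by
    have := h1 _ _ (Ch.arr h) (Ch.src_f h) hx (ty h tx)
    rw [Ch.tgt_f h] at this
    exact ⟨this.1, this.2.1⟩
  have nat : ∀ {k k' x}, i ≤ k → k ≤ k' → x ∈ AN μ → Ty (Ch.c k) x →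
      push (Ch.f k k') (ρ (Ch.f i k) x) = ρ (Ch.f i k') (push (Ch.f k k') x) :=
    fun h h' hx tx => by
      rw [h3 _ _ _ (Ch.arr h) (Ch.src_f h) (Ch.arr h') ((Ch.src_f h').trans (Ch.tgt_f h).symm) hx
        (ty h tx), Ch.cmp_f h h']
  have A : ∀ z ∈ Ch.val i J, ∃ k, i ≤ k ∧ ∃ x ∈ Ch.X k, x ∈ AN μ ∧ ρ (Ch.f i k) x ∈ Ch.X k ∧
      z = pair (Ch.val k x) (Ch.val k (ρ (Ch.f i k) x)) := by
    intro z hz
    obtain ⟨k, y, hk, hy, ac, rfl⟩ := Chain.mem_val.1 hz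
    obtain ⟨x, hx, tx, op⟩ := h2 _ _ (Ch.arr hk) (Ch.src_f hk) ac
    rw [Ch.tgt_f hk] at tx op
    obtain ⟨⟨k', hk', a1, a2⟩, e⟩ := G.ups.op hy op (nm_of_AN hx) (nm_of_AN (mem hk hx tx).1)
    refine ⟨k', hk.trans hk', _, a1, push_mem_AN (Ch.arr hk') hx, nat hk hk' hx tx ▸ a2, ?_⟩
    rw [e, ← nat hk hk' hx tx, Chain.val_push hk', Chain.val_push hk']
  have B : ∀ k, i ≤ k → ∀ x ∈ Ch.X k, x ∈ AN μ →
      pair (Ch.val k x) (Ch.val k (ρ (Ch.f i k) x)) ∈ Ch.val i J := by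
    intro k hk x hx hx'
    obtain ⟨k', hk', y, hy, ac, b, hb, tb, op⟩ :=
      E.tot.dense (i := k) (l := [push (Ch.f i k) J, x]) (by simpa using ⟨Ch.push hk hJ, hx⟩)
        fun n hn e => by
        have e' : src n = tgt (Ch.f i k) := e.trans (Ch.tgt_f hk).symm
        obtain ⟨a1, a2, z, a3, a4⟩ := h1 (cmp n (Ch.f i k)) (push n x) (hn.cmp (Ch.arr hk) e')
          (src_cmp.trans (Ch.src_f hk)) (push_mem_AN hn hx') (by rw [tgt_cmp]; exact ty_push hn)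
        rw [← push_push hn (Ch.arr hk) e'] at a3
        rw [tgt_cmp] at a2 a4
        refine ⟨idA (tgt n), z, hn.tgt.idA, src_idA,
          a3.mem_NM (push_mem_NM hn (push_mem_NM (Ch.arr hk) (Ch.nm hJ))), ?_, ?_⟩
        · rw [tgt_idA]; exact a3.ty (ty_push hn)
        · rw [hn.id_cmp, tgt_idA]
          exact ⟨a3, _, nm_of_AN a1, a2, a4⟩
    have hkk := hk.trans hk'
    change Ac (push (Ch.f k k') (push (Ch.f i k) J)) y at ac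
    change IsOp _ y (push (Ch.f k k') x) b at op
    rw [Chain.push_push hk hk'] at ac
    obtain ⟨x', a1, a2, op'⟩ := h2 _ _ (Ch.arr hkk) (Ch.src_f hkk) ac
    rw [Ch.tgt_f hkk] at a2 op'
    obtain ⟨e1, -⟩ := op.uniq (Chain.ob k') op' (Ch.nm (Ch.push hk' hx)) hb (nm_of_AN a1)
      (nm_of_AN (mem hkk a1 a2).1) (Ch.ty (Ch.push hk' hx)) tb a2 (mem hkk a1 a2).2
    refine Chain.mem_val.2 ⟨k', y, hkk, hy, ac, ?_⟩
    rw [(G.ups.op hy op' (nm_of_AN a1) (nm_of_AN (mem hkk a1 a2).1)).2, ← e1,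
      ← nat hk hk' hx' (Ch.ty hx), Chain.val_push hk', Chain.val_push hk']
  have el : ∀ (φ : Fml) (v w : ℕ → V), (∀ n, pair (v n) (w n) ∈ Ch.val i J) →
      Sat (Ch.NK (AN μ)) ∅ φ v → Sat (Ch.NK (AN μ')) ∅ φ w := by
    intro φ v w hvw H
    choose k hk x x1 x2 x3 e using fun n => A _ (hvw n)
    obtain ⟨n₁, c1⟩ := H85.sat_congr (Ch.NK (AN μ)) ∅ φ
    obtain ⟨n₂, c2⟩ := H85.sat_congr (Ch.NK (AN μ')) ∅ φ
    obtain ⟨K, hK⟩ : ∃ K, ∀ n ≤ n₁ + n₂, k n ≤ K :=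
      ⟨(Finset.range (n₁ + n₂ + 1)).sup k, fun n hn =>
        Finset.le_sup (Finset.mem_range.2 (Nat.lt_succ_of_le hn))⟩
    have m : ∀ n, k (min n (n₁ + n₂)) ≤ K := fun n => hK _ (min_le_right _ _)
    have iK : i ≤ K := (hk _).trans (m 0)
    obtain ⟨y, hy⟩ : ∃ y : ℕ → V, ∀ n,
      y n = push (Ch.f (k (min n (n₁ + n₂))) K) (x (min n (n₁ + n₂))) := ⟨_, fun _ => rfl⟩
    have y1 : ∀ n, y n ∈ Ch.X K := fun n => hy n ▸ Ch.push (m n) (x1 _)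
    have y2 : ∀ n, y n ∈ AN μ := fun n => hy n ▸ push_mem_AN (Ch.arr (m n)) (x2 _)
    have y3 : ∀ n, ρ (Ch.f i K) (y n) ∈ Ch.X K := fun n => by
      rw [hy, ← nat (hk _) (m n) (x2 _) (Ch.ty (x1 _))]
      exact Ch.push (m n) (x3 _)
    have ev : ∀ n ≤ n₁ + n₂, v n = Ch.val K (y n) ∧ w n = Ch.val K (ρ (Ch.f i K) (y n)) := by
      intro n hn
      rw [hy, ← nat (hk _) (m n) (x2 _) (Ch.ty (x1 _)), Chain.val_push (m n),
        Chain.val_push (m n), min_eq_left hn]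
      exact pair_inj.1 (e n)
    rw [c1 v (fun n => Ch.val K (y n)) fun n hn => (ev n (by omega)).1] at H
    rw [c2 w (fun n => Ch.val K (ρ (Ch.f i K) (y n))) fun n hn => (ev n (by omega)).2]
    obtain ⟨K', hK', F⟩ := (Chain.truth G.atom (G.meetsA hμ) φ y1).1 H
    refine (Chain.truth G.atom (G.meetsA hμ') φ y3).2 ⟨K', hK', ?_⟩
    have iK' := iK.trans hK'
    have := h4 φ (Ch.f i K') (pushv (Ch.f K K') y) (Ch.arr iK') (Ch.src_f iK')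
      (fun n => ⟨push_mem_AN (Ch.arr hK') (y2 n), ty iK' (Ch.ty (Ch.push hK' (y1 n)))⟩)
      (by rwa [Ch.tgt_f iK'])
    rw [Ch.tgt_f iK'] at this
    convert this using 1
    exact funext fun n => nat iK hK' (y2 n) (Ch.ty (y1 n))
  have C : ∀ β < μ, Ch.Ord β → ∃ k, i ≤ k ∧
      pair (Ch.o β) (Ch.val k (ρ (Ch.f i k) (cko β))) ∈ Ch.val i J := fun β hβ h => by
    obtain ⟨k, hk, h'⟩ := h.mem i
    exact ⟨k, hk, Chain.val_cko k β ▸ B k hk _ h' (cko_mem_AN hβ)⟩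
  refine ⟨_, hμ'.o_mem, Chain.isOrdinal_o μ', D, d1, D', d1', Ch.val i J, Chain.val_mem hJ, d3,
    d3', ⟨⟨fun z hz => ?_, fun z hz => ?_⟩, fun φ v w hvw => ?_⟩, fun a ha => ?_, Ch.o δ', ?_,
    hμ.o_mem_o.2 lt'⟩
  · obtain ⟨k, hk, x, x1, x2, x3, rfl⟩ := A z hz
    refine pair_mem_prod.2 ⟨?_, ?_⟩
    · exact d2.ge ⟨k, x, x1, x2, rfl⟩
    · exact d2'.ge ⟨k, _, x3, (mem hk x2 (Ch.ty x1)).1, rfl⟩
  · obtain ⟨k, x, x1, x2, rfl⟩ : z ∈ Ch.NK (AN μ) := d2 ▸ hz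
    have hk := le_max_left k i
    have := B _ (le_max_right k i) _ (Ch.push hk x1) (push_mem_AN (Ch.arr hk) x2)
    rw [Chain.val_push hk] at this
    refine ⟨_, this, fun w hw => ?_⟩
    exact el (.eq 0 1) (fun _ => Ch.val k x) (cons w fun _ => _)
      (fun n => by cases n; exacts [hw, this]) rfl
  · rw [d2, d2', coe_empty]
    exact ⟨el φ v w hvw, fun H => by_contra fun hn => el (.neg φ) v w hvw hn H⟩
  · obtain ⟨β, hβ, b1, rfl⟩ := Chain.mem_o.1 ha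
    obtain ⟨k, hk, h⟩ := C β (hβ.trans lt) b1
    rwa [(h5 _ (Ch.arr hk) (Ch.src_f hk)).1 β hβ, Chain.val_cko] at h
  · obtain ⟨k, hk, h⟩ := C δ lt E.ord
    rwa [(h5 _ (Ch.arr hk) (Ch.src_f hk)).2, Chain.val_cko] at h

theorem Chain.extendible {Ch : Chain} {δ : O} (G : Ch.GenZF) (E : Ch.GenExt δ)
    (hl : ∀ μ c, δ < μ → Ob c → ∃ f μ' δ' J, Arr f ∧ src f = c ∧ J ∈ NM ∧ Ty (tgt f) J ∧
      μ < δ' ∧ LiftAt δ μ μ' δ' (tgt f) J) : Extendible Ch.N (Ch.o δ) :=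
  extendible_aux G E hl

end Pool.Agent.Lib.MP_095a31_lc
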