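import Pool.Agent.Lib.MP_095a31_lc.H85ZF

/-!
The failure of choice in the model of a generic chain.
-/

open ZFSet Order

namespace Pool.Agent.Lib.MP_095a31_lc

open MP_329f2d_lc

theorem wild_fml : ∃ ψ : Fml, ∀ W, ZF W → ∀ v : ℕ → V, (∀ i, v i ∈ W) →
    (pair (v 1) (pair (v 2) (v 0)) ∈ v 3 ↔ Sat W ∅ ψ v) :=
  Df.ex (K := ZF) (P := fun _ (v : ℕ → V) => pair (v 1) (pair (v 2) (v 0)) ∈ v 3) id

theorem wild_cons_update (z s : V) (w : ℕ → V) {n i : ℕ} (h : i < n) :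
    cons z (Function.update w (n + 3) s) i = cons z w i := by
  cases i with
  | zero => rfl
  | succ i => exact Function.update_of_ne (by omega) _ _

theorem wild_pushv_update (f s : V) (w : ℕ → V) (m : ℕ) :
    pushv f (Function.update w m s) = Function.update (pushv f w) m (push f s) := by
  funext i
  rcases eq_or_ne i m with rfl | h
  · simp [pushv]
  · simp [pushv, Function.update_of_ne h]

theorem wild_force {γ : O} {a Y e s p : V} {ψ : Fml} {n : ℕ}
    (hn : ∀ (C K : Set V) (c : V) (v w : ℕ → V), (∀ i < n, v i = w i) →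
      (Fo C K ψ c v ↔ Fo C K ψ c w))
    (ha : Arr a) (hW : WildAt γ (src a) Y) (hs : Ac (push a Y) s) (sN : s ∈ NM) (hp : lev p ≤ γ)
    (h : Fo AA NM ψ (tgt a) (cons s (cons p (cons (push a Y) fun _ => push a e)))) :
    Fo AA NM (.ex (.and (.neg (.eq 0 (n + 4))) ψ)) (tgt a)
      (Function.update (cons p (cons (push a Y) fun _ => push a e)) (n + 3) s) := by
  intro f hf ef
  have hf : Arr f := hf
  have hfa : Arr (cmp f a) := hf.cmp ha ef
  obtain ⟨g₁, g₂, a1, a2, s1, s2, t, c12, r12, ne⟩ := hW.2 (cmp f a) (push f s) hfa src_cmp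
    (hs.push_cmp hf ha ef)
  rw [tgt_cmp] at s1 s2
  refine ⟨g₁, a1, s1, push g₂ (push f s), push_mem_NM a2 (push_mem_NM hf sN), t ▸ ty_push a2,
    fun k hk ek hE => ?_, ?_⟩
  · refine ne k hk ek (Eqf.symm ?_)
    have e1 : pushv k (cons (push g₂ (push f s)) (pushv (cmp g₁ f) (Function.update
        (cons p (cons (push a Y) fun _ => push a e)) (n + 3) s))) (n + 4) =
        push k (push g₁ (push f s)) := by
      rw [push_push a1 hf s1]
      simp [pushv, cons]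
    have hE' : Eqf AA (tgt k) (push k (push g₂ (push f s))) _ := hE
    rwa [e1] at hE'
  · rw [wild_pushv_update]
    refine (hn _ _ _ _ _ fun i hi => wild_cons_update _ _ _ hi).2 ?_
    have h1 := Fo.mono a2 (s2.symm ▸ Fo.mono hf (ef.symm ▸ h))
    have e0 : ∀ x, push (cmp g₁ f) (push a x) = push g₂ (push f (push a x)) := fun x => by
      rw [push_push hf ha ef, push_push a2 hfa (s2.trans tgt_cmp.symm), ← c12,
        push_push (a1.cmp hf s1) ha (src_cmp.trans ef), cmp_assoc]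
    have e1 : push (cmp g₁ f) p = push g₂ (push f p) := by
      rw [← push_push a1 hf s1, push_congr (lev_push_le.trans hp) r12]
    have e2 : pushv (cmp g₁ f) (fun _ => push a e) = pushv g₂ (pushv f fun _ => push a e) :=
      funext fun _ => e0 e
    simp only [pushv_cons] at h1
    simp only [pushv_cons, e0, e1, e2, t]
    exact h1

theorem wild_aux {Ch : Chain} (G : Ch.GenZF) (E : Ch.GenWild)
    (hw : ∀ γ, ∃ ρ, ∀ c, Ob c → ∃ Y ∈ AN ρ, Ty c Y ∧ WildAt γ c Y) :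
    ∀ D ∈ Ch.N, Wild Ch.N D := by
  intro D hD
  have hZ : ZF (Ch.N : Set V) := G.zfull.1
  obtain ⟨α, hα, hr⟩ := G.exists_rank hD
  obtain ⟨ρ, hρ, H⟩ : ∃ ρ, Ch.Ord ρ ∧ ∀ c, Ob c → ∃ Y ∈ AN ρ, Ty c Y ∧ WildAt (α + 1) c Y := by
    obtain ⟨i, hi⟩ := hα
    obtain ⟨ρ, H⟩ := hw (α + 1)
    obtain ⟨j, -, y, hy, α', ρ', e1, rfl, H'⟩ := E.bd.dense (l := [cko α]) (i := i)
      (by simpa using hi) fun n hn _ => ⟨idA (tgt n), cko ρ, hn.tgt.idA, src_idA, cko_mem_NM,
        ty_cko, α, ρ, push_cko, rfl, H⟩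
    obtain rfl : α = α' := cko_inj.1 (push_cko.symm.trans e1)
    exact ⟨ρ', ⟨j, hy⟩, H'⟩
  obtain ⟨L, hL, eL, -⟩ := G.exists_lev hρ
  refine ⟨ZFSet.sep (fun x => x ≠ ∅) L, (cls0 (K := ZF) (S := fun _ x => x ≠ ∅) hZ).sep hZ hL,
    fun h => (mem_sep.1 h).2 rfl, fun E0 hE0 => ?_⟩
  obtain ⟨i, e, he, rfl⟩ := Chain.mem_N.1 hE0
  obtain ⟨i1, h1, m1⟩ := hα.mem i
  obtain ⟨i2, h2, m2⟩ := hρ.mem i1
  have m1' : cko α ∈ Ch.X i2 := push_cko (f := Ch.f i1 i2) (α := α) ▸ Ch.push h2 m1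
  obtain ⟨j, h3, Y, hY, α', ρ', e1, e2, YA, hW⟩ := E.set.dense (l := [cko α, cko ρ]) (i := i2)
    (by simpa using ⟨m1', m2⟩) fun n hn _ => by
      obtain ⟨Y, y1, y2, y3⟩ := H (tgt n) hn.tgt
      exact ⟨idA (tgt n), Y, hn.tgt.idA, src_idA, nm_of_AN y1, tgt_idA.symm ▸ y2, α, ρ, push_cko,
        push_cko, y1, tgt_idA.symm ▸ y3⟩
  obtain rfl : α = α' := cko_inj.1 (push_cko.symm.trans e1)
  obtain rfl : ρ = ρ' := cko_inj.1 (push_cko.symm.trans e2)
  have hij : i ≤ j := h1.trans (h2.trans h3)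
  refine ⟨Ch.val j Y, mem_sep.2 ⟨?_, ?_⟩, fun p hp s hs hps => ?_⟩
  · exact (Set.ext_iff.1 eL _).2 ⟨j, Y, hY, YA, rfl⟩
  · obtain ⟨j', h4, y, hy, hA⟩ := E.elt.dense (l := [Y]) (i := j) (by simpa using hY)
      fun n hn en => by
        obtain ⟨g, s, g1, g2, g3⟩ := hW.1 n hn en
        have hc := g1.cmp hn g2
        exact ⟨g, s, g1, g2, g3.mem_NM (push_mem_NM hc (Ch.nm hY)),
          g3.ty (tgt_cmp (g := g) (f := n) ▸ ty_push hc), g3⟩
    exact fun h => notMem_empty _ (h ▸ Chain.mem_val.2 ⟨j', y, h4, hy, hA, rfl⟩)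
  obtain ⟨ip, x, hx, xA, rfl⟩ := (G.mem_lev hα).2 ⟨Chain.N_trans D hD p hp,
    (rank_lt_of_mem hp).trans hr⟩
  obtain ⟨k1, y, h4, hy, hA, rfl⟩ := Chain.mem_val.1 hs
  obtain ⟨ψ, hψ⟩ := wild_fml
  obtain ⟨n, hn⟩ := fo_congr ψ
  have hv : ∀ k, ip ≤ k → k1 ≤ k → (∀ m, cons (push (Ch.f ip k) x) (cons (push (Ch.f j k) Y)
      fun _ => push (Ch.f j k) (push (Ch.f i j) e)) m ∈ Ch.X k) := by
    intro k k2 k3 m
    rcases m with _ | _ | m
    exacts [Ch.push k2 hx, Ch.push (h4.trans k3) hY, Ch.push (h4.trans k3) (Ch.push hij he)]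
  have k2 := le_max_left ip k1
  have k3 := le_max_right ip k1
  obtain ⟨k, h5, hF⟩ := (Chain.truth G.atom G.all ψ (i := max ip k1)
    (v := cons (push (Ch.f k1 (max ip k1)) y) (cons (push (Ch.f ip (max ip k1)) x)
      (cons (push (Ch.f j (max ip k1)) Y) fun _ => push (Ch.f j (max ip k1)) (push (Ch.f i j) e))))
    (fun m => by
      cases m with
      | zero => exact Ch.push k3 hy
      | succ m => exact hv _ k2 k3 m)).1 (by
      rw [Chain.NK_NM]
      refine (hψ _ hZ _ fun m => Chain.val_mem ?_).1 ?_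
      · cases m with
        | zero => exact Ch.push k3 hy
        | succ m => exact hv _ k2 k3 m
      · simpa only [cons, Chain.val_push k2, Chain.val_push k3, Chain.val_push (h4.trans k3),
          Chain.val_push hij] using hps)
  have k4 := k2.trans h5
  have k5 := k3.trans h5
  have k6 := h4.trans k5
  have hF' : Fo AA NM ψ (Ch.c k) (cons (push (Ch.f k1 k) y) (cons (push (Ch.f ip k) x)
      (cons (push (Ch.f j k) Y) fun _ => push (Ch.f j k) (push (Ch.f i j) e)))) := by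
    have e2 : pushv (Ch.f (max ip k1) k) (fun _ => push (Ch.f j (max ip k1)) (push (Ch.f i j) e)) =
        fun _ => push (Ch.f j k) (push (Ch.f i j) e) :=
      funext fun _ => Chain.push_push (h4.trans k3) h5
    simpa only [pushv_cons, Chain.push_push k2 h5, Chain.push_push k3 h5,
      Chain.push_push (h4.trans k3) h5, e2] using hF
  have hA' : Ac (push (Ch.f j k) Y) (push (Ch.f k1 k) y) :=
    Ch.cmp_f h4 k5 ▸ hA.push_cmp (Ch.arr k5) (Ch.arr h4) ((Ch.src_f k5).trans (Ch.tgt_f h4).symm)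
  have hθ := wild_force (e := push (Ch.f i j) e) hn (Ch.arr k6) ((Ch.src_f k6).symm ▸ hW) hA'
    (Ch.nm (Ch.push k5 hy)) (lev_le_of_AN (push_mem_AN (Ch.arr k4) xA))
    ((Ch.tgt_f k6).symm ▸ hF')
  rw [Ch.tgt_f k6] at hθ
  have hu : ∀ m, Function.update (cons (push (Ch.f ip k) x) (cons (push (Ch.f j k) Y)
      fun _ => push (Ch.f j k) (push (Ch.f i j) e))) (n + 3) (push (Ch.f k1 k) y) m ∈ Ch.X k := by
    intro m
    rcases eq_or_ne m (n + 3) with rfl | h
    · rw [Function.update_self]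
      exact Ch.push k5 hy
    · rw [Function.update_of_ne h]
      exact hv k k4 k5 m
  obtain ⟨s', s1, s2, s3⟩ := (Chain.truth G.atom G.all _ hu).2 ⟨k, le_rfl, by
    rw [Ch.refl]
    exact (fo_push_id (Chain.ob k)).2 hθ⟩
  rw [Chain.NK_NM] at s1 s3
  refine ⟨s', fun h => s2 ?_, ?_⟩
  · rw [h]
    simp only [Sat, cons, Function.update_self, Chain.val_push k5]
  · have := (hψ _ hZ _ fun m => by
      cases m with
      | zero => exact s1
      | succ m => exact Chain.val_mem (hu m)).2 s3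
    simpa [cons, Chain.val_push k4, Chain.val_push k6, Chain.val_push hij] using this

theorem Chain.wild {Ch : Chain} (G : Ch.GenZF) (E : Ch.GenWild)
    (hw : ∀ γ, ∃ ρ, ∀ c, Ob c → ∃ Y ∈ AN ρ, Ty c Y ∧ WildAt γ c Y) :
    ∀ D ∈ Ch.N, Wild Ch.N D := wild_aux G E hw

end Pool.Agent.Lib.MP_095a31_lc
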