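import Pool.Agent.Lib.MP_095a31_lc.H85Jn
import Pool.Agent.Lib.MP_095a31_lc.H85ExtN
import Pool.Agent.Lib.MP_095a31_lc.H85WildN
import Pool.Agent.Lib.MP_095a31_lc.H85Code

/-!
Assembly.
-/

open ZFSet Order

namespace Pool.Agent.Lib.MP_095a31_lc

open MP_329f2d_lc

theorem main {d₀ : V} (h : Extendible Set.univ d₀) :
    ∃ N d : V, (N : Set V).Countable ∧ ZFull N ∧ Extendible N d ∧
      (∃ P ∈ N, IsCol N d P ∧ Po P) ∧
      ∀ P ∈ N, Po P → (∃ G, Generic N P G) ∧ ∀ G, Generic N P G → ¬ AC (Ext N G) := by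
  obtain ⟨Ch, G, E, W⟩ := exists_gen (rank d₀)
  refine final_of Chain.N_countable G.zfull (Chain.extendible G E fun μ c hμ hc => ?_)
    (Chain.wild G W wild_dense)
  obtain ⟨l, t, j, h1, h2⟩ := h.lift μ
  obtain ⟨f, N, h3⟩ := (h2.jn hμ h1).lift hc
  exact ⟨f, _, _, N, h3.1, h3.2.1, h3.2.2.1, h3.2.2.2.1, h1.trans h2.lt_jo, h3.2.2.2.2⟩

end Pool.Agent.Lib.MP_095a31_lc
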