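import Pool.Agent.Lib.MP_095a31_lc.Stmt

/-!
The Axiom of Countable Choice, read in a transitive class `W` of sets.
-/

namespace Pool.Agent.Lib.MP_095a31_lc

open ZFSet Pool.Agent.Lib.MP_329f2d_lc

/-- Countable Choice holds in `W`: every set of nonempty sets that is countable in `W` has a
choice function in `W`. -/
def CC (W : Set V) : Prop :=
  ∀ a ∈ W, Ctbl W a → ∅ ∉ a → ∃ f ∈ W, IsFunc a (⋃₀ a) f ∧ ∀ x y, pair x y ∈ f → y ∈ x

end Pool.Agent.Lib.MP_095a31_lc
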