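import Pool.Agent.Lib.MP_095a31_lc.H7Gen
import Pool.Agent.Lib.MP_095a31_lc.H85Fin
import Pool.Agent.Lib.MP_095a31_lc.StmtCC

/-!
The failure of Countable Choice after the collapse, and the assembly.
-/

open ZFSet Order

namespace Pool.Agent.Lib.MP_095a31_lc

open MP_329f2d_lc

theorem rank_lt_of_finite {p : V} {L : O} (hL : IsSuccLimit L) (h : (p : Set V).Finite)
    (H : ∀ z ∈ p, rank z < L) : rank p < L := by
  rcases (p : Set V).eq_empty_or_nonempty with e | e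
  · exact (rank_le_iff.2 fun z hz => absurd (e ▸ hz : z ∈ (∅ : Set V)) (by simp)).trans_lt hL.pos
  · obtain ⟨z, z1, z2⟩ := Set.exists_max_image _ rank h e
    exact (rank_le_iff.2 fun w hw => lt_add_one_iff.2 (z2 w hw)).trans_lt (hL.add_one_lt (H z z1))

theorem FinP.rank_lt {N : Set V} {d p : V} (h : FinP N d p) :
    rank p < rank d + Ordinal.omega0 := by
  have hL := Ordinal.isSuccLimit_add (rank d) Ordinal.isSuccLimit_omega0
  refine rank_lt_of_finite hL h.1 fun z hz => ?_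
  obtain ⟨n, n1, x, -, x2, rfl⟩ := h.2.1 z hz
  rw [rank_opair]
  exact hL.succ_lt (hL.succ_lt (max_lt ((rank_omega ▸ rank_lt_of_mem n1).trans_le le_add_self)
    (x2.trans_le le_self_add)))

theorem FinP.insert {N : Set V} {d p n x : V} (h : FinP N d p) (hn : n ∈ omega) (hx : x ∈ N)
    (hr : rank x < rank d) (H : ∀ y, pair n y ∉ p) : FinP N d (insert (pair n x) p) := by
  refine ⟨by simpa using h.1, fun z hz => ?_, fun m y y' h1 h2 => ?_⟩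
  · rcases mem_insert_iff.1 hz with rfl | hz
    exacts [⟨n, hn, x, hx, hr, rfl⟩, h.2.1 z hz]
  · rcases mem_insert_iff.1 h1 with e | h1 <;> rcases mem_insert_iff.1 h2 with e' | h2
    · exact (pair_inj.1 e).2.trans (pair_inj.1 e').2.symm
    · exact absurd ((pair_inj.1 e).1 ▸ h2) (H _)
    · exact absurd ((pair_inj.1 e').1 ▸ h1) (H _)
    · exact h.2.2 _ _ _ h1 h2

theorem IsCol.le_iff {N : Set V} {d P p q : V} (h : IsCol N d P) :
    pair p q ∈ P ↔ FinP N d p ∧ FinP N d q ∧ q ⊆ p :=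
  (h _).trans ⟨fun ⟨_, _, e, H⟩ => by obtain ⟨rfl, rfl⟩ := pair_inj.1 e; exact H,
    fun H => ⟨p, q, rfl, H⟩⟩

set_option synthInstance.maxSize 100000 in
/-- The collapse makes every nonempty image of `d` countable. -/
theorem ctbl_of_col {N : Set V} (hN : ZFm N ∅) {d P G F Φ Y₀ : V} (hd : d ∈ N) (hP : P ∈ N)
    (hC : IsCol N d P) (hPo : Po P) (hG : Generic N P G) (hF : F ∈ N) (hΦ : Φ ∈ N)
    (ho : Onto Φ d F) (h0 : Y₀ ∈ F) : Ctbl (Ext N G) F := by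
  have hW := ext_zfm hN hP hPo hG
  have hs := subset_ext hN hP hPo hG
  have hh := (cls4 (K := ZF) (S := fun _ G Φ d Y z => ∃ p ∈ G, ∃ x, pair (fst z) x ∈ p ∧
    (pair x (snd z) ∈ Φ ∨ x ∉ d ∧ snd z = Y)) hW (self_mem_ext hN hP hPo hG) (hs hΦ) (hs hd)
    (hs (hN.mem h0 hF))).sep hW (tm1 (K := ZF) (t := fun _ a => prod omega a) hW (hs hF))
  refine .inr ⟨_, hh, ⟨fun z hz => (mem_sep.1 hz).1, fun n hn => ?_⟩, fun Y hY => ?_⟩
  · obtain ⟨x₀, x1, -⟩ := ho.2 Y₀ h0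
    obtain ⟨r, r1, x, r2⟩ := Generic.meet' hN hP hPo hG (cls1 (K := ZF)
      (S := fun _ n r => ∃ x, pair n x ∈ r) hN (hN.mem hn hN.omega)) fun q hq => by
        by_cases H : ∃ x, pair n x ∈ q
        · exact ⟨q, hq, H⟩
        · have h1 := (hC.le_iff.1 hq).1
          exact ⟨_, hC.le_iff.2 ⟨h1.insert hn (hN.mem x1 hd) (rank_lt_of_mem x1)
            (not_exists.1 H), h1, fun _ h => mem_insert_of_mem _ h⟩, x₀, mem_insert _ _⟩
    have key : ∀ Y, pair n Y ∈ ZFSet.sep (fun z => ∃ p ∈ G, ∃ x, pair (fst z) x ∈ p ∧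
        (pair x (snd z) ∈ Φ ∨ x ∉ d ∧ snd z = Y₀)) (prod omega F) ↔
        Y ∈ F ∧ (pair x Y ∈ Φ ∨ x ∉ d ∧ Y = Y₀) := fun Y => by
      simp only [mem_sep, pair_mem_prod, fst_pair, snd_pair]
      refine ⟨fun ⟨h1, p, p1, x', p2, p3⟩ => ⟨h1.2, ?_⟩, fun h => ⟨⟨hn, h.1⟩, r, r1, x, r2, h.2⟩⟩
      obtain ⟨t, -, t1, t2⟩ := hG.1.meet r1 p1
      have t3 := hC.le_iff.1 t1
      rwa [t3.1.2.2 n x x' (t3.2.2 r2) ((hC.le_iff.1 t2).2.2 p2)]
    by_cases hx : x ∈ d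
    · obtain ⟨Y, y1, y2⟩ := ho.1.2 x hx
      exact ⟨Y, (key Y).2 ⟨(pair_mem_prod.1 (ho.1.1 y1)).2, .inl y1⟩, fun Y' h =>
        y2 Y' (((key Y').1 h).2.resolve_right fun h' => h'.1 hx)⟩
    · exact ⟨Y₀, (key Y₀).2 ⟨h0, .inr ⟨hx, rfl⟩⟩, fun Y' h => (((key Y').1 h).2.resolve_left
        fun h' => hx (pair_mem_prod.1 (ho.1.1 h')).1).2⟩
  · obtain ⟨x, x1, x2⟩ := ho.2 Y hY
    obtain ⟨r, r1, n, n1, r2⟩ := Generic.meet' hN hP hPo hG (cls1 (K := ZF)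
      (S := fun _ x r => ∃ n ∈ omega, pair n x ∈ r) hN (hN.mem x1 hd)) fun q hq => by
        have h1 := (hC.le_iff.1 hq).1
        obtain ⟨k, hk⟩ := ((h1.1.image fst).preimage (f := nat)
          fun _ _ _ _ e => nat_inj.1 e).exists_notMem
        exact ⟨_, hC.le_iff.2 ⟨h1.insert (nat_mem_omega k) (hN.mem x1 hd) (rank_lt_of_mem x1)
          fun y hy => hk ⟨_, hy, fst_pair _ _⟩, h1, fun _ h => mem_insert_of_mem _ h⟩,
          _, nat_mem_omega k, mem_insert _ _⟩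
    exact ⟨n, n1, mem_sep.2 ⟨pair_mem_prod.2 ⟨n1, hY⟩, r, r1, x, by simpa using r2,
      .inl (by simpa using x2)⟩⟩

theorem WildC.not_cc {N : Set V} (hN : ZFm N ∅) {d P G : V} (hd : d ∈ N) (hP : P ∈ N)
    (hC : IsCol N d P) (hPo : Po P) (hw : WildC N d) (hG : Generic N P G) : ¬ CC (Ext N G) := by
  intro h
  obtain ⟨F, f1, Φ, f0, fo, f2, f3⟩ := hw
  obtain ⟨Y₀, h0, -⟩ := f3 ∅ hN.empty
  obtain ⟨f, h1, h2, h3⟩ := h F (subset_ext hN hP hPo hG f1)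
    (ctbl_of_col hN hd hP hC hPo hG f1 f0 fo h0) f2
  obtain ⟨E, e1, e2, e3⟩ := exists_funNm' hN hP hPo hG f1 (hN.union _ f1) h1 fun x y z a b =>
    (h2.2 x (pair_mem_prod.1 (h2.1 a)).1).unique a b
  obtain ⟨Y, y1, y2⟩ := f3 E e1
  obtain ⟨s, s1, -⟩ := h2.2 Y y1
  obtain ⟨p, p1, p2⟩ := (e3 Y y1 s (pair_mem_prod.1 (h2.1 s1)).2).1 s1
  obtain ⟨s', a, b⟩ := y2 p (Generic.mem hN hP hG p1) (hC.le_iff.1 (hG.1.cond p1)).1.rank_lt s
    (h3 _ _ s1) p2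
  exact a (e2.uniq _ _ _ _ b p2)

theorem main_cc {d₀ : V} (h : Extendible Set.univ d₀) :
    ∃ N d : V, (N : Set V).Countable ∧ ZFull N ∧ Extendible N d ∧
      ∃ P ∈ N, IsCol N d P ∧ Po P ∧ (∃ G, Generic N P G) ∧
        ∀ G, Generic N P G → ¬ CC (Ext N G) := by
  obtain ⟨Ch, G, E, W⟩ := exists_gen' (rank d₀)
  have hz := G.zfull
  have he : Extendible Ch.N (Ch.o (rank d₀)) := Chain.extendible G E fun μ c hμ hc => by
    obtain ⟨l, t, j, h1, h2⟩ := h.lift μ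
    obtain ⟨f, N, h3⟩ := (h2.jn hμ h1).lift hc
    exact ⟨f, _, _, N, h3.1, h3.2.1, h3.2.2.1, h3.2.2.2.1, h1.trans h2.lt_jo, h3.2.2.2.2⟩
  obtain ⟨l, t, j, -, h2⟩ := h.lift 0
  obtain ⟨P, p1, p2, p3⟩ : ∃ P ∈ Ch.N, IsCol Ch.N (Ch.o (rank d₀)) P ∧ Po P := by
    obtain ⟨D, d1, -, d2⟩ := G.exists_lev (Chain.ord_of_meets E.crit)
    exact exists_col hz.1 d1 d2 hz.2
  exact ⟨_, _, Chain.N_countable, hz, he, P, p1, p2, p3, exists_generic' Chain.N_countable p3,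
    fun _ hG => (chain_wildC G E W h2.lam).not_cc hz.1 he.1 p1 p2 p3 hG⟩

end Pool.Agent.Lib.MP_095a31_lc
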