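import Pool.Agent.Lib.MP_095a31_lc.H91Cat

/-!
A sequence of limit levels above a member of `Lam`.
-/

open ZFSet Order

namespace Pool.Agent.Lib.MP_095a31_lc

open MP_329f2d_lc

theorem Lam.normal {η : O} (h : Lam η) {F : O → O} (hF : IsNormal F) (h0 : F 0 < η)
    (hs : ∀ z, F z < η → F (z + 1) < η) (y : O) : y < η → F y < η := by
  induction y using Ordinal.limitRecOn with
  | zero => exact fun _ => h0
  | add_one z ih => exact fun hz => hs z (ih ((lt_add_one z).trans hz))
  | limit y hy ih =>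
    intro hyη
    obtain ⟨b, b1, b2⟩ := h.2 y.toZFSet (by simpa using hyη) (fun x => F (rank x)) fun x hx => by
      have : rank x < y := by simpa using rank_lt_of_mem hx
      exact ih _ this (this.trans hyη)
    refine ((hF.le_iff_forall_le hy).2 fun z hz => ?_).trans_lt b1
    simpa using (b2 z.toZFSet (Ordinal.toZFSet_mem_toZFSet_iff.2 hz)).le

theorem Lam.add_lt {η x y : O} (h : Lam η) (hx : x < η) (hy : y < η) : x + y < η :=
  h.normal (Ordinal.isNormal_add_right x) (by simpa using hx)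
    (fun z hz => by rw [← add_assoc]; exact h.1.add_one_lt hz) y hy

theorem Lam.mul_lt {η x y : O} (h : Lam η) (h0 : 0 < x) (hx : x < η) (hy : y < η) : x * y < η :=
  h.normal (Ordinal.isNormal_mul_right h0) (by simpa using h0.trans hx)
    (fun z hz => by rw [mul_add_one]; exact h.add_lt hz hx) y hy

/-- The limit levels above `δ`. -/
noncomputable def lv (δ α : O) : O := δ + Ordinal.omega0 * (α + 1)

theorem lv_lim (δ α : O) : IsSuccLimit (lv δ α) :=
  Ordinal.isSuccLimit_add _ (Ordinal.isSuccLimit_mul_left Ordinal.isSuccLimit_omega0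
    (bot_le.trans_lt (lt_add_one α)))

theorem lt_lv (δ α : O) : δ < lv δ α :=
  lt_add_of_pos_right δ (mul_pos Ordinal.omega0_pos (bot_le.trans_lt (lt_add_one α)))

theorem lv_lt {δ α : O} (h : IsSuccLimit δ) (hα : α < δ) : lv δ α < δ + Ordinal.omega0 * δ :=
  (Ordinal.isNormal_add_right δ).strictMono
    ((Ordinal.isNormal_mul_right Ordinal.omega0_pos).strictMono (h.add_one_lt hα))

theorem lv_mono {δ α β : O} (h : α ≤ β) : lv δ α ≤ lv δ β :=
  (Ordinal.isNormal_add_right δ).monotone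
    ((Ordinal.isNormal_mul_right Ordinal.omega0_pos).monotone (add_le_add h le_rfl))

theorem exists_lv {δ γ : O} (h : IsSuccLimit δ) (hγ : γ < δ + Ordinal.omega0 * δ) :
    ∃ α < δ, γ < lv δ α := by
  obtain ⟨x, x1, x2⟩ := (Ordinal.lt_add_iff_of_isSuccLimit
    (Ordinal.isSuccLimit_mul_right Ordinal.omega0_pos h)).1 hγ
  obtain ⟨α, a1, a2⟩ := (Ordinal.lt_mul_iff_of_isSuccLimit h).1 x1
  refine ⟨α, a1, x2.trans ((Ordinal.isNormal_add_right δ).strictMono (a2.trans ?_))⟩
  exact (Ordinal.isNormal_mul_right Ordinal.omega0_pos).strictMono (lt_add_one α)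

theorem Lam.lm_top {δ : O} (h : Lam δ) : Lm (δ + Ordinal.omega0 * δ) := by
  refine ⟨Ordinal.isSuccLimit_add _ (Ordinal.isSuccLimit_mul_right Ordinal.omega0_pos h.1),
    fun η h1 h2 a ha f hf => ?_⟩
  have h3 : η ≤ δ := not_lt.1 fun h3 => h1.not_gt (h2.add_lt h3 (h2.mul_lt Ordinal.omega0_pos
    ((Ordinal.omega0_le_of_isSuccLimit h.1).trans_lt h3) h3))
  choose! g g1 g2 using fun x hx => exists_lv h.1 (hf x hx)
  obtain ⟨b, b1, b2⟩ := h.2 a (ha.trans_le h3) g g1
  exact ⟨lv δ b, lv_lt h.1 b1, fun x hx => (g2 x hx).trans_le (lv_mono (b2 x hx).le)⟩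

/-- Every object has an empty level among the limit levels above `δ`. -/
theorem East.exists_lv {c : V} {δ : O} (H : East c) (h : Lam δ) :
    ∃ α < δ, ∀ k y, ¬ El c (lv δ α) k y := by
  obtain ⟨γ, g1, g2⟩ := H _ h.lm_top
  obtain ⟨α, a1, a2⟩ := MP_095a31_lc.exists_lv h.1 g1
  exact ⟨α, a1, g2 _ a2.le (lv_lt h.1 a1) (lv_lim δ α)⟩

end Pool.Agent.Lib.MP_095a31_lc
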