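import Pool.Agent.Lib.MP_095a31_lc.H85Code
import Pool.Agent.Lib.MP_095a31_lc.H7Lev

/-!
The name of the sequence of the sets of points of the limit levels above `δ`.
-/

open ZFSet Order

namespace Pool.Agent.Lib.MP_095a31_lc

open MP_329f2d_lc

/-- Names for the sets of all points of a level. -/
theorem exists_pts : ∃ Y : O → V → V,
    (∀ η c, Ob c → Y η c ∈ NM ∧ Ty c (Y η c) ∧ lev (Y η c) ≤ η + 1) ∧
    (∀ η, 1 ≤ η → ∀ f, Arr f → ∃ g s, Arr g ∧ src g = tgt f ∧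
      Ac (push (cmp g f) (Y η (src f))) s) ∧
    ∀ η, 1 ≤ η → ∀ a, Arr a → (∀ k y, ¬ El (tgt a) η k y) →
      WildAt η (tgt a) (push a (Y η (src a))) := by
  obtain ⟨C, ρ, C1, C2, C3⟩ := exists_code
  let Y : O → V → V := fun η c => mkN (η + 1) c (ZFSet.sep (fun u => lev (snd u) ≤ η + 1 ∧
    ∃ y, Pt (tgt (fst u)) η y ∧ C η (tgt (fst u)) y (snd u)) (prod (M (η + 1)) (AN (ρ η))))
  have ne : ∀ η, 1 ≤ η → ∀ f, Arr f → ∃ g s, Arr g ∧ src g = tgt f ∧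
      Ac (push (cmp g f) (Y η (src f))) s := fun η h2 f hf => by
    have h0 := lt_add_one η
    obtain ⟨l, y, l1, l2, l3, -⟩ := new_pt h2 hf.tgt
    have a := l1.cmp hf l2
    have a' := a.resA (η + 1)
    have p : Pt (tgt (resA (η + 1) (cmp l f))) η y := by simpa [Pt_res h0] using l3
    obtain ⟨t, t1, -, t3, t4⟩ := C1 η _ y a'.tgt p
    refine ⟨l, push (idA (tgt (resA (η + 1) (cmp l f)))) t, l1, l2, ?_⟩
    rw [← src_cmp (g := l)]
    refine (ac_push_mkN a).2 ?_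
    exact ⟨resA (η + 1) (cmp l f), t, idA _, mem_sep.2 ⟨pair_mem_prod.2 ⟨a.resA_mem _, t1⟩, by
      simpa only [fst_pair, snd_pair] using ⟨t3, y, p, t4⟩⟩,
      a'.tgt.idA_mem (by simp), src_idA, a'.id_cmp.symm, t3, rfl⟩
  refine ⟨Y, fun η c hc => ⟨nm_mem_NM (hc.top_mem _) fun u hu => ?_, ty_mkN hc, lev_mkN.le⟩, ne,
    fun η h2 a ha hno => ⟨fun f hf e => ?_, fun f s hf e H => ?_⟩⟩
  · obtain ⟨k, hk, t, ht, rfl⟩ := mem_prod.1 (mem_sep.1 hu).1
    exact ⟨k, hk, t, nm_of_AN ht, rfl⟩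
  · obtain ⟨g, s, g1, g2, g3⟩ := ne η h2 _ (hf.cmp ha e)
    rw [tgt_cmp] at g2
    refine ⟨g, s, g1, g2, ?_⟩
    rwa [push_push (g1.cmp hf g2) ha (src_cmp.trans e), cmp_assoc, ← src_cmp (g := f)]
  · have h0 := lt_add_one η
    have hfa := hf.cmp ha e
    rw [push_push hf ha e, ← src_cmp (g := f)] at H
    obtain ⟨k, t, l, a1, a2, a3, a4, a5, rfl⟩ := (ac_push_mkN hfa).1 H
    obtain ⟨-, y, b1, b3⟩ := (mem_sep.1 a1).2
    simp only [fst_pair, snd_pair] at b1 b3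
    have al := arr_of_mem a2
    rw [← a3] at b1 b3
    obtain ⟨z, hz⟩ := b1.act al
    have e1 : tgt l = res (η + 1) (tgt f) := by simpa using (congrArg tgt a4).symm
    obtain ⟨g₁, g₂, y₁, y₂, c1, c2, c3, c4, c5, c6, c7, c8, c9, c0⟩ := double_pt h2 hf
      ((Pt_res h0).1 (e1 ▸ (hz.pt al).2)) fun ⟨x, hx⟩ =>
        hno _ _ (e ▸ ((hf.lev η).ap _ _ _ hx).1)
    refine ⟨g₁, g₂, c1, c2, c3, c4, c5, c6, c7, fun g hg e' H => c0 ?_⟩
    have b4 := C2 η l y z t al hz b3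
    have b5 : lev (push l t) ≤ η + 1 := lev_push_le.trans a5
    have key : ∀ {g' y'}, Arr g' → src g' = tgt f → src g = tgt g' → Act g' η z y' → ∃ w,
        Act g η y' w ∧ C η (res (η + 1) (tgt g)) w (push g (push g' (push l t))) := by
      intro g' y' d1 d2 d3 d4
      obtain ⟨w, hw⟩ := (d3 ▸ (d4.pt d1).2 : Pt (src g) η y').act hg
      have d5 := hg.cmp d1 d3
      have := C2 η _ z w _ (d5.resA (η + 1)) ((Act_resA h0).2 ((act_cmp hg d1 d3).2 ⟨_, d4, hw⟩))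
        (by rwa [src_resA, src_cmp, d2, ← e1])
      rw [tgt_resA, tgt_cmp, push_resA b5, ← push_push hg d1 d3] at this
      exact ⟨w, hw, this⟩
    obtain ⟨w₁, d1, d2⟩ := key c1 c3 e' c8
    obtain ⟨w₂, d3, d4⟩ := key c2 c4 (e'.trans c5) c9
    obtain rfl := C3 η _ _ _ _ _ (hg.tgt.res _) ((Pt_res h0).2 (d1.pt hg).2)
      ((Pt_res h0).2 (d3.pt hg).2) d2 d4 ((eqf_res hg.tgt
        (lev_push_le.trans (lev_push_le.trans b5)) (lev_push_le.trans (lev_push_le.trans b5))).2 H)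
    exact d1.inj hg d3

/-- At the stage `c`, `Φ` names a function on `δ` with nonempty values, and the value at `α` can be
doubled over every later stage without points of the level `lv δ α`. -/
def FamAt (δ : O) (c Φ : V) : Prop :=
  ∃ Y : O → V, (∀ α, Y α ∈ NM) ∧
    (∀ f z, Arr f → src f = c → Ac (push f Φ) z →
      ∃ α < δ, IsOp (tgt f) z (cko α) (push f (Y α))) ∧
    (∀ f α, Arr f → src f = c → α < δ →
      ∃ z, Ac (push f Φ) z ∧ IsOp (tgt f) z (cko α) (push f (Y α))) ∧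
    (∀ f α, Arr f → src f = c → ∃ g s, Arr g ∧ src g = tgt f ∧ Ac (push (cmp g f) (Y α)) s) ∧
    ∀ f α, Arr f → src f = c → (∀ k y, ¬ El (tgt f) (lv δ α) k y) →
      WildAt (lv δ α) (tgt f) (push f (Y α))

theorem fam_dense (δ : O) {c : V} (hc : Ob c) : ∃ Φ ∈ NM, Ty c Φ ∧ FamAt δ c Φ := by
  obtain ⟨Y, y1, y2, y3⟩ := exists_pts
  have h1 : ∀ α, 1 ≤ lv δ α := fun α => Order.one_le_iff_pos.2 (lv_lim δ α).pos
  have op : ∀ f α, Arr f → src f = c → α < δ → IsOp (tgt f)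
      (push f (opN (lv δ δ + 1) c (cko α) (Y (lv δ α) c))) (cko α) (push f (Y (lv δ α) c)) := by
    rintro f α hf rfl hα
    have := (isOp_opN (γ := lv δ δ + 1) (a := cko α) hc cko_mem_NM (y1 (lv δ α) _ hc).1
      (by simp [cko]) ((y1 _ _ hc).2.2.trans (add_le_add (lv_mono hα.le) le_rfl))).push hf
    rwa [push_cko] at this
  refine ⟨mkN (lv δ δ + 1) c (img (fun x => pair (idA (res (lv δ δ + 1) c))
    (opN (lv δ δ + 1) c (cko (rank x)) (Y (lv δ (rank x)) c))) δ.toZFSet),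
    nm_mem_NM (hc.top_mem _) fun u hu => ?_, ty_mkN hc, fun α => Y (lv δ α) c,
    fun α => (y1 _ c hc).1, fun f z hf e H => ?_, fun f α hf e hα => ⟨_, ?_, op f α hf e hα⟩,
    fun f α hf e => e ▸ y2 _ (h1 α) f hf, fun f α hf e hno => e ▸ y3 _ (h1 α) f hf hno⟩
  · obtain ⟨x, -, rfl⟩ := mem_img.1 hu
    exact ⟨_, hc.top_mem _, _, opN_mem_NM hc cko_mem_NM (y1 _ c hc).1, rfl⟩
  · subst e
    obtain ⟨k, t, l, a1, a2, a3, a4, a5, rfl⟩ := (ac_push_mkN hf).1 H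
    obtain ⟨x, hx, e'⟩ := mem_img.1 a1
    obtain ⟨rfl, rfl⟩ := pair_inj.1 e'
    rw [tgt_idA] at a3
    rw [← a3, (arr_of_mem a2).cmp_id] at a4
    subst a4
    have hx' : rank x < δ := by simpa using rank_lt_of_mem hx
    rw [push_resA a5]
    exact ⟨_, hx', op f _ hf rfl hx'⟩
  · subst e
    refine (ac_push_mkN hf).2 ⟨_, _, resA (lv δ δ + 1) f, mem_img.2 ⟨α.toZFSet,
      Ordinal.toZFSet_mem_toZFSet_iff.2 hα, rfl⟩, hf.resA_mem _, by simp, ?_, lev_opN.le, ?_⟩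
    · rw [← src_resA, (hf.resA _).cmp_id]
    · rw [push_resA lev_opN.le, Ordinal.rank_toZFSet]

end Pool.Agent.Lib.MP_095a31_lc
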