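import Pool.Agent.Lib.MP_095a31_lc.H85WildN
import Pool.Agent.Lib.MP_095a31_lc.H7Fam

/-!
A family indexed by the extendible cardinal without selectors in the model of a generic chain.
-/

open ZFSet Order

namespace Pool.Agent.Lib.MP_095a31_lc

open MP_329f2d_lc

/-- The tasks for the family indexed by `δ`. -/
structure Chain.GenFam (Ch : Chain) (δ : O) : Prop where
  fam : Ch.Meets fun c _ y => FamAt δ c y
  emp : Ch.Meets fun c _ y => ∃ α < δ, y = cko α ∧ ∀ k w, ¬ El c (lv δ α) k w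
  suc : Ch.Meets fun _ l y => ∃ β, env l 0 = cko β ∧ y = cko (β + 1)
  elt : Ch.Meets fun _ l y => Ac (env l 0) y

theorem exists_gen' (δ : O) : ∃ Ch : Chain, Ch.GenZF ∧ Ch.GenExt δ ∧ Ch.GenFam δ := by
  have : Countable Fml := H85.code_inj.countable
  obtain ⟨Ch, h1, h2⟩ := exists_chain₂ (ι := Fml) (κ := ℕ) (fun φ =>
    [fun c l _ => Fo AA NM φ c (env l),
     fun c l y => y ∈ NM ∧ Fo AA NM φ c (cons y (env l)),
     fun c l _ => ∃ γ, env l 0 = cko γ ∧ Fo AA (AN γ) φ c (env l.tail),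
     fun c l y => ∃ γ, env l 0 = cko γ ∧ y ∈ AN γ ∧ Fo AA (AN γ) φ c (cons y (env l.tail)),
     fun c l y => ∃ γ, env l 0 = cko γ ∧ y ∈ AN γ ∧ Fo AA NM φ c (cons y (env l.tail)),
     fun c l y => ∃ β, env l 0 = cko β ∧ y ∈ AN (β + 1) ∧ SepAt NM φ β c (env l.tail) y,
     fun c l y => ∃ β γ, env l 0 = cko β ∧ y = cko γ ∧ ColAt φ β γ c (env l.tail)])
    fun n =>
    [fun c l y => Ac (env l 1) y ∧ Eqf AA c (env l 0) y,
     fun c l y => Ac (env l 1) y ∧ Eqf AA c y (env l 0),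
     fun c l y => (Ac (env l 0) y ∧ ∀ g, Arr g → src g = c → ∀ z, Ac (push g (env l 1)) z →
        ¬ Eqf AA (tgt g) (push g y) z) ∨
      (Ac (env l 1) y ∧ ∀ g, Arr g → src g = c → ∀ z, Ac (push g (env l 0)) z →
        ¬ Eqf AA (tgt g) z (push g y)),
     fun c l y => ∃ w, IsUp c (env l 0) y w,
     fun c l y => IsUp c (env l 0) (env l 1) y,
     fun _ _ y => y = cko n,
     fun _ _ y => y = cko Ordinal.omega0,
     fun _ l y => ∃ α, y = cko α ∧ env l 0 ∈ AN α,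
     fun _ l y => ∃ α β, env l 1 = cko α ∧ y = cko β ∧ β < α ∧ env l 0 ∈ AN (β + 1),
     fun c l y => ∃ α, env l 0 = cko α ∧ y = vN α c,
     fun _ _ y => y = cko δ,
     fun c l y => ∃ μ μ' δ' J, env l 0 = cko μ ∧ y = cko μ' ∧ J ∈ NM ∧ Ty c J ∧
      μ < δ' ∧ LiftAt δ μ μ' δ' c J,
     fun c l y => ∃ μ μ' δ', env l 0 = cko μ ∧ env l 1 = cko μ' ∧ μ < δ' ∧
      LiftAt δ μ μ' δ' c y,
     fun c l y => Ac (env l 0) y ∧ ∃ b ∈ NM, Ty c b ∧ IsOp c y (env l 1) b,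
     fun c _ y => FamAt δ c y,
     fun c _ y => ∃ α < δ, y = cko α ∧ ∀ k w, ¬ El c (lv δ α) k w,
     fun _ l y => ∃ β, env l 0 = cko β ∧ y = cko (β + 1),
     fun _ l y => Ac (env l 0) y]
  simp only [List.mem_cons, List.not_mem_nil, or_false, forall_eq_or_imp, forall_eq] at h1 h2
  obtain ⟨a1, a2, a3, a4, a5, -, a7, a8, a9, a10, a11, a12, a13, a14, a15, a16, a17, a18⟩ := h2 0
  exact ⟨Ch, ⟨⟨a1, a2, a3⟩, ⟨a4, a5⟩, ⟨fun _ _ => push_mem_NM, subset_rfl, fun φ => (h1 φ).1,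
    fun φ => (h1 φ).2.1⟩, fun φ => (h1 φ).2.2.1, fun φ => (h1 φ).2.2.2.1,
    fun φ => (h1 φ).2.2.2.2.1, fun n => (h2 n).2.2.2.2.2.1, a7, a8, a9, a10,
    fun φ => (h1 φ).2.2.2.2.2.1, fun φ => (h1 φ).2.2.2.2.2.2⟩, ⟨a11, a12, a13, a14⟩,
    ⟨a15, a16, a17, a18⟩⟩

theorem wild_core {Ch : Chain} (G : Ch.GenZF) {γ α : O} (hγ : α + 1 ≤ γ) {i j k₀ : ℕ}
    {e Y p s : V} (hij : i ≤ j) (he : e ∈ Ch.X i) (hk : j ≤ k₀)
    (hY : push (Ch.f j k₀) Y ∈ Ch.X k₀) (hW : WildAt γ (Ch.c j) Y) (hp : p ∈ Ch.NK (AN α))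
    (hs : s ∈ Ch.val j Y) (hps : pair p (pair (Ch.val j Y) s) ∈ Ch.val i e) :
    ∃ s', s' ≠ s ∧ pair p (pair (Ch.val j Y) s') ∈ Ch.val i e := by
  have hZ : ZF (Ch.N : Set V) := G.zfull.1
  obtain ⟨ip, x, hx, xA, rfl⟩ := hp
  obtain ⟨k1, y, h4, hy, hA, rfl, hk1⟩ : ∃ k1 y, j ≤ k1 ∧ y ∈ Ch.X k1 ∧
      Ac (push (Ch.f j k1) Y) y ∧ Ch.val k1 y = s ∧ k₀ ≤ k1 := by
    obtain ⟨k1, y, h4, hy, hA, rfl⟩ := Chain.mem_val.1 hs
    have m := le_max_left k1 k₀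
    exact ⟨max k1 k₀, _, h4.trans m, Ch.push m hy, Chain.ac_push h4 m hA, Chain.val_push m,
      le_max_right _ _⟩
  have hY' : ∀ k, k1 ≤ k → push (Ch.f j k) Y ∈ Ch.X k := fun k h =>
    Chain.push_push hk (hk1.trans h) ▸ Ch.push (hk1.trans h) hY
  obtain ⟨ψ, hψ⟩ := wild_fml
  obtain ⟨n, hn⟩ := fo_congr ψ
  have hv : ∀ k, ip ≤ k → k1 ≤ k → (∀ m, cons (push (Ch.f ip k) x) (cons (push (Ch.f j k) Y)
      fun _ => push (Ch.f j k) (push (Ch.f i j) e)) m ∈ Ch.X k) := by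
    intro k k2 k3 m
    rcases m with _ | _ | m
    exacts [Ch.push k2 hx, hY' k k3, Ch.push (h4.trans k3) (Ch.push hij he)]
  have k2 := le_max_left ip k1
  have k3 := le_max_right ip k1
  obtain ⟨k, h5, hF⟩ := (Chain.truth G.atom G.all ψ (i := max ip k1)
    (v := cons (push (Ch.f k1 (max ip k1)) y) (cons (push (Ch.f ip (max ip k1)) x)
      (cons (push (Ch.f j (max ip k1)) Y) fun _ => push (Ch.f j (max ip k1)) (push (Ch.f i j) e))))
    (fun m => by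
      cases m with
      | zero => exact Ch.push k3 hy
      | succ m => exact hv _ k2 k3 m)).1 (by
      rw [Chain.NK_NM]
      refine (hψ _ hZ _ fun m => Chain.val_mem ?_).1 ?_
      · cases m with
        | zero => exact Ch.push k3 hy
        | succ m => exact hv _ k2 k3 m
      · simpa only [cons, Chain.val_push k2, Chain.val_push k3, Chain.val_push (h4.trans k3),
          Chain.val_push hij] using hps)
  have k4 := k2.trans h5
  have k5 := k3.trans h5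
  have k6 := h4.trans k5
  have hF' : Fo AA NM ψ (Ch.c k) (cons (push (Ch.f k1 k) y) (cons (push (Ch.f ip k) x)
      (cons (push (Ch.f j k) Y) fun _ => push (Ch.f j k) (push (Ch.f i j) e)))) := by
    have e2 : pushv (Ch.f (max ip k1) k) (fun _ => push (Ch.f j (max ip k1)) (push (Ch.f i j) e)) =
        fun _ => push (Ch.f j k) (push (Ch.f i j) e) :=
      funext fun _ => Chain.push_push (h4.trans k3) h5
    simpa only [pushv_cons, Chain.push_push k2 h5, Chain.push_push k3 h5,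
      Chain.push_push (h4.trans k3) h5, e2] using hF
  have hA' : Ac (push (Ch.f j k) Y) (push (Ch.f k1 k) y) :=
    Ch.cmp_f h4 k5 ▸ hA.push_cmp (Ch.arr k5) (Ch.arr h4) ((Ch.src_f k5).trans (Ch.tgt_f h4).symm)
  have hθ := wild_force (e := push (Ch.f i j) e) hn (Ch.arr k6) ((Ch.src_f k6).symm ▸ hW) hA'
    (Ch.nm (Ch.push k5 hy)) ((lev_le_of_AN (push_mem_AN (Ch.arr k4) xA)).trans hγ)
    ((Ch.tgt_f k6).symm ▸ hF')
  rw [Ch.tgt_f k6] at hθ
  have hu : ∀ m, Function.update (cons (push (Ch.f ip k) x) (cons (push (Ch.f j k) Y)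
      fun _ => push (Ch.f j k) (push (Ch.f i j) e))) (n + 3) (push (Ch.f k1 k) y) m ∈ Ch.X k := by
    intro m
    rcases eq_or_ne m (n + 3) with rfl | h
    · rw [Function.update_self]
      exact Ch.push k5 hy
    · rw [Function.update_of_ne h]
      exact hv k k4 k5 m
  obtain ⟨s', s1, s2, s3⟩ := (Chain.truth G.atom G.all _ hu).2 ⟨k, le_rfl, by
    rw [Ch.refl]
    exact (fo_push_id (Chain.ob k)).2 hθ⟩
  rw [Chain.NK_NM] at s1 s3
  refine ⟨s', fun h => s2 ?_, ?_⟩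
  · rw [h]
    simp only [Sat, cons, Function.update_self, Chain.val_push k5]
  · have := (hψ _ hZ _ fun m => by
      cases m with
      | zero => exact s1
      | succ m => exact Chain.val_mem (hu m)).2 s3
    simpa [cons, Chain.val_push k4, Chain.val_push k6, Chain.val_push hij] using this

theorem Chain.o_inj {Ch : Chain} {α β : O} (h : Ch.Ord α) (h' : Ch.Ord β)
    (e : Ch.o α = Ch.o β) : α = β := by
  rcases lt_trichotomy α β with H | H | H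
  · exact absurd (e ▸ h.o_mem_o.2 H) (mem_irrefl _)
  · exact H
  · exact absurd (e ▸ h'.o_mem_o.2 H) (mem_irrefl _)

theorem Chain.GenFam.add {Ch : Chain} {δ α : O} (E : Ch.GenFam δ) (h : Ch.Ord α) (n : ℕ) :
    Ch.Ord (α + n) ∧ rank (Ch.o α) + n ≤ rank (Ch.o (α + n)) := by
  induction n with
  | zero => simpa using h
  | succ n ih =>
    obtain ⟨i, hi⟩ := ih.1
    obtain ⟨j, -, y, hy, β, e, rfl⟩ := E.suc.here (l := [cko (α + n)]) (i := i)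
      (by simpa using hi) fun _ _ _ => ⟨_, cko_mem_NM, ty_cko, α + n, push_cko, rfl⟩
    obtain rfl : α + n = β := cko_inj.1 (push_cko.symm.trans e)
    rw [Nat.cast_succ, ← add_assoc, ← add_assoc]
    exact ⟨⟨j, hy⟩, add_one_le_of_lt
      (ih.2.trans_lt (rank_lt_of_mem (ih.1.o_mem_o.2 (lt_add_one _))))⟩

/-- Some family `F` of nonempty sets, enumerated by `d` in `N`, has no selector in `N`, even with
the help of a parameter of rank less than `d + ω`. -/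
def WildC (N : Set V) (d : V) : Prop :=
  ∃ F ∈ N, ∃ Φ ∈ N, Onto Φ d F ∧ ∅ ∉ F ∧ ∀ E ∈ N, ∃ Y ∈ F, ∀ p ∈ N,
    rank p < rank d + Ordinal.omega0 → ∀ s ∈ Y, pair p (pair Y s) ∈ E →
      ∃ s', s' ≠ s ∧ pair p (pair Y s') ∈ E

theorem chain_wildC {Ch : Chain} {δ : O} (G : Ch.GenZF) (X : Ch.GenExt δ) (E : Ch.GenFam δ)
    (hδ : Lam δ) : WildC Ch.N (Ch.o δ) := by
  have hZ : ZF (Ch.N : Set V) := G.zfull.1
  obtain ⟨j₀, -, Φ, hΦ, Y, y1, y2, y3, y4, y5⟩ := E.fam.here (i := 0) (l := []) (by simp)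
    fun n hn _ => by
      obtain ⟨Φ, h1, h2, h3⟩ := fam_dense δ hn.tgt
      exact ⟨Φ, h1, h2, h3⟩
  have A : ∀ z ∈ Ch.val j₀ Φ, ∃ α < δ, Ch.Ord α ∧ z = pair (Ch.o α) (Ch.val j₀ (Y α)) ∧
      ∃ k, j₀ ≤ k ∧ push (Ch.f j₀ k) (Y α) ∈ Ch.X k := by
    intro z hz
    obtain ⟨k, y, hk, hy, ac, rfl⟩ := Chain.mem_val.1 hz
    obtain ⟨α, hα, op⟩ := y2 _ _ (Ch.arr hk) (Ch.src_f hk) ac
    rw [Ch.tgt_f hk] at op
    obtain ⟨⟨k', hk', a1, a2⟩, e⟩ := G.ups.op hy op cko_mem_NM (push_mem_NM (Ch.arr hk) (y1 α))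
    rw [push_cko] at a1
    rw [Chain.push_push hk hk'] at a2
    exact ⟨α, hα, ⟨k', a1⟩, by rw [e, Chain.val_cko, Chain.val_push hk], k', hk.trans hk', a2⟩
  have B : ∀ α < δ, Ch.Ord α → ∃ w, pair (Ch.o α) w ∈ Ch.val j₀ Φ := by
    intro α hα h
    obtain ⟨k, hk, hx⟩ := h.mem j₀
    obtain ⟨k', hk', y, hy, ac, b, hb, -, op⟩ :=
      X.tot.here (i := k) (l := [push (Ch.f j₀ k) Φ, cko α]) (by simpa using ⟨Ch.push hk hΦ, hx⟩)
        fun n hn e => by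
        have e' : src n = tgt (Ch.f j₀ k) := e.trans (Ch.tgt_f hk).symm
        have a0 := hn.cmp (Ch.arr hk) e'
        obtain ⟨z, a3, a4⟩ := y3 _ α a0 (src_cmp.trans (Ch.src_f hk)) hα
        have a2 := ty_push (t := Y α) a0
        have a1 := push_mem_NM a0 (y1 α)
        rw [tgt_cmp] at a2 a4
        rw [← push_push hn (Ch.arr hk) e'] at a3
        exact ⟨z, a3.mem_NM (push_mem_NM hn (push_mem_NM (Ch.arr hk) (Ch.nm hΦ))),
          a3.ty (ty_push hn), a3, _, a1, a2, by simpa using a4⟩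
    change Ac (push (Ch.f k k') (push (Ch.f j₀ k) Φ)) y at ac
    change IsOp _ y (push (Ch.f k k') (cko α)) b at op
    rw [Chain.push_push hk hk'] at ac
    rw [push_cko] at op
    refine ⟨Ch.val k' b, Chain.mem_val.2 ⟨k', y, hk.trans hk', hy, ac, ?_⟩⟩
    rw [(G.ups.op hy op cko_mem_NM hb).2, Chain.val_cko]
  have C : ∀ α w, Ch.Ord α → pair (Ch.o α) w ∈ Ch.val j₀ Φ → w = Ch.val j₀ (Y α) ∧
      ∃ k, j₀ ≤ k ∧ push (Ch.f j₀ k) (Y α) ∈ Ch.X k := fun α w h H => by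
    obtain ⟨β, -, b1, b2, b3⟩ := A _ H
    obtain ⟨e1, e2⟩ := pair_inj.1 b2
    obtain rfl := Chain.o_inj h b1 e1
    exact ⟨e2, b3⟩
  have hΦN := Chain.val_mem hΦ
  refine ⟨ran (Ch.val j₀ Φ), tm1 (K := ZF) (t := fun _ a => ran a) hZ hΦN, _, hΦN,
    ⟨⟨fun z hz => ?_, fun z hz => ?_⟩, fun y hy => ?_⟩, fun h => ?_, fun E0 hE0 => ?_⟩
  · obtain ⟨α, a1, a2, rfl, -⟩ := A z hz
    exact pair_mem_prod.2 ⟨a2.o_mem_o.2 a1, mem_ran.2 ⟨_, hz⟩⟩
  · obtain ⟨α, a1, a2, rfl⟩ := Chain.mem_o.1 hz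
    obtain ⟨w, hw⟩ := B α a1 a2
    exact ⟨w, hw, fun w' hw' => (C α w' a2 hw').1.trans (C α w a2 hw).1.symm⟩
  · obtain ⟨x, hx⟩ := mem_ran.1 hy
    obtain ⟨α, a1, a2, e, -⟩ := A _ hx
    exact ⟨x, (pair_inj.1 e).1 ▸ a2.o_mem_o.2 a1, hx⟩
  · obtain ⟨x, hx⟩ := mem_ran.1 h
    obtain ⟨α, -, -, e, k, hk, hY⟩ := A _ hx
    obtain ⟨j', h4, y, hy, hA⟩ := E.elt.dense (l := [push (Ch.f j₀ k) (Y α)]) (i := k)
      (by simpa using hY) fun n hn en => by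
        have e' : src n = tgt (Ch.f j₀ k) := en.trans (Ch.tgt_f hk).symm
        have a0 := hn.cmp (Ch.arr hk) e'
        obtain ⟨g, s, g1, g2, g3⟩ := y4 _ α a0 (src_cmp.trans (Ch.src_f hk))
        rw [tgt_cmp] at g2
        have hc := g1.cmp hn g2
        rw [← cmp_assoc, ← push_push hc (Ch.arr hk) (src_cmp.trans e')] at g3
        exact ⟨g, s, g1, g2, g3.mem_NM (push_mem_NM hc (Ch.nm hY)),
          g3.ty (tgt_cmp (g := g) (f := n) ▸ ty_push hc), g3⟩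
    refine notMem_empty (Ch.val j' y) ?_
    rw [(pair_inj.1 e).2, ← Chain.val_push hk]
    exact Chain.mem_val.2 ⟨j', y, h4, hy, hA, rfl⟩
  obtain ⟨i, e, he, rfl⟩ := Chain.mem_N.1 hE0
  obtain ⟨j, h3, y, hy, α, a1, rfl, hno⟩ := E.emp.here (i := max i j₀) (l := []) (by simp)
    fun n hn _ => by
      obtain ⟨α, a1, a2⟩ := hn.tgt.east.exists_lv hδ
      exact ⟨_, cko_mem_NM, ty_cko, α, a1, rfl, a2⟩
  have hij := (le_max_left i j₀).trans h3
  have hj := (le_max_right i j₀).trans h3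
  obtain ⟨w, hw⟩ := B α a1 ⟨j, hy⟩
  obtain ⟨rfl, k, hk, hY⟩ := C α w ⟨j, hy⟩ hw
  have hW := y5 _ α (Ch.arr hj) (Ch.src_f hj) (by rwa [Ch.tgt_f hj])
  rw [Ch.tgt_f hj] at hW
  refine ⟨_, mem_ran.2 ⟨_, hw⟩, fun p hp hr s hs hps => ?_⟩
  obtain ⟨_, ⟨n, rfl⟩, hn⟩ : ∃ x, (∃ n : ℕ, x = (n : O)) ∧ rank p < rank (Ch.o δ) + x := by
    obtain ⟨x, x1, x2⟩ := (Ordinal.lt_add_iff_of_isSuccLimit Ordinal.isSuccLimit_omega0).1 hr
    exact ⟨x, Ordinal.lt_omega0.1 x1, x2⟩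
  obtain ⟨o1, o2⟩ := E.add (Chain.ord_of_meets X.crit) n
  have hl : δ + n + 1 ≤ lv δ α := by
    refine add_one_le_of_lt ((Ordinal.isNormal_add_right δ).strictMono
      ((Ordinal.natCast_lt_omega0 n).trans_le (Ordinal.le_mul_left _ ?_)))
    exact bot_le.trans_lt (lt_add_one α)
  have m1 := le_max_left j k
  have m2 := le_max_right j k
  rw [← Chain.val_push hj] at hs hps ⊢
  refine wild_core G hl hij he m1 ?_ hW ((G.mem_lev o1).2 ⟨hp, hn.trans_le o2⟩) hs hps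
  rw [Chain.push_push hj m1, ← Chain.push_push hk m2]
  exact Ch.push m2 hY

end Pool.Agent.Lib.MP_095a31_lc
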