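import Pool.Agent.Lib.MP_095a31_lc.H85Fo

/-!
Forcing with arrows of bounded height; names for separation; bounds for collection.
-/

open ZFSet Order

namespace Pool.Agent.Lib.MP_095a31_lc

open MP_329f2d_lc

variable {γ : O} {c x x' : V} {K : Set V} {φ : Fml} {v : ℕ → V}

/-- An arrow of bounded height out of the restricted target can be lifted. -/
theorem abs_lift {f g : V} (hf : Arr f) (hg : g ∈ M γ) (e : src g = tgt (resA γ f)) :
    ∃ u w, Arr u ∧ Arr w ∧ src u = tgt f ∧ src w = tgt g ∧ tgt u = tgt w ∧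
      resA γ u = resA γ (cmp w g) ∧ resA γ (cmp u f) = resA γ (cmp w (cmp g (resA γ f))) := by
  obtain ⟨u, w, hu, hw, e1, e2, e3, e4⟩ := lift_arr hf.tgt (arr_of_mem hg).tgt hg
    (e.trans tgt_resA) (res_tgt_of_mem hg).symm
  refine ⟨u, w, hu, hw, e1, e2, e3, ?_, ?_⟩
  · rw [e4, resA_cmp, resA_of_mem hg]
  · rw [resA_cmp, e4, resA_cmp, resA_cmp, resA_of_mem hg, resA_resA_self, cmp_assoc]

theorem abs_cut {f g : V} (_hf : f ∈ M γ) : resA γ (cmp (resA γ g) f) = resA γ (cmp g f) := by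
  rw [resA_cmp, resA_cmp, resA_resA_self]

theorem abs_lev {f y : V} (h : lev x ≤ γ) (hy : Ac (push f x) y) : lev y ≤ γ :=
  hy.lev_le.trans (lev_push_le.trans h)

theorem eqf_abs (hc : Ob c) (e : res γ c = c) (h : lev x ≤ γ) (h' : lev x' ≤ γ) :
    Eqf (M γ) c x x' ↔ Eqf AA c x x' := by
  induction x using (InvImage.wf (fun x => rank (ents x)) Ordinal.lt_wf).induction
    generalizing c x' with
  | _ x ih =>
  have _ := hc
  rw [eqf_iff, eqf_iff]
  constructor
  · rintro ⟨H1, H2⟩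
    refine ⟨fun f hf ef y hy => ?_, fun f hf ef z hz => ?_⟩
    · have hf : Arr f := hf
      obtain ⟨g, hg, eg, z, hz, H⟩ := H1 _ (hf.resA_mem γ) (by rw [src_resA, ef, e]) y
        (by rwa [push_resA h])
      have hg : g ∈ M γ := hg
      have ly := abs_lev h hy
      have ag := arr_of_mem hg
      rw [ih _ hy.rank_lt' ag.tgt (res_tgt_of_mem hg) (lev_push_le.trans ly) (abs_lev h' hz)] at H
      obtain ⟨u, w, hu, hw, e1, e2, e3, e4, e5⟩ := abs_lift hf hg eg
      refine ⟨u, hu, e1, push w z, ?_, ?_⟩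
      · rw [push_congr h' e5]
        exact hz.push_cmp hw (ag.cmp (hf.resA γ) eg) (e2.trans tgt_cmp.symm)
      · rw [push_congr ly e4, ← push_push hw ag e2, e3]
        exact Eqf.mono hw (e2 ▸ H)
    · have hf : Arr f := hf
      obtain ⟨g, hg, eg, y, hy, H⟩ := H2 _ (hf.resA_mem γ) (by rw [src_resA, ef, e]) z
        (by rwa [push_resA h'])
      have hg : g ∈ M γ := hg
      have lz := abs_lev h' hz
      have ag := arr_of_mem hg
      rw [ih _ (hy.rank_lt.trans_le rank_ents_push) ag.tgt (res_tgt_of_mem hg) (abs_lev h hy)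
        (lev_push_le.trans lz)] at H
      obtain ⟨u, w, hu, hw, e1, e2, e3, e4, e5⟩ := abs_lift hf hg eg
      refine ⟨u, hu, e1, push w y, ?_, ?_⟩
      · rw [push_congr h e5]
        exact hy.push_cmp hw (ag.cmp (hf.resA γ) eg) (e2.trans tgt_cmp.symm)
      · rw [push_congr lz e4, ← push_push hw ag e2, e3]
        exact Eqf.mono hw (e2 ▸ H)
  · rintro ⟨H1, H2⟩
    refine ⟨fun f hf ef y hy => ?_, fun f hf ef z hz => ?_⟩
    · have hf : f ∈ M γ := hf
      obtain ⟨g, hg, eg, z, hz, H⟩ := H1 f (arr_of_mem hf) ef y hy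
      have hg : Arr g := hg
      have ly := abs_lev h hy
      have lz := abs_lev h' hz
      refine ⟨resA γ g, hg.resA_mem γ, by rw [src_resA, eg, res_tgt_of_mem hf], z, ?_, ?_⟩
      · rwa [push_congr h' (abs_cut hf)]
      · rw [tgt_resA, push_resA ly, ih _ hy.rank_lt' (hg.tgt.res γ) res_res_self
          (lev_push_le.trans ly) lz, eqf_res hg.tgt (lev_push_le.trans ly) lz]
        exact H
    · have hf : f ∈ M γ := hf
      obtain ⟨g, hg, eg, y, hy, H⟩ := H2 f (arr_of_mem hf) ef z hz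
      have hg : Arr g := hg
      have ly := abs_lev h hy
      have lz := abs_lev h' hz
      refine ⟨resA γ g, hg.resA_mem γ, by rw [src_resA, eg, res_tgt_of_mem hf], y, ?_, ?_⟩
      · rwa [push_congr h (abs_cut hf)]
      · rw [tgt_resA, push_resA lz, ih _ (hy.rank_lt.trans_le rank_ents_push) (hg.tgt.res γ)
          res_res_self ly (lev_push_le.trans lz), eqf_res hg.tgt ly (lev_push_le.trans lz)]
        exact H

theorem mef_abs (e : res γ c = c) (h : lev x ≤ γ) (h' : lev x' ≤ γ) :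
    Mef (M γ) c x x' ↔ Mef AA c x x' := by
  constructor
  · intro H1 f hf ef
    have hf : Arr f := hf
    obtain ⟨g, hg, eg, z, hz, H⟩ := H1 _ (hf.resA_mem γ) (by rw [src_resA, ef, e])
    have hg : g ∈ M γ := hg
    have ag := arr_of_mem hg
    have agf := ag.cmp (hf.resA γ) eg
    rw [eqf_abs ag.tgt (res_tgt_of_mem hg) (lev_push_le.trans h) (abs_lev h' hz)] at H
    obtain ⟨u, w, hu, hw, e1, e2, e3, -, e5⟩ := abs_lift hf hg eg
    refine ⟨u, hu, e1, push w z, ?_, ?_⟩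
    · rw [push_congr h' e5]
      exact hz.push_cmp hw agf (e2.trans tgt_cmp.symm)
    · rw [push_congr h e5, ← push_push hw agf (e2.trans tgt_cmp.symm), e3]
      exact Eqf.mono hw (e2 ▸ H)
  · intro H1 f hf ef
    have hf : f ∈ M γ := hf
    obtain ⟨g, hg, eg, z, hz, H⟩ := H1 f (arr_of_mem hf) ef
    have hg : Arr g := hg
    have lz := abs_lev h' hz
    refine ⟨resA γ g, hg.resA_mem γ, by rw [src_resA, eg, res_tgt_of_mem hf], z, ?_, ?_⟩
    · rwa [push_congr h' (abs_cut hf)]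
    · rw [tgt_resA, push_congr h (abs_cut hf), eqf_abs (hg.tgt.res γ) res_res_self
        (lev_push_le.trans h) lz, eqf_res hg.tgt (lev_push_le.trans h) lz]
      exact H

theorem abs_pushv {f g : V} (hv : ∀ i, lev (v i) ≤ γ) (e : resA γ f = resA γ g) :
    pushv f v = pushv g v := funext fun i => push_congr (hv i) e

theorem abs_levv {f : V} (hv : ∀ i, lev (v i) ≤ γ) (i : ℕ) : lev (pushv f v i) ≤ γ :=
  lev_push_le.trans (hv i)

theorem abs_levc {z : V} (hz : lev z ≤ γ) (hv : ∀ i, lev (v i) ≤ γ) (i : ℕ) :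
    lev (cons z v i) ≤ γ := by
  cases i
  · exact hz
  · exact hv _

theorem fo_abs (hK : ∀ f z, Arr f → z ∈ K → push f z ∈ K) (lK : ∀ z ∈ K, lev z ≤ γ) (hc : Ob c)
    (e : res γ c = c) (hv : ∀ i, lev (v i) ≤ γ) : Fo (M γ) K φ c v ↔ Fo AA K φ c v := by
  induction φ generalizing c v with
  | mem i j => exact mef_abs e (hv i) (hv j)
  | eq i j => exact eqf_abs hc e (hv i) (hv j)
  | pred _ => exact Iff.rfl
  | and φ ψ ih ih' => exact and_congr (ih hc e hv) (ih' hc e hv)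
  | neg φ ih =>
    constructor
    · intro H f hf ef H'
      have hf : Arr f := hf
      refine H _ (hf.resA_mem γ) (by rw [src_resA, ef, e]) ?_
      rwa [tgt_resA, abs_pushv hv resA_resA_self, ih (hf.tgt.res γ) res_res_self (abs_levv hv),
        fo_res hf.tgt (abs_levv hv)]
    · intro H f hf ef H'
      have hf : f ∈ M γ := hf
      exact H f (arr_of_mem hf) ef
        ((ih (arr_of_mem hf).tgt (res_tgt_of_mem hf) (abs_levv hv)).1 H')
  | ex φ ih =>
    constructor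
    · intro H1 f hf ef
      have hf : Arr f := hf
      obtain ⟨g, hg, eg, z, hz, -, H⟩ := H1 _ (hf.resA_mem γ) (by rw [src_resA, ef, e])
      have hg : g ∈ M γ := hg
      have ag := arr_of_mem hg
      have agf := ag.cmp (hf.resA γ) eg
      rw [ih ag.tgt (res_tgt_of_mem hg) (abs_levc (lK z hz) (abs_levv hv))] at H
      obtain ⟨u, w, hu, hw, e1, e2, e3, -, e5⟩ := abs_lift hf hg eg
      refine ⟨u, hu, e1, push w z, hK w z hw hz, e3 ▸ ty_push hw, ?_⟩
      rw [abs_pushv hv e5, ← pushv_pushv hw agf (e2.trans tgt_cmp.symm), ← pushv_cons, e3]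
      exact Fo.mono hw (e2 ▸ H)
    · intro H1 f hf ef
      have hf : f ∈ M γ := hf
      obtain ⟨g, hg, eg, z, hz, tz, H⟩ := H1 f (arr_of_mem hf) ef
      have hg : Arr g := hg
      have lc := abs_levc (lK z hz) (abs_levv (f := cmp g f) hv)
      refine ⟨resA γ g, hg.resA_mem γ, by rw [src_resA, eg, res_tgt_of_mem hf], z, hz, ?_, ?_⟩
      · rwa [tgt_resA, Ty_res (lK z hz)]
      · rwa [tgt_resA, abs_pushv hv (abs_cut hf), ih (hg.tgt.res γ) res_res_self lc,
          fo_res hg.tgt lc]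

/-- `z` names the set of the members of the level `β` that satisfy `φ`. -/
def SepAt (K : Set V) (φ : Fml) (β : O) (c : V) (v : ℕ → V) (z : V) : Prop :=
  ∀ f, Arr f → src f = c → ∀ y, Ac (push f z) y ↔
    y ∈ AN β ∧ Ty (tgt f) y ∧ Fo AA K φ (tgt f) (cons y (pushv f v))

theorem abs_two (β : O) : β + 1 + 1 = β + 2 := by rw [add_assoc, one_add_one_eq_two]

theorem abs_le (β : O) : β + 1 ≤ β + 2 := abs_two β ▸ le_self_add

theorem sep_name (hc : Ob c) (K : Set V) (φ : Fml) (β : O) (v : ℕ → V) :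
    ∃ z ∈ AN (β + 1), Ty c z ∧ SepAt K φ β c v z := by
  refine ⟨mkN (β + 2) c (ZFSet.sep (fun p => ∃ f y, p = pair (resA (β + 2) f) y ∧ Arr f ∧
    src f = c ∧ Fo AA K φ (tgt f) (cons y (pushv f v))) (prod (M (β + 2)) (AN β))), ?_, ty_mkN hc,
    ?_⟩
  · exact mem_AN.2 ⟨β, lt_succ β, β + 2, le_rfl, _, _, rfl, (hc.res _).idA_mem res_res_self,
      sep_subset⟩
  rintro f hf rfl y
  rw [ac_push_mkN hf]
  constructor
  · rintro ⟨k, t, l, hp, hl, el, ef, -, rfl⟩
    obtain ⟨hp, f', y', ep, hf', ef', H⟩ := mem_sep.1 hp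
    obtain ⟨rfl, rfl⟩ := pair_inj.1 ep
    have ht := (pair_mem_prod.1 hp).2
    have al := arr_of_mem hl
    have lt := lev_le_of_AN ht
    have ll : lev (push l t) ≤ β + 2 := lev_push_le.trans (lt.trans (abs_le β))
    have tl : tgt l = res (β + 2) (tgt f) := by rw [← tgt_resA, ef, tgt_cmp]
    refine ⟨push_mem_AN al ht, (Ty_res ll).1 (tl ▸ ty_push al), Fo.reg hf.tgt fun n hn en => ?_⟩
    obtain ⟨u, w, hu, hw, e1, e2, e3, e4⟩ := lift_arr (γ := β + 2) hf'.tgt hn.tgt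
      (cmp_mem_M (hn.resA_mem _) hl (by rw [src_resA, en, tl])) (by rw [src_cmp, el, tgt_resA])
      (by rw [tgt_cmp, tgt_resA])
    have anf := hn.cmp hf en
    obtain ⟨g₁, g₂, h₁, h₂, s₁, s₂, et, ec, er⟩ := amal (γ := β + 1) le_add_self (hu.cmp hf' e1)
      (hw.cmp anf (e2.trans tgt_cmp.symm)) (by rw [src_cmp, src_cmp, src_cmp, ef'])
      (by rw [abs_two, resA_cmp, resA_cmp, resA_cmp, e4, ef, cmp_assoc, cmp_assoc])
    rw [tgt_cmp] at s₁ s₂
    have a₁ := h₁.cmp hu s₁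
    have a₂ := h₂.cmp hw s₂
    have a₃ := a₂.cmp hn (src_cmp.trans e2)
    refine ⟨cmp g₂ w, a₂, src_cmp.trans e2, ?_⟩
    have H' := Fo.mono a₁ ((src_cmp.trans e1).symm ▸ H)
    rw [pushv_cons, pushv_pushv a₁ hf' (src_cmp.trans e1), cmp_assoc, ec, tgt_cmp, et] at H'
    rw [pushv_cons, pushv_pushv a₃ hf (src_cmp.trans en), tgt_cmp, ← push_resA ll,
      push_push (a₃.resA _) al (by rw [src_resA, src_cmp, en, tl]),
      push_congr (g := cmp g₁ u) lt ?_, cmp_assoc, cmp_assoc]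
    · exact H'
    · have e5 := congrArg (resA (β + 1)) e4
      simp only [resA_cmp, resA_resA_le (abs_le β)] at e5 ⊢
      rw [e5, er, cmp_assoc, cmp_assoc]
  · rintro ⟨hy, ty, H⟩
    have ly := (lev_le_of_AN hy).trans (abs_le β)
    have hk := hf.resA_mem (β + 2)
    have ak := arr_of_mem hk
    refine ⟨resA (β + 2) f, y, idA (tgt (resA (β + 2) f)),
      mem_sep.2 ⟨pair_mem_prod.2 ⟨hk, hy⟩, f, y, rfl, hf, rfl, H⟩,
      ak.tgt.idA_mem (res_tgt_of_mem hk), src_idA, ak.id_cmp.symm, ly,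
      (push_id ak.tgt (nm_of_AN hy) ?_).symm⟩
    rwa [tgt_resA, Ty_res ly]

/-- Witnesses for `φ` over the level `β` can be found in the level `γ`. -/
def ColAt (φ : Fml) (β γ : O) (c : V) (v : ℕ → V) : Prop :=
  ∀ f, Arr f → src f = c → ∀ y ∈ AN β, Ty (tgt f) y → ∀ w ∈ NM, Ty (tgt f) w →
    Fo AA NM φ (tgt f) (cons w (cons y (pushv f v))) →
    ∃ g, Arr g ∧ src g = tgt f ∧ ∃ w' ∈ AN γ, Ty (tgt g) w' ∧
      Fo AA NM φ (tgt g) (cons w' (cons (push g y) (pushv (cmp g f) v)))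

theorem col_bound (c : V) (φ : Fml) (β : O) (v : ℕ → V) : ∃ γ, ColAt φ β γ c v := by
  let R : V → V → Prop := fun p w => ∃ f y, p = pair (resA (β + 2) f) y ∧ Arr f ∧ src f = c ∧
    Fo AA NM φ (tgt f) (cons w (cons y (pushv f v)))
  have : ∀ p, ∃ w ∈ NM, (∃ w ∈ NM, R p w) → R p w := fun p => by
    by_cases h : ∃ w ∈ NM, R p w
    · obtain ⟨w, hw, h⟩ := h
      exact ⟨w, hw, fun _ => h⟩
    · exact ⟨ck ∅, ck_mem_NM, fun h' => (h h').elim⟩
  choose W hW hR using this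
  obtain ⟨γ, hγ⟩ := exists_AN_bound (S := img W (prod (M (β + 2)) (AN β))) fun t ht => by
    obtain ⟨p, -, rfl⟩ := mem_img.1 ht
    exact hW p
  refine ⟨γ, fun f hf ef y hy _ w hw _ H => ?_⟩
  obtain ⟨f', y', ep, hf', ef', H'⟩ := hR (pair (resA (β + 2) f) y) ⟨w, hw, f, y, rfl, hf, ef, H⟩
  obtain ⟨ek, rfl⟩ := pair_inj.1 ep
  obtain ⟨g₁, g₂, h₁, h₂, s₁, s₂, et, ec, er⟩ := amal (γ := β + 1) le_add_self hf' hf
    (ef'.trans ef.symm) (by rw [abs_two, ek])
  refine ⟨g₂, h₂, s₂, push g₁ (W (pair (resA (β + 2) f) y)), push_mem_AN h₁ (hγ _ (mem_img.2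
    ⟨_, pair_mem_prod.2 ⟨hf.resA_mem _, hy⟩, rfl⟩)), et ▸ ty_push h₁, ?_⟩
  have H'' := Fo.mono h₁ (s₁.symm ▸ H')
  rwa [pushv_cons, pushv_cons, pushv_pushv h₁ hf' s₁, ec, et,
    push_congr (lev_le_of_AN hy) er] at H''

end Pool.Agent.Lib.MP_095a31_lc
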