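import Pool.Agent.Lib.MP_095a31_lc.H85Push

/-!
Generic chains of stages and the values of names.
-/

open ZFSet Order

namespace Pool.Agent.Lib.MP_095a31_lc

open MP_329f2d_lc

/-- A chain of stages with countably many names at each stage. -/
structure Chain where
  c : ℕ → V
  f : ℕ → ℕ → V
  X : ℕ → Set V
  arr : ∀ {i j}, i ≤ j → Arr (f i j)
  src_f : ∀ {i j}, i ≤ j → src (f i j) = c i
  tgt_f : ∀ {i j}, i ≤ j → tgt (f i j) = c j
  refl : ∀ i, f i i = idA (c i)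
  cmp_f : ∀ {i j k}, i ≤ j → j ≤ k → cmp (f j k) (f i j) = f i k
  cnt : ∀ i, (X i).Countable
  nm : ∀ {i x}, x ∈ X i → x ∈ NM
  ty : ∀ {i x}, x ∈ X i → Ty (c i) x
  push : ∀ {i j x}, i ≤ j → x ∈ X i → push (f i j) x ∈ X j
  zero : ∀ i, ck ∅ ∈ X i

/-- A task: at a stage, for a list of names, a witness. -/
abbrev Task : Type 1 := V → List V → V → Prop

/-- The assignment given by a list. -/
noncomputable def env (l : List V) : ℕ → V := fun i => l.getD i (ck ∅)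

@[simp] theorem env_nil : env [] = fun _ => ck ∅ := rfl
@[simp] theorem env_cons (x : V) (l : List V) : env (x :: l) = cons x (env l) :=
  funext fun i => by cases i <;> rfl
@[simp] theorem env_map (f : V) (l : List V) : env (l.map (push f)) = pushv f (env l) := by
  induction l with
  | nil => exact funext fun _ => push_ck.symm
  | cons x l ih => rw [List.map_cons, env_cons, env_cons, ih, pushv_cons]
theorem env_range (v : ℕ → V) {n i : ℕ} (h : i < n) : env ((List.range n).map v) i = v i := by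
  simp [env, List.getD, h]

namespace Chain

variable (Ch : Chain)

/-- The chain meets the task `T` whenever this is possible. -/
def Meets (T : Task) : Prop :=
  ∀ i (l : List V), (∀ x ∈ l, x ∈ Ch.X i) → ∃ j, i ≤ j ∧
    ((∃ y ∈ Ch.X j, T (Ch.c j) (l.map (MP_095a31_lc.push (Ch.f i j))) y) ∨
      ∀ g y, Arr g → src g = Ch.c j → y ∈ NM → Ty (tgt g) y →
        ¬ T (tgt g) (l.map (MP_095a31_lc.push (cmp g (Ch.f i j)))) y)

/-- The value of a name at a stage. -/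
noncomputable def val (i : ℕ) (x : V) : V :=
  (InvImage.wf (fun x => rank (ents x)) Ordinal.lt_wf).fix (C := fun _ => ℕ → V) (fun x ih i =>
    ZFSet.iUnion fun j : ℕ =>
      haveI : Countable (Ch.X j) := (Ch.cnt j).to_subtype
      range fun y : {y : Ch.X j // i ≤ j ∧ Ac (MP_095a31_lc.push (Ch.f i j) x) y.1} =>
        ih y.1.1 (y.2.2.rank_lt.trans_le rank_ents_push) j) x i

/-- The values of the names from the class `K`. -/
def NK (K : Set V) : Set V := {z | ∃ i, ∃ x ∈ Ch.X i, x ∈ K ∧ Ch.val i x = z}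

/-- The model. -/
noncomputable def N : V :=
  ZFSet.iUnion fun i : ℕ =>
    haveI : Countable (Ch.X i) := (Ch.cnt i).to_subtype
    range fun x : Ch.X i => Ch.val i x

variable {Ch} {i j : ℕ} {x y z a b : V}

theorem ob (i : ℕ) : Ob (Ch.c i) := Ch.src_f (le_refl i) ▸ (Ch.arr (le_refl i)).src

theorem push_push (h : i ≤ j) {k : ℕ} (h' : j ≤ k) :
    MP_095a31_lc.push (Ch.f j k) (MP_095a31_lc.push (Ch.f i j) x) =
      MP_095a31_lc.push (Ch.f i k) x := by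
  rw [MP_095a31_lc.push_push (Ch.arr h') (Ch.arr h) ((Ch.src_f h').trans (Ch.tgt_f h).symm),
    Ch.cmp_f h h']

theorem push_self (h : x ∈ Ch.X i) : MP_095a31_lc.push (Ch.f i i) x = x := by
  rw [Ch.refl]; exact push_id (ob i) (Ch.nm h) (Ch.ty h)

theorem env_mem {l : List V} (h : ∀ x ∈ l, x ∈ Ch.X i) (n : ℕ) : env l n ∈ Ch.X i := by
  induction l generalizing n with
  | nil => exact Ch.zero i
  | cons x l ih =>
    cases n with
    | zero => exact h x List.mem_cons_self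
    | succ n => exact ih (fun y hy => h y (List.mem_cons_of_mem _ hy)) n

theorem Meets.dense {T : Task} (h : Ch.Meets T) {l : List V} (hl : ∀ x ∈ l, x ∈ Ch.X i)
    (hd : ∀ n, Arr n → src n = Ch.c i → ∃ g y, Arr g ∧ src g = tgt n ∧ y ∈ NM ∧ Ty (tgt g) y ∧
      T (tgt g) (l.map (MP_095a31_lc.push (cmp g n))) y) :
    ∃ j, i ≤ j ∧ ∃ y ∈ Ch.X j, T (Ch.c j) (l.map (MP_095a31_lc.push (Ch.f i j))) y := by
  obtain ⟨j, h1, h2 | h2⟩ := h i l hl
  · exact ⟨j, h1, h2⟩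
  · obtain ⟨g, y, h3, h4, h5, h6, h7⟩ := hd _ (Ch.arr h1) (Ch.src_f h1)
    exact absurd h7 (h2 g y h3 (h4.trans (Ch.tgt_f h1)) h5 h6)

theorem mem_val : z ∈ Ch.val i x ↔ ∃ j y, i ≤ j ∧ y ∈ Ch.X j ∧
    Ac (MP_095a31_lc.push (Ch.f i j) x) y ∧ Ch.val j y = z := by
  rw [val, WellFounded.fix_eq]
  simp only [ZFSet.mem_iUnion, ZFSet.mem_range]
  exact ⟨fun ⟨j, y, h⟩ => ⟨j, y.1.1, y.2.1, y.1.2, y.2.2, h⟩,
    fun ⟨j, y, h1, h2, h3, h4⟩ => ⟨j, ⟨⟨y, h2⟩, h1, h3⟩, h4⟩⟩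

theorem ac_push {k : ℕ} (h : i ≤ j) (h' : j ≤ k) (H : Ac (MP_095a31_lc.push (Ch.f i j) x) y) :
    Ac (MP_095a31_lc.push (Ch.f i k) x) (MP_095a31_lc.push (Ch.f j k) y) := by
  rw [← Ch.cmp_f h h']
  exact H.push_cmp (Ch.arr h') (Ch.arr h) ((Ch.src_f h').trans (Ch.tgt_f h).symm)

theorem val_push (h : i ≤ j) : Ch.val j (MP_095a31_lc.push (Ch.f i j) x) = Ch.val i x := by
  induction x using (InvImage.wf (fun x => rank (ents x)) Ordinal.lt_wf).induction
    generalizing i j with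
  | _ x ih =>
    ext z
    rw [mem_val, mem_val]
    constructor
    · rintro ⟨k, y, h1, h2, h3, h4⟩
      rw [push_push h h1] at h3
      exact ⟨k, y, h.trans h1, h2, h3, h4⟩
    · rintro ⟨k, y, h1, h2, h3, h4⟩
      refine ⟨max j k, _, le_max_left _ _, Ch.push (le_max_right j k) h2, ?_, ?_⟩
      · rw [push_push h (le_max_left _ _)]
        exact ac_push h1 (le_max_right _ _) h3
      · rw [ih y (h3.rank_lt.trans_le rank_ents_push) (le_max_right _ _), h4]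

theorem val_ck (i j : ℕ) (x : V) : Ch.val i (ck x) = Ch.val j (ck x) := by
  rw [← val_push (le_max_left i j), ← val_push (le_max_right i j), push_ck, push_ck]

theorem mem_N : z ∈ Ch.N ↔ ∃ i, ∃ x ∈ Ch.X i, Ch.val i x = z := by
  simp only [N, ZFSet.mem_iUnion, ZFSet.mem_range]
  exact ⟨fun ⟨i, x, h⟩ => ⟨i, x.1, x.2, h⟩, fun ⟨i, x, h1, h2⟩ => ⟨i, ⟨x, h1⟩, h2⟩⟩

theorem val_mem (h : x ∈ Ch.X i) : Ch.val i x ∈ Ch.N := mem_N.2 ⟨i, x, h, rfl⟩
theorem NK_NM : Ch.NK NM = Ch.N := Set.ext fun _ =>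
  ⟨fun h => mem_N.2 (h.imp fun _ h => h.imp fun _ h => ⟨h.1, h.2.2⟩),
    fun h => (mem_N.1 h).imp fun _ h => h.imp fun _ h => ⟨h.1, Ch.nm h.1, h.2⟩⟩

theorem N_countable : (Ch.N : Set V).Countable :=
  (Set.countable_iUnion fun i => (Ch.cnt i).image (Ch.val i)).mono fun _ h =>
    Set.mem_iUnion.2 (mem_N.1 h)

theorem N_trans : ∀ x ∈ (Ch.N : Set V), ∀ y ∈ x, y ∈ (Ch.N : Set V) := fun _ hx _ hy => by
  obtain ⟨i, x, -, rfl⟩ := mem_N.1 hx
  obtain ⟨j, y, -, h1, -, h2⟩ := mem_val.1 hy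
  exact mem_N.2 ⟨j, y, h1, h2⟩

/-- Finitely many members of the model have names at a common stage. -/
theorem exists_stage {K : Set V} (hK : ∀ f z, Arr f → z ∈ K → MP_095a31_lc.push f z ∈ K)
    {w : ℕ → V} (hw : ∀ n, w n ∈ Ch.NK K) (i₀ n₀ : ℕ) : ∃ (i : ℕ) (v : ℕ → V), i₀ ≤ i ∧
      (∀ n, v n ∈ Ch.X i ∧ v n ∈ K) ∧ ∀ n < n₀, Ch.val i (v n) = w n := by
  induction n₀ with
  | zero =>
    obtain ⟨i, x, h1, h2, -⟩ := hw 0
    exact ⟨max i₀ i, fun _ => MP_095a31_lc.push (Ch.f i (max i₀ i)) x, le_max_left _ _, fun _ =>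
      ⟨Ch.push (le_max_right _ _) h1, hK _ _ (Ch.arr (le_max_right _ _)) h2⟩, by simp⟩
  | succ n₀ ih =>
    obtain ⟨i, v, h1, h2, h3⟩ := ih
    obtain ⟨j, x, h4, h5, h6⟩ := hw n₀
    refine ⟨max i j, fun n => if n = n₀ then MP_095a31_lc.push (Ch.f j (max i j)) x
      else MP_095a31_lc.push (Ch.f i (max i j)) (v n), le_max_of_le_left h1, fun n => ?_,
      fun n hn => ?_⟩
    · beta_reduce
      split_ifs
      · exact ⟨Ch.push (le_max_right _ _) h4, hK _ _ (Ch.arr (le_max_right _ _)) h5⟩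
      · exact ⟨Ch.push (le_max_left _ _) (h2 n).1, hK _ _ (Ch.arr (le_max_left _ _)) (h2 n).2⟩
    · beta_reduce
      split_ifs with h7
      · rw [val_push (le_max_right _ _), h6, h7]
      · rw [val_push (le_max_left _ _), h3 n (by omega)]

/-- The tasks that put the components of pairs into the chain. -/
structure Ups (Ch : Chain) : Prop where
  one : Ch.Meets fun c l y => ∃ w, IsUp c (env l 0) y w
  two : Ch.Meets fun c l y => IsUp c (env l 0) (env l 1) y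

theorem isUp_push (hij : i ≤ j) (h : IsUp (Ch.c i) z a b) : IsUp (Ch.c j)
    (MP_095a31_lc.push (Ch.f i j) z) (MP_095a31_lc.push (Ch.f i j) a)
    (MP_095a31_lc.push (Ch.f i j) b) := by
  rw [← Ch.src_f hij] at h
  rw [← Ch.tgt_f hij]
  exact h.push (Ch.arr hij)

theorem Ups.up (H : Ch.Ups) (hz : z ∈ Ch.X i) (h : IsUp (Ch.c i) z a b) (ha : a ∈ NM)
    (_hb : b ∈ NM) : (∃ j, i ≤ j ∧ MP_095a31_lc.push (Ch.f i j) a ∈ Ch.X j ∧
      MP_095a31_lc.push (Ch.f i j) b ∈ Ch.X j) ∧ Ch.val i z = {Ch.val i a, Ch.val i b} := by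
  obtain ⟨j, hj, y, hy, w, h1⟩ := H.one.dense (l := [z]) (by simpa using hz) fun n hn e =>
    ⟨idA (tgt n), MP_095a31_lc.push n a, hn.tgt.idA, src_idA, push_mem_NM hn ha,
      by rw [tgt_idA]; exact ty_push hn, MP_095a31_lc.push n b, by
        rw [hn.id_cmp, tgt_idA]
        exact IsUp.push hn (e ▸ h)⟩
  have h1' : IsUp (Ch.c j) (MP_095a31_lc.push (Ch.f i j) z) y w := h1
  have hz' := Ch.push hj hz
  obtain ⟨k, hk, y', hy', h2⟩ := H.two.dense (l := [MP_095a31_lc.push (Ch.f i j) z, y])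
    (by simpa using ⟨hz', hy⟩) fun n hn e =>
    ⟨idA (tgt n), MP_095a31_lc.push n w, hn.tgt.idA, src_idA,
      Ac.mem_NM (push_mem_NM hn (Ch.nm hz')) ((h1' n hn e _).2 (Or.inr rfl)),
      by rw [tgt_idA]; exact ty_push hn, by
        rw [hn.id_cmp, tgt_idA]
        exact IsUp.push hn (e ▸ h1')⟩
  have h2' : IsUp (Ch.c k) (MP_095a31_lc.push (Ch.f j k) (MP_095a31_lc.push (Ch.f i j) z))
    (MP_095a31_lc.push (Ch.f j k) y) y' := h2
  have hik := hj.trans hk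
  have h3 := h2' _ (Ch.arr le_rfl) (Ch.src_f le_rfl)
  rw [push_push hj hk, push_push hik le_rfl, push_push hk le_rfl, push_self hy'] at h3
  have h4 := fun m (hm : i ≤ m) => h _ (Ch.arr hm) (Ch.src_f hm)
  have h5 : ∀ u, Ac (MP_095a31_lc.push (Ch.f i k) z) u → u ∈ Ch.X k := fun u hu => by
    rcases (h3 u).1 hu with rfl | rfl
    exacts [Ch.push hk hy, hy']
  have h6 := (h4 k hik _).2 (Or.inl rfl)
  have h7 := (h4 k hik _).2 (Or.inr rfl)
  refine ⟨⟨k, hik, h5 _ h6, h5 _ h7⟩, ZFSet.ext fun u => ?_⟩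
  rw [mem_val, ZFSet.mem_pair]
  constructor
  · rintro ⟨m, t, hm, -, h8, rfl⟩
    rcases (h4 m hm t).1 h8 with rfl | rfl
    exacts [Or.inl (val_push hm), Or.inr (val_push hm)]
  · rintro (rfl | rfl)
    exacts [⟨k, _, hik, h5 _ h6, h6, val_push hik⟩, ⟨k, _, hik, h5 _ h7, h7, val_push hik⟩]

theorem Ups.op (H : Ch.Ups) (hz : z ∈ Ch.X i) (h : IsOp (Ch.c i) z a b) (ha : a ∈ NM)
    (hb : b ∈ NM) : (∃ j, i ≤ j ∧ MP_095a31_lc.push (Ch.f i j) a ∈ Ch.X j ∧
      MP_095a31_lc.push (Ch.f i j) b ∈ Ch.X j) ∧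
      Ch.val i z = pair (Ch.val i a) (Ch.val i b) := by
  obtain ⟨u, hu, w, hw, -, -, h1, h2, h3⟩ := h
  obtain ⟨⟨j, hj, h4, h5⟩, h6⟩ := H.up hz h1 hu hw
  have ha' := push_mem_NM (Ch.arr hj) ha
  have h7 := (H.up h4 (isUp_push hj h2) ha' ha').2
  obtain ⟨⟨k, hk, h8⟩, h9⟩ := H.up h5 (isUp_push hj h3) ha' (push_mem_NM (Ch.arr hj) hb)
  simp only [val_push hj, push_push hj hk] at h7 h8 h9
  refine ⟨⟨k, hj.trans hk, h8⟩, ?_⟩
  rw [h6, h7, h9, pair]
  congr 1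
  ext t
  simp

end Chain

theorem chain_step (T : Task) (idx : List ℕ) (s : {p : V × (ℕ → V) // Ob p.1 ∧
    ∀ n, p.2 n ∈ NM ∧ Ty p.1 (p.2 n)}) : ∃ (t : {p : V × (ℕ → V) // Ob p.1 ∧
    ∀ n, p.2 n ∈ NM ∧ Ty p.1 (p.2 n)}) (g : V), Arr g ∧ src g = s.1.1 ∧ tgt g = t.1.1 ∧
      (∀ n, t.1.2 (n + 1) = push g (s.1.2 n)) ∧
      (T t.1.1 ((idx.map s.1.2).map (push g)) (t.1.2 0) ∨
        ∀ g' y, Arr g' → src g' = t.1.1 → y ∈ NM → Ty (tgt g') y →
          ¬ T (tgt g') ((idx.map s.1.2).map (push (cmp g' g))) y) := by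
  obtain ⟨⟨c, e⟩, hc, he⟩ := s
  have key : ∀ g y, Arr g → y ∈ NM → Ty (tgt g) y → ∀ n,
      cons y (pushv g e) n ∈ NM ∧ Ty (tgt g) (cons y (pushv g e) n) := fun g y h1 h2 h3 n => by
    cases n with
    | zero => exact ⟨h2, h3⟩
    | succ n => exact ⟨push_mem_NM h1 (he n).1, ty_push h1⟩
  by_cases h : ∃ g y, Arr g ∧ src g = c ∧ y ∈ NM ∧ Ty (tgt g) y ∧
    T (tgt g) ((idx.map e).map (push g)) y
  · obtain ⟨g, y, h1, h2, h3, h4, h5⟩ := h
    exact ⟨⟨(tgt g, cons y (pushv g e)), h1.tgt, key g y h1 h3 h4⟩, g, h1, h2, rfl, fun _ => rfl,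
      Or.inl h5⟩
  · refine ⟨⟨(tgt (idA c), cons (ck ∅) (pushv (idA c) e)), hc.idA.tgt,
      key _ _ hc.idA ck_mem_NM ty_ck⟩, idA c, hc.idA, src_idA, rfl, fun _ => rfl,
      Or.inr fun g y h1 h2 h3 h4 h5 => h ⟨g, y, h1, h2.trans tgt_idA, h3, h4, ?_⟩⟩
    have h6 : src g = c := h2.trans tgt_idA
    have h7 : cmp g (idA c) = g := by rw [← h6, h1.cmp_id]
    rwa [h7] at h5

/-- Composites of a sequence of arrows. -/
noncomputable def chainF (c g : ℕ → V) (i : ℕ) : ℕ → V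
  | 0 => idA (c i)
  | j + 1 => if i ≤ j then cmp (g j) (chainF c g i j) else idA (c i)

theorem chainF_self (c g : ℕ → V) (i : ℕ) : chainF c g i i = idA (c i) := by
  cases i with
  | zero => rfl
  | succ i => exact if_neg (by omega)

theorem chainF_succ (c g : ℕ → V) {i j : ℕ} (h : i ≤ j) :
    chainF c g i (j + 1) = cmp (g j) (chainF c g i j) := if_pos h

/-- Countably many tasks can be met. -/
theorem exists_chain {ι : Type} [Countable ι] (T : ι → Task) :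
    ∃ Ch : Chain, ∀ τ, Ch.Meets (T τ) := by
  obtain ⟨φ, hφ⟩ := exists_surjective_nat (Option ι × List ℕ × ℕ)
  choose nx g h1 h2 h3 h4 h5 using fun m : ℕ => chain_step
    ((φ m.unpair.1).1.elim (fun _ _ _ => True) T)
    ((φ m.unpair.1).2.1.map fun n => n + (m - (φ m.unpair.1).2.2))
  let s : ℕ → {p : V × (ℕ → V) // Ob p.1 ∧ ∀ n, p.2 n ∈ NM ∧ Ty p.1 (p.2 n)} := fun m =>
    Nat.rec ⟨(∅, fun _ => ck ∅), ob_empty, fun _ => ⟨ck_mem_NM, ty_ck⟩⟩ nx m
  let f := chainF (fun m => (s m).1.1) fun m => g m (s m)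
  have hf : ∀ {i j}, i ≤ j → Arr (f i j) ∧ src (f i j) = (s i).1.1 ∧ tgt (f i j) = (s j).1.1 ∧
      ∀ n, (s j).1.2 (n + (j - i)) = push (f i j) ((s i).1.2 n) := fun {i j} h => by
    induction j, h using Nat.le_induction with
    | base =>
      simp only [f, chainF_self, Nat.sub_self, add_zero]
      exact ⟨(s i).2.1.idA, src_idA, tgt_idA, fun n =>
        (push_id (s i).2.1 ((s i).2.2 n).1 ((s i).2.2 n).2).symm⟩
    | succ j h ih =>
      obtain ⟨a1, a2, a3, a4⟩ := ih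
      have e : src (g j (s j)) = tgt (f i j) := (h2 j _).trans a3.symm
      rw [show f i (j + 1) = cmp (g j (s j)) (f i j) from chainF_succ _ _ h]
      refine ⟨(h1 j _).cmp a1 e, src_cmp.trans a2, tgt_cmp.trans (h3 j _), fun n => ?_⟩
      rw [← push_push (h1 j _) a1 e, ← a4, show n + (j + 1 - i) = n + (j - i) + 1 by omega]
      exact h4 j _ _
  refine ⟨⟨fun m => (s m).1.1, f, fun m => Set.range (s m).1.2, fun h => (hf h).1,
    fun h => (hf h).2.1, fun h => (hf h).2.2.1, chainF_self _ _, fun {i j k} h h' => ?_,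
    fun _ => Set.countable_range _, ?_, ?_, ?_, fun i => ⟨0 + (i - 0), ?_⟩⟩, fun τ i l hl => ?_⟩
  · induction k, h' using Nat.le_induction with
    | base =>
      rw [show f j j = idA (s j).1.1 from chainF_self _ _ j, ← (hf h).2.2.1, (hf h).1.id_cmp]
    | succ k h' ih =>
      rw [show f j (k + 1) = _ from chainF_succ _ _ h', cmp_assoc, ih]
      exact (chainF_succ _ _ (h.trans h')).symm
  · rintro i _ ⟨n, rfl⟩
    exact ((s i).2.2 n).1
  · rintro i _ ⟨n, rfl⟩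
    exact ((s i).2.2 n).2
  · rintro i j _ h ⟨n, rfl⟩
    exact ⟨_, (hf h).2.2.2 n⟩
  · exact ((hf (Nat.zero_le i)).2.2.2 0).trans push_ck
  · obtain ⟨idx, rfl⟩ : ∃ idx : List ℕ, idx.map (s i).1.2 = l := by
      induction l with
      | nil => exact ⟨[], rfl⟩
      | cons x l ih =>
        obtain ⟨idx, rfl⟩ := ih fun y hy => hl y (List.mem_cons_of_mem _ hy)
        obtain ⟨n, rfl⟩ := hl x List.mem_cons_self
        exact ⟨n :: idx, rfl⟩
    obtain ⟨a, ha⟩ := hφ (some τ, idx, i)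
    have hm := Nat.right_le_pair a i
    have h6 := h5 (Nat.pair a i) (s (Nat.pair a i))
    rw [Nat.unpair_pair, ha] at h6
    generalize Nat.pair a i = m at hm h6
    obtain ⟨a1, -, a3, a4⟩ := hf hm
    have e' : cmp (g m (s m)) (f i m) = f i (m + 1) := (chainF_succ _ _ hm).symm
    have e : ∀ k, Arr k → src k = (s m).1.1 →
        ((idx.map fun n => n + (m - i)).map (s m).1.2).map (push k) =
          (idx.map (s i).1.2).map (push (cmp k (f i m))) := fun k b1 b2 => by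
      simp only [List.map_map]
      refine List.map_congr_left fun n _ => ?_
      simp only [Function.comp_apply, a4]
      exact push_push b1 a1 (b2.trans a3.symm)
    refine ⟨m + 1, hm.trans m.le_succ, h6.imp (fun h7 => ⟨_, ⟨0, rfl⟩, ?_⟩)
      fun h7 k y b1 b2 b3 b4 b5 => h7 k y b1 b2 b3 b4 ?_⟩
    · rw [e _ (h1 m _) (h2 m _), e'] at h7
      exact h7
    · rw [e _ (b1.cmp (h1 m _) (b2.trans (h3 m _).symm)) (src_cmp.trans (h2 m _)), cmp_assoc,
        e']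
      exact b5

end Pool.Agent.Lib.MP_095a31_lc
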