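import Pool.Agent.Lib.MP_095a31_lc.H85Push
import Pool.Agent.Lib.MP_095a31_lc.FoEq

/-!
The forcing relation: persistence, regularity and locality.
-/

open ZFSet Order

namespace Pool.Agent.Lib.MP_095a31_lc

open MP_329f2d_lc

variable {γ : O} {a b c d f g k t u x x' x'' y y' z : V} {C K : Set V} {φ : Fml} {v w : ℕ → V}

theorem push_zero91 : push f (nm 0 k0 y) = nm 0 k0 y := by
  rw [Ty.push_eq (by simp [Ty, mem_M_zero])]; simp

theorem push_push91 (hf : Arr f) (e : src g = tgt f) : push g (push f t) = push (cmp g f) t := by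
  by_cases H : Ty (src f) t
  · rw [Ty.push_eq (e ▸ ty_push hf), Ty.push_eq (f := cmp g f) (by simpa using H), Ty.push_eq H]
    simp [resA_cmp, cmp_assoc]
  · rw [push_of_not H, push_of_not (f := cmp g f) (by simpa using H), push_zero91]

theorem push_push_id91 (hf : Arr f) : push f (push (idA (src f)) t) = push f t := by
  rw [push_push91 hf.src.idA tgt_idA.symm, hf.cmp_id]

theorem pushv_pushv91 (hf : Arr f) (e : src g = tgt f) : pushv g (pushv f v) = pushv (cmp g f) v :=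
  funext fun _ => push_push91 hf e

theorem Ac.rank_push91 (H : Ac (MP_095a31_lc.push f t) z) : rank (ents z) < rank (ents t) :=
  H.rank_lt.trans_le rank_ents_push

theorem Ac.push91 (H : Ac (MP_095a31_lc.push f t) z) (hf : Arr f) (hg : Arr g) (e : src g = tgt f) :
    Ac (MP_095a31_lc.push (cmp g f) t) (MP_095a31_lc.push g z) := H.push_cmp hg hf e

theorem EStep.mono0 {C : Set V} {X Y : V → V → V → Prop} (H : EStep C X c x x')
    (h : ∀ d y z, rank (ents y) < rank (ents x) → rank (ents z) < rank (ents x') → X d y z →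
      Y d y z) : EStep C Y c x x' := by
  refine ⟨fun f hf e y hy => ?_, fun f hf e z hz => ?_⟩
  · obtain ⟨g, h1, h2, z, h3, h4⟩ := H.1 f hf e y hy
    exact ⟨g, h1, h2, z, h3, h _ _ _ (rank_ents_push.trans_lt hy.rank_push91) h3.rank_push91 h4⟩
  · obtain ⟨g, h1, h2, y, h3, h4⟩ := H.2 f hf e z hz
    exact ⟨g, h1, h2, y, h3, h _ _ _ h3.rank_push91 (rank_ents_push.trans_lt hz.rank_push91) h4⟩

theorem eqf_iff {C : Set V} : Eqf C c x x' ↔ EStep C (Eqf C) c x x' := by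
  unfold Eqf
  rw [Eq0, WellFounded.fix_eq]
  exact ⟨fun h => h.mono0 fun _ _ _ _ _ H => H.2, fun h => h.mono0 fun _ _ _ h1 _ H => ⟨h1, H⟩⟩

theorem ents_induction {P : V → Prop} (h : ∀ x, (∀ y, rank (ents y) < rank (ents x) → P y) → P x)
    (x : V) : P x :=
  (InvImage.wf (fun x => rank (ents x)) Ordinal.lt_wf).induction x h

theorem Eqf.mono91 (H : Eqf AA c x x') (hf : Arr f) (e : src f = c) :
    Eqf AA (tgt f) (push f x) (push f x') := by
  rw [eqf_iff] at H ⊢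
  refine ⟨fun f' hf' e' y hy => ?_, fun f' hf' e' y hy => ?_⟩
  · rw [push_push91 hf e'] at hy
    obtain ⟨g, h1, h2, z, h3, h4⟩ := H.1 _ (Arr.cmp hf' hf e') (src_cmp.trans e) y hy
    exact ⟨g, h1, h2.trans tgt_cmp, z, by rwa [push_push91 hf (src_cmp.trans e'), cmp_assoc], h4⟩
  · rw [push_push91 hf e'] at hy
    obtain ⟨g, h1, h2, z, h3, h4⟩ := H.2 _ (Arr.cmp hf' hf e') (src_cmp.trans e) y hy
    exact ⟨g, h1, h2.trans tgt_cmp, z, by rwa [push_push91 hf (src_cmp.trans e'), cmp_assoc], h4⟩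

theorem Eqf.symm0 {C : Set V} (H : Eqf C c x x') : Eqf C c x' x := by
  induction x using ents_induction generalizing c x' with
  | _ x ih =>
    have := (eqf_iff.1 H).mono0 (Y := fun d y z => Eqf C d z y) fun d y z h _ H => ih y h H
    exact eqf_iff.2 ⟨this.2, this.1⟩

theorem Eqf.symm (h : Eqf AA c x x') : Eqf AA c x' x := h.symm0

theorem Eqf.refl (c x : V) : Eqf AA c x x := by
  induction x using ents_induction generalizing c with
  | _ x ih =>
    have : ∀ f ∈ AA, src f = c → ∀ y, Ac (push f x) y → ∃ g ∈ AA, src g = tgt f ∧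
        ∃ z, Ac (push (cmp g f) x) z ∧ z = push g y ∧ Eqf AA (tgt g) z z := fun f hf _ y hy =>
      ⟨idA (tgt f), (Arr.tgt hf).idA, src_idA, _, hy.push91 hf (Arr.tgt hf).idA src_idA, rfl,
        ih _ (rank_ents_push.trans_lt hy.rank_push91) _⟩
    refine eqf_iff.2 ⟨fun f hf e y hy => ?_, fun f hf e y hy => ?_⟩ <;>
    · obtain ⟨g, h1, h2, _, h3, rfl, h4⟩ := this f hf e y hy
      exact ⟨g, h1, h2, _, h3, h4⟩

theorem Eqf.trans (H : Eqf AA c x x') (H' : Eqf AA c x' x'') : Eqf AA c x x'' := by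
  induction x using ents_induction generalizing c x' x'' with
  | _ x ih =>
    rw [eqf_iff] at H H' ⊢
    refine ⟨fun f hf e y hy => ?_, fun f hf e y hy => ?_⟩
    · obtain ⟨g, h1, h2, z, h3, h4⟩ := H.1 f hf e y hy
      obtain ⟨k, h5, h6, u, h7, h8⟩ := H'.1 _ (Arr.cmp h1 hf h2) (src_cmp.trans e) z h3
      rw [tgt_cmp] at h6
      refine ⟨cmp k g, Arr.cmp h5 h1 h6, src_cmp.trans h2, u, by rwa [cmp_assoc], ?_⟩
      rw [tgt_cmp, ← push_push91 h1 h6]
      exact ih _ ((rank_ents_push.trans rank_ents_push).trans_lt hy.rank_push91) (h4.mono91 h5 h6) h8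
    · obtain ⟨g, h1, h2, z, h3, h4⟩ := H'.2 f hf e y hy
      obtain ⟨k, h5, h6, u, h7, h8⟩ := H.2 _ (Arr.cmp h1 hf h2) (src_cmp.trans e) z h3
      rw [tgt_cmp] at h6
      refine ⟨cmp k g, Arr.cmp h5 h1 h6, src_cmp.trans h2, u, by rwa [cmp_assoc], ?_⟩
      rw [tgt_cmp, ← push_push91 h1 h6]
      exact ih _ h7.rank_push91 h8 (h4.mono91 h5 h6)

theorem Mef.mono91 (H : Mef AA c y x) (hf : Arr f) (e : src f = c) :
    Mef AA (tgt f) (push f y) (push f x) := fun f' hf' e' => by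
  obtain ⟨g, h1, h2, z, h3, h4⟩ := H _ (Arr.cmp hf' hf e') (src_cmp.trans e)
  refine ⟨g, h1, h2.trans tgt_cmp, z, ?_, ?_⟩ <;>
    rwa [push_push91 hf (src_cmp.trans e'), cmp_assoc]

theorem Mef.exists (H : Mef AA c y x) (hc : Ob c) :
    ∃ g z, Arr g ∧ src g = c ∧ Ac (push g x) z ∧ Eqf AA (tgt g) (push g y) z := by
  obtain ⟨g, h1, h2, z, h3, h4⟩ := H _ hc.idA src_idA
  rw [tgt_idA] at h2
  rw [← h2, Arr.cmp_id h1] at h3 h4
  exact ⟨g, z, h1, h2, h3, h4⟩

theorem Mef.reg (H : ∀ f, Arr f → src f = c → ∃ g, Arr g ∧ src g = tgt f ∧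
    Mef AA (tgt g) (push (cmp g f) y) (push (cmp g f) x)) : Mef AA c y x := fun f hf e => by
  obtain ⟨g, h1, h2, h3⟩ := H f hf e
  obtain ⟨k, z, h4, h5, h6, h7⟩ := h3.exists h1.tgt
  rw [push_push91 (h1.cmp hf h2) (h5.trans tgt_cmp.symm), ← cmp_assoc] at h6 h7
  exact ⟨cmp k g, h4.cmp h1 h5, src_cmp.trans h2, z, h6, by rwa [tgt_cmp]⟩

theorem Mef.of_ac (hx : Ty c x) (H : Ac x z) : Mef AA c z x := fun f hf e =>
  ⟨idA (tgt f), (Arr.tgt hf).idA, src_idA, push f z, by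
    rw [Arr.id_cmp hf]; exact H.push hf (e ▸ hx), by rw [Arr.id_cmp hf]; exact Eqf.refl _ _⟩

theorem Mef.of_ac_push (H : Ac (push f x) z) (hf : Arr f) : Mef AA (tgt f) z (push f x) :=
  Mef.of_ac (ty_push hf) H

theorem Mef.congr_left (H : Mef AA c y x) (h : Eqf AA c y y') : Mef AA c y' x := fun f hf e => by
  obtain ⟨g, h1, h2, z, h3, h4⟩ := H f hf e
  have := h.symm.mono91 (Arr.cmp h1 hf h2) (src_cmp.trans e)
  rw [tgt_cmp] at this
  exact ⟨g, h1, h2, z, h3, this.trans h4⟩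

theorem Mef.congr_right (H : Mef AA c y x) (h : Eqf AA c x x') : Mef AA c y x' := fun f hf e => by
  obtain ⟨g, h1, h2, z, h3, h4⟩ := H f hf e
  obtain ⟨k, h5, h6, u, h7, h8⟩ := (eqf_iff.1 h).1 _ (Arr.cmp h1 hf h2) (src_cmp.trans e) z h3
  rw [tgt_cmp] at h6
  have := h4.mono91 h5 h6
  rw [push_push91 (Arr.cmp h1 hf h2) (h6.trans tgt_cmp.symm)] at this
  refine ⟨cmp k g, Arr.cmp h5 h1 h6, src_cmp.trans h2, u, by rwa [cmp_assoc], ?_⟩
  rw [tgt_cmp, cmp_assoc]
  exact this.trans h8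

/-- Extensionality, tested on basic elements. -/
theorem eqf_ext (h1 : ∀ f y, Arr f → src f = c → Ac (push f x) y → Mef AA (tgt f) y (push f x'))
    (h2 : ∀ f y, Arr f → src f = c → Ac (push f x') y → Mef AA (tgt f) y (push f x)) :
    Eqf AA c x x' := by
  refine eqf_iff.2 ⟨fun f hf e y hy => ?_, fun f hf e y hy => ?_⟩
  · obtain ⟨g, z, a1, a2, a3, a4⟩ := (h1 f y hf e hy).exists (Arr.tgt hf)
    exact ⟨g, a1, a2, z, by rwa [← push_push91 hf a2], a4⟩
  · obtain ⟨g, z, a1, a2, a3, a4⟩ := (h2 f y hf e hy).exists (Arr.tgt hf)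
    exact ⟨g, a1, a2, z, by rwa [← push_push91 hf a2], a4.symm⟩

/-- Extensionality. -/
theorem eqf_iff91 : Eqf AA c x x' ↔ ∀ f y, Arr f → src f = c →
    (Mef AA (tgt f) y (push f x) ↔ Mef AA (tgt f) y (push f x')) :=
  ⟨fun H _ _ hf e => ⟨fun h => h.congr_right (H.mono91 hf e),
    fun h => h.congr_right (H.mono91 hf e).symm⟩,
    fun H => eqf_ext (fun f y hf e h => (H f y hf e).1 (Mef.of_ac_push h hf))
      fun f y hf e h => (H f y hf e).2 (Mef.of_ac_push h hf)⟩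

theorem Eqf.reg (H : ∀ f, Arr f → src f = c → ∃ g, Arr g ∧ src g = tgt f ∧
    Eqf AA (tgt g) (push (cmp g f) x) (push (cmp g f) x')) : Eqf AA c x x' := by
  have key : ∀ {x x'}, (∀ f, Arr f → src f = c → ∃ g, Arr g ∧ src g = tgt f ∧
      Eqf AA (tgt g) (push (cmp g f) x) (push (cmp g f) x')) → ∀ f y, Arr f → src f = c →
      Ac (push f x) y → Mef AA (tgt f) y (push f x') := fun H f y hf e hy =>
    Mef.reg fun f' hf' e' => by
      obtain ⟨g, h1, h2, h3⟩ := H _ (hf'.cmp hf e') (src_cmp.trans e)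
      rw [tgt_cmp] at h2
      have h4 := (Mef.of_ac_push hy hf).mono91 (h1.cmp hf' h2) (src_cmp.trans e')
      rw [push_push91 hf (src_cmp.trans e'), cmp_assoc, tgt_cmp] at h4
      exact ⟨g, h1, h2, by
        rw [push_push91 hf (src_cmp.trans e'), cmp_assoc]; exact h4.congr_right h3⟩
  exact eqf_ext (key H) (key fun f hf e => (H f hf e).imp fun _ h => ⟨h.1, h.2.1, h.2.2.symm⟩)

theorem Fo.mono91 (H : Fo AA K φ c v) (hf : Arr f) (e : src f = c) :
    Fo AA K φ (tgt f) (pushv f v) := by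
  induction φ generalizing c v with
  | mem i j => exact Mef.mono91 H hf e
  | eq i j => exact Eqf.mono91 H hf e
  | pred i => exact H
  | neg φ _ =>
    intro g hg e'
    have := H _ (Arr.cmp hg hf e') (src_cmp.trans e)
    rwa [tgt_cmp, ← pushv_pushv91 hf e'] at this
  | and φ ψ ih ih' => exact ⟨ih H.1 e, ih' H.2 e⟩
  | ex φ _ =>
    intro g hg e'
    obtain ⟨k, h1, h2, z, h3, h4, h5⟩ := H _ (Arr.cmp hg hf e') (src_cmp.trans e)
    exact ⟨k, h1, h2.trans tgt_cmp, z, h3, h4, by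
      rwa [pushv_pushv91 hf (src_cmp.trans e'), cmp_assoc]⟩

theorem Fo.exists (H : Fo AA K (.ex φ) c v) (hc : Ob c) :
    ∃ g z, Arr g ∧ src g = c ∧ z ∈ K ∧ Ty (tgt g) z ∧ Fo AA K φ (tgt g) (cons z (pushv g v)) := by
  obtain ⟨g, h1, h2, z, h3, h4, h5⟩ := H _ hc.idA src_idA
  rw [tgt_idA] at h2
  rw [← h2, Arr.cmp_id h1] at h5
  exact ⟨g, z, h1, h2, h3, h4, h5⟩

theorem Fo.reg (hc : Ob c) (H : ∀ f, Arr f → src f = c → ∃ g, Arr g ∧ src g = tgt f ∧
    Fo AA K φ (tgt g) (pushv (cmp g f) v)) : Fo AA K φ c v := by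
  induction φ generalizing c v with
  | mem i j => exact Mef.reg H
  | eq i j => exact Eqf.reg H
  | pred i => obtain ⟨_, -, -, h⟩ := H _ hc.idA src_idA; exact h
  | neg φ _ =>
    intro f hf e h
    obtain ⟨g, h1, h2, h3⟩ := H f hf e
    have := (h.mono91 h1 h2).mono91 h1.tgt.idA src_idA
    rw [pushv_pushv91 hf h2] at this
    exact h3 _ h1.tgt.idA src_idA this
  | and φ ψ ih ih' =>
    exact ⟨ih hc fun f hf e => (H f hf e).imp fun _ h => ⟨h.1, h.2.1, h.2.2.1⟩,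
      ih' hc fun f hf e => (H f hf e).imp fun _ h => ⟨h.1, h.2.1, h.2.2.2⟩⟩
  | ex φ _ =>
    intro f hf e
    obtain ⟨g, h1, h2, h3⟩ := H f hf e
    obtain ⟨k, z, h4, h5, h6, h7, h8⟩ := h3.exists h1.tgt
    rw [pushv_pushv91 (h1.cmp hf h2) (h5.trans tgt_cmp.symm), ← cmp_assoc] at h8
    exact ⟨cmp k g, h4.cmp h1 h5, src_cmp.trans h2, z, h6, by rwa [tgt_cmp], by rwa [tgt_cmp]⟩

theorem Fo.subst (H : Fo AA K φ c v) (h : ∀ i, Eqf AA c (v i) (w i)) : Fo AA K φ c w := by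
  induction φ generalizing c v w with
  | mem i j => exact (Mef.congr_left H (h i)).congr_right (h j)
  | eq i j => exact (h i).symm.trans (Eqf.trans H (h j))
  | pred i => exact H
  | neg φ ih => exact fun f hf e h' => H f hf e (ih h' fun i => ((h i).mono91 hf e).symm)
  | and φ ψ ih ih' => exact ⟨ih H.1 h, ih' H.2 h⟩
  | ex φ ih =>
    intro f hf e
    obtain ⟨g, h1, h2, z, h3, h4, h5⟩ := H f hf e
    refine ⟨g, h1, h2, z, h3, h4, ih h5 ?_⟩
    rintro (_ | i)
    · exact Eqf.refl _ _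
    · have := (h i).mono91 (Arr.cmp h1 hf h2) (src_cmp.trans e)
      rwa [tgt_cmp] at this

theorem Fo.not_neg (H : Fo AA K φ c v) (hc : Ob c) : ¬ Fo AA K (.neg φ) c v := fun h =>
  h _ hc.idA src_idA (H.mono91 hc.idA src_idA)

/-- Introduction of the existential quantifier; `K` is closed under transport. -/
theorem Fo.ex_intro (hK : ∀ f t, Arr f → t ∈ K → push f t ∈ K) (hz : z ∈ K)
    (H : Fo AA K φ c (cons z v)) : Fo AA K (.ex φ) c v := fun f hf e =>
  ⟨idA (tgt f), (Arr.tgt hf).idA, src_idA, push f z, hK _ _ hf hz, by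
    rw [tgt_idA]; exact ty_push hf, by
    rw [Arr.id_cmp hf, tgt_idA, ← pushv_cons]; exact H.mono91 hf e⟩

/-- A persistent and regular property of names of level at most `γ` moves along arrows of height
`γ`. -/
theorem Fo.loc91 (H : Fo AA K φ c v) (hv : ∀ i, lev (v i) ≤ γ) (hc : Ob c) (hd : Ob d)
    (hk : k ∈ M γ) (e₁ : src k = res γ c) (e₂ : tgt k = res γ d) : Fo AA K φ d (pushv k v) := by
  refine Fo.reg hd fun f hf e => ?_
  have e' : src (resA γ f) = tgt k := by rw [src_resA, e, e₂]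
  obtain ⟨u, g, h1, h2, h3, h4, h5, h6⟩ := lift_arr hc hf.tgt (cmp_mem_M (hf.resA_mem γ) hk e')
    (src_cmp.trans e₁) (by simp)
  refine ⟨g, h2, h4, ?_⟩
  have := H.mono91 h1 h3
  rw [h5] at this
  convert this using 1
  funext i
  simp only [pushv]
  rw [← push_resA (f := u) (hv i), h6, ← cmp_assoc, ← resA_cmp,
    ← push_resA (lev_push_le.trans (hv i)), push_push91 (arr_of_mem hk) (by simp [e, e₂])]

theorem Mef.loc (H : Mef AA c y x) (hy : lev y ≤ γ) (hx : lev x ≤ γ) (hc : Ob c) (hd : Ob d)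
    (hk : k ∈ M γ) (e₁ : src k = res γ c) (e₂ : tgt k = res γ d) :
    Mef AA d (push k y) (push k x) :=
  Fo.loc91 (K := ∅) (φ := .mem 0 1) (v := cons y fun _ => x) H
    (by rintro (_ | i); exacts [hy, hx]) hc hd hk e₁ e₂

theorem Eqf.loc (H : Eqf AA c y x) (hy : lev y ≤ γ) (hx : lev x ≤ γ) (hc : Ob c) (hd : Ob d)
    (hk : k ∈ M γ) (e₁ : src k = res γ c) (e₂ : tgt k = res γ d) :
    Eqf AA d (push k y) (push k x) :=
  Fo.loc91 (K := ∅) (φ := .eq 0 1) (v := cons y fun _ => x) H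
    (by rintro (_ | i); exacts [hy, hx]) hc hd hk e₁ e₂

theorem Fo.of_id (hc : Ob c) (H : Fo AA K φ c (pushv (idA c) v)) : Fo AA K φ c v :=
  Fo.reg hc fun f hf e => ⟨idA (tgt f), hf.tgt.idA, src_idA, by
    have := H.mono91 hf e
    rw [pushv_pushv91 hc.idA (e.trans tgt_idA.symm), ← e, hf.cmp_id] at this
    rwa [hf.id_cmp, tgt_idA]⟩

/-- Forcing depends only on the restriction of the stage. -/
theorem fo_res91 (hv : ∀ i, lev (v i) ≤ γ) (hc : Ob c) : Fo AA K φ (res γ c) v ↔ Fo AA K φ c v := by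
  have e : pushv (idA (res γ c)) v = pushv (idA c) v := funext fun i => by
    simp only [pushv]; rw [← resA_idA, push_resA (hv i)]
  constructor
  · intro H
    exact Fo.of_id hc (e ▸ H.loc91 hv (hc.res γ) hc (hc.top_mem γ) (by simp) (by simp))
  · intro H
    exact Fo.of_id (hc.res γ) (H.loc91 hv hc (hc.res γ) (hc.top_mem γ) (by simp) (by simp))

theorem mef_res (hy : lev y ≤ γ) (hx : lev x ≤ γ) (hc : Ob c) :
    Mef AA (res γ c) y x ↔ Mef AA c y x :=
  fo_res91 (K := ∅) (φ := .mem 0 1) (v := cons y fun _ => x) (by rintro (_ | i); exacts [hy, hx]) hc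

theorem eqf_res91 (hy : lev y ≤ γ) (hx : lev x ≤ γ) (hc : Ob c) :
    Eqf AA (res γ c) y x ↔ Eqf AA c y x :=
  fo_res91 (K := ∅) (φ := .eq 0 1) (v := cons y fun _ => x) (by rintro (_ | i); exacts [hy, hx]) hc

theorem eqf_push_id (_hc : Ob c) (x : V) : Eqf AA c x (push (idA c) x) :=
  Eqf.reg fun f hf e => ⟨idA (tgt f), hf.tgt.idA, src_idA, by
    rw [hf.id_cmp, ← e, push_push_id91 hf]; exact Eqf.refl _ _⟩

theorem eqf_ck (hc : Ob c) : Eqf AA c (ck x) (ck y) ↔ x = y := by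
  refine ⟨fun H => ?_, fun e => e ▸ Eqf.refl _ _⟩
  induction x using ZFSet.inductionOn generalizing c y with
  | _ x ih =>
    rw [eqf_iff] at H
    ext u
    constructor
    · intro hu
      obtain ⟨g, h1, -, z, h2, h3⟩ := H.1 _ hc.idA src_idA (ck u) (by simpa using ac_ck.2 ⟨u, hu, rfl⟩)
      rw [push_ck, ac_ck] at h2
      obtain ⟨u', h4, rfl⟩ := h2
      rw [push_ck] at h3
      exact ih u hu (Arr.tgt h1) h3 ▸ h4
    · intro hu
      obtain ⟨g, h1, -, z, h2, h3⟩ := H.2 _ hc.idA src_idA (ck u) (by simpa using ac_ck.2 ⟨u, hu, rfl⟩)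
      rw [push_ck, ac_ck] at h2
      obtain ⟨u', h4, rfl⟩ := h2
      rw [push_ck] at h3
      exact ih u' h4 (Arr.tgt h1) h3 ▸ h4

theorem IsUp.mono91 (H : IsUp c u a b) (hf : Arr f) (e : src f = c) :
    IsUp (tgt f) (MP_095a31_lc.push f u) (MP_095a31_lc.push f a) (MP_095a31_lc.push f b) :=
  fun g hg e' z => by
    simp only [push_push91 hf e']
    exact H _ (hg.cmp hf e') (src_cmp.trans e) z

theorem IsUp.left (H : IsUp c u a b) : Mef AA c a u := Mef.reg fun f hf e =>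
  ⟨_, hf.tgt.idA, src_idA, by
    rw [hf.id_cmp, tgt_idA]; exact Mef.of_ac_push ((H f hf e _).2 (.inl rfl)) hf⟩

theorem IsUp.right (H : IsUp c u a b) : Mef AA c b u := Mef.reg fun f hf e =>
  ⟨_, hf.tgt.idA, src_idA, by
    rw [hf.id_cmp, tgt_idA]; exact Mef.of_ac_push ((H f hf e _).2 (.inr rfl)) hf⟩

theorem IsUp.elim (H : IsUp c u a b) (hz : Mef AA c z u) (h : ∀ g, Arr g → src g = c →
    Eqf AA (tgt g) (MP_095a31_lc.push g z) (MP_095a31_lc.push g a) ∨
      Eqf AA (tgt g) (MP_095a31_lc.push g z) (MP_095a31_lc.push g b) →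
    Eqf AA (tgt g) (MP_095a31_lc.push g x) (MP_095a31_lc.push g x')) : Eqf AA c x x' :=
  Eqf.reg fun f hf e => by
    obtain ⟨g, h1, h2, z', h3, h4⟩ := hz f hf e
    have h5 := Arr.cmp h1 hf h2
    have := h _ h5 (src_cmp.trans e)
    rw [tgt_cmp] at this
    refine ⟨g, h1, h2, this ?_⟩
    rcases (H _ h5 (src_cmp.trans e) z').1 h3 with rfl | rfl
    exacts [.inl h4, .inr h4]

theorem IsUp.eq_right (H : IsUp c u a b) (hz : Mef AA c z u) (h : Eqf AA c a b) : Eqf AA c z b :=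
  H.elim hz fun _ hg e h' => h'.elim (fun h' => h'.trans (h.mono91 hg e)) id

theorem IsUp.snd_eq {u' a' b' : V} (H : IsUp c u a b) (H' : IsUp c u' a' b') (h : Eqf AA c u u')
    (ha : Eqf AA c a a') : Eqf AA c b b' :=
  H'.elim (H.right.congr_right h) fun _ hg e h' => h'.elim (fun h' =>
    ((H.mono91 hg e).eq_right ((H'.right.congr_right h.symm).mono91 hg e)
      ((ha.mono91 hg e).trans h'.symm)).symm) id

theorem IsUp.op_inj {s p s' t' p' a' b' : V} (h1 : IsUp c s a a) (h2 : IsUp c t a b) (h3 : IsUp c p s t)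
    (h1' : IsUp c s' a' a') (h2' : IsUp c t' a' b') (h3' : IsUp c p' s' t') (h : Eqf AA c p p') :
    Eqf AA c a a' ∧ Eqf AA c b b' := by
  have ha : Eqf AA c a a' := h3'.elim (h3.left.congr_right h) fun g hg e h' =>
    ((h1.mono91 hg e).eq_right (h'.elim (fun h' => (h1'.left.mono91 hg e).congr_right h'.symm)
      fun h' => (h2'.left.mono91 hg e).congr_right h'.symm) (Eqf.refl _ _)).symm
  refine ⟨ha, h3'.elim (h3.right.congr_right h) fun g hg e h' => h'.elim (fun h' => ?_) fun h' =>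
    (h2.mono91 hg e).snd_eq (h2'.mono91 hg e) h' (ha.mono91 hg e)⟩
  have hb := (h1'.mono91 hg e).eq_right ((h2.right.mono91 hg e).congr_right h') (Eqf.refl _ _)
  refine (h3.mono91 hg e).elim ((h3'.right.congr_right h.symm).mono91 hg e) fun k hk e' h'' => ?_
  refine h''.elim (fun h'' => ?_) fun h'' => ((h2.mono91 hg e).mono91 hk e').snd_eq
    ((h2'.mono91 hg e).mono91 hk e') h''.symm ((ha.mono91 hg e).mono91 hk e')
  have := ((h1.mono91 hg e).mono91 hk e').eq_right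
    (((h2'.right.mono91 hg e).mono91 hk e').congr_right h'') (Eqf.refl _ _)
  exact (hb.mono91 hk e').trans ((((ha.mono91 hg e).mono91 hk e').symm).trans this.symm)

theorem Eqf.mono (hf : Arr f) (h : Eqf AA (src f) x x') :
    Eqf AA (tgt f) (push f x) (push f x') := h.mono91 hf rfl

theorem Eqf.ck_eq (hc : Ob c) (h : Eqf AA c (ck x) (ck y)) : x = y := (eqf_ck hc).1 h

theorem IsOp.eqf {z z' a b a' b' : V} (h : Eqf AA c z z') (h₁ : IsOp c z a b)
    (h₂ : IsOp c z' a' b') : Eqf AA c a a' ∧ Eqf AA c b b' := by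
  obtain ⟨_, -, _, -, -, -, a1, a2, a3⟩ := h₁
  obtain ⟨_, -, _, -, -, -, b1, b2, b3⟩ := h₂
  exact IsUp.op_inj a2 a3 a1 b2 b3 b1 h

theorem Mef.mono (hf : Arr f) (h : Mef AA (src f) y x) :
    Mef AA (tgt f) (push f y) (push f x) := h.mono91 hf rfl

theorem Fo.mono (hf : Arr f) (h : Fo AA K φ (src f) v) : Fo AA K φ (tgt f) (pushv f v) :=
  h.mono91 hf rfl

theorem Fo.not_both (hc : Ob c) (h : Fo AA K φ c v) (h' : Fo AA K (.neg φ) c v) : False :=
  h.not_neg hc h'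

theorem fo_congr (φ : Fml) : ∃ n, ∀ (C K : Set V) (c : V) (v w : ℕ → V), (∀ i < n, v i = w i) →
    (Fo C K φ c v ↔ Fo C K φ c w) := by
  induction φ with
  | mem i j => exact ⟨max i j + 1, fun C K c v w h => by
      simp only [Fo]; rw [h i (by omega), h j (by omega)]⟩
  | eq i j => exact ⟨max i j + 1, fun C K c v w h => by
      simp only [Fo]; rw [h i (by omega), h j (by omega)]⟩
  | pred i => exact ⟨0, fun _ _ _ _ _ _ => Iff.rfl⟩
  | neg φ ih =>
    obtain ⟨n, hn⟩ := ih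
    exact ⟨n, fun C K c v w h => forall₃_congr fun f _ _ => not_congr
      (hn _ _ _ _ _ fun i hi => congrArg (push f) (h i hi))⟩
  | and φ ψ ih ih' =>
    obtain ⟨n, hn⟩ := ih
    obtain ⟨m, hm⟩ := ih'
    exact ⟨max n m, fun C K c v w h => and_congr (hn _ _ _ _ _ fun i hi => h i (by omega))
      (hm _ _ _ _ _ fun i hi => h i (by omega))⟩
  | ex φ ih =>
    obtain ⟨n, hn⟩ := ih
    refine ⟨n, fun C K c v w h => forall₃_congr fun f _ _ => exists_congr fun g =>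
      and_congr_right fun _ => and_congr_right fun _ => exists_congr fun z =>
        and_congr_right fun _ => and_congr_right fun _ => hn _ _ _ _ _ ?_⟩
    rintro (_ | i) hi
    exacts [rfl, congrArg (push (cmp g f)) (h i (by omega))]

theorem fo_push_id (hc : Ob c) : Fo AA K φ c (pushv (idA c) v) ↔ Fo AA K φ c v :=
  ⟨Fo.of_id hc, fun h => by simpa using h.mono91 hc.idA src_idA⟩

/-- Locality. -/
theorem Fo.loc (hc : Ob c) (hd : Ob d) (hk : k ∈ M γ) (e₁ : src k = res γ c)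
    (e₂ : tgt k = res γ d) (hv : ∀ i, lev (v i) ≤ γ) (h : Fo AA K φ c v) :
    Fo AA K φ d (pushv k v) := h.loc91 hv hc hd hk e₁ e₂

theorem fo_res (hc : Ob c) (hv : ∀ i, lev (v i) ≤ γ) :
    Fo AA K φ (res γ c) v ↔ Fo AA K φ c v := fo_res91 hv hc

theorem eqf_res (hc : Ob c) (h : lev x ≤ γ) (h' : lev x' ≤ γ) :
    Eqf AA (res γ c) x x' ↔ Eqf AA c x x' :=
  fo_res (K := ∅) (φ := .eq 0 1) (v := cons x fun _ => x') hc fun i => by cases i <;> assumption

end Pool.Agent.Lib.MP_095a31_lc
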