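import Pool.Agent.Lib.MP_095a31_lc.H85Truth
import Pool.Agent.Lib.MP_095a31_lc.H85Abs

/-!
The list of all tasks.
-/

open ZFSet Order

namespace Pool.Agent.Lib.MP_095a31_lc

open MP_329f2d_lc

/-- The check name of an ordinal. -/
noncomputable def cko (α : O) : V := ck α.toZFSet

theorem cko_inj {α β : O} : cko α = cko β ↔ α = β :=
  ck_inj.trans Ordinal.toZFSet_injective.eq_iff
@[simp] theorem push_cko {f : V} {α : O} : push f (cko α) = cko α := push_ck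
theorem ty_cko {c : V} {α : O} : Ty c (cko α) := ty_ck
theorem cko_mem_NM {α : O} : cko α ∈ NM := ck_mem_NM
theorem cko_mem_AN {α β : O} (h : α < β) : cko α ∈ AN β :=
  ck_mem_AN (by rwa [Ordinal.rank_toZFSet])

/-- At the stage `c`, `J` names an elementary embedding of the level `μ` into the level `μ'` with
critical point `δ` that sends `δ` to `δ'`. -/
def LiftAt (δ μ μ' δ' : O) (c J : V) : Prop :=
  ∃ ρ : V → V → V,
    (∀ f x, Arr f → src f = c → x ∈ AN μ → Ty (tgt f) x → ρ f x ∈ AN μ' ∧ Ty (tgt f) (ρ f x) ∧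
      ∃ z, Ac (push f J) z ∧ IsOp (tgt f) z x (ρ f x)) ∧
    (∀ f z, Arr f → src f = c → Ac (push f J) z →
      ∃ x ∈ AN μ, Ty (tgt f) x ∧ IsOp (tgt f) z x (ρ f x)) ∧
    (∀ f g x, Arr f → src f = c → Arr g → src g = tgt f → x ∈ AN μ → Ty (tgt f) x →
      push g (ρ f x) = ρ (cmp g f) (push g x)) ∧
    (∀ φ f (v : ℕ → V), Arr f → src f = c → (∀ n, v n ∈ AN μ ∧ Ty (tgt f) (v n)) →
      Fo AA (AN μ) φ (tgt f) v → Fo AA (AN μ') φ (tgt f) fun n => ρ f (v n)) ∧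
    ∀ f, Arr f → src f = c → (∀ a < δ, ρ f (cko a) = cko a) ∧ ρ f (cko δ) = cko δ'

/-- The stage `c` forces `x ≠ y`. -/
def NE (c x y : V) : Prop :=
  ∀ g, Arr g → src g = c → ¬ Eqf AA (tgt g) (push g x) (push g y)

/-- `Y` names a nonempty set whose members can be doubled over `c` and the levels below `γ`. -/
def WildAt (γ : O) (c Y : V) : Prop :=
  (∀ f, Arr f → src f = c → ∃ g s, Arr g ∧ src g = tgt f ∧ Ac (push (cmp g f) Y) s) ∧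
  ∀ f s, Arr f → src f = c → Ac (push f Y) s → ∃ g₁ g₂, Arr g₁ ∧ Arr g₂ ∧ src g₁ = tgt f ∧
    src g₂ = tgt f ∧ tgt g₁ = tgt g₂ ∧ cmp g₁ f = cmp g₂ f ∧ resA γ g₁ = resA γ g₂ ∧
    NE (tgt g₁) (push g₁ s) (push g₂ s)

namespace Chain

/-- The tasks for the axioms of ZF. -/
structure GenZF (Ch : Chain) : Prop where
  atom : Ch.Atom
  ups : Ch.Ups
  all : Ch.MeetsK NM
  decA : ∀ φ, Ch.Meets fun c l _ => ∃ γ, env l 0 = cko γ ∧ Fo AA (AN γ) φ c (env l.tail)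
  witA : ∀ φ, Ch.Meets fun c l y => ∃ γ, env l 0 = cko γ ∧ y ∈ AN γ ∧
    Fo AA (AN γ) φ c (cons y (env l.tail))
  witN : ∀ φ, Ch.Meets fun c l y => ∃ γ, env l 0 = cko γ ∧ y ∈ AN γ ∧
    Fo AA NM φ c (cons y (env l.tail))
  nat : ∀ n : ℕ, Ch.Meets fun _ _ y => y = cko n
  om : Ch.Meets fun _ _ y => y = cko Ordinal.omega0
  rk₁ : Ch.Meets fun _ l y => ∃ α, y = cko α ∧ env l 0 ∈ AN α
  rk₂ : Ch.Meets fun _ l y => ∃ α β, env l 1 = cko α ∧ y = cko β ∧ β < α ∧ env l 0 ∈ AN (β + 1)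
  vN : Ch.Meets fun c l y => ∃ α, env l 0 = cko α ∧ y = vN α c
  sep : ∀ φ, Ch.Meets fun c l y => ∃ β, env l 0 = cko β ∧ y ∈ AN (β + 1) ∧
    SepAt NM φ β c (env l.tail) y
  col : ∀ φ, Ch.Meets fun c l y => ∃ β γ, env l 0 = cko β ∧ y = cko γ ∧
    ColAt φ β γ c (env l.tail)

/-- The tasks for extendibility. -/
structure GenExt (Ch : Chain) (δ : O) : Prop where
  crit : Ch.Meets fun _ _ y => y = cko δ
  lift₁ : Ch.Meets fun c l y => ∃ μ μ' δ' J, env l 0 = cko μ ∧ y = cko μ' ∧ J ∈ NM ∧ Ty c J ∧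
    μ < δ' ∧ LiftAt δ μ μ' δ' c J
  lift₂ : Ch.Meets fun c l y => ∃ μ μ' δ', env l 0 = cko μ ∧ env l 1 = cko μ' ∧ μ < δ' ∧
    LiftAt δ μ μ' δ' c y
  tot : Ch.Meets fun c l y => Ac (env l 0) y ∧ ∃ b ∈ NM, Ty c b ∧ IsOp c y (env l 1) b

/-- The tasks for the failure of choice. -/
structure GenWild (Ch : Chain) : Prop where
  bd : Ch.Meets fun _ l y => ∃ α ρ, env l 0 = cko α ∧ y = cko ρ ∧
    ∀ c, Ob c → ∃ Y ∈ AN ρ, Ty c Y ∧ WildAt (α + 1) c Y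
  set : Ch.Meets fun c l y => ∃ α ρ, env l 0 = cko α ∧ env l 1 = cko ρ ∧ y ∈ AN ρ ∧
    WildAt (α + 1) c y
  elt : Ch.Meets fun _ l y => Ac (env l 0) y

end Chain

theorem exists_chain₂ {ι κ : Type} [Countable ι] [Countable κ] (T : ι → List Task)
    (S : κ → List Task) : ∃ Ch : Chain, (∀ τ, ∀ t ∈ T τ, Ch.Meets t) ∧ ∀ τ, ∀ t ∈ S τ, Ch.Meets t := by
  obtain ⟨Ch, h⟩ := exists_chain (ι := (ι ⊕ κ) × ℕ) fun p =>
    (p.1.elim T S).getD p.2 fun _ _ _ => True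
  have H : ∀ τ : ι ⊕ κ, ∀ t ∈ τ.elim T S, Ch.Meets t := fun τ t ht => by
    obtain ⟨n, hn, rfl⟩ := List.getElem_of_mem ht
    have := h (τ, n)
    rwa [List.getD_eq_getElem _ _ hn] at this
  exact ⟨Ch, fun τ => H (.inl τ), fun τ => H (.inr τ)⟩

theorem exists_gen (δ : O) : ∃ Ch : Chain, Ch.GenZF ∧ Ch.GenExt δ ∧ Ch.GenWild := by
  have : Countable Fml := H85.code_inj.countable
  obtain ⟨Ch, h1, h2⟩ := exists_chain₂ (ι := Fml) (κ := ℕ) (fun φ =>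
    [fun c l _ => Fo AA NM φ c (env l),
     fun c l y => y ∈ NM ∧ Fo AA NM φ c (cons y (env l)),
     fun c l _ => ∃ γ, env l 0 = cko γ ∧ Fo AA (AN γ) φ c (env l.tail),
     fun c l y => ∃ γ, env l 0 = cko γ ∧ y ∈ AN γ ∧ Fo AA (AN γ) φ c (cons y (env l.tail)),
     fun c l y => ∃ γ, env l 0 = cko γ ∧ y ∈ AN γ ∧ Fo AA NM φ c (cons y (env l.tail)),
     fun c l y => ∃ β, env l 0 = cko β ∧ y ∈ AN (β + 1) ∧ SepAt NM φ β c (env l.tail) y,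
     fun c l y => ∃ β γ, env l 0 = cko β ∧ y = cko γ ∧ ColAt φ β γ c (env l.tail)])
    fun n =>
    [fun c l y => Ac (env l 1) y ∧ Eqf AA c (env l 0) y,
     fun c l y => Ac (env l 1) y ∧ Eqf AA c y (env l 0),
     fun c l y => (Ac (env l 0) y ∧ ∀ g, Arr g → src g = c → ∀ z, Ac (push g (env l 1)) z →
        ¬ Eqf AA (tgt g) (push g y) z) ∨
      (Ac (env l 1) y ∧ ∀ g, Arr g → src g = c → ∀ z, Ac (push g (env l 0)) z →
        ¬ Eqf AA (tgt g) z (push g y)),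
     fun c l y => ∃ w, IsUp c (env l 0) y w,
     fun c l y => IsUp c (env l 0) (env l 1) y,
     fun _ _ y => y = cko n,
     fun _ _ y => y = cko Ordinal.omega0,
     fun _ l y => ∃ α, y = cko α ∧ env l 0 ∈ AN α,
     fun _ l y => ∃ α β, env l 1 = cko α ∧ y = cko β ∧ β < α ∧ env l 0 ∈ AN (β + 1),
     fun c l y => ∃ α, env l 0 = cko α ∧ y = vN α c,
     fun _ _ y => y = cko δ,
     fun c l y => ∃ μ μ' δ' J, env l 0 = cko μ ∧ y = cko μ' ∧ J ∈ NM ∧ Ty c J ∧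
      μ < δ' ∧ LiftAt δ μ μ' δ' c J,
     fun c l y => ∃ μ μ' δ', env l 0 = cko μ ∧ env l 1 = cko μ' ∧ μ < δ' ∧
      LiftAt δ μ μ' δ' c y,
     fun c l y => Ac (env l 0) y ∧ ∃ b ∈ NM, Ty c b ∧ IsOp c y (env l 1) b,
     fun _ l y => ∃ α ρ, env l 0 = cko α ∧ y = cko ρ ∧
      ∀ c, Ob c → ∃ Y ∈ AN ρ, Ty c Y ∧ WildAt (α + 1) c Y,
     fun c l y => ∃ α ρ, env l 0 = cko α ∧ env l 1 = cko ρ ∧ y ∈ AN ρ ∧ WildAt (α + 1) c y,
     fun _ l y => Ac (env l 0) y]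
  simp only [List.mem_cons, List.not_mem_nil, or_false, forall_eq_or_imp, forall_eq] at h1 h2
  obtain ⟨a1, a2, a3, a4, a5, -, a7, a8, a9, a10, a11, a12, a13, a14, a15, a16, a17⟩ := h2 0
  exact ⟨Ch, ⟨⟨a1, a2, a3⟩, ⟨a4, a5⟩, ⟨fun _ _ => push_mem_NM, subset_rfl, fun φ => (h1 φ).1,
    fun φ => (h1 φ).2.1⟩, fun φ => (h1 φ).2.2.1, fun φ => (h1 φ).2.2.2.1,
    fun φ => (h1 φ).2.2.2.2.1, fun n => (h2 n).2.2.2.2.2.1, a7, a8, a9, a10,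
    fun φ => (h1 φ).2.2.2.2.2.1, fun φ => (h1 φ).2.2.2.2.2.2⟩, ⟨a11, a12, a13, a14⟩,
    ⟨a15, a16, a17⟩⟩

end Pool.Agent.Lib.MP_095a31_lc
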