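import Pool.Agent.Lib.MP_095a31_lc.H91Master
import Pool.Agent.Lib.MP_095a31_lc.H87Lift

/-!
Definability of the category of towers over rank initial segments.
-/

open ZFSet Order

namespace Pool.Agent.Lib.MP_095a31_lc

open MP_329f2d_lc

set_option synthInstance.maxSize 100000

variable {Γ : Type}

section Bounds

variable (a : Set V → (Γ → V) → V) [ha : Tm RK a]

instance oc_tp (o : Set V → (Γ → V) → V → O) (t : ℕ) (k l y z : Set V → (Γ → V) → V → V)
    [h : Oc fun W v x => pair (k W v x) (pair (l W v x) (pair (y W v x) (z W v x)))] :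
    Oc fun W v x => tp (o W v x) t (k W v x) (l W v x) (y W v x) (z W v x) :=
  ⟨fun W hW v x H => h.oc W hW v x (mem_of_pair_right hW (mem_of_pair_right hW H))⟩

instance oo_tp (t : ℕ) (k l y z : Set V → (Γ → V) → O → V) :
    Oo fun W v x => tp x t (k W v x) (l W v x) (y W v x) (z W v x) :=
  ⟨fun _ hW _ _ H => mem_of_pair_left hW H⟩

theorem rk_trs {W : Set V} (h : RK W) : Trs W := h.1.trans

instance bd_tp_eq (o : Set V → (Γ → V) → V → O) (t : ℕ) (k l y z : Set V → (Γ → V) → V → V)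
    [h : Oc fun W v x => tp (o W v x) t (k W v x) (l W v x) (y W v x) (z W v x)] :
    Bd RK fun W v x => a W v = tp (o W v x) t (k W v x) (l W v x) (y W v x) (z W v x) :=
  ⟨fun W hW v hv x H => h.oc W (rk_trs hW) v x (H ▸ ha.mem W hW v hv)⟩

variable (o : Set V → (Γ → V) → V → O) (k l y z : Set V → (Γ → V) → V → V)
  (k' l' y' z' : Set V → (Γ → V) → O → V)

theorem bd_tp (t : ℕ) [h : Oc fun W v x => tp (o W v x) t (k W v x) (l W v x) (y W v x) (z W v x)] :
    Bd RK fun W v x => tp (o W v x) t (k W v x) (l W v x) (y W v x) (z W v x) ∈ a W v :=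
  ⟨fun W hW v hv x H => h.oc W (rk_trs hW) v x (rk_trs hW _ (ha.mem W hW v hv) _ H)⟩

instance bd_El [Oc fun W v x => tp (o W v x) 0 (k W v x) (k W v x) (y W v x) (y W v x)] :
    Bd RK fun W v x => El (a W v) (o W v x) (k W v x) (y W v x) := bd_tp a o k k y y 0

instance bd_Trn [Oc fun W v x => tp (o W v x) 1 (k W v x) (l W v x) (y W v x) (z W v x)] :
    Bd RK fun W v x => Trn (a W v) (o W v x) (k W v x) (l W v x) (y W v x) (z W v x) :=
  bd_tp a o k l y z 1

instance bd_Bit [Oc fun W v x => tp (o W v x) 2 (k W v x) (k W v x) (y W v x) (z W v x)] :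
    Bd RK fun W v x => Bit (a W v) (o W v x) (k W v x) (y W v x) (z W v x) := bd_tp a o k k y z 2

instance bo_El : Bo RK fun W v x => El (a W v) x (k' W v x) (y' W v x) :=
  bo_mem (fun W v x => tp x 0 (k' W v x) (k' W v x) (y' W v x) (y' W v x)) a

instance bd_At [Oc y] : Bd RK fun W v x => At (a W v) (o W v x) (y W v x) :=
  bd_pair_mem (fun W v x => (o W v x).toZFSet) y a

instance bo_At : Bo RK fun W v x => At (a W v) x (y' W v x) :=
  bo_mem (fun W v x => pair x.toZFSet (y' W v x)) a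

instance bo_QD (p : Set V → (Γ → V) → O) [To RK p] : Bo RK fun W v x => QD (p W v) x := by
  unfold QD; infer_instance

variable [Countable Γ]

instance tm_src : Tm RK fun W v => src (a W v) := tm_fst a
instance tm_tgt : Tm RK fun W v => tgt (a W v) := by unfold tgt; infer_instance
instance tm_bod : Tm RK fun W v => bod (a W v) := by unfold bod; infer_instance

instance bd_Ap [Oc fun W v x => tp (o W v x) 3 (l W v x) (l W v x) (y W v x) (z W v x)] :
    Bd RK fun W v x => Ap (a W v) (o W v x) (l W v x) (y W v x) (z W v x) :=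
  bd_tp (fun W v => bod (a W v)) o l l y z 3

instance bo_Ap : Bo RK fun W v x => Ap (a W v) x (l' W v x) (y' W v x) (z' W v x) :=
  bo_mem (fun W v x => tp x 3 (l' W v x) (l' W v x) (y' W v x) (z' W v x)) fun W v => bod (a W v)

end Bounds

section Terms

variable [Countable Γ] (o p : Set V → (Γ → V) → O) [To RK o] [To RK p]
  (a b c d e : Set V → (Γ → V) → V) [Tm RK a] [Tm RK b] [Tm RK c] [Tm RK d] [Tm RK e]

instance tm_tp (t : ℕ) : Tm RK fun W v => tp (o W v) t (a W v) (b W v) (c W v) (d W v) := by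
  unfold tp; infer_instance
instance tm_res : Tm RK fun W v => res (o W v) (a W v) := by unfold res; infer_instance
instance tm_ar : Tm RK fun W v => ar (a W v) (b W v) (c W v) := by unfold ar; infer_instance
instance tm_resA : Tm RK fun W v => resA (o W v) (a W v) := by unfold resA; infer_instance
instance df_El : Df RK fun W v => El (a W v) (o W v) (b W v) (c W v) := by unfold El; infer_instance
instance df_Trn : Df RK fun W v => Trn (a W v) (o W v) (b W v) (c W v) (d W v) (e W v) := by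
  unfold Trn; infer_instance
instance df_Bit : Df RK fun W v => Bit (a W v) (o W v) (b W v) (c W v) (d W v) := by
  unfold Bit; infer_instance
instance df_Ap : Df RK fun W v => Ap (a W v) (o W v) (b W v) (c W v) (d W v) := by
  unfold Ap; infer_instance
instance df_At : Df RK fun W v => At (a W v) (o W v) (b W v) := by unfold At; infer_instance
instance tm_Tb : Tm RK fun W v => Tb (a W v) := by unfold Tb; infer_instance
instance tm_idA : Tm RK fun W v => idA (a W v) := by unfold idA; infer_instance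
instance tm_k0 : Tm RK fun _ (_ : Γ → V) => k0 := by unfold k0; infer_instance

instance tm_cmp : Tm RK fun W v => cmp (a W v) (b W v) := by
  have h := Tm.recur (K := RK) (Γ := Γ) (fun _ _ x => cmp (fst x) (snd x))
    (fun _ _ x => img (fun u => pair (snd u) (resA (rank (fst u)) (fst x)))
      (ZFSet.sep (fun u => rank (snd u) < rank (fst x)) (prod (tc (bod (fst x))) (tc (bod (fst x))))))
    (fun _ _ x G => ar (src (snd x)) (tgt (fst x)) (ZFSet.sep (fun u => ∃ η l y z w,
      u = tp η 3 l l y z ∧ Ap (fst x) η l w z ∧ Ap (snd x) η (ap G (pair l (resA η (fst x)))) y w)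
      (Tb (tc (pair (snd x) (fst x))))))
    (fun _ _ _ _ => Subrelation.wf (r := InvImage (· < ·) fun x => rank (fst x)) (fun {y x} H => by
      obtain ⟨u, hu, rfl⟩ := mem_img.1 H.2
      simpa [InvImage] using (mem_sep.1 hu).2) (InvImage.wf _ Ordinal.lt_wf))
    fun _ _ _ _ x _ => by
      rw [cmp_eq]
      congr 2
      funext u
      refine propext (exists₅_congr fun η l y z w => and_congr_right fun _ =>
        and_congr_right fun H => ?_)
      have t := mem_tc_of_tp (subset_tc _ H)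
      rw [ap_graph (mem_img.2 ⟨pair η.toZFSet l, mem_sep.2 ⟨pair_mem_prod.2 ⟨t.1, t.2.1⟩,
        by simpa using H.rank_lt⟩, by simp⟩), fst_pair, snd_pair]
  have := Tm.subst (K := RK) (fun _ _ x => cmp (fst x) (snd x)) fun W v => pair (a W v) (b W v)
  simpa using this

instance tm_top : Tm RK fun W v => top (a W v) (o W v) := by unfold top; infer_instance
instance df_Pt : Df RK fun W v => Pt (a W v) (o W v) (b W v) := by unfold Pt; infer_instance
instance df_Act : Df RK fun W v => Act (a W v) (o W v) (b W v) (c W v) := by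
  unfold Act; infer_instance
instance tm_actS : Tm RK fun W v => actS (a W v) (b W v) :=
  Tm.of_eq (t := fun W v => ZFSet.sep (fun u => ∃ ζ y z, u = pair (Ordinal.toZFSet ζ) z ∧
    At (b W v) ζ y ∧ Act (a W v) ζ y z) (prod (dom (b W v)) (tc (a W v)))) fun _ _ _ _ => rfl
instance df_Im : Df RK fun W v => Im (a W v) (o W v) (b W v) := by unfold Im; infer_instance
instance df_QD : Df RK fun W v => QD (o W v) (p W v) := by unfold QD; infer_instance

instance df_Sec : Df RK fun W v => Sec (a W v) (o W v) (b W v) :=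
  Df.of_iff (Q := fun W v => (∀ u ∈ b W v, ∃ ζ y, u = pair (Ordinal.toZFSet ζ) y ∧ QD (o W v) ζ ∧
    Pt (a W v) ζ y) ∧ (∀ ζ, QD (o W v) ζ → ∃ y, At (b W v) ζ y) ∧
    ∀ ζ y z, At (b W v) ζ y → At (b W v) ζ z → y = z) fun _ _ _ _ =>
    ⟨fun h => ⟨h.1, h.2, h.3⟩, fun h => ⟨h.1, h.2.1, h.2.2⟩⟩

instance bd_Sec : Bd RK fun W v x => Sec (a W v) (o W v) x :=
  ⟨fun W hW v hv x H => (bd_subset fun W v => prod (o W v).toZFSet (tc (a W v))).bd W hW v hv x
    fun u hu => by
      obtain ⟨ζ, y, rfl, h1, h2⟩ := H.shp u hu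
      exact pair_mem_prod.2 ⟨Ordinal.toZFSet_mem_toZFSet_iff.2 h1.1,
        (mem_tc_of_tp (subset_tc _ h2)).2.2.2.1⟩⟩

instance df_Fam : Df RK fun W v => Fam (a W v) (b W v) := by unfold Fam; infer_instance

instance df_ObLev : Df RK fun W v => ObLev (a W v) (o W v) (c W v) :=
  Df.of_iff (Q := fun W v =>
    (∀ k y, El (c W v) (o W v) k y → k ∈ a W v ∧ src k = res (o W v) (c W v)) ∧
    (∀ k l y z, Trn (c W v) (o W v) k l y z → El (c W v) (o W v) k y ∧ l ∈ a W v ∧ src l = tgt k ∧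
      El (c W v) (o W v) (cmp l k) z) ∧
    (∀ k l y, El (c W v) (o W v) k y → l ∈ a W v → src l = tgt k →
      ∃ z, Trn (c W v) (o W v) k l y z) ∧
    (∀ k l y z z', Trn (c W v) (o W v) k l y z → Trn (c W v) (o W v) k l y z' → z = z') ∧
    (∀ k l y y' z, Trn (c W v) (o W v) k l y z → Trn (c W v) (o W v) k l y' z → y = y') ∧
    (∀ k y, El (c W v) (o W v) k y → Trn (c W v) (o W v) k (idA (tgt k)) y y) ∧
    (∀ k l l' y z w, Trn (c W v) (o W v) k l y z → Trn (c W v) (o W v) (cmp l k) l' z w →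
      Trn (c W v) (o W v) k (cmp l' l) y w) ∧
    (∀ k y q, Bit (c W v) (o W v) k y q → El (c W v) (o W v) k y ∧ Sec (tgt k) (o W v) q ∧
      Fam k q) ∧
    (∀ k l y z q, Trn (c W v) (o W v) k l y z → Sec (tgt k) (o W v) q →
      (Bit (c W v) (o W v) k y q ↔ Bit (c W v) (o W v) (cmp l k) z (actS l q))) ∧
    (o W v = 0 → ∃ n ∈ omega, ∀ k y, El (c W v) (o W v) k y → y ∈ n)) fun _ _ _ _ =>
    ⟨fun h => ⟨h.1, h.2, h.3, h.4, h.5, h.6, h.7, h.8, h.9, fun e => exists_omega.2 (h.10 e)⟩,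
      fun ⟨h1, h2, h3, h4, h5, h6, h7, h8, h9, h10⟩ =>
        ⟨h1, h2, h3, h4, h5, h6, h7, h8, h9, fun e => exists_omega.1 (h10 e)⟩⟩

instance df_ArLev : Df RK fun W v => ArLev (a W v) (o W v) (c W v) :=
  Df.of_iff (Q := fun W v =>
    (∀ l y z, Ap (c W v) (o W v) l y z → El (src (c W v)) (o W v) (cmp l (resA (o W v) (c W v))) y ∧
      El (tgt (c W v)) (o W v) l z) ∧
    (∀ l y, l ∈ a W v → src l = res (o W v) (tgt (c W v)) →
      El (src (c W v)) (o W v) (cmp l (resA (o W v) (c W v))) y → ∃ z, Ap (c W v) (o W v) l y z) ∧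
    (∀ l y z z', Ap (c W v) (o W v) l y z → Ap (c W v) (o W v) l y z' → z = z') ∧
    (∀ l y y' z, Ap (c W v) (o W v) l y z → Ap (c W v) (o W v) l y' z → y = y') ∧
    (∀ l l' y z y' z', Ap (c W v) (o W v) l y z →
      Trn (src (c W v)) (o W v) (cmp l (resA (o W v) (c W v))) l' y y' →
      Trn (tgt (c W v)) (o W v) l l' z z' → Ap (c W v) (o W v) (cmp l' l) y' z') ∧
    (∀ l l' z y' z', Trn (tgt (c W v)) (o W v) l l' z z' → Ap (c W v) (o W v) (cmp l' l) y' z' →
      ∃ y, Ap (c W v) (o W v) l y z) ∧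
    (∀ l y z q, Ap (c W v) (o W v) l y z → Fam (cmp l (resA (o W v) (c W v))) q →
      (Bit (src (c W v)) (o W v) (cmp l (resA (o W v) (c W v))) y q ↔
        Bit (tgt (c W v)) (o W v) l z q)) ∧
    (o W v = 0 → ∀ l y z, Ap (c W v) (o W v) l y z → y = z)) fun _ _ _ _ =>
    ⟨fun h => ⟨h.1, h.2, h.3, h.4, h.5, h.6, h.7, h.8⟩,
      fun ⟨h1, h2, h3, h4, h5, h6, h7, h8⟩ => ⟨h1, h2, h3, h4, h5, h6, h7, h8⟩⟩

instance df_Lm : Df RK fun W v => Lm (o W v) :=
  Df.of_iff (Q := fun W v => IsSuccLimit (o W v) ∧ ∀ η, η ≤ o W v → Lam η → ∀ a : V, rank a < η →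
    ∀ g : V, g ⊆ vonNeumann (o W v) → (∀ x ∈ a, rank (ap g x) < o W v) →
      ∃ b < o W v, ∀ x ∈ a, rank (ap g x) < b) fun W _ v _ => and_congr_right fun hl =>
    ⟨fun h η h1 h2 a ha g _ => h η h1 h2 a ha _, fun h η h0 h0' a ha f hf => by
      have e : ∀ x ∈ a, rank (ap (graph (fun x => (f x).toZFSet) a) x) = f x := fun x hx => by
        rw [ap_graph hx, Ordinal.rank_toZFSet]
      obtain ⟨b, hb, h1⟩ := h η h0 h0' a ha (graph (fun x => (f x).toZFSet) a) (fun z hz => by
        obtain ⟨x, hx, rfl⟩ := mem_graph.1 hz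
        have h2 := hf x hx
        have h3 := ((rank_lt_of_mem hx).trans ha).trans_le h0
        simp only [mem_vonNeumann, ZFSet.pair, rank_insert, rank_singleton, max_lt_iff,
          hl.succ_lt_iff, Ordinal.rank_toZFSet]
        tauto) fun x hx => e x hx ▸ hf x hx
      exact ⟨b, hb, fun x hx => e x hx ▸ h1 x hx⟩⟩

instance df_East : Df RK fun W v => East (c W v) :=
  Df.of_iff (Q := fun W v => ∀ β, β ≤ rank (c W v) → Lm β → ∃ γ < β, ∀ ζ, γ ≤ ζ → ζ < β →
    IsSuccLimit ζ → ∀ k y, ¬ El (c W v) ζ k y) fun W _ v _ => ⟨fun h β _ => h β, fun h β hβ =>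
      (le_or_gt β (rank (c W v))).elim (h β · hβ) fun h1 => ⟨_, h1, fun ζ h2 _ _ k y H =>
        h2.not_gt (by simpa using rank_lt_of_mem_tc _ (mem_tc_of_tp (subset_tc _ H)).1)⟩⟩

instance tm_Lab : Tm RK fun W v => Lab (a W v) (o W v) := by unfold Lab; infer_instance

instance df_ObAt : Df RK fun W v => ObAt (fun η => ap (a W v) η.toZFSet) (o W v) (c W v) := by
  unfold ObAt; infer_instance

instance df_ArAt : Df RK fun W v => ArAt (fun η => ap (a W v) η.toZFSet) (o W v) (c W v) := by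
  unfold ArAt; infer_instance

instance tm_Mst : Tm RK fun W v => Mst (fun η => ap (a W v) η.toZFSet) (o W v) := by
  unfold Mst Car; infer_instance

/-- Recursion on ordinals. -/
theorem tm_ordRec (F : O → V) (step : O → V → V)
    [Tm RK fun _ (v : Option (Option Γ) → V) => step (rank (v (some none))) (v none)]
    (h : ∀ α g, (∀ η < α, ap g η.toZFSet = F η) → F α = step α g) : Tm RK fun W v => F (o W v) := by
  have h := Tm.recur (K := RK) (Γ := Γ) (fun _ _ x => F (rank x)) (fun _ _ x => (rank x).toZFSet)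
    (fun _ _ x g => step (rank x) g)
    (fun _ _ _ _ => Subrelation.wf (r := InvImage (· < ·) rank) (fun {y x} H => by
      simpa [InvImage] using rank_lt_of_mem H.2) (InvImage.wf _ Ordinal.lt_wf))
    fun _ _ _ _ x _ => h _ _ fun η hη => by
      rw [ap_graph (Ordinal.toZFSet_mem_toZFSet_iff.2 hη), Ordinal.rank_toZFSet]
  have := Tm.subst (K := RK) (fun _ _ x => F (rank x)) fun W v => (o W v).toZFSet
  simpa using this

instance tm_M : Tm RK fun W v => M (o W v) :=
  tm_ordRec o M (fun α g => Mst (fun η => ap g η.toZFSet) α) fun α g h => by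
    ext k
    rw [mem_M, mem_Mst]
    exact ⟨fun H => H.congr fun η hη => (h η hη).symm, fun H => H.congr h⟩

end Terms

namespace Lift

variable {d l t : O} {j : V → V} (h : Lift d l t j) {a : O} {x : V}
include h

theorem otm1 (s : O → V) [Tm RK fun _ (v : ℕ → V) => s (rank (v 0))] (ha : a < l) :
    j (s a) = s (jo j a) := by
  simpa [jo] using h.tm1 (fun x => s (rank x)) (a := a.toZFSet) (by simpa using ha)

theorem ork1 (s : O → V) [Tm RK fun _ (v : ℕ → V) => s (rank (v 0))] (ha : a < l) :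
    rank (s a) < l := by
  simpa using h.rk1 (fun x => s (rank x)) (a := a.toZFSet) (by simpa using ha)

theorem otm2 (s : O → V → V) [Tm RK fun _ (v : ℕ → V) => s (rank (v 0)) (v 1)] (ha : a < l)
    (hx : rank x < l) : j (s a x) = s (jo j a) (j x) := by
  simpa [jo] using h.tm2 (fun x y => s (rank x) y) (a := a.toZFSet) (by simpa using ha) hx

theorem ork2 (s : O → V → V) [Tm RK fun _ (v : ℕ → V) => s (rank (v 0)) (v 1)] (ha : a < l)
    (hx : rank x < l) : rank (s a x) < l := by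
  simpa using h.rk2 (fun x y => s (rank x) y) (a := a.toZFSet) (by simpa using ha) hx

theorem rank_mem_M (ha : a < l) (hx : x ∈ M a) : rank x < l :=
  (rank_lt_of_mem hx).trans (h.ork1 M ha)

theorem mem_M (ha : a < l) (hx : x ∈ M a) : j x ∈ M (jo j a) :=
  h.otm1 M ha ▸ h.mem hx (h.ork1 M ha)

theorem rank_Lab {η : O} (hη : η < d) {u : V} (hu : u ∈ Lab (M η) η) : rank u < d :=
  (rank_lt_of_mem hu).trans (h.rank_lt_of_fix (h.ork1 (fun η => Lab (M η) η) (hη.trans h.lt))
    ((h.otm1 (fun η => Lab (M η) η) (hη.trans h.lt)).trans (by rw [h.jo_fix hη])))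

theorem res_low (hx : rank x < l) (h1 : ∀ u ∈ x, u ∈ Lab (M (rank (fst u))) (rank (fst u)))
    (h2 : ∀ u ∈ j x, u ∈ Lab (M (rank (fst u))) (rank (fst u))) : res d (j x) = res d x := by
  ext u
  rw [mem_res, mem_res]
  exact and_congr_left fun h3 => ⟨fun H => (h.mem_low (h.rank_Lab h3 (h2 u H)) hx).1 H,
    fun H => (h.mem_low (h.rank_Lab h3 (h1 u H)) hx).2 H⟩

omit h in
theorem _root_.Pool.Agent.Lib.MP_095a31_lc.Arr.lab {f : V} (H : Arr f) :
    ∀ u ∈ bod f, u ∈ Lab (M (rank (fst u))) (rank (fst u)) := fun u hu => by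
  obtain ⟨η, l, y, z, rfl⟩ := H.shape.2 u hu
  obtain ⟨h1, h2⟩ := (H.lev η).ap l y z hu
  have h3 := Lab.of_mem (η := η) ((H.tgt.lev η).el _ _ h2).1
  rw [rank_fst_tp, tp_mem_Lab]
  exact ⟨h3, h3, h1.lab H.src, h2.lab H.tgt⟩

theorem jd (h1 : d ≤ a) (ha : a < l) : Jd d a (jo j d) (jo j a) j where
  lam := h.lam
  lamκ := h.lam_jo
  le₁ := h1
  lt₂ := ha.trans h.lt_jo
  le₃ := (h.jo_le_iff h.lt ha).2 h1
  small := (h.ork1 M ha).trans h.lt_jo
  mem _ hk := h.mem_M ha hk
  src _ hk := (h.tm1 MP_095a31_lc.src (h.rank_mem_M ha hk)).symm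
  tgt _ hk := (h.tm1 MP_095a31_lc.tgt (h.rank_mem_M ha hk)).symm
  cmp _ hk _ hl _ := h.tm2 cmp (h.rank_mem_M ha hl) (h.rank_mem_M ha hk)
  idA c hc e := h.tm1 idA (by simpa using h.rk1 MP_095a31_lc.src (h.rank_mem_M ha (hc.idA_mem e)))
  up _ hk := (h.otm2 resA h.lt (h.rank_mem_M ha hk)).symm
  low k hk := by
    have r := h.rank_mem_M ha hk
    have a1 := arr_of_mem hk
    have a2 := arr_of_mem (h.mem_M ha hk)
    rw [resA, resA, ← h.tm1 MP_095a31_lc.src r, ← h.tm1 MP_095a31_lc.tgt r, ← h.tm1 bod r,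
      h.res_low (h.rk1 MP_095a31_lc.src r) a1.src.lab (h.tm1 MP_095a31_lc.src r ▸ a2.src.lab),
      h.res_low (h.rk1 MP_095a31_lc.tgt r) a1.tgt.lab (h.tm1 MP_095a31_lc.tgt r ▸ a2.tgt.lab),
      h.res_low (h.rk1 bod r) a1.lab (h.tm1 bod r ▸ a2.lab)]
  east c hc e ζ h2 h3 := by
    obtain ⟨γ, g1, g2⟩ := hc.east d h.lam.lm
    have := (h.iff3 (fun c g d => ∀ ζ, rank g ≤ ζ → ζ < rank d → IsSuccLimit ζ →
      ∀ k y, ¬ El c ζ k y)
      (a := c) (b := γ.toZFSet) (c := d.toZFSet)
      (by simpa using h.rk1 MP_095a31_lc.src (h.rank_mem_M ha (hc.idA_mem e))) (by simpa using g1.trans h.lt)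
      (by simpa using h.lt)).1 (by simpa using g2) ζ
    rw [h.fixo γ g1, Ordinal.rank_toZFSet] at this
    exact this (g1.le.trans h2) h3

end Lift

end Pool.Agent.Lib.MP_095a31_lc
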