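import Pool.Agent.Lib.MP_095a31_lc.H91Nm
import Pool.Agent.Lib.MP_095a31_lc.FoEq
import Pool.Agent.Lib.MP_095a31_lc.H87Def

/-!
Definability of names and of the forcing relation with a set of arrows.
-/

open ZFSet Order

namespace Pool.Agent.Lib.MP_095a31_lc

open MP_329f2d_lc

set_option synthInstance.maxSize 100000

variable {Γ : Type}

/-- A set that contains the basic elements of `x` at all stages. -/
noncomputable def Bas (x : V) : V :=
  img (fun u => push (fst u) (snd u)) (prod (M (lev x)) (ran (ents x)))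

/-- The basic elements of `x` and their transports along members of `S`. -/
noncomputable def Bas2 (S x : V) : V :=
  Bas x ∪ img (fun u => push (fst u) (snd u)) (prod S (Bas x))

theorem Ac.bas {x y : V} (H : Ac x y) : y ∈ Bas x := by
  obtain ⟨k, t, l, h1, h2, -, -, -, rfl⟩ := H
  exact mem_img.2 ⟨pair l t, pair_mem_prod.2 ⟨h2, mem_ran.2 ⟨k, h1⟩⟩, by simp⟩

theorem Ac.bas_push {f x y : V} (H : Ac (push f x) y) : y ∈ Bas x := by
  have := H.bas
  unfold push at this
  split_ifs at this
  · simpa [Bas, lev, ents, nm] using this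
  · obtain ⟨u, hu, -⟩ := mem_img.1 this
    obtain ⟨_, -, b, hb, -⟩ := mem_prod.1 hu
    simp [ents, nm] at hb

theorem EStep.congr_set {S c x x' : V} {X Y : V → V → V → Prop} (H : EStep S X c x x')
    (e : ∀ g ∈ S, ∀ y ∈ Bas2 S x, ∀ z ∈ Bas2 S x', X (tgt g) y z → Y (tgt g) y z) :
    EStep S Y c x x' := by
  have b1 : ∀ {f x y}, Ac (push f x) y → y ∈ Bas2 S x := fun h => mem_union.2 (.inl h.bas_push)
  have b2 : ∀ {f g x y}, g ∈ S → Ac (push f x) y → push g y ∈ Bas2 S x := fun {_ g _ y} hg h =>
    mem_union.2 (.inr (mem_img.2 ⟨pair g y, pair_mem_prod.2 ⟨hg, h.bas_push⟩, by simp⟩))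
  refine ⟨fun f hf e' y hy => ?_, fun f hf e' z hz => ?_⟩
  · obtain ⟨g, g1, g2, z, z1, z2⟩ := H.1 f hf e' y hy
    exact ⟨g, g1, g2, z, z1, e g g1 _ (b2 g1 hy) _ (b1 z1) z2⟩
  · obtain ⟨g, g1, g2, y, y1, y2⟩ := H.2 f hf e' z hz
    exact ⟨g, g1, g2, y, y1, e g g1 _ (b1 y1) _ (b2 g1 hz) y2⟩

theorem Eqf_fix (C : Set V) (c x x' : V) : Eqf C c x x' ↔
    EStep C (fun d y z => rank (ents y) < rank (ents x) ∧ Eqf C d y z) c x x' := by
  rw [Eqf, Eq0, WellFounded.fix_eq]
  simp only [exists_prop]
  rfl

theorem AN_eq (α : O) : AN α = ⋃₀ img (fun x => Ast (rank x) (AN (rank x))) α.toZFSet := by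
  rw [AN, WellFounded.fix_eq]
  ext u
  simp only [mem_iUnion, mem_sUnion, mem_img, Ordinal.mem_toZFSet_iff]
  exact ⟨fun ⟨β, h⟩ => ⟨_, ⟨_, ⟨β.1, β.2, rfl⟩, rfl⟩, by rw [Ordinal.rank_toZFSet]; exact h⟩,
    fun ⟨_, ⟨_, ⟨β, h, rfl⟩, rfl⟩, h'⟩ => ⟨⟨β, h⟩, by rw [Ordinal.rank_toZFSet] at h'; exact h'⟩⟩

theorem ck_eq' (x : V) : ck x = nm 0 k0 (img (fun y => pair k0 (ck y)) x) := by
  rw [ck, WellFounded.fix_eq]
  rfl

section Terms

variable [Countable Γ] (o p : Set V → (Γ → V) → O) [To RK o] [To RK p]
  (a b c d e : Set V → (Γ → V) → V) [Tm RK a] [Tm RK b] [Tm RK c] [Tm RK d] [Tm RK e]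

instance tm_nm : Tm RK fun W v => nm (o W v) (a W v) (b W v) := by unfold nm; infer_instance
instance to_lev : To RK fun W v => lev (a W v) := by unfold lev; infer_instance
instance tm_arw : Tm RK fun W v => arw (a W v) := by unfold arw; infer_instance
instance tm_ents : Tm RK fun W v => ents (a W v) := by unfold ents; infer_instance
instance df_Ty : Df RK fun W v => Ty (a W v) (b W v) := by unfold Ty; infer_instance
instance tm_push : Tm RK fun W v => push (a W v) (b W v) := by unfold push; infer_instance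
instance df_Ac : Df RK fun W v => Ac (a W v) (b W v) := by unfold Ac; infer_instance
instance tm_Bas : Tm RK fun W v => Bas (a W v) := by unfold Bas; infer_instance
instance tm_Bas2 : Tm RK fun W v => Bas2 (a W v) (b W v) := by unfold Bas2; infer_instance

instance bd_Ac : Bd RK fun W v x => Ac (a W v) x :=
  ⟨fun W hW v hv x H => (bd_mem fun W v => Bas (a W v)).bd W hW v hv x H.bas⟩

instance df_Eqf : Df RK fun W v => Eqf (a W v) (b W v) (c W v) (d W v) := by
  have h0 : Df RK fun W (v : Option (Option Γ) → V) => EStep (a W fun i => v (some (some i)))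
      (fun d y z => pair d (pair y z) ∈ v none) (fst (v (some none))) (fst (snd (v (some none))))
      (snd (snd (v (some none)))) := by
    unfold EStep
    simp only [SetLike.mem_coe]
    infer_instance
  have := Df.recur (K := RK) (fun W v x => Eqf (a W v) (fst x) (fst (snd x)) (snd (snd x)))
    (fun W v x => ZFSet.sep (fun u => rank (ents (fst (snd u))) < rank (ents (fst (snd x))))
      (prod (img tgt (a W v)) (prod (Bas2 (a W v) (fst (snd x))) (Bas2 (a W v) (snd (snd x))))))
    (fun W v x s => EStep (a W v) (fun d y z => pair d (pair y z) ∈ s) (fst x) (fst (snd x))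
      (snd (snd x)))
    (fun _ _ _ _ => Subrelation.wf (r := InvImage (· < ·) fun x => rank (ents (fst (snd x))))
      (fun {y x} H => (mem_sep.1 H.2).2) (InvImage.wf _ Ordinal.lt_wf))
    (fun W _ v _ x _ => (Eqf_fix _ _ _ _).trans ⟨fun H => H.congr_set fun g hg y hy z hz h => by
        simp only [mem_sep, pair_mem_prod, fst_pair, snd_pair, mem_img]
        exact ⟨⟨⟨⟨g, hg, rfl⟩, hy, hz⟩, h.1⟩, h.2⟩,
      fun H => H.congr_set fun g _ y _ z _ h => by
        simp only [mem_sep, fst_pair, snd_pair] at h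
        exact ⟨h.1.2, h.2⟩⟩) fun W v => pair (b W v) (pair (c W v) (d W v))
  simpa using this

instance df_Mef : Df RK fun W v => Mef (a W v) (b W v) (c W v) (d W v) := by
  unfold Mef
  simp only [SetLike.mem_coe]
  infer_instance

instance env_pushv (E : Set V → (Γ → V) → ℕ → V) [h : Env RK E] :
    Env RK fun W v => pushv (a W v) (E W v) :=
  ⟨fun i => have := h.tm i; tm_push a fun W v => E W v i⟩

instance tm_ck : Tm RK fun W v => ck (a W v) :=
  Tm.memRec (fun _ _ => ck) (fun _ _ x g => nm 0 k0 (img (fun y => pair k0 (ap g y)) x))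
    (fun _ _ x => (ck_eq' x).trans (congrArg _ (img_congr fun y hy => by rw [ap_graph hy]))) a

instance tm_mkN : Tm RK fun W v => mkN (o W v) (a W v) (b W v) := by unfold mkN; infer_instance
instance tm_upN : Tm RK fun W v => upN (o W v) (a W v) (b W v) (c W v) := by
  unfold upN; infer_instance
instance tm_opN : Tm RK fun W v => opN (o W v) (a W v) (b W v) (c W v) := by
  unfold opN; infer_instance

instance to_two : To RK fun _ (_ : Γ → V) => (2 : O) := to_natCast 2
instance to_three : To RK fun _ (_ : Γ → V) => (3 : O) := to_natCast 3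

instance tm_Ast : Tm RK fun W v => Ast (o W v) (a W v) := by unfold Ast; infer_instance

instance tm_AN : Tm RK fun W v => AN (o W v) :=
  tm_ordRec o AN (fun α g => ⋃₀ img (fun x => Ast (rank x) (ap g (rank x).toZFSet)) α.toZFSet)
    fun α g h => (AN_eq α).trans (congrArg _ (img_congr fun x hx => by
      rw [h _ (by simpa using rank_lt_of_mem hx)]))

instance tm_vN : Tm RK fun W v => vN (o W v) (a W v) := by unfold vN; infer_instance

end Terms

instance df_Fo (φ : Fml) : ∀ {Γ : Type} [Countable Γ] (a b c : Set V → (Γ → V) → V) [Tm RK a]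
    [Tm RK b] [Tm RK c] (E : Set V → (Γ → V) → ℕ → V) [Env RK E],
    Df RK fun W v => Fo (a W v) (b W v) φ (c W v) (E W v) := by
  induction φ with
  | mem i j =>
    intro Γ _ a b c _ _ _ E h
    have := h.tm i; have := h.tm j
    exact df_Mef a c (fun W v => E W v i) fun W v => E W v j
  | eq i j =>
    intro Γ _ a b c _ _ _ E h
    have := h.tm i; have := h.tm j
    exact df_Eqf a c (fun W v => E W v i) fun W v => E W v j
  | pred i => exact fun _ _ _ _ _ _ _ _ => df_false
  | neg φ ih =>
    intro Γ _ a b c _ _ _ E h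
    unfold Fo
    simp only [SetLike.mem_coe]
    have := ih (fun W (v : Option Γ → V) => a W fun i => v (some i))
      (fun W v => b W fun i => v (some i)) (fun _ v => tgt (v none))
      fun W v => pushv (v none) (E W fun i => v (some i))
    infer_instance
  | and φ ψ ih ih' =>
    intro Γ _ a b c _ _ _ E h
    unfold Fo
    have := ih a b c E; have := ih' a b c E
    infer_instance
  | ex φ ih =>
    intro Γ _ a b c _ _ _ E h
    unfold Fo
    simp only [SetLike.mem_coe]
    have := ih (fun W (v : Option (Option (Option Γ)) → V) => a W fun i => v (some (some (some i))))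
      (fun W v => b W fun i => v (some (some (some i)))) (fun _ v => tgt (v (some none)))
      fun W v => cons (v none) (pushv (cmp (v (some none)) (v (some (some none))))
        (E W fun i => v (some (some (some i)))))
    infer_instance

/-- Transfer of the forcing relation with restricted arrows. -/
theorem Lift.fo {d l t : O} {j : V → V} (h : Lift d l t j) (φ : Fml) {S T c : V} {v : ℕ → V}
    (hS : rank S < l) (hT : rank T < l) (hc : rank c < l) (hv : ∀ i, rank (v i) < l) :
    Fo S T φ c v ↔ Fo (j S) (j T) φ (j c) fun i => j (v i) :=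
  h.iff (fun _ (u : ℕ → V) => Fo (u 0) (u 1) φ (u 2) fun i => u (i + 3))
    (v := cons S (cons T (cons c v))) (by rintro (_ | _ | _ | i); exacts [hS, hT, hc, hv i])

/-- The same for the levels of the category and of the hierarchy of names. -/
theorem Lift.fo' {d l t : O} {j : V → V} (h : Lift d l t j) (φ : Fml) {γ β : O} {c : V}
    {v : ℕ → V} (hγ : γ < l) (hβ : β < l) (hc : rank c < l) (hv : ∀ i, rank (v i) < l) :
    Fo (M γ) (AN β) φ c v ↔ Fo (M (jo j γ)) (AN (jo j β)) φ (j c) fun i => j (v i) := by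
  rw [h.fo φ (h.ork1 M hγ) (h.ork1 AN hβ) hc hv, h.otm1 M hγ, h.otm1 AN hβ]

end Pool.Agent.Lib.MP_095a31_lc
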