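import Pool.Agent.Lib.MP_095a31_lc.H85LiftD
import Pool.Agent.Lib.MP_095a31_lc.ExtLift
import Pool.Agent.Lib.MP_095a31_lc.H87DefN

/-!
The embeddings of an extendible cardinal preserve the category and the forcing relation.
-/

open ZFSet Order

namespace Pool.Agent.Lib.MP_095a31_lc

open MP_329f2d_lc

theorem Lift.jn {δ l t μ : O} {j : V → V} (h : Lift δ l t j) (h₁ : δ < μ) (h₂ : μ < l) :
    Jn δ μ (jo j μ) (μ + 1) (jo j δ) (jo j μ + 1) j := by
  have h3 : μ + 1 < l := h.src.lim.add_one_lt h₂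
  have e : jo j (μ + 1) = jo j μ + 1 := Ordinal.toZFSet_injective
    ((h.ord h3).symm.trans (h.otm1 (fun x => (x + 1).toZFSet) h₂))
  have r : ∀ {c}, Ob c → res (μ + 1) c = c → rank c < l := fun hc e' => by
    simpa using h.rk1 MP_095a31_lc.src (h.rank_mem_M h3 (hc.idA_mem e'))
  have rA : ∀ {x}, x ∈ AN μ → rank x < l := fun hx => (rank_lt_of_mem hx).trans (h.ork1 AN h₂)
  refine ⟨e ▸ h.jd (h₁.le.trans le_self_add) h3, h₁, le_rfl, le_rfl,
    fun x hx => h.otm1 AN h₂ ▸ h.mem hx (h.ork1 AN h₂), fun c hc e' => ?_,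
    fun c hc e' x hx => (h.iff2 Ty (r hc e') (rA hx)).1,
    fun k hk x hx => h.tm2 push (h.rank_mem_M h3 hk) (rA hx),
    fun φ c v hc e' hv H => e ▸ (h.fo' φ h3 h₂ (r hc e') fun n => rA (hv n)).1 H,
    fun b hb => ?_, h.otm1 (fun x => ck x.toZFSet) h.lt⟩
  · have := h.mem_M h3 (hc.idA_mem e')
    rw [h.tm1 idA (r hc e'), e] at this
    exact ⟨by simpa using (arr_of_mem this).src, by simpa using res_src_of_mem this⟩
  · exact (h.otm1 (fun x => ck x.toZFSet) (hb.trans h.lt)).trans (by rw [h.jo_fix hb, cko])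

end Pool.Agent.Lib.MP_095a31_lc
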