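import Pool.Agent.Lib.MP_095a31_lc.H85Gen
import Pool.Agent.Lib.MP_095a31_lc.H91Master

/-!
Names of lifted embeddings.
-/

open ZFSet Order

namespace Pool.Agent.Lib.MP_095a31_lc

open MP_329f2d_lc

/-- What the lifting argument needs from the embedding. -/
structure Jn (δ μ μ' a κ θ : O) (J : V → V) : Prop where
  jd : Jd δ a κ θ J
  lt : δ < μ
  le : μ + 1 ≤ a
  le' : μ' + 1 ≤ θ
  mem : ∀ x ∈ AN μ, J x ∈ AN μ'
  ob : ∀ c, Ob c → res a c = c → Ob (J c) ∧ res θ (J c) = J c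
  ty : ∀ c, Ob c → res a c = c → ∀ x ∈ AN μ, Ty c x → Ty (J c) (J x)
  push : ∀ k ∈ M a, ∀ x ∈ AN μ, J (push k x) = push (J k) (J x)
  fo : ∀ φ c (v : ℕ → V), Ob c → res a c = c → (∀ n, v n ∈ AN μ) →
    Fo (M a) (AN μ) φ c v → Fo (M θ) (AN μ') φ (J c) fun n => J (v n)
  fix : ∀ b < δ, J (cko b) = cko b
  crit : J (cko δ) = cko κ

theorem jn_lift {δ μ μ' a κ θ : O} {J : V → V} (h : Jn δ μ μ' a κ θ J) {c : V} (hc : Ob c) :
    ∃ f N, Arr f ∧ src f = c ∧ N ∈ NM ∧ Ty (tgt f) N ∧ LiftAt δ μ μ' κ (tgt f) N := by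
  obtain ⟨m, H, hm, em, hH, hN⟩ := exists_master h.jd
  have aθ : a ≤ θ := h.jd.lt₂.le.trans h.jd.le₃
  have la : ∀ {x}, x ∈ AN μ → lev x ≤ a := fun hx => (lev_le_of_AN hx).trans h.le
  have lθ : ∀ {x}, x ∈ AN μ → lev x ≤ θ := fun hx => (la hx).trans aθ
  have lθ' : ∀ {x}, x ∈ AN μ' → lev x ≤ θ := fun hx => (lev_le_of_AN hx).trans h.le'
  obtain ⟨u, w, hu, hw, e1, e2, e3, -⟩ := lift_arr (γ := 0) hc hm (mem_M_zero.2 rfl)
    (by simp [k0]) (by simp [k0])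
  have nat : ∀ k l x, k ∈ M θ → l ∈ M θ → src k = m → src l = tgt k → x ∈ AN μ →
      push l (push (H k) (J x)) = push (H (cmp l k)) (J (push l x)) := by
    intro k l x hk hl s1 s2 hx
    have h1 := hH k hk s1
    have h2 := hH _ (cmp_mem_M hl hk s2) (src_cmp.trans s1)
    have h3 := (arr_of_mem hl).resA_mem a
    rw [push_push (arr_of_mem hl) (arr_of_mem h1.1) (s2.trans h1.2.2.symm), ← hN k hk l hl s1 s2,
      ← push_push (arr_of_mem h2.1) (arr_of_mem (h.jd.mem _ h3))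
        (by rw [h2.2.1, h.jd.tgt _ h3, tgt_resA, tgt_cmp]), ← h.push _ h3 x hx, push_resA (la hx)]
  have mem : ∀ k x, k ∈ M θ → src k = m → x ∈ AN μ → push (H k) (J x) ∈ AN μ' :=
    fun k x hk s1 hx => push_mem_AN (arr_of_mem (hH k hk s1).1) (h.mem x hx)
  let S : V := img (fun p => pair (fst p) (opN θ (tgt (fst p)) (snd p)
    (push (H (fst p)) (J (snd p)))))
    (ZFSet.sep (fun p => src (fst p) = m ∧ Ty (tgt (fst p)) (snd p)) (prod (M θ) (AN μ)))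
  have hS : ∀ z, z ∈ S ↔ ∃ k ∈ M θ, ∃ x ∈ AN μ, src k = m ∧ Ty (tgt k) x ∧
      z = pair k (opN θ (tgt k) x (push (H k) (J x))) := fun z => by
    simp only [S, mem_img, mem_sep, mem_prod]
    constructor
    · rintro ⟨_, ⟨⟨k, hk, x, hx, rfl⟩, h1⟩, rfl⟩
      simp only [fst_pair, snd_pair] at h1 ⊢
      exact ⟨k, hk, x, hx, h1.1, h1.2, rfl⟩
    · rintro ⟨k, hk, x, hx, h1, h2, rfl⟩
      exact ⟨_, ⟨⟨k, hk, x, hx, rfl⟩, by simpa using ⟨h1, h2⟩⟩, by simp⟩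
  have hF : ∀ f, Arr f → src f = tgt u → Arr (cmp f w) ∧ resA θ (cmp f w) ∈ M θ ∧
      src (resA θ (cmp f w)) = m ∧ tgt (resA θ (cmp f w)) = res θ (tgt f) := fun f hf s => by
    have := hf.cmp hw (s.trans e3)
    exact ⟨this, this.resA_mem θ, by rw [src_resA, src_cmp, e2, em], by rw [tgt_resA, tgt_cmp]⟩
  have hA : ∀ f z, Arr f → src f = tgt u → (Ac (push f (push w (mkN θ m S))) z ↔
      ∃ k t l, pair k t ∈ S ∧ l ∈ M θ ∧ src l = tgt k ∧ resA θ (cmp f w) = cmp l k ∧ lev t ≤ θ ∧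
        z = push l t) := fun f z hf s => by
    rw [push_push hf hw (s.trans e3), ← ac_push_mkN (hF f hf s).1, src_cmp, e2]
  have hO : ∀ f k l x, Arr f → k ∈ M θ → l ∈ M θ → src k = m → src l = tgt k →
      tgt l = res θ (tgt f) → x ∈ AN μ →
      IsOp (tgt f) (push l (opN θ (tgt k) x (push (H k) (J x)))) (push l x)
        (push (H (cmp l k)) (J (push l x))) := fun f k l x hf hk hl s1 s2 s3 hx => by
    have h1 := mem k x hk s1 hx
    have h2 := isOp_opN (γ := θ) (arr_of_mem hk).tgt (nm_of_AN hx) (nm_of_AN h1) (lθ hx) (lθ' h1)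
    rw [← s2] at h2
    have h3 := h2.push (arr_of_mem hl)
    rw [s3, s2] at h3
    rw [← nat k l x hk hl s1 s2 hx]
    exact h3.of_res hf.tgt (lev_push_le.trans lev_opN.le) (lev_push_le.trans (lθ hx))
      (lev_push_le.trans (lθ' h1))
  refine ⟨u, push w (mkN θ m S), hu, e1, push_mem_NM hw (nm_mem_NM (hm.res θ |>.idA_mem
    res_res_self) fun z hz => ?_), e3 ▸ ty_push hw,
    fun f x => push (H (resA θ (cmp f w))) (J x), fun f x hf s hx tx => ?_,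
    fun f z hf s hz => ?_, fun f g x hf s hg s' hx _ => ?_, fun φ f v hf s hv H1 => ?_,
    fun f _ _ => ⟨fun b hb => ?_, ?_⟩⟩
  · obtain ⟨k, hk, x, hx, h1, -, rfl⟩ := (hS z).1 hz
    exact ⟨k, hk, _, opN_mem_NM (arr_of_mem hk).tgt (nm_of_AN hx)
      (nm_of_AN (mem k x hk h1 hx)), rfl⟩
  · obtain ⟨-, h1, h2, h3⟩ := hF f hf s
    have h4 := mem _ x h1 h2 hx
    have h5 := (arr_of_mem h1).tgt
    have h6 := h5.idA_mem (res_tgt_of_mem h1)
    have h7 : Ty (tgt (resA θ (cmp f w))) x := h3 ▸ (Ty_res (lθ hx)).2 tx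
    refine ⟨h4, (Ty_res (lθ' h4)).1 ?_, _, (hA f _ hf s).2 ⟨_, _, _,
      (hS _).2 ⟨_, h1, x, hx, h2, h7, rfl⟩, h6, src_idA, (arr_of_mem h1).id_cmp.symm,
      lev_opN.le, rfl⟩, ?_⟩
    · rw [← h3, ← (hH _ h1 h2).2.2]
      exact ty_push (arr_of_mem (hH _ h1 h2).1)
    · have := hO f _ _ x hf h1 h6 h2 src_idA (tgt_idA.trans h3) hx
      rwa [push_id h5 (nm_of_AN hx) h7, (arr_of_mem h1).id_cmp] at this
  · obtain ⟨k, t, l, h1, h2, h3, h4, -, rfl⟩ := (hA f z hf s).1 hz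
    obtain ⟨k', hk, x, hx, h5, -, e⟩ := (hS _).1 h1
    obtain ⟨rfl, rfl⟩ := pair_inj.1 e
    have h6 : tgt l = res θ (tgt f) := by rw [← (hF f hf s).2.2.2, h4, tgt_cmp]
    have h7 := push_mem_AN (arr_of_mem h2) hx
    refine ⟨push l x, h7, (Ty_res (lθ h7)).1 (h6 ▸ ty_push (arr_of_mem h2)), ?_⟩
    dsimp only
    rw [h4]
    exact hO f k l x hf hk h2 h5 h3 h6 hx
  · obtain ⟨-, h1, h2, h3⟩ := hF f hf s
    dsimp only
    rw [← push_resA (lθ' (mem _ x h1 h2 hx)), nat _ _ x h1 (hg.resA_mem θ) h2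
      (by rw [src_resA, s', h3]) hx, push_resA (lθ hx), ← resA_cmp, cmp_assoc]
  · obtain ⟨-, h1, h2, h3⟩ := hF f hf s
    have h4 := hH _ h1 h2
    have h5 := hf.tgt.res a
    have h6 := h.ob _ h5 res_res_self
    have H2 := (fo_abs (fun _ _ => push_mem_AN) (fun _ => la) h5 res_res_self
      fun n => la (hv n).1).2 ((fo_res hf.tgt fun n => la (hv n).1).2 H1)
    have H3 := (fo_abs (fun _ _ => push_mem_AN) (fun _ => lθ') h6.1 h6.2
      fun n => lθ' (h.mem _ (hv n).1)).1 (h.fo φ _ v h5 res_res_self (fun n => (hv n).1) H2)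
    rw [← res_res_le aθ, ← h3, ← h4.2.1] at H3
    have H4 := H3.mono (arr_of_mem h4.1)
    rw [h4.2.2, h3] at H4
    exact (fo_res hf.tgt fun n => lθ' (mem _ _ h1 h2 (hv n).1)).1 H4
  · dsimp only
    rw [h.fix b hb, push_cko]
  · dsimp only
    rw [h.crit, push_cko]

theorem Jn.lift {δ μ μ' a κ θ : O} {J : V → V} (h : Jn δ μ μ' a κ θ J) {c : V} (hc : Ob c) :
    ∃ f N, Arr f ∧ src f = c ∧ N ∈ NM ∧ Ty (tgt f) N ∧ LiftAt δ μ μ' κ (tgt f) N :=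
  jn_lift h hc

end Pool.Agent.Lib.MP_095a31_lc
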