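import Pool.Agent.Lib.MP_095a31_lc.H91Nm

/-!
Names: transport, basic elements, the hierarchy of names, check names and pairs.
-/

open ZFSet Order

namespace Pool.Agent.Lib.MP_095a31_lc

open MP_329f2d_lc

variable {α β γ : O} {a b c f g n t x y z S : V}

/-- The class of all names. -/
def NM : Set V := {t | ∃ α, t ∈ AN α}

@[simp] theorem mem_AA : f ∈ AA ↔ Arr f := Iff.rfl

@[simp] theorem lev_nm : lev (nm γ n y) = γ := by simp [lev, nm]
@[simp] theorem arw_nm : arw (nm γ n y) = n := by simp [arw, nm]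
@[simp] theorem ents_nm : ents (nm γ n y) = y := by simp [ents, nm]

theorem ty_empty : Ty c (nm 0 k0 ∅) := by
  simp [Ty, mem_M_zero]
theorem Ty.push_eq (h : Ty (src f) t) :
    push f t = nm (lev t) (cmp (resA (lev t) f) (arw t)) (ents t) := if_pos h
theorem push_of_not (h : ¬ Ty (src f) t) : push f t = nm 0 k0 ∅ := if_neg h
theorem ty_push (hf : Arr f) : Ty (tgt f) (push f t) := by
  by_cases h : Ty (src f) t
  · rw [h.push_eq]
    refine ⟨?_, by simp⟩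
    simpa using cmp_mem_M (hf.resA_mem _) h.1 (by simp [h.2])
  · rw [push_of_not h]; exact ty_empty
theorem lev_push_le : lev (push f t) ≤ lev t := by
  by_cases h : Ty (src f) t
  · simp [h.push_eq]
  · simp [push_of_not h]
theorem Ty_res (h : lev t ≤ γ) : Ty (res γ c) t ↔ Ty c t := by
  rw [Ty, Ty, res_res_le h]
theorem push_resA (h : lev t ≤ γ) : push (resA γ f) t = push f t := by
  by_cases h' : Ty (src f) t
  · have h2 : Ty (src (resA γ f)) t := by rw [src_resA]; exact (Ty_res h).2 h'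
    rw [h'.push_eq, h2.push_eq, resA_resA_le h]
  · have h2 : ¬ Ty (src (resA γ f)) t := by rw [src_resA, Ty_res h]; exact h'
    rw [push_of_not h', push_of_not h2]
theorem push_congr (h : lev t ≤ γ) (e : resA γ f = resA γ g) : push f t = push g t := by
  rw [← push_resA h, e, push_resA h]
theorem push_push (hg : Arr g) (hf : Arr f) (e : src g = tgt f) :
    push g (push f t) = push (cmp g f) t := by
  have h1 : Ty (src g) (push f t) := e ▸ ty_push hf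
  by_cases h : Ty (src f) t
  · have h2 : Ty (src (cmp g f)) t := by rwa [src_cmp]
    rw [h1.push_eq, h2.push_eq, h.push_eq, resA_cmp, cmp_assoc]
    simp
  · have h2 : ¬ Ty (src (cmp g f)) t := by rwa [src_cmp]
    rw [h1.push_eq, push_of_not h, push_of_not h2]
    simp
theorem rank_ents_push : rank (ents (push f t)) ≤ rank (ents t) := by
  by_cases h : Ty (src f) t
  · simp [h.push_eq]
  · simp [push_of_not h]

theorem pushv_pushv (hg : Arr g) (hf : Arr f) (e : src g = tgt f) (v : ℕ → V) :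
    pushv g (pushv f v) = pushv (cmp g f) v := funext fun _ => push_push hg hf e
theorem pushv_cons (v : ℕ → V) : pushv f (cons x v) = cons (push f x) (pushv f v) :=
  funext fun i => by cases i <;> rfl

theorem Ac.rank_lt (h : Ac t z) : rank (ents z) < rank (ents t) := by
  obtain ⟨k, t', l, h1, -, -, -, -, rfl⟩ := h
  exact (rank_ents_push.trans ((rank_snd_le _).trans (rank_snd_le _))).trans_lt
    ((rank_lt_pair k t').2.trans (rank_lt_of_mem h1))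
theorem Ac.rank_lt' (h : Ac (push f t) z) : rank (ents (push g z)) < rank (ents t) :=
  (rank_ents_push.trans_lt h.rank_lt).trans_le rank_ents_push
theorem Ac.lev_le (h : Ac t z) : lev z ≤ lev t := by
  obtain ⟨k, t', l, -, -, -, -, h, rfl⟩ := h
  exact lev_push_le.trans h
theorem Ac.ty (h : Ac t z) (ht : Ty c t) : Ty c z := by
  have hl := h.lev_le
  obtain ⟨k, t', l, -, h1, -, h2, -, rfl⟩ := h
  have h3 : tgt l = res (lev t) c := by rw [← ht.2, h2, tgt_cmp]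
  exact (Ty_res hl).1 (h3 ▸ ty_push (arr_of_mem h1))
theorem Ac.push (hf : Arr f) (ht : Ty (src f) t) (h : Ac t z) : Ac (push f t) (push f z) := by
  have hl := h.lev_le
  obtain ⟨k, t', l, h0, h1, h2, h3, h4, rfl⟩ := h
  have h5 : src (resA (lev t) f) = tgt l := by rw [src_resA, ← ht.2, h3, tgt_cmp]
  rw [ht.push_eq]
  refine ⟨k, t', cmp (resA (lev t) f) l, by simpa using h0, ?_, by simpa using h2, ?_,
    by simpa using h4, ?_⟩
  · simpa using cmp_mem_M (hf.resA_mem _) h1 h5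
  · rw [arw_nm, h3, cmp_assoc]
  · rw [← push_resA hl, push_push (hf.resA _) (arr_of_mem h1) h5]
theorem Ac.push_cmp (hg : Arr g) (hf : Arr f) (e : src g = tgt f)
    (h : Ac (MP_095a31_lc.push f t) z) :
    Ac (MP_095a31_lc.push (cmp g f) t) (MP_095a31_lc.push g z) := by
  rw [← push_push hg hf e]; exact h.push hg (e ▸ ty_push hf)

theorem prod_mono {A A' B B' : V} (h1 : ∀ u ∈ A, u ∈ A') (h2 : ∀ u ∈ B, u ∈ B') :
    prod A B ⊆ prod A' B' := fun u hu => by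
  obtain ⟨a, ha, b, hb, rfl⟩ := mem_prod.1 hu
  exact pair_mem_prod.2 ⟨h1 a ha, h2 b hb⟩
theorem mem_Ast : t ∈ Ast β S ↔ ∃ γ ≤ β + 2, ∃ n y, t = nm γ n y ∧ n ∈ M γ ∧
    y ⊆ prod (M γ) S := by
  rw [Ast, mem_sep]
  refine and_iff_right_of_imp ?_
  rintro ⟨γ, h1, n, y, rfl, h2, h3⟩
  refine pair_mem_prod.2 ⟨Ordinal.toZFSet_mem_toZFSet_iff.2 (h1.trans_lt ?_),
    pair_mem_prod.2 ⟨M_mono h1 h2, mem_powerset.2
      (h3.trans (prod_mono (fun _ => M_mono h1) fun _ h => h))⟩⟩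
  gcongr
  exact_mod_cast Nat.lt_succ_self 2
theorem mem_AN : t ∈ AN α ↔ ∃ β < α, ∃ γ ≤ β + 2, ∃ n y, t = nm γ n y ∧ n ∈ M γ ∧
    y ⊆ prod (M γ) (AN β) := by
  have e : AN α = ZFSet.iUnion fun β : Set.Iio α => Ast β.1 (AN β.1) := by
    rw [AN, WellFounded.fix_eq]
  rw [e, mem_iUnion]
  simp only [mem_Ast]
  exact ⟨fun ⟨β, h⟩ => ⟨β.1, β.2, h⟩, fun ⟨β, h1, h⟩ => ⟨⟨β, h1⟩, h⟩⟩
theorem AN_mono (h : α ≤ β) (ht : t ∈ AN α) : t ∈ AN β := by
  obtain ⟨δ, h1, h2⟩ := mem_AN.1 ht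
  exact mem_AN.2 ⟨δ, h1.trans_le h, h2⟩
theorem lev_le_of_AN (ht : t ∈ AN α) : lev t ≤ α + 1 := by
  obtain ⟨δ, h1, γ, h2, n, y, rfl, -⟩ := mem_AN.1 ht
  rw [lev_nm]
  refine h2.trans ?_
  rw [← one_add_one_eq_two, ← add_assoc]
  gcongr
  exact add_one_le_of_lt h1
theorem push_mem_AN (hf : Arr f) (ht : t ∈ AN α) : push f t ∈ AN α := by
  obtain ⟨δ, h1, γ, h2, n, y, rfl, h3, h4⟩ := mem_AN.1 ht
  by_cases h : Ty (src f) (nm γ n y)
  · have h5 := (ty_push (t := nm γ n y) hf).1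
    rw [h.push_eq] at h5 ⊢
    simp only [lev_nm, arw_nm, ents_nm] at h5 ⊢
    exact mem_AN.2 ⟨δ, h1, γ, h2, _, y, rfl, h5, h4⟩
  · rw [push_of_not h]
    exact mem_AN.2 ⟨δ, h1, 0, zero_le, k0, ∅, rfl, mem_M_zero.2 rfl, empty_subset _⟩
theorem exists_AN_succ (ht : t ∈ AN α) : ∃ β < α, t ∈ AN (β + 1) := by
  obtain ⟨δ, h1, h2⟩ := mem_AN.1 ht
  exact ⟨δ, h1, mem_AN.2 ⟨δ, lt_add_one δ, h2⟩⟩
theorem Ac.mem_AN (ht : t ∈ AN (β + 1)) (h : Ac t z) : z ∈ AN β := by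
  obtain ⟨δ, h1, γ, -, n, y, rfl, -, h4⟩ := MP_095a31_lc.mem_AN.1 ht
  obtain ⟨k, t', l, h0, h2, -, -, -, rfl⟩ := h
  rw [ents_nm] at h0
  exact push_mem_AN (arr_of_mem h2) (AN_mono (le_of_lt_add_one h1) (pair_mem_prod.1 (h4 h0)).2)
theorem nm_of_AN (ht : t ∈ AN α) : t ∈ NM := ⟨α, ht⟩
theorem push_mem_NM (hf : Arr f) (ht : t ∈ NM) : push f t ∈ NM :=
  ht.imp fun _ => push_mem_AN hf
theorem Ac.mem_NM (ht : t ∈ NM) (h : Ac t z) : z ∈ NM := by
  obtain ⟨α, ht⟩ := ht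
  obtain ⟨β, -, ht⟩ := exists_AN_succ ht
  exact ⟨β, h.mem_AN ht⟩
/-- A set of names is contained in one level. -/
theorem exists_AN_bound (h : ∀ t ∈ S, t ∈ NM) : ∃ α, ∀ t ∈ S, t ∈ AN α := by
  choose F hF using fun t : S => h t.1 t.2
  obtain ⟨α, hα⟩ := Ordinal.bddAbove_of_small (s := Set.range F)
  exact ⟨α, fun t ht => AN_mono (hα ⟨⟨t, ht⟩, rfl⟩) (hF ⟨t, ht⟩)⟩
theorem nm_mem_NM (hn : n ∈ M γ) (hy : ∀ u ∈ y, ∃ k ∈ M γ, ∃ t ∈ NM, u = pair k t) :
    nm γ n y ∈ NM := by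
  obtain ⟨α, hα⟩ := exists_AN_bound (S := img snd y) fun t ht => by
    obtain ⟨u, hu, rfl⟩ := mem_img.1 ht
    obtain ⟨k, -, t, h, rfl⟩ := hy u hu
    simpa using h
  refine ⟨max α γ + 1, mem_AN.2 ⟨max α γ, lt_add_one _, γ, (le_max_right α γ).trans le_self_add,
    n, y, rfl, hn, fun u hu => ?_⟩⟩
  obtain ⟨k, hk, t, -, rfl⟩ := hy u hu
  exact pair_mem_prod.2 ⟨hk, AN_mono (le_max_left _ _) (hα t (mem_img.2 ⟨_, hu, snd_pair _ _⟩))⟩
theorem push_id (hc : Ob c) (h : t ∈ NM) (ht : Ty c t) : push (idA c) t = t := by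
  have _ := hc
  obtain ⟨α, h⟩ := h
  obtain ⟨δ, -, γ, -, n, y, rfl, h3, -⟩ := mem_AN.1 h
  have h1 : Ty (src (idA c)) (nm γ n y) := by rwa [src_idA]
  have h2 := ht.2
  simp only [lev_nm, arw_nm] at h2
  rw [h1.push_eq]
  simp only [lev_nm, arw_nm, ents_nm]
  rw [resA_idA, ← h2, (arr_of_mem h3).id_cmp]

theorem ck_eq (x : V) : ck x = nm 0 k0 (range fun y : x => pair k0 (ck y.1)) := by
  rw [ck, WellFounded.fix_eq]
theorem ty_ck : Ty c (ck x) := by
  rw [ck_eq]; simp [Ty, mem_M_zero]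
@[simp] theorem lev_ck : lev (ck x) = 0 := by
  rw [ck_eq, lev_nm]
@[simp] theorem push_ck : push f (ck x) = ck x := by
  rw [ty_ck.push_eq, ck_eq]; simp
theorem ac_ck : Ac (ck x) z ↔ ∃ y ∈ x, z = ck y := by
  rw [ck_eq, Ac]
  simp only [lev_nm, arw_nm, ents_nm, mem_range]
  constructor
  · rintro ⟨k, t', l, ⟨y, e⟩, -, -, -, -, rfl⟩
    obtain ⟨-, rfl⟩ := pair_inj.1 e
    exact ⟨y.1, y.2, push_ck⟩
  · rintro ⟨y, hy, rfl⟩
    exact ⟨k0, ck y, k0, ⟨⟨y, hy⟩, rfl⟩, mem_M_zero.2 rfl, by simp, by simp, by simp, by simp⟩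
theorem ck_mem_AN (h : rank x < α) : ck x ∈ AN α := by
  induction x using mem_wf.induction generalizing α with
  | _ x ih =>
    refine mem_AN.2 ⟨rank x, h, 0, zero_le, k0, _, ck_eq x, mem_M_zero.2 rfl, fun u hu => ?_⟩
    obtain ⟨y, rfl⟩ := mem_range.1 hu
    exact pair_mem_prod.2 ⟨mem_M_zero.2 rfl, ih y.1 y.2 (rank_lt_of_mem y.2)⟩
theorem ck_mem_NM : ck x ∈ NM := ⟨_, ck_mem_AN (lt_succ _)⟩
theorem ck_inj : ck x = ck y ↔ x = y := by
  refine ⟨fun h => ?_, fun h => h ▸ rfl⟩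
  induction x using mem_wf.induction generalizing y with
  | _ x ih =>
    ext u
    constructor
    · intro hu
      obtain ⟨v, hv, e⟩ := ac_ck.1 (h ▸ ac_ck.2 ⟨u, hu, rfl⟩ : Ac (ck y) (ck u))
      exact ih u hu e ▸ hv
    · intro hu
      obtain ⟨v, hv, e⟩ := ac_ck.1 (h ▸ ac_ck.2 ⟨u, hu, rfl⟩ : Ac (ck x) (ck u))
      exact ih v hv e.symm ▸ hv
theorem ck_empty : ck ∅ = nm 0 k0 ∅ := by
  rw [ck_eq]
  congr 1
  ext u
  simp

@[simp] theorem lev_mkN : lev (mkN γ c S) = γ := lev_nm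
theorem ty_mkN (hc : Ob c) : Ty c (mkN γ c S) := by
  refine ⟨?_, by simp [mkN]⟩
  simpa [mkN] using (hc.res γ).idA_mem res_res_self
theorem ac_push_mkN (hf : Arr f) : Ac (push f (mkN γ (src f) S)) z ↔ ∃ k t l, pair k t ∈ S ∧
    l ∈ M γ ∧ src l = tgt k ∧ resA γ f = cmp l k ∧ lev t ≤ γ ∧ z = push l t := by
  have e : push f (mkN γ (src f) S) = nm γ (resA γ f) S := by
    rw [(ty_mkN hf.src).push_eq, mkN]
    simp only [lev_nm, arw_nm, ents_nm]
    rw [← src_resA, (hf.resA γ).cmp_id]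
  rw [e, Ac]
  simp only [lev_nm, arw_nm, ents_nm]

theorem vN_mem (hc : Ob c) : vN α c ∈ AN (α + 1) := by
  refine mem_AN.2 ⟨α, lt_add_one α, α + 1, ?_, _, _, rfl, (hc.res _).idA_mem res_res_self,
    fun _ h => h⟩
  gcongr
  exact one_le_two
theorem ty_vN (hc : Ob c) : Ty c (vN α c) := ty_mkN hc
theorem ac_vN (hf : Arr f) : Ac (push f (vN α (src f))) z ↔ z ∈ AN α ∧ Ty (tgt f) z := by
  refine ⟨fun h => ⟨?_, h.ty (ty_push hf)⟩, fun ⟨h1, h2⟩ => ?_⟩
  · obtain ⟨k, t, l, h1, h2, -, -, -, rfl⟩ := (ac_push_mkN hf).1 h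
    exact push_mem_AN (arr_of_mem h2) (pair_mem_prod.1 h1).2
  · have hl := lev_le_of_AN h1
    refine (ac_push_mkN hf).2 ⟨resA (α + 1) f, z, idA (tgt (resA (α + 1) f)),
      pair_mem_prod.2 ⟨hf.resA_mem _, h1⟩, ?_, src_idA, (hf.resA _).id_cmp.symm, hl, ?_⟩
    · rw [tgt_resA]; exact (hf.tgt.res _).idA_mem res_res_self
    · rw [tgt_resA, push_id (hf.tgt.res _) ⟨_, h1⟩ ((Ty_res hl).2 h2)]

/-- At all stages after `c`, the basic elements of `z` are `a` and `b`. -/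
def IsUp (c z a b : V) : Prop :=
  ∀ g, Arr g → src g = c → ∀ w, Ac (push g z) w ↔ w = push g a ∨ w = push g b

/-- At the stage `c`, `z` is a name for the ordered pair of `a` and `b`. -/
def IsOp (c z a b : V) : Prop :=
  ∃ u ∈ NM, ∃ w ∈ NM, Ty c u ∧ Ty c w ∧ IsUp c z u w ∧ IsUp c u a a ∧ IsUp c w a b

theorem IsUp.push (hf : Arr f) (h : IsUp (src f) z a b) :
    IsUp (tgt f) (push f z) (push f a) (push f b) := by
  intro g hg e w
  rw [push_push hg hf e, push_push hg hf e, push_push hg hf e]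
  exact h _ (hg.cmp hf e) src_cmp w
theorem IsOp.push (hf : Arr f) (h : IsOp (src f) z a b) :
    IsOp (tgt f) (push f z) (push f a) (push f b) := by
  obtain ⟨u, hu, w, hw, -, -, h1, h2, h3⟩ := h
  exact ⟨_, push_mem_NM hf hu, _, push_mem_NM hf hw, ty_push hf, ty_push hf, h1.push hf,
    h2.push hf, h3.push hf⟩
theorem IsUp.of_res (h : IsUp (res γ c) z a b) (hz : lev z ≤ γ) (ha : lev a ≤ γ)
    (hb : lev b ≤ γ) : IsUp c z a b := by
  intro g hg e w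
  rw [← push_resA hz, ← push_resA ha, ← push_resA hb]
  exact h _ (hg.resA γ) (by rw [src_resA, e]) w
theorem IsUp.at_id (hc : Ob c) (h : IsUp c z a b) (ha : a ∈ NM) (hb : b ∈ NM) (ta : Ty c a)
    (tb : Ty c b) (w : V) : Ac (MP_095a31_lc.push (idA c) z) w ↔ w = a ∨ w = b := by
  rw [h _ hc.idA src_idA w, push_id hc ha ta, push_id hc hb tb]
/-- Restriction of the stage does not matter for names of small level. -/
theorem IsOp.of_res (h : IsOp (res γ c) z a b) (hc : Ob c) (hz : lev z ≤ γ) (ha : lev a ≤ γ)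
    (hb : lev b ≤ γ) : IsOp c z a b := by
  obtain ⟨u, hu, w, hw, tu, tw, h1, h2, h3⟩ := h
  have h4 := h1.at_id (hc.res γ) hu hw tu tw
  have lu : lev u ≤ γ := ((h4 u).2 (.inl rfl)).lev_le.trans (lev_push_le.trans hz)
  have lw : lev w ≤ γ := ((h4 w).2 (.inr rfl)).lev_le.trans (lev_push_le.trans hz)
  exact ⟨u, hu, w, hw, (Ty_res lu).1 tu, (Ty_res lw).1 tw, h1.of_res hz lu lw,
    h2.of_res lu ha ha, h3.of_res lw ha hb⟩
theorem IsOp.uniq {a' b' : V} (hc : Ob c) (h : IsOp c z a b) (h' : IsOp c z a' b') (ha : a ∈ NM)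
    (hb : b ∈ NM) (ha' : a' ∈ NM) (hb' : b' ∈ NM) (ta : Ty c a) (tb : Ty c b) (ta' : Ty c a')
    (tb' : Ty c b') : a = a' ∧ b = b' := by
  obtain ⟨u, hu, w, hw, tu, tw, h1, h2, h3⟩ := h
  obtain ⟨u', hu', w', hw', tu', tw', h1', h2', h3'⟩ := h'
  have e1 := h1.at_id hc hu hw tu tw
  have e2 := h2.at_id hc ha ha ta ta
  have e3 := h3.at_id hc ha hb ta tb
  have e1' := h1'.at_id hc hu' hw' tu' tw'
  have e2' := h2'.at_id hc ha' ha' ta' ta'
  have e3' := h3'.at_id hc ha' hb' ta' tb'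
  have k1 := (e1' u).1 ((e1 u).2 (.inl rfl))
  have k2 := (e1' w).1 ((e1 w).2 (.inr rfl))
  have k3 := (e1 w').1 ((e1' w').2 (.inr rfl))
  have a1 := (e2 a).2 (.inl rfl)
  have a2 := (e3 b).2 (.inr rfl)
  have a3 := (e3' a').2 (.inl rfl)
  have a4 := (e3' b').2 (.inr rfl)
  have ea : a = a' := by
    rcases k1 with rfl | rfl
    · exact ((e2' a).1 a1).elim id id
    · exact (((e2 a').1 a3).elim id id).symm
  subst ea
  refine ⟨rfl, ?_⟩
  have b1 : b = a ∨ b = b' := by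
    rcases k2 with rfl | rfl
    · exact .inl (((e2' b).1 a2).elim id id)
    · exact (e3' b).1 a2
  have b2 : b' = a ∨ b' = b := by
    rcases k3 with rfl | rfl
    · exact .inl (((e2 b').1 a4).elim id id)
    · exact (e3 b').1 a4
  rcases b1 with b1 | b1
  · rcases b2 with b2 | b2
    · exact b1.trans b2.symm
    · exact b2.symm
  · exact b1
theorem isUp_upN (hc : Ob c) (ha : lev a ≤ γ) (hb : lev b ≤ γ) : IsUp c (upN γ c a b) a b := by
  have _ := hc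
  rintro g hg rfl w
  rw [upN, ac_push_mkN hg]
  constructor
  · rintro ⟨k, t, l, h1, h2, h3, h4, -, rfl⟩
    have h5 : k = idA (res γ (src g)) ∧ (t = a ∨ t = b) := by
      rcases mem_pair.1 h1 with e | e <;> obtain ⟨e1, e2⟩ := pair_inj.1 e
      exacts [⟨e1, .inl e2⟩, ⟨e1, .inr e2⟩]
    obtain ⟨rfl, h5⟩ := h5
    rw [tgt_idA] at h3
    rw [← h3, (arr_of_mem h2).cmp_id] at h4
    subst h4
    rcases h5 with rfl | rfl
    exacts [.inl (push_resA ha), .inr (push_resA hb)]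
  · have e : resA γ g = cmp (resA γ g) (idA (res γ (src g))) := by
      rw [← src_resA, (hg.resA γ).cmp_id]
    rintro (rfl | rfl)
    · exact ⟨_, a, resA γ g, mem_pair.2 (.inl rfl), hg.resA_mem γ, by simp, e, ha,
        (push_resA ha).symm⟩
    · exact ⟨_, b, resA γ g, mem_pair.2 (.inr rfl), hg.resA_mem γ, by simp, e, hb,
        (push_resA hb).symm⟩
theorem upN_mem_NM (hc : Ob c) (ha : a ∈ NM) (hb : b ∈ NM) : upN γ c a b ∈ NM := by
  have h := (hc.res γ).idA_mem (γ := γ) res_res_self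
  refine nm_mem_NM h fun u hu => ?_
  rcases mem_pair.1 hu with rfl | rfl
  exacts [⟨_, h, a, ha, rfl⟩, ⟨_, h, b, hb, rfl⟩]
theorem isOp_opN (hc : Ob c) (ha : a ∈ NM) (hb : b ∈ NM) (la : lev a ≤ γ) (lb : lev b ≤ γ) :
    IsOp c (opN γ c a b) a b :=
  ⟨upN γ c a a, upN_mem_NM hc ha ha, upN γ c a b, upN_mem_NM hc ha hb, ty_mkN hc, ty_mkN hc,
    isUp_upN hc lev_mkN.le lev_mkN.le, isUp_upN hc la la, isUp_upN hc la lb⟩
theorem opN_mem_NM (hc : Ob c) (ha : a ∈ NM) (hb : b ∈ NM) : opN γ c a b ∈ NM :=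
  upN_mem_NM hc (upN_mem_NM hc ha ha) (upN_mem_NM hc ha hb)
theorem ty_opN (hc : Ob c) : Ty c (opN γ c a b) := ty_mkN hc
@[simp] theorem lev_opN : lev (opN γ c a b) = γ := lev_nm

end Pool.Agent.Lib.MP_095a31_lc
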