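import Pool.Agent.Lib.MP_095a31_lc.H85Chain
import Pool.Agent.Lib.MP_095a31_lc.H85Fo

/-!
The truth lemma.
-/

open ZFSet Order

namespace Pool.Agent.Lib.MP_095a31_lc

open MP_329f2d_lc

namespace Chain

/-- The tasks for atomic formulas. -/
structure Atom (Ch : Chain) : Prop where
  left : Ch.Meets fun c l y => Ac (env l 1) y ∧ Eqf AA c (env l 0) y
  right : Ch.Meets fun c l y => Ac (env l 1) y ∧ Eqf AA c y (env l 0)
  diff : Ch.Meets fun c l y =>
    (Ac (env l 0) y ∧ ∀ g, Arr g → src g = c → ∀ z, Ac (MP_095a31_lc.push g (env l 1)) z →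
      ¬ Eqf AA (tgt g) (MP_095a31_lc.push g y) z) ∨
    (Ac (env l 1) y ∧ ∀ g, Arr g → src g = c → ∀ z, Ac (MP_095a31_lc.push g (env l 0)) z →
      ¬ Eqf AA (tgt g) z (MP_095a31_lc.push g y))

/-- The tasks for formulas with quantifiers over the class `K`. -/
structure MeetsK (Ch : Chain) (K : Set V) : Prop where
  cl : ∀ f z, Arr f → z ∈ K → MP_095a31_lc.push f z ∈ K
  sub : K ⊆ NM
  dec : ∀ φ, Ch.Meets fun c l _ => Fo AA K φ c (env l)
  wit : ∀ φ, Ch.Meets fun c l y => y ∈ K ∧ Fo AA K φ c (cons y (env l))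

variable {Ch : Chain} {i : ℕ} {x x' : V}

theorem tr_eqf_up {j k : ℕ} {a b : V} (h : j ≤ k) (e : Eqf AA (Ch.c j) a b) :
    Eqf AA (Ch.c k) (MP_095a31_lc.push (Ch.f j k) a) (MP_095a31_lc.push (Ch.f j k) b) :=
  Ch.tgt_f h ▸ Eqf.mono (Ch.arr h) ((Ch.src_f h).symm ▸ e)

theorem tr_fo_up {K : Set V} {φ : Fml} {v : ℕ → V} {j k : ℕ} (h₀ : i ≤ j) (h : j ≤ k)
    (e : Fo AA K φ (Ch.c j) (pushv (Ch.f i j) v)) : Fo AA K φ (Ch.c k) (pushv (Ch.f i k) v) := by
  have := Fo.mono (Ch.arr h) ((Ch.src_f h).symm ▸ e)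
  rwa [Ch.tgt_f h, pushv_pushv (Ch.arr h) (Ch.arr h₀) ((Ch.src_f h).trans (Ch.tgt_f h₀).symm),
    Ch.cmp_f h₀ h] at this

theorem tr_ac_up {j k : ℕ} {y : V} (h₀ : i ≤ j) (h : j ≤ k)
    (e : Ac (MP_095a31_lc.push (Ch.f i j) x) y) :
    Ac (MP_095a31_lc.push (Ch.f i k) x) (MP_095a31_lc.push (Ch.f j k) y) :=
  Ch.cmp_f h₀ h ▸ e.push_cmp (Ch.arr h) (Ch.arr h₀) ((Ch.src_f h).trans (Ch.tgt_f h₀).symm)

theorem tr_mem_val {z : V} (hz : z ∈ Ch.val i x) (j : ℕ) : ∃ k y, j ≤ k ∧ i ≤ k ∧ y ∈ Ch.X k ∧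
    Ac (MP_095a31_lc.push (Ch.f i k) x) y ∧ Ch.val k y = z := by
  obtain ⟨k, y, h, hy, ha, rfl⟩ := mem_val.1 hz
  exact ⟨max j k, _, le_max_left _ _, h.trans (le_max_right _ _), Ch.push (le_max_right _ _) hy,
    tr_ac_up h (le_max_right _ _) ha, val_push (le_max_right _ _)⟩

theorem tr_ac {g n a z : V} (hg : Arr g) (hn : Arr n) (e : src g = tgt n) (ha : a ∈ NM)
    (h : Ac (MP_095a31_lc.push (cmp g n) a) z) : z ∈ NM ∧ Ty (tgt g) z :=
  ⟨h.mem_NM (push_mem_NM (hg.cmp hn e) ha), h.ty (tgt_cmp ▸ ty_push (hg.cmp hn e))⟩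

theorem Atom.eq (H : Ch.Atom) (hx : x ∈ Ch.X i) (hx' : x' ∈ Ch.X i) :
    Ch.val i x = Ch.val i x' ↔ ∃ j, i ≤ j ∧
      Eqf AA (Ch.c j) (MP_095a31_lc.push (Ch.f i j) x) (MP_095a31_lc.push (Ch.f i j) x') := by
  induction hr : rank (ents x) using WellFoundedLT.induction generalizing i x x' with
  | _ r ih =>
  subst hr
  have ih' : ∀ {p : ℕ} {y w : V}, rank (ents y) < rank (ents x) → y ∈ Ch.X p → w ∈ Ch.X p →
      Eqf AA (Ch.c p) y w → Ch.val p y = Ch.val p w := fun h hy hw e =>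
    (ih _ h hy hw rfl).2 ⟨_, le_rfl, by rwa [push_self hy, push_self hw]⟩
  constructor
  · intro e
    obtain ⟨j, hj, ⟨y, hy, ⟨ha, h⟩ | ⟨ha, h⟩⟩ | h⟩ := H.diff i [x, x'] (by simp [hx, hx'])
    · obtain ⟨k, w, hk, hk', hw, ha', e'⟩ :=
        tr_mem_val (e ▸ mem_val.2 ⟨j, y, hj, hy, ha, rfl⟩) j
      obtain ⟨p, hp, q⟩ := (ih _ ha.rank_lt' (Ch.push hk hy) hw rfl).1
        ((val_push hk).trans e'.symm)
      rw [push_push hk hp] at q
      have hjp := hk.trans hp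
      have r := tr_ac_up hk' hp ha'
      rw [← push_push hj hjp] at r
      exact (h _ (Ch.arr hjp) (Ch.src_f hjp) _ r ((Ch.tgt_f hjp).symm ▸ q)).elim
    · obtain ⟨k, w, hk, hk', hw, ha', e'⟩ :=
        tr_mem_val (e.symm ▸ mem_val.2 ⟨j, y, hj, hy, ha, rfl⟩) j
      obtain ⟨p, hp, q⟩ := (ih _ (ha'.rank_lt.trans_le rank_ents_push) hw (Ch.push hk hy) rfl).1
        (e'.trans (val_push hk).symm)
      rw [push_push hk hp] at q
      have hjp := hk.trans hp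
      have r := tr_ac_up hk' hp ha'
      rw [← push_push hj hjp] at r
      exact (h _ (Ch.arr hjp) (Ch.src_f hjp) _ r ((Ch.tgt_f hjp).symm ▸ q)).elim
    · refine ⟨j, hj, eqf_iff.2 ⟨fun f hf hs y ha => ?_, fun f hf hs y ha => ?_⟩⟩
      · have e1 := hs.trans (Ch.tgt_f hj).symm
        rw [MP_095a31_lc.push_push hf (Ch.arr hj) e1] at ha
        have t := tr_ac hf (Ch.arr hj) e1 (Ch.nm hx) ha
        by_contra hc
        refine h f y hf hs t.1 t.2 (Or.inl ⟨ha, fun g hg hs' z hz q => hc ⟨g, hg, hs', z, ?_, q⟩⟩)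
        rw [← MP_095a31_lc.push_push hg hf hs', MP_095a31_lc.push_push hf (Ch.arr hj) e1]
        exact hz
      · have e1 := hs.trans (Ch.tgt_f hj).symm
        rw [MP_095a31_lc.push_push hf (Ch.arr hj) e1] at ha
        have t := tr_ac hf (Ch.arr hj) e1 (Ch.nm hx') ha
        by_contra hc
        refine h f y hf hs t.1 t.2 (Or.inr ⟨ha, fun g hg hs' z hz q => hc ⟨g, hg, hs', z, ?_, q⟩⟩)
        rw [← MP_095a31_lc.push_push hg hf hs', MP_095a31_lc.push_push hf (Ch.arr hj) e1]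
        exact hz
  · rintro ⟨j, hj, e⟩
    ext z
    constructor
    · intro hz
      obtain ⟨m, y, hm, hm', hy, ha, rfl⟩ := tr_mem_val hz j
      have e1 := tr_eqf_up hm e
      rw [push_push hj hm, push_push hj hm] at e1
      obtain ⟨p, hp, w, hw, h1, h2⟩ := H.left.dense (l := [y, MP_095a31_lc.push (Ch.f i m) x'])
        (i := m) (by simp [hy, Ch.push hm' hx']) fun n hn hs => by
          obtain ⟨g, hg, hs', z, q1, q2⟩ := (eqf_iff.1 e1).1 n hn hs _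
            (ha.push hn (hs ▸ Ch.ty (Ch.push hm' hx)))
          have t := tr_ac hg hn hs' (Ch.nm (Ch.push hm' hx')) q1
          rw [MP_095a31_lc.push_push hg hn hs'] at q2
          exact ⟨g, z, hg, hs', t.1, t.2, q1, q2⟩
      exact mem_val.2 ⟨p, w, hm'.trans hp, hw, push_push hm' hp ▸ h1,
        (ih' ha.rank_lt' (Ch.push hp hy) hw h2).symm.trans (val_push hp)⟩
    · intro hz
      obtain ⟨m, y, hm, hm', hy, ha, rfl⟩ := tr_mem_val hz j
      have e1 := tr_eqf_up hm e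
      rw [push_push hj hm, push_push hj hm] at e1
      obtain ⟨p, hp, w, hw, h1, h2⟩ := H.right.dense (l := [y, MP_095a31_lc.push (Ch.f i m) x])
        (i := m) (by simp [hy, Ch.push hm' hx]) fun n hn hs => by
          obtain ⟨g, hg, hs', z, q1, q2⟩ := (eqf_iff.1 e1).2 n hn hs _
            (ha.push hn (hs ▸ Ch.ty (Ch.push hm' hx')))
          have t := tr_ac hg hn hs' (Ch.nm (Ch.push hm' hx)) q1
          rw [MP_095a31_lc.push_push hg hn hs'] at q2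
          exact ⟨g, z, hg, hs', t.1, t.2, q1, q2⟩
      have h3 : Ac (MP_095a31_lc.push (Ch.f i p) x) w := push_push hm' hp ▸ h1
      exact mem_val.2 ⟨p, w, hm'.trans hp, hw, h3,
        (ih' (h3.rank_lt.trans_le rank_ents_push) hw (Ch.push hp hy) h2).trans (val_push hp)⟩

theorem Atom.mem (H : Ch.Atom) (hx : x ∈ Ch.X i) (hx' : x' ∈ Ch.X i) :
    Ch.val i x ∈ Ch.val i x' ↔ ∃ j, i ≤ j ∧
      Mef AA (Ch.c j) (MP_095a31_lc.push (Ch.f i j) x) (MP_095a31_lc.push (Ch.f i j) x') := by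
  constructor
  · intro h
    obtain ⟨k, y, hk, hy, ha, e⟩ := mem_val.1 h
    obtain ⟨p, hp, q⟩ := (H.eq (Ch.push hk hx) hy).1 ((val_push hk).trans e.symm)
    rw [push_push hk hp] at q
    refine ⟨p, hk.trans hp, fun f hf hs => ?_⟩
    have hg := Ob.idA (Arr.tgt hf)
    have hc := hg.cmp hf src_idA
    have e1 : src (cmp (idA (tgt f)) f) = Ch.c p := src_cmp.trans hs
    exact ⟨_, hg, src_idA, _, (tr_ac_up hk hp ha).push hc (e1 ▸ Ch.ty (Ch.push (hk.trans hp) hx')),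
      tgt_cmp ▸ Eqf.mono hc (e1.symm ▸ q)⟩
  · rintro ⟨j, hj, e⟩
    obtain ⟨p, hp, w, hw, h1, h2⟩ := H.left.dense
      (l := [MP_095a31_lc.push (Ch.f i j) x, MP_095a31_lc.push (Ch.f i j) x'])
      (i := j) (by simp [Ch.push hj hx, Ch.push hj hx']) fun n hn hs => by
        obtain ⟨g, hg, hs', z, q1, q2⟩ := e n hn hs
        have t := tr_ac hg hn hs' (Ch.nm (Ch.push hj hx')) q1
        exact ⟨g, z, hg, hs', t.1, t.2, q1, q2⟩
    have hy := Ch.push hp (Ch.push hj hx)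
    refine mem_val.2 ⟨p, w, hj.trans hp, hw, push_push hj hp ▸ h1, ?_⟩
    rw [← (H.eq hy hw).2 ⟨p, le_rfl, by rwa [push_self hy, push_self hw]⟩, val_push hp,
      val_push hj]

theorem tr_list {v : ℕ → V} (hv : ∀ n, v n ∈ Ch.X i) (n : ℕ) :
    ∀ y ∈ (List.range n).map v, y ∈ Ch.X i := by
  intro y hy
  obtain ⟨m, -, rfl⟩ := List.mem_map.1 hy
  exact hv m

theorem tr_env (g : V) (v : ℕ → V) {n m : ℕ} (h : m < n) :
    env (((List.range n).map v).map (MP_095a31_lc.push g)) m = pushv g v m := by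
  rw [env_map, pushv, pushv, env_range v h]

theorem tr_cons {a b : ℕ → V} {n : ℕ} (y : V) (h : ∀ m < n, a m = b m) :
    ∀ m < n, cons y a m = cons y b m
  | 0, _ => rfl
  | m + 1, hm => h m (by omega)

theorem truth (H : Ch.Atom) {K : Set V} (hK : Ch.MeetsK K) (φ : Fml) :
    ∀ {i : ℕ} {v : ℕ → V}, (∀ n, v n ∈ Ch.X i) →
      (Sat (Ch.NK K) ∅ φ (fun n => Ch.val i (v n)) ↔
        ∃ j, i ≤ j ∧ Fo AA K φ (Ch.c j) (pushv (Ch.f i j) v)) := by
  induction φ with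
  | mem a b => exact fun hv => H.mem (hv a) (hv b)
  | eq a b => exact fun hv => H.eq (hv a) (hv b)
  | pred a => exact fun _ => ⟨fun h => h.elim, fun ⟨_, _, h⟩ => h.elim⟩
  | neg φ ih =>
    intro i v hv
    rw [Sat, ih hv]
    constructor
    · intro h
      obtain ⟨n, hn⟩ := fo_congr φ
      obtain ⟨j, hj, ⟨_, -, q⟩ | q⟩ := hK.dec φ i _ (tr_list hv n)
      · exact (h ⟨j, hj, (hn _ _ _ _ _ fun m => tr_env _ v).1 q⟩).elim
      · refine ⟨j, hj, fun f hf hs r => q f (ck ∅) hf hs ck_mem_NM ty_ck ?_⟩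
        rw [pushv_pushv hf (Ch.arr hj) (hs.trans (Ch.tgt_f hj).symm)] at r
        exact (hn _ _ _ _ _ fun m => tr_env _ v).2 r
    · rintro ⟨j, hj, q⟩ ⟨k, hk, r⟩
      exact Fo.not_both (ob _) (tr_fo_up hk (le_max_right j k) r) (tr_fo_up hj (le_max_left j k) q)
  | and φ ψ ih ih' =>
    intro i v hv
    rw [Sat, ih hv, ih' hv]
    constructor
    · rintro ⟨⟨j, hj, q⟩, k, hk, r⟩
      exact ⟨max j k, hj.trans (le_max_left j k), tr_fo_up hj (le_max_left j k) q,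
        tr_fo_up hk (le_max_right j k) r⟩
    · rintro ⟨j, hj, q, r⟩
      exact ⟨⟨j, hj, q⟩, j, hj, r⟩
  | ex φ ih =>
    intro i v hv
    have key : ∀ {m : ℕ} {y : V}, i ≤ m → y ∈ Ch.X m →
        (Sat (Ch.NK K) ∅ φ (cons (Ch.val m y) fun n => Ch.val i (v n)) ↔ ∃ p, m ≤ p ∧
          Fo AA K φ (Ch.c p) (cons (MP_095a31_lc.push (Ch.f m p) y) (pushv (Ch.f i p) v))) := by
      intro m y hm hy
      have e : (cons (Ch.val m y) fun n => Ch.val i (v n)) =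
          fun n => Ch.val m (cons y (pushv (Ch.f i m) v) n) :=
        funext fun n => by cases n; exacts [rfl, (val_push hm).symm]
      rw [e, ih fun n => by cases n; exacts [hy, Ch.push hm (hv _)]]
      refine exists_congr fun p => and_congr_right fun hp => ?_
      rw [pushv_cons, pushv_pushv (Ch.arr hp) (Ch.arr hm)
        ((Ch.src_f hp).trans (Ch.tgt_f hm).symm), Ch.cmp_f hm hp]
    constructor
    · rintro ⟨_, ⟨k, y, hy, hyK, rfl⟩, q⟩
      rw [← val_push (le_max_right i k)] at q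
      obtain ⟨p, hp, r⟩ := (key (le_max_left i k) (Ch.push (le_max_right i k) hy)).1 q
      exact ⟨p, (le_max_left i k).trans hp, Fo.ex_intro hK.cl
        (hK.cl _ _ (Ch.arr hp) (hK.cl _ _ (Ch.arr (le_max_right i k)) hyK)) r⟩
    · rintro ⟨j, hj, q⟩
      obtain ⟨n, hn⟩ := fo_congr φ
      obtain ⟨p, hp, y, hy, hyK, r⟩ := (hK.wit φ).dense
        (tr_list (v := pushv (Ch.f i j) v) (fun m => Ch.push hj (hv m)) n) fun f hf hs => by
          obtain ⟨g, hg, hs', z, hz, t, r⟩ := q f hf hs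
          exact ⟨g, z, hg, hs', hK.sub hz, t, hz,
            (hn _ _ _ _ _ (tr_cons z fun m => tr_env _ _)).2 r⟩
      refine ⟨_, ⟨p, y, hy, hyK, rfl⟩, (key (hj.trans hp) hy).2 ⟨p, le_rfl, ?_⟩⟩
      have r' := (hn _ _ _ _ _ (tr_cons y fun m => tr_env _ _)).1 r
      rw [pushv_pushv (Ch.arr hp) (Ch.arr hj) ((Ch.src_f hp).trans (Ch.tgt_f hj).symm),
        Ch.cmp_f hj hp] at r'
      rw [push_self hy]
      exact r'

end Chain

end Pool.Agent.Lib.MP_095a31_lc
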