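import Pool.Agent.Lib.MP_095a31_lc.H85Gen
import Pool.Agent.Lib.MP_095a31_lc.Ctm

/-!
The model of a generic chain satisfies ZF.
-/

open ZFSet Order

namespace Pool.Agent.Lib.MP_095a31_lc

open MP_329f2d_lc

namespace Chain

/-- The ordinals whose check names occur in the chain. -/
def Ord (Ch : Chain) (α : O) : Prop := ∃ i, cko α ∈ Ch.X i

/-- The value of the check name of an ordinal. -/
noncomputable def o (Ch : Chain) (α : O) : V := Ch.val 0 (cko α)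

variable {Ch : Chain} {α β : O} {i : ℕ} {x z : V}

theorem val_cko (i : ℕ) (α : O) : Ch.val i (cko α) = Ch.o α := val_ck i 0 _
theorem Ord.mem (h : Ch.Ord α) (i : ℕ) : ∃ j, i ≤ j ∧ cko α ∈ Ch.X j := by
  obtain ⟨k, h⟩ := h
  exact ⟨max i k, le_max_left _ _, push_cko (f := Ch.f k (max i k)) (α := α) ▸
    Ch.push (le_max_right _ _) h⟩
theorem Ord.o_mem (h : Ch.Ord α) : Ch.o α ∈ Ch.N := by
  obtain ⟨k, h⟩ := h
  exact val_cko k α ▸ val_mem h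
theorem mem_o : z ∈ Ch.o α ↔ ∃ β < α, Ch.Ord β ∧ Ch.o β = z := by
  rw [o, mem_val]
  constructor
  · rintro ⟨j, y, -, h1, h2, rfl⟩
    rw [push_cko] at h2
    obtain ⟨w, hw, rfl⟩ := ac_ck.1 h2
    obtain ⟨β, hβ, rfl⟩ := Ordinal.mem_toZFSet_iff.1 hw
    exact ⟨β, hβ, ⟨j, h1⟩, (val_cko j β).symm⟩
  · rintro ⟨β, hβ, ⟨j, h1⟩, rfl⟩
    refine ⟨j, cko β, j.zero_le, h1, ?_, val_cko j β⟩
    rw [push_cko]
    exact ac_ck.2 ⟨_, Ordinal.toZFSet_mem_toZFSet_iff.2 hβ, rfl⟩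
theorem isOrdinal_o (α : O) : IsOrdinal (Ch.o α) := by
  induction α using WellFoundedLT.induction with
  | ind α ih =>
    refine isOrdinal_iff_forall_mem_isOrdinal.2 ⟨fun y hy z hz => ?_, fun y hy => ?_⟩
    · obtain ⟨β, h1, -, rfl⟩ := mem_o.1 hy
      obtain ⟨γ, h2, h3, rfl⟩ := mem_o.1 hz
      exact mem_o.2 ⟨γ, h2.trans h1, h3, rfl⟩
    · obtain ⟨β, h1, -, rfl⟩ := mem_o.1 hy
      exact ih β h1
theorem Ord.o_mem_o (h : Ch.Ord α) : Ch.o α ∈ Ch.o β ↔ α < β := by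
  refine ⟨fun H => ?_, fun H => mem_o.2 ⟨α, H, h, rfl⟩⟩
  obtain ⟨γ, h1, h2, h3⟩ := mem_o.1 H
  by_contra hc
  exact mem_irrefl (Ch.o α) (mem_o.2 ⟨γ, h1.trans_le (not_lt.1 hc), h2, h3⟩)

theorem o_rank_mono (h : α ≤ β) : rank (Ch.o α) ≤ rank (Ch.o β) :=
  rank_mono fun _ hz => by
    obtain ⟨γ, h1, h2⟩ := mem_o.1 hz
    exact mem_o.2 ⟨γ, h1.trans_le h, h2⟩

theorem map_mem {j : ℕ} {l : List V} (hl : ∀ x ∈ l, x ∈ Ch.X i) (h : i ≤ j) :
    ∀ x ∈ l.map (MP_095a31_lc.push (Ch.f i j)), x ∈ Ch.X j := by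
  intro x hx
  obtain ⟨y, hy, rfl⟩ := List.mem_map.1 hx
  exact Ch.push h (hl y hy)

theorem map_push_push {f g : V} (hg : Arr g) (hf : Arr f) (e : src g = tgt f) (l : List V) :
    (l.map (MP_095a31_lc.push f)).map (MP_095a31_lc.push g) =
      l.map (MP_095a31_lc.push (cmp g f)) := by
  rw [List.map_map]
  exact List.map_congr_left fun x _ => MP_095a31_lc.push_push hg hf e

theorem src_tgt {j k : ℕ} (h : i ≤ j) (h' : j ≤ k) : src (Ch.f j k) = tgt (Ch.f i j) :=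
  (Ch.src_f h').trans (Ch.tgt_f h).symm

theorem pushv_f {j k : ℕ} (h : i ≤ j) (h' : j ≤ k) (v : ℕ → V) :
    pushv (Ch.f j k) (pushv (Ch.f i j) v) = pushv (Ch.f i k) v :=
  funext fun _ => push_push h h'

theorem Meets.congr {T T' : Task} (H : Ch.Meets T) (e : ∀ c l y, T c l y ↔ T' c l y) :
    Ch.Meets T' := by
  obtain rfl : T = T' := funext fun c => funext fun l => funext fun y => propext (e c l y)
  exact H

/-- An ordinal of the chain may be used as a parameter of a task. -/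
theorem Meets.ord {T : Task} (H : Ch.Meets T) (h : Ch.Ord α) :
    Ch.Meets fun c l y => T c (cko α :: l) y := by
  intro i l hl
  obtain ⟨j, h1, h2⟩ := h.mem i
  obtain ⟨k, h3, h4⟩ := H j (cko α :: l.map (MP_095a31_lc.push (Ch.f i j)))
    (List.forall_mem_cons.2 ⟨h2, map_mem hl h1⟩)
  refine ⟨k, h1.trans h3, h4.imp (Exists.imp fun y => And.imp_right fun h6 => ?_)
    fun h5 g y hg e hy ty => ?_⟩
  · rwa [List.map_cons, push_cko, map_push_push (Ch.arr h3) (Ch.arr h1) (src_tgt h1 h3),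
      Ch.cmp_f h1 h3] at h6
  · have := h5 g y hg e hy ty
    rwa [List.map_cons, push_cko, map_push_push (hg.cmp (Ch.arr h3) (e.trans (Ch.tgt_f h3).symm))
      (Ch.arr h1) (src_cmp.trans (src_tgt h1 h3)), cmp_assoc, Ch.cmp_f h1 h3] at this

/-- A task that can be met at every later stage at once. -/
theorem Meets.here {T : Task} (h : Ch.Meets T) {l : List V} (hl : ∀ x ∈ l, x ∈ Ch.X i)
    (hd : ∀ n, Arr n → src n = Ch.c i → ∃ y, y ∈ NM ∧ Ty (tgt n) y ∧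
      T (tgt n) (l.map (MP_095a31_lc.push n)) y) :
    ∃ j, i ≤ j ∧ ∃ y ∈ Ch.X j, T (Ch.c j) (l.map (MP_095a31_lc.push (Ch.f i j))) y :=
  h.dense hl fun n hn e => by
    obtain ⟨y, h1, h2, h3⟩ := hd n hn e
    exact ⟨idA (tgt n), y, hn.tgt.idA, src_idA, h1, by rwa [tgt_idA], by rwa [tgt_idA, hn.id_cmp]⟩

theorem GenZF.meetsA (G : Ch.GenZF) (h : Ch.Ord α) : Ch.MeetsK (AN α) := by
  refine ⟨fun f z hf hz => push_mem_AN hf hz, fun z hz => nm_of_AN hz,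
    fun φ => ((G.decA φ).ord h).congr fun c l y => ?_,
    fun φ => ((G.witA φ).ord h).congr fun c l y => ?_⟩
  · simp [cko_inj]
  · simp [cko_inj]

theorem GenZF.sepO (G : Ch.GenZF) (h : Ch.Ord β) (φ : Fml) :
    Ch.Meets fun c l y => y ∈ AN (β + 1) ∧ SepAt NM φ β c (env l) y :=
  ((G.sep φ).ord h).congr fun c l y => by simp [cko_inj]

theorem GenZF.colO (G : Ch.GenZF) (h : Ch.Ord β) (φ : Fml) :
    Ch.Meets fun c l y => ∃ γ, y = cko γ ∧ ColAt φ β γ c (env l) :=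
  ((G.col φ).ord h).congr fun c l y => by simp [cko_inj]

theorem GenZF.witO (G : Ch.GenZF) (h : Ch.Ord β) (φ : Fml) :
    Ch.Meets fun c l y => y ∈ AN β ∧ Fo AA NM φ c (cons y (env l)) :=
  ((G.witN φ).ord h).congr fun c l y => by simp [cko_inj]

theorem GenZF.vO (G : Ch.GenZF) (h : Ch.Ord α) :
    Ch.Meets fun c _ y => y = MP_095a31_lc.vN α c :=
  (G.vN.ord h).congr fun c l y => by simp [cko_inj]

theorem GenZF.exists_ord (G : Ch.GenZF) (hx : x ∈ Ch.X i) : ∃ α, Ch.Ord α ∧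
    ∃ j, i ≤ j ∧ MP_095a31_lc.push (Ch.f i j) x ∈ AN α := by
  obtain ⟨γ, hγ⟩ := Ch.nm hx
  obtain ⟨j, h1, y, h2, α, rfl, h3⟩ := G.rk₁.here (l := [x]) (by simpa using hx)
    fun n hn _ => ⟨cko γ, cko_mem_NM, ty_cko, γ, rfl, by simpa using push_mem_AN hn hγ⟩
  exact ⟨α, ⟨j, h2⟩, j, h1, by simpa using h3⟩

/-- The parameters of a formula can be given by a list of names. -/
theorem exists_list {w : ℕ → V} (hw : ∀ n, w n ∈ Ch.N) (n₀ : ℕ) : ∃ (i : ℕ) (l : List V),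
    (∀ x ∈ l, x ∈ Ch.X i) ∧ ∀ n < n₀, w n = Ch.val i (env l n) := by
  obtain ⟨i, v, -, h1, h2⟩ := exists_stage (Ch := Ch) (K := NM) (w := w)
    (fun f z hf hz => push_mem_NM hf hz) (fun n => NK_NM (Ch := Ch) ▸ hw n) 0 n₀
  refine ⟨i, (List.range n₀).map v, fun x hx => ?_, fun n hn => ?_⟩
  · obtain ⟨n, -, rfl⟩ := List.mem_map.1 hx
    exact (h1 n).1
  · rw [env_range v hn, h2 n hn]

theorem val_cons {j k : ℕ} (h : j ≤ k) (y : V) (u : ℕ → V) :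
    (fun n => Ch.val k (cons y (pushv (Ch.f j k) u) n)) =
      cons (Ch.val k y) fun n => Ch.val j (u n) :=
  funext fun n => by
    cases n
    exacts [rfl, val_push h]

theorem GenZF.truth1 (G : Ch.GenZF) (φ : Fml) {j k : ℕ} {u : ℕ → V} {y : V}
    (hu : ∀ n, u n ∈ Ch.X j) (h : j ≤ k) (hy : y ∈ Ch.X k) :
    Sat Ch.N ∅ φ (cons (Ch.val k y) fun n => Ch.val j (u n)) ↔ ∃ m, k ≤ m ∧
      Fo AA NM φ (Ch.c m) (cons (MP_095a31_lc.push (Ch.f k m) y) (pushv (Ch.f j m) u)) := by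
  have := truth G.atom G.all φ (i := k) (v := cons y (pushv (Ch.f j k) u))
    (cons_mem (W := Ch.X k) hy fun n => Ch.push h (hu n))
  rw [val_cons h, NK_NM] at this
  refine this.trans (exists_congr fun m => and_congr_right fun hm => ?_)
  rw [pushv_cons, pushv_f h hm]

theorem GenZF.truth1' (G : Ch.GenZF) (φ : Fml) {j k : ℕ} {u : ℕ → V} {y : V}
    (hu : ∀ n, u n ∈ Ch.X j) (h : j ≤ k) (hy : y ∈ Ch.X k)
    (H : Fo AA NM φ (Ch.c k) (cons y (pushv (Ch.f j k) u))) :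
    Sat Ch.N ∅ φ (cons (Ch.val k y) fun n => Ch.val j (u n)) :=
  (G.truth1 φ hu h hy).2 ⟨k, le_rfl, by rwa [push_self hy]⟩

/-- Members of a level have names at all late stages. -/
theorem mem_NK_late (h : z ∈ Ch.NK (AN α)) (j : ℕ) :
    ∃ k, j ≤ k ∧ ∃ y ∈ Ch.X k, y ∈ AN α ∧ Ch.val k y = z := by
  obtain ⟨i, y, h1, h2, rfl⟩ := h
  exact ⟨max j i, le_max_left _ _, _, Ch.push (le_max_right _ _) h1,
    push_mem_AN (Ch.arr (le_max_right _ _)) h2, val_push (le_max_right _ _)⟩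

theorem NK_mono (h : α ≤ β) (hz : z ∈ Ch.NK (AN α)) : z ∈ Ch.NK (AN β) := by
  obtain ⟨i, y, h1, h2, h3⟩ := hz
  exact ⟨i, y, h1, AN_mono h h2, h3⟩

theorem NK_sub {K : Set V} (hz : z ∈ Ch.NK K) : z ∈ Ch.N := by
  obtain ⟨i, y, h1, -, rfl⟩ := hz
  exact val_mem h1

/-- Separation below a level. -/
theorem GenZF.sep_lev (G : Ch.GenZF) (h : Ch.Ord β) (φ : Fml) {w : ℕ → V}
    (hw : ∀ n, w n ∈ Ch.N) : ∃ b ∈ Ch.NK (AN (β + 1)), ∀ y,
      y ∈ b ↔ y ∈ Ch.NK (AN β) ∧ Sat Ch.N ∅ φ (cons y w) := by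
  obtain ⟨n₀, h0⟩ := H85.sat_congr Ch.N ∅ φ
  obtain ⟨i, l, hl, hv⟩ := exists_list hw n₀
  have e : ∀ y, Sat Ch.N ∅ φ (cons y w) ↔ Sat Ch.N ∅ φ (cons y fun n => Ch.val i (env l n)) :=
    fun y => h0 _ _ (by
      rintro (_ | n) hn
      exacts [rfl, hv n (by omega)])
  obtain ⟨j, h1, b, h2, h3, h4⟩ := (G.sepO h φ).here hl fun n hn _ => by
    obtain ⟨z, a1, a2, a3⟩ := sep_name hn.tgt NM φ β (env (l.map (MP_095a31_lc.push n)))
    exact ⟨z, nm_of_AN a1, a2, a1, a3⟩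
  rw [env_map] at h4
  have key : ∀ k, j ≤ k → ∀ y, Ac (MP_095a31_lc.push (Ch.f j k) b) y ↔
      y ∈ AN β ∧ Ty (Ch.c k) y ∧ Fo AA NM φ (Ch.c k) (cons y (pushv (Ch.f i k) (env l))) :=
    fun k hk y => by rw [h4 _ (Ch.arr hk) (Ch.src_f hk), Ch.tgt_f hk, pushv_f h1 hk]
  refine ⟨_, ⟨j, b, h2, h3, rfl⟩, fun y => ?_⟩
  rw [e, mem_val]
  constructor
  · rintro ⟨k, y, a1, a2, a3, rfl⟩
    obtain ⟨b1, -, b2⟩ := (key k a1 y).1 a3
    exact ⟨⟨k, y, a2, b1, rfl⟩, G.truth1' φ (env_mem hl) (h1.trans a1) a2 b2⟩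
  · rintro ⟨a1, a2⟩
    obtain ⟨k, b1, y, b2, b3, rfl⟩ := mem_NK_late a1 j
    obtain ⟨m, c1, c2⟩ := (G.truth1 φ (env_mem hl) (h1.trans b1) b2).1 a2
    exact ⟨m, _, b1.trans c1, Ch.push c1 b2, (key m (b1.trans c1) _).2
      ⟨push_mem_AN (Ch.arr c1) b3, Ch.ty (Ch.push c1 b2), c2⟩, val_push c1⟩

/-- The levels of names give the levels of the cumulative hierarchy. -/
theorem GenZF.mem_lev (G : Ch.GenZF) (h : Ch.Ord α) :
    z ∈ Ch.NK (AN α) ↔ z ∈ Ch.N ∧ rank z < rank (Ch.o α) := by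
  induction α using WellFoundedLT.induction generalizing z with
  | ind α ih =>
    refine ⟨fun hz => ⟨NK_sub hz, ?_⟩, fun ⟨h1, h2⟩ => ?_⟩
    · obtain ⟨i, h1⟩ := id h
      obtain ⟨j, h2, x, h3, h4, rfl⟩ := mem_NK_late hz i
      have h5 : cko α ∈ Ch.X j := push_cko (f := Ch.f i j) (α := α) ▸ Ch.push h2 h1
      obtain ⟨k, a1, y, a2, α', β, a3, rfl, a4, a5⟩ := G.rk₂.here (i := j) (l := [x, cko α])
        (by simp [h3, h5]) fun n hn _ => by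
          obtain ⟨β, b1, b2⟩ := exists_AN_succ (push_mem_AN hn h4)
          exact ⟨cko β, cko_mem_NM, ty_cko, α, β, by simp, rfl, b1, by simpa using b2⟩
      obtain rfl : α = α' := by simpa [cko_inj] using a3
      replace a5 : MP_095a31_lc.push (Ch.f j k) x ∈ AN (β + 1) := by simpa using a5
      have hβ : Ch.Ord β := ⟨k, a2⟩
      refine lt_of_le_of_lt (rank_le_iff.2 fun w hw => ?_) (rank_lt_of_mem (hβ.o_mem_o.2 a4))
      rw [← val_push a1] at hw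
      obtain ⟨m, y, b1, b2, b3, rfl⟩ := mem_val.1 hw
      exact ((ih β a4 hβ).1 ⟨m, y, b2, b3.mem_AN (push_mem_AN (Ch.arr b1) a5), rfl⟩).2
    · obtain ⟨y, h3, h4⟩ := lt_rank_iff.1 h2
      obtain ⟨β, a1, a2, rfl⟩ := mem_o.1 h3
      obtain ⟨b, b1, b2⟩ := G.sep_lev a2 (.mem 0 1) (w := fun _ => z) fun _ => h1
      obtain rfl : b = z := ZFSet.ext fun y => (b2 y).trans ⟨fun H => H.2, fun H =>
        ⟨(ih β a1 a2).2 ⟨N_trans _ h1 _ H, (rank_lt_of_mem H).trans_le h4⟩, H⟩⟩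
      exact NK_mono (add_one_le_of_lt a1) b1

theorem GenZF.exists_lev (G : Ch.GenZF) (h : Ch.Ord α) :
    ∃ D ∈ Ch.N, (D : Set V) = Ch.NK (AN α) ∧ IsVh Ch.N (Ch.o α) D := by
  obtain ⟨j, -, y, h1, rfl⟩ := (G.vO h).here (i := 0) (l := []) (by simp) fun n hn _ =>
    ⟨_, nm_of_AN (vN_mem hn.tgt), ty_vN hn.tgt, rfl⟩
  have key : ∀ k, j ≤ k → ∀ y, Ac (MP_095a31_lc.push (Ch.f j k) (MP_095a31_lc.vN α (Ch.c j))) y ↔
      y ∈ AN α ∧ Ty (Ch.c k) y := fun k hk y => by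
    have := ac_vN (α := α) (z := y) (Ch.arr hk)
    rwa [Ch.src_f hk, Ch.tgt_f hk] at this
  have e : ∀ z, z ∈ Ch.val j (MP_095a31_lc.vN α (Ch.c j)) ↔ z ∈ Ch.NK (AN α) := fun z => by
    rw [mem_val]
    constructor
    · rintro ⟨k, y, a1, a2, a3, rfl⟩
      exact ⟨k, y, a2, ((key k a1 y).1 a3).1, rfl⟩
    · intro a1
      obtain ⟨k, b1, y, b2, b3, rfl⟩ := mem_NK_late a1 j
      exact ⟨k, y, b1, b2, (key k b1 y).2 ⟨b3, Ch.ty b2⟩, rfl⟩
  exact ⟨_, val_mem h1, Set.ext e, fun z => (e z).trans (G.mem_lev h)⟩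

theorem GenZF.exists_rank (G : Ch.GenZF) (hz : z ∈ Ch.N) :
    ∃ α, Ch.Ord α ∧ rank z < rank (Ch.o α) := by
  obtain ⟨i, x, hx, rfl⟩ := mem_N.1 hz
  obtain ⟨α, h1, j, h2, h3⟩ := G.exists_ord hx
  exact ⟨α, h1, ((G.mem_lev h1).1 ⟨j, _, Ch.push h2 hx, h3, val_push h2⟩).2⟩

theorem GenZF.ord_eq (G : Ch.GenZF) (hz : z ∈ Ch.N) (ho : IsOrdinal z) :
    ∃ α, Ch.Ord α ∧ Ch.o α = z := by
  obtain ⟨α, -, h⟩ := G.exists_rank hz
  obtain ⟨β, -, h1⟩ := mem_o.1 ((ho.rank_lt_iff_mem (isOrdinal_o α)).1 h)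
  exact ⟨β, h1⟩

theorem ord_of_meets (H : Ch.Meets fun _ _ y => y = cko α) : Ch.Ord α := by
  obtain ⟨j, -, y, h1, rfl⟩ := H.here (i := 0) (l := []) (by simp) fun n _ _ =>
    ⟨_, cko_mem_NM, ty_cko, rfl⟩
  exact ⟨j, h1⟩

theorem GenZF.o_eq (G : Ch.GenZF) (h : α ≤ Ordinal.omega0) : Ch.o α = α.toZFSet := by
  induction α using WellFoundedLT.induction with
  | ind α ih =>
    ext z
    rw [mem_o, Ordinal.mem_toZFSet_iff]
    refine exists_congr fun β => and_congr_right fun hβ => ?_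
    obtain ⟨n, rfl⟩ := Ordinal.lt_omega0.1 (hβ.trans_le h)
    rw [ih _ hβ (hβ.le.trans h)]
    exact and_iff_right (ord_of_meets (G.nat n))

theorem GenZF.omega_mem (G : Ch.GenZF) : omega ∈ Ch.N := by
  rw [← toZFSet_omega, ← G.o_eq le_rfl]
  exact (ord_of_meets G.om).o_mem

theorem GenZF.exists_sub (G : Ch.GenZF) (hz : z ∈ Ch.N) :
    ∃ α, Ch.Ord α ∧ ∀ x ∈ z, x ∈ Ch.NK (AN α) := by
  obtain ⟨α, h1, h2⟩ := G.exists_rank hz
  exact ⟨α, h1, fun x hx => (G.mem_lev h1).2 ⟨N_trans _ hz _ hx, (rank_lt_of_mem hx).trans h2⟩⟩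

theorem GenZF.sepN (G : Ch.GenZF) (φ : Fml) (v : ℕ → V) (hv : ∀ i, v i ∈ Ch.N) (a : V)
    (ha : a ∈ Ch.N) : ∃ b ∈ Ch.N, ∀ x, x ∈ b ↔ x ∈ a ∧ Sat Ch.N ∅ φ (cons x v) := by
  obtain ⟨n₀, h0⟩ := H85.sat_congr Ch.N ∅ φ
  obtain ⟨α, h1, h2⟩ := G.exists_sub ha
  obtain ⟨b, b1, b2⟩ := G.sep_lev h1 (.and (.mem 0 (n₀ + 1)) φ) (w := Function.update v n₀ a)
    fun n => by
      by_cases hn : n = n₀
      · rw [hn, Function.update_self]; exact ha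
      · rw [Function.update_of_ne hn]; exact hv n
  refine ⟨b, NK_sub b1, fun x => (b2 x).trans ?_⟩
  have e : Sat Ch.N ∅ φ (cons x (Function.update v n₀ a)) ↔ Sat Ch.N ∅ φ (cons x v) :=
    h0 _ _ (by
      rintro (_ | n) hn
      exacts [rfl, Function.update_of_ne (by omega) _ _])
  simp only [Sat, cons_zero, cons_succ, Function.update_self, e]
  exact and_iff_right_of_imp fun H => h2 x H.1

theorem GenZF.bdN (G : Ch.GenZF) (φ : Fml) (v : ℕ → V) (hv : ∀ i, v i ∈ Ch.N) (a : V)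
    (ha : a ∈ Ch.N) : ∃ o ∈ Ch.N, ∀ x ∈ a, (∃ y ∈ Ch.N, Sat Ch.N ∅ φ (cons y (cons x v))) →
      ∃ y ∈ Ch.N, rank y < rank o ∧ Sat Ch.N ∅ φ (cons y (cons x v)) := by
  obtain ⟨n₀, h0⟩ := H85.sat_congr Ch.N ∅ φ
  obtain ⟨α, h1, h2⟩ := G.exists_sub ha
  obtain ⟨i, l, hl, hw⟩ := exists_list hv n₀
  have e : ∀ y x, Sat Ch.N ∅ φ (cons y (cons x v)) ↔
      Sat Ch.N ∅ φ (cons y (cons x fun n => Ch.val i (env l n))) := fun y x => h0 _ _ (by
    rintro (_ | _ | n) hn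
    exacts [rfl, rfl, hw n (by omega)])
  obtain ⟨j, a1, y, a2, γ, rfl, a3⟩ := (G.colO h1 φ).here hl fun n hn _ => by
    obtain ⟨γ, H⟩ := col_bound (tgt n) φ α (env (l.map (MP_095a31_lc.push n)))
    exact ⟨_, cko_mem_NM, ty_cko, γ, rfl, H⟩
  rw [env_map] at a3
  have hγ : Ch.Ord γ := ⟨j, a2⟩
  refine ⟨_, hγ.o_mem, fun x hx ⟨y, hy, H⟩ => ?_⟩
  obtain ⟨k, b1, x, b2, b3, rfl⟩ := mem_NK_late (h2 x hx) j
  obtain ⟨k', y, c1, rfl⟩ := mem_N.1 hy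
  have ik := a1.trans b1
  have hu : ∀ n, cons x (pushv (Ch.f i k) (env l)) n ∈ Ch.X k :=
    cons_mem (W := Ch.X k) b2 fun n => Ch.push ik (env_mem hl n)
  rw [e, ← val_cons ik, ← val_push (le_max_right k k')] at H
  obtain ⟨m, d1, d2⟩ := (G.truth1 φ hu (le_max_left k k') (Ch.push (le_max_right k k') c1)).1 H
  have km := (le_max_left k k').trans d1
  have jm := b1.trans km
  have d3 := Ch.push d1 (Ch.push (le_max_right k k') c1)
  generalize MP_095a31_lc.push (Ch.f (max k k') m) (MP_095a31_lc.push (Ch.f k' (max k k')) y) = y'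
    at d2 d3
  have el : ∀ f, env ((x :: l.map (MP_095a31_lc.push (Ch.f i k))).map (MP_095a31_lc.push f)) =
      pushv f (cons x (pushv (Ch.f i k) (env l))) := fun f => by
    rw [env_map, env_cons, env_map]
  obtain ⟨p, f1, w, f2, f3, f4⟩ := (G.witO hγ φ).dense (i := m)
    (l := (x :: l.map (MP_095a31_lc.push (Ch.f i k))).map (MP_095a31_lc.push (Ch.f k m)))
    (map_mem (List.forall_mem_cons.2 ⟨b2, map_mem hl ik⟩) km) fun n hn s => by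
      have s' : ∀ {t}, t ≤ m → src n = tgt (Ch.f t m) := fun h => s.trans (Ch.tgt_f h).symm
      have g1 := Fo.mono hn (s ▸ d2)
      rw [pushv_cons, pushv_cons, pushv_cons, pushv_f ik km, ← pushv_f a1 jm,
        pushv_pushv hn (Ch.arr jm) (s' jm)] at g1
      obtain ⟨g, g2, g3, w, g4, g5, g6⟩ := a3 (cmp n (Ch.f j m)) (hn.cmp (Ch.arr jm) (s' jm))
        (src_cmp.trans (Ch.src_f jm)) (MP_095a31_lc.push n (MP_095a31_lc.push (Ch.f k m) x))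
        (push_mem_AN hn (push_mem_AN (Ch.arr km) b3)) (by rw [tgt_cmp]; exact ty_push hn)
        (MP_095a31_lc.push n y') (push_mem_NM hn (Ch.nm d3)) (by rw [tgt_cmp]; exact ty_push hn)
        (by rwa [tgt_cmp])
      rw [tgt_cmp] at g3
      refine ⟨g, w, g2, g3, nm_of_AN g4, g5, g4, ?_⟩
      rwa [env_map, el, pushv_cons, pushv_cons, pushv_f ik km, ← pushv_f a1 jm,
        pushv_pushv (g2.cmp hn g3) (Ch.arr jm) (src_cmp.trans (s' jm)), cmp_assoc,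
        ← MP_095a31_lc.push_push g2 hn g3]
  rw [env_map, el, pushv_f km f1] at f4
  have := G.truth1' φ hu (km.trans f1) f2 f4
  rw [val_cons ik, ← e] at this
  exact ⟨_, val_mem f2, ((G.mem_lev hγ).1 ⟨p, w, f2, f3, rfl⟩).2, this⟩

theorem GenZF.zfull (G : Ch.GenZF) : ZFull Ch.N := by
  refine zfull_of_levels N_trans G.omega_mem (fun x hx y hy => ?_) (fun z hz ho => ?_)
    G.sepN G.bdN
  · obtain ⟨α, a1, a2⟩ := G.exists_rank hx
    obtain ⟨β, b1, b2⟩ := G.exists_rank hy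
    rcases le_total α β with h | h
    · exact ⟨_, b1.o_mem, isOrdinal_o β, a2.trans_le (o_rank_mono h), b2⟩
    · exact ⟨_, a1.o_mem, isOrdinal_o α, a2, b2.trans_le (o_rank_mono h)⟩
  · obtain ⟨α, a1, rfl⟩ := G.ord_eq hz ho
    exact (G.exists_lev a1).imp fun D hD => ⟨hD.1, hD.2.2⟩

end Chain

end Pool.Agent.Lib.MP_095a31_lc
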