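import Pool.Agent.Lib.MP_329f2d_lc.H58Set
import Pool.Agent.Lib.MP_329f2d_lc.H55Mod

/-!
Definability over rank initial segments of the universe: power sets, ranks, ordinal valued terms,
quantifiers over ordinals, and predicates defined by recursion.
-/

open ZFSet Order

namespace Pool.Agent.Lib.MP_095a31_lc

open MP_329f2d_lc

/-- Models of ZF without power set that are closed downwards under rank. -/
def RK (W : Set V) : Prop := ZFm W ∅ ∧ ∀ x ∈ W, ∀ y : V, rank y ≤ rank x → y ∈ W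

instance : Cl RK := ⟨fun _ h => h.1⟩

theorem rk_univ : RK Set.univ := ⟨zfc_univ.1.1, fun _ _ _ _ => trivial⟩

variable {K : Set V → Prop} {Γ Δ : Type}

/-- The ordinal valued term `o` is definable. -/
class To (K : Set V → Prop) {Γ : Type} (o : Set V → (Γ → V) → Ordinal.{0}) : Prop where
  tm : Tm K fun W v => (o W v).toZFSet

/-- Only ordinals of the model satisfy `B`. -/
class Bo (K : Set V → Prop) {Γ : Type} (B : Set V → (Γ → V) → Ordinal.{0} → Prop) : Prop where
  bo : ∀ W, K W → ∀ v : Γ → V, (∀ i, v i ∈ W) → ∀ ξ, B W v ξ → ξ.toZFSet ∈ W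

/-- All ordinals outside the model satisfy `B`. -/
class Vo (K : Set V → Prop) {Γ : Type} (B : Set V → (Γ → V) → Ordinal.{0} → Prop) : Prop where
  vo : ∀ W, K W → ∀ v : Γ → V, (∀ i, v i ∈ W) → ∀ ξ, ξ.toZFSet ∉ W → B W v ξ

/-- The value `u` lies in the model only if the ordinal does. -/
class Oo {Γ : Type} (u : Set V → (Γ → V) → Ordinal.{0} → V) : Prop where
  oo : ∀ W : Set V, Trs W → ∀ v ξ, u W v ξ ∈ W → ξ.toZFSet ∈ W

instance tm_toZFSet (o : Set V → (Γ → V) → Ordinal.{0}) [h : To K o] :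
    Tm K fun W v => (o W v).toZFSet := h.tm

instance to_ren (o : Set V → (Γ → V) → Ordinal.{0}) [h : To K o] (f : Γ → Δ) :
    To K fun W (v : Δ → V) => o W fun i => v (f i) :=
  ⟨tm_ren (fun W v => (o W v).toZFSet) f⟩

theorem To.of_eq {o o' : Set V → (Γ → V) → Ordinal.{0}} [h : To K o']
    (e : ∀ W, K W → ∀ v : Γ → V, (∀ i, v i ∈ W) → o W v = o' W v) : To K o :=
  ⟨Tm.of_eq (t := fun W v => (o' W v).toZFSet) fun W hW v hv => by rw [e W hW v hv]⟩

theorem To.mem (o : Set V → (Γ → V) → Ordinal.{0}) [h : To K o] {W : Set V} (hW : K W) {v : Γ → V}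
    (hv : ∀ i, v i ∈ W) : (o W v).toZFSet ∈ W := h.tm.mem W hW v hv

section Ord

variable (o p : Set V → (Γ → V) → Ordinal.{0}) [To K o] [To K p]

instance df_olt : Df K fun W v => o W v < p W v :=
  Df.of_iff (Q := fun W v => (o W v).toZFSet ∈ (p W v).toZFSet) fun _ _ _ _ =>
    Ordinal.toZFSet_mem_toZFSet_iff.symm

instance df_oeq : Df K fun W v => o W v = p W v :=
  Df.of_iff (Q := fun W v => (o W v).toZFSet = (p W v).toZFSet) fun _ _ _ _ =>
    Ordinal.toZFSet_injective.eq_iff.symm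

instance df_one : Df K fun W v => o W v ≠ p W v := df_not _

instance df_ole : Df K fun W v => o W v ≤ p W v :=
  Df.of_iff (Q := fun W v => ¬ p W v < o W v) fun _ _ _ _ => not_lt.symm

instance bo_eq : Bo K fun W v ξ => ξ = o W v := ⟨fun _ hW _ hv _ e => e ▸ To.mem o hW hv⟩

instance bo_eq' : Bo K fun W v ξ => o W v = ξ := ⟨fun _ hW _ hv _ e => e ▸ To.mem o hW hv⟩

instance bo_lt [hK : ClT K] : Bo K fun W v ξ => ξ < o W v :=
  ⟨fun W hW _ hv _ h => hK.tr W hW _ (To.mem o hW hv) _ (Ordinal.toZFSet_mem_toZFSet_iff.2 h)⟩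

instance bo_le [hK : ClT K] : Bo K fun W v ξ => ξ ≤ o W v :=
  ⟨fun W hW _ hv _ h => h.eq_or_lt.elim (fun e => e ▸ To.mem o hW hv) fun h =>
    hK.tr W hW _ (To.mem o hW hv) _ (Ordinal.toZFSet_mem_toZFSet_iff.2 h)⟩

end Ord

section Bound

variable (B C : Set V → (Γ → V) → Ordinal.{0} → Prop)

instance bo_and_right [h : Bo K C] : Bo K fun W v x => B W v x ∧ C W v x :=
  ⟨fun W hW v hv x H => h.bo W hW v hv x H.2⟩

instance bo_and_left [h : Bo K B] : Bo K fun W v x => B W v x ∧ C W v x :=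
  ⟨fun W hW v hv x H => h.bo W hW v hv x H.1⟩

instance bo_or [h : Bo K B] [h' : Bo K C] : Bo K fun W v x => B W v x ∨ C W v x :=
  ⟨fun W hW v hv x H => H.elim (h.bo W hW v hv x) (h'.bo W hW v hv x)⟩

instance bo_ex {α : Sort*} (B : Set V → (Γ → V) → Ordinal.{0} → α → Prop)
    [h : ∀ y, Bo K fun W v x => B W v x y] : Bo K fun W v x => ∃ y, B W v x y :=
  ⟨fun W hW v hv x ⟨y, H⟩ => (h y).bo W hW v hv x H⟩

instance bd_exo (B : Set V → (Γ → V) → V → Ordinal.{0} → Prop)
    [h : ∀ y, Bd K fun W v x => B W v x y] : Bd K fun W v x => ∃ y, B W v x y :=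
  ⟨fun W hW v hv x ⟨y, H⟩ => (h y).bd W hW v hv x H⟩

instance vo_imp_right [h : Vo K C] : Vo K fun W v x => B W v x → C W v x :=
  ⟨fun W hW v hv x H _ => h.vo W hW v hv x H⟩

instance vo_imp_left [h : Bo K B] : Vo K fun W v x => B W v x → C W v x :=
  ⟨fun W hW v hv x H H' => absurd (h.bo W hW v hv x H') H⟩

instance vo_not [h : Bo K B] : Vo K fun W v x => ¬ B W v x :=
  ⟨fun W hW v hv x H H' => absurd (h.bo W hW v hv x H') H⟩

instance vo_iff [h : Bo K B] [h' : Bo K C] : Vo K fun W v x => B W v x ↔ C W v x :=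
  ⟨fun W hW v hv x H => iff_of_false (fun H' => H (h.bo W hW v hv x H'))
    fun H' => H (h'.bo W hW v hv x H')⟩

instance vo_all {α : Sort*} (B : Set V → (Γ → V) → Ordinal.{0} → α → Prop)
    [h : ∀ y, Vo K fun W v x => B W v x y] : Vo K fun W v x => ∀ y, B W v x y :=
  ⟨fun W hW v hv x H y => (h y).vo W hW v hv x H⟩

instance va_allo (B : Set V → (Γ → V) → V → Ordinal.{0} → Prop)
    [h : ∀ y, Va K fun W v x => B W v x y] : Va K fun W v x => ∀ y, B W v x y :=
  ⟨fun W hW v hv x H y => (h y).va W hW v hv x H⟩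

instance oo_id : Oo fun _ (_ : Γ → V) ξ => ξ.toZFSet := ⟨fun _ _ _ _ h => h⟩

instance oo_pair_right (a u : Set V → (Γ → V) → Ordinal.{0} → V) [h : Oo u] :
    Oo fun W v x => pair (a W v x) (u W v x) :=
  ⟨fun W hW v x H => h.oo W hW v x (mem_of_pair_right hW H)⟩

instance oo_pair_left (a u : Set V → (Γ → V) → Ordinal.{0} → V) [h : Oo u] :
    Oo fun W v x => pair (u W v x) (a W v x) :=
  ⟨fun W hW v x H => h.oo W hW v x (mem_of_pair_left hW H)⟩

instance bo_mem [hK : ClT K] (u : Set V → (Γ → V) → Ordinal.{0} → V) [h' : Oo u]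
    (t : Set V → (Γ → V) → V) [h : Tm K t] : Bo K fun W v x => u W v x ∈ t W v :=
  ⟨fun W hW v hv x hx => h'.oo W (hK.tr W hW) v x (hK.tr W hW _ (h.mem W hW v hv) _ hx)⟩

instance bo_eq_tm [hK : ClT K] (u : Set V → (Γ → V) → Ordinal.{0} → V) [h' : Oo u]
    (t : Set V → (Γ → V) → V) [h : Tm K t] : Bo K fun W v x => t W v = u W v x :=
  ⟨fun W hW v hv x hx => h'.oo W (hK.tr W hW) v x (hx ▸ h.mem W hW v hv)⟩

instance bo_tm_eq [hK : ClT K] (u : Set V → (Γ → V) → Ordinal.{0} → V) [h' : Oo u]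
    (t : Set V → (Γ → V) → V) [h : Tm K t] : Bo K fun W v x => u W v x = t W v :=
  ⟨fun W hW v hv x hx => h'.oo W (hK.tr W hW) v x (hx ▸ h.mem W hW v hv)⟩

instance df_exo [h : Bo K B]
    [Df K fun W (v : Option Γ → V) => B W (fun i => v (some i)) (rank (v none))] :
    Df K fun W v => ∃ ξ, B W v ξ :=
  have := df_exW (K := K) fun W v x => B W v (rank x)
  Df.of_iff (Q := fun W v => ∃ x ∈ W, B W v (rank x)) fun W hW v hv =>
    ⟨fun ⟨ξ, hx⟩ => ⟨_, h.bo W hW v hv ξ hx, by rwa [Ordinal.rank_toZFSet]⟩,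
      fun ⟨_, hx⟩ => ⟨_, hx.2⟩⟩

instance df_allo [h : Vo K B]
    [Df K fun W (v : Option Γ → V) => B W (fun i => v (some i)) (rank (v none))] :
    Df K fun W v => ∀ ξ, B W v ξ :=
  have := df_exW (K := K) fun W v x => ¬ B W v (rank x)
  Df.of_iff (Q := fun W v => ¬ ∃ x ∈ W, ¬ B W v (rank x)) fun W hW v hv => by
    push Not
    exact ⟨fun H x _ => H _, fun H ξ => (em (ξ.toZFSet ∈ W)).elim
      (fun h => by simpa using H _ h) (h.vo W hW v hv ξ)⟩

end Bound

section Arith

variable [hK : Cl K] (o p : Set V → (Γ → V) → Ordinal.{0}) [To K o] [To K p]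

instance to_zero : To K fun _ (_ : Γ → V) => 0 :=
  ⟨Tm.of_eq (t := fun _ _ => ∅) fun _ _ _ _ => Ordinal.toZFSet_zero⟩

instance to_add_one : To K fun W v => o W v + 1 :=
  ⟨Tm.of_eq (t := fun W v => insert (o W v).toZFSet (o W v).toZFSet) fun _ _ _ _ =>
    Ordinal.toZFSet_add_one _⟩

instance to_succ : To K fun W v => succ (o W v) := to_add_one o

instance to_one : To K fun _ (_ : Γ → V) => 1 :=
  To.of_eq (o' := fun _ _ => 0 + 1) fun _ _ _ _ => (zero_add 1).symm

instance to_natCast : ∀ k : ℕ, To K fun _ (_ : Γ → V) => (k : Ordinal)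
  | 0 => to_zero
  | k + 1 => have := to_natCast k
    To.of_eq (o' := fun _ _ => (k : Ordinal) + 1) fun _ _ _ _ => Nat.cast_succ k

theorem rank_nat (k : ℕ) : rank (nat k) = k := by
  induction k with
  | zero => exact rank_empty
  | succ k ih => rw [nat_succ, rank_insert, ih]; simp

theorem toZFSet_nat (k : ℕ) : (k : Ordinal.{0}).toZFSet = nat k := by
  rw [← rank_nat, (isOrdinal_nat k).toZFSet_rank_eq]

theorem toZFSet_omega : Ordinal.omega0.toZFSet = (omega : V) := by
  ext x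
  rw [Ordinal.mem_toZFSet_iff, mem_omega]
  constructor
  · rintro ⟨a, ha, rfl⟩
    obtain ⟨k, rfl⟩ := Ordinal.lt_omega0.1 ha
    exact ⟨k, toZFSet_nat k⟩
  · rintro ⟨k, rfl⟩
    exact ⟨k, Ordinal.natCast_lt_omega0 k, toZFSet_nat k⟩

theorem rank_omega : rank (omega : V) = Ordinal.omega0 := by
  rw [← toZFSet_omega, Ordinal.rank_toZFSet]

instance to_omega : To K fun _ (_ : Γ → V) => Ordinal.omega0 :=
  ⟨Tm.of_eq (t := fun _ _ => omega) fun _ _ _ _ => toZFSet_omega⟩

variable [Countable Γ]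

instance to_rank (t : Set V → (Γ → V) → V) [Tm K t] : To K fun W v => rank (t W v) :=
  ⟨tm_rk t⟩

open Classical in
instance to_ite (c : Set V → (Γ → V) → Prop) [Df K c] :
    To K fun W v => if c W v then o W v else p W v :=
  ⟨Tm.of_eq (t := fun W v => if c W v then (o W v).toZFSet else (p W v).toZFSet) fun _ _ _ _ => by
    split_ifs <;> rfl⟩

open Classical in
instance to_max : To K fun W v => max (o W v) (p W v) :=
  To.of_eq (o' := fun W v => if o W v ≤ p W v then p W v else o W v) fun _ _ _ _ => by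
    rw [max_def]

open Classical in
instance to_min : To K fun W v => min (o W v) (p W v) :=
  To.of_eq (o' := fun W v => if o W v ≤ p W v then o W v else p W v) fun _ _ _ _ => by
    rw [min_def]

instance df_isSuccPrelimit : Df K fun W v => IsSuccPrelimit (o W v) :=
  Df.of_iff (Q := fun W v => ∀ ξ, ξ < o W v → succ ξ < o W v) fun _ _ _ _ =>
    isSuccPrelimit_iff_succ_lt

instance df_isSuccLimit : Df K fun W v => IsSuccLimit (o W v) :=
  Df.of_iff (Q := fun W v => o W v ≠ 0 ∧ IsSuccPrelimit (o W v)) fun _ _ _ _ =>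
    Ordinal.isSuccLimit_iff

theorem add_rank_eq (a : Ordinal.{0}) (x : V) : (a + rank x).toZFSet = a.toZFSet ∪
    ⋃₀ img (fun y => insert (a + rank y).toZFSet (a + rank y).toZFSet) x := by
  ext z
  simp only [mem_union, mem_sUnion, mem_img, ← Ordinal.toZFSet_add_one, Ordinal.mem_toZFSet_iff]
  constructor
  · rintro ⟨c, hc, rfl⟩
    by_cases h : c < a
    · exact .inl ⟨c, h, rfl⟩
    · obtain ⟨d, rfl⟩ := exists_add_of_le (not_lt.1 h)
      obtain ⟨y, hy, h1⟩ := lt_rank_iff.1 ((add_lt_add_iff_left a).1 hc)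
      exact .inr ⟨_, ⟨y, hy, rfl⟩, Ordinal.mem_toZFSet_iff.2
        ⟨_, lt_add_one_iff.2 (add_le_add_right h1 a), rfl⟩⟩
  · rintro (⟨c, hc, rfl⟩ | ⟨_, ⟨y, hy, rfl⟩, h⟩)
    · exact ⟨c, hc.trans_le le_self_add, rfl⟩
    · obtain ⟨c, hc, rfl⟩ := Ordinal.mem_toZFSet_iff.1 h
      exact ⟨c, (lt_add_one_iff.1 hc).trans_lt (add_lt_add_right (rank_lt_of_mem hy) a), rfl⟩

instance to_add : To K fun W v => o W v + p W v :=
  have := Tm.memRec (K := K) (fun W v x => (o W v + rank x).toZFSet)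
    (fun W v x g => (o W v).toZFSet ∪ ⋃₀ img (fun y => insert (ap g y) (ap g y)) x)
    (fun W v x => (add_rank_eq _ x).trans (congrArg _ (congrArg _
      (img_congr fun y hy => by rw [ap_graph hy])))) fun W v => (p W v).toZFSet
  ⟨Tm.of_eq (t := fun W v => (o W v + rank (p W v).toZFSet).toZFSet) fun _ _ _ _ => by
    rw [Ordinal.rank_toZFSet]⟩

theorem mul_rank_eq (a : Ordinal.{0}) (x : V) : (a * rank x).toZFSet =
    ⋃₀ img (fun y => (a * rank y + a).toZFSet) x := by
  ext z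
  simp only [mem_sUnion, mem_img, Ordinal.mem_toZFSet_iff]
  constructor
  · rintro ⟨c, hc, rfl⟩
    obtain ⟨q, hq, r, hr, rfl⟩ := Ordinal.lt_mul_iff.1 hc
    obtain ⟨y, hy, h1⟩ := lt_rank_iff.1 hq
    exact ⟨_, ⟨y, hy, rfl⟩, Ordinal.mem_toZFSet_iff.2 ⟨_, (add_lt_add_right hr _).trans_le
      (add_le_add_left (mul_le_mul_right h1 a) a), rfl⟩⟩
  · rintro ⟨_, ⟨y, hy, rfl⟩, h⟩
    obtain ⟨c, hc, rfl⟩ := Ordinal.mem_toZFSet_iff.1 h
    refine ⟨c, hc.trans_le ?_, rfl⟩
    rw [← Ordinal.mul_succ]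
    exact mul_le_mul_right (succ_le_of_lt (rank_lt_of_mem hy)) a

instance to_mul : To K fun W v => o W v * p W v :=
  have := Tm.memRec (K := K) (fun W v x => (o W v * rank x).toZFSet)
    (fun W v x g => ⋃₀ img (fun y => (rank (ap g y) + o W v).toZFSet) x)
    (fun W v x => (mul_rank_eq _ x).trans (congrArg _
      (img_congr fun y hy => by rw [ap_graph hy, Ordinal.rank_toZFSet]))) fun W v => (p W v).toZFSet
  ⟨Tm.of_eq (t := fun W v => (o W v * rank (p W v).toZFSet).toZFSet) fun _ _ _ _ => by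
    rw [Ordinal.rank_toZFSet]⟩

open Classical in
theorem ite_eq_one (p : Prop) : p ↔ (if p then ({∅} : V) else ∅) = {∅} := by
  split_ifs with h
  · simp [h]
  · exact iff_of_false h fun e => (eq_empty _).1 e.symm ∅ (mem_singleton.2 rfl)

open Classical in
/-- Predicates defined by recursion. -/
theorem Df.recur (P : Set V → (Γ → V) → V → Prop) (pre : Set V → (Γ → V) → V → V)
    (step : Set V → (Γ → V) → V → V → Prop)
    [Tm K fun W (v : Option Γ → V) => pre W (fun i => v (some i)) (v none)]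
    [hs : Df K fun W (v : Option (Option Γ) → V) =>
      step W (fun i => v (some (some i))) (v (some none)) (v none)]
    (wf : ∀ W, K W → ∀ v : Γ → V, (∀ i, v i ∈ W) → WellFounded fun y x => x ∈ W ∧ y ∈ pre W v x)
    (hP : ∀ W, K W → ∀ v : Γ → V, (∀ i, v i ∈ W) → ∀ x ∈ W,
      (P W v x ↔ step W v x (ZFSet.sep (P W v) (pre W v x)))) (t : Set V → (Γ → V) → V) [Tm K t] :
    Df K fun W v => P W v (t W v) := by
  have h1 : Df K fun W (v : Option (Option (Option Γ)) → V) =>
      step W (fun i => v (some (some (some i)))) (v (some (some none))) (v none) :=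
    hs.ren fun o => o.elim none fun i => some (some i)
  have h2 := Df.subst (K := K) (fun W (v : Option (Option Γ) → V) s =>
    step W (fun i => v (some (some i))) (v (some none)) s) fun _ v =>
      ZFSet.sep (fun y => ap (v none) y = {∅}) (dom (v none))
  have h3 := Tm.recur (K := K) (fun W v x => if P W v x then ({∅} : V) else ∅) pre
    (fun W v x g => if step W v x (ZFSet.sep (fun y => ap g y = {∅}) (dom g)) then {∅} else ∅) wf
    fun W hW v hv x hx => by
      have e : ZFSet.sep (fun y => ap (graph (fun x => if P W v x then ({∅} : V) else ∅)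
          (pre W v x)) y = {∅}) (pre W v x) = ZFSet.sep (P W v) (pre W v x) := by
        ext y
        simp only [mem_sep]
        refine and_congr_right fun hy => ?_
        rw [ap_graph hy]
        exact (ite_eq_one _).symm
      rw [dom_graph, e, hP W hW v hv x hx]
  have h4 := Tm.subst (K := K) (fun W v x => if P W v x then ({∅} : V) else ∅) t
  exact Df.of_iff (Q := fun W v => (if P W v (t W v) then ({∅} : V) else ∅) = {∅})
    fun W _ v _ => ite_eq_one _

end Arith

section Rank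

variable (s t : Set V → (Γ → V) → V) [hs : Tm RK s] [ht : Tm RK t]
  (o : Set V → (Γ → V) → Ordinal.{0}) [ho : To RK o]

instance bd_rank_le : Bd RK fun W v x => rank x ≤ o W v :=
  ⟨fun _ hW _ hv x h => hW.2 _ (To.mem o hW hv) x (by rwa [Ordinal.rank_toZFSet])⟩

instance bd_rank_lt : Bd RK fun W v x => rank x < o W v :=
  ⟨fun _ hW _ hv x h => hW.2 _ (To.mem o hW hv) x (by rw [Ordinal.rank_toZFSet]; exact h.le)⟩

instance bd_rank_eq : Bd RK fun W v x => rank x = o W v :=
  ⟨fun _ hW _ hv x h => hW.2 _ (To.mem o hW hv) x (by rw [Ordinal.rank_toZFSet]; exact h.le)⟩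

instance bd_subset : Bd RK fun W v x => x ⊆ t W v :=
  ⟨fun W hW v hv x h => hW.2 _ (ht.mem W hW v hv) x (rank_mono h)⟩

instance tm_powerset : Tm RK fun W v => powerset (t W v) :=
  Tm.of_mem _ (fun W v x => x ⊆ t W v)
    (fun W hW v hv => hW.2 _ (hW.1.singleton (ht.mem W hW v hv)) _ (by simp))
    fun _ _ _ _ _ _ => mem_powerset

variable [Countable Γ]

instance tm_vonNeumann : Tm RK fun W v => vonNeumann (o W v) :=
  Tm.of_mem _ (fun W v x => rank x < o W v)
    (fun W hW v hv => hW.2 _ (To.mem o hW hv) _ (by simp)) fun _ _ _ _ _ _ => mem_vonNeumann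

end Rank

/-- Every function from a set of rank below `η` into `η` is bounded. -/
def Lam (η : Ordinal.{0}) : Prop :=
  IsSuccLimit η ∧ ∀ a : V, rank a < η → ∀ f : V → Ordinal.{0}, (∀ x ∈ a, f x < η) →
    ∃ b < η, ∀ x ∈ a, f x < b

instance df_Lam [Countable Γ] (o : Set V → (Γ → V) → Ordinal.{0}) [To RK o] :
    Df RK fun W v => Lam (o W v) :=
  Df.of_iff (Q := fun W v => IsSuccLimit (o W v) ∧ ∀ a : V, rank a < o W v →
    ∀ g : V, g ⊆ vonNeumann (o W v) → (∀ x ∈ a, rank (ap g x) < o W v) →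
      ∃ b < o W v, ∀ x ∈ a, rank (ap g x) < b) fun W _ v _ => and_congr_right fun hl =>
    ⟨fun h a ha g _ => h a ha _, fun h a ha f hf => by
      have e : ∀ x ∈ a, rank (ap (graph (fun x => (f x).toZFSet) a) x) = f x := fun x hx => by
        rw [ap_graph hx, Ordinal.rank_toZFSet]
      obtain ⟨b, hb, h1⟩ := h a ha (graph (fun x => (f x).toZFSet) a) (fun z hz => by
        obtain ⟨x, hx, rfl⟩ := mem_graph.1 hz
        have h2 := hf x hx
        have h3 := (rank_lt_of_mem hx).trans ha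
        simp only [mem_vonNeumann, ZFSet.pair, rank_insert, rank_singleton, max_lt_iff,
          hl.succ_lt_iff, Ordinal.rank_toZFSet]
        tauto) fun x hx => e x hx ▸ hf x hx
      exact ⟨b, hb, fun x hx => e x hx ▸ h1 x hx⟩⟩

/-- Universal statements go up along elementary maps. -/
theorem pe_all {M N : Set V} {m : V → V → Prop} (h : PE M N m) (hd : ∀ x y, m x y → x ∈ M ∧ y ∈ N)
    {a b : V} (hab : m a b) (φ : Fml) (H : ∀ v, (∀ i, v i ∈ M) → Sat M ∅ φ v) (w : ℕ → V)
    (hw : ∀ i, w i ∈ N) : Sat N ∅ φ w := by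
  have key : ∀ (n : ℕ) (φ : Fml), (∀ v, (∀ i, v i ∈ M) → Sat M ∅ φ v) → ∀ w : ℕ → V,
      (∀ i < n, w i ∈ N) → (∀ i, n ≤ i → w i = b) → Sat N ∅ φ w := by
    intro n
    induction n with
    | zero =>
      intro φ H w _ h2
      exact (h φ (fun _ => a) w fun i => h2 i (Nat.zero_le i) ▸ hab).1 (H _ fun _ => (hd _ _ hab).1)
    | succ n ih =>
      intro φ H w h1 h2
      have := ih (.neg (.ex (.neg φ))) (fun v hv ⟨x, hx, h⟩ => h (H _ (cons_mem hx hv)))
        (fun i => w (i + 1)) (fun i hi => h1 _ (by omega)) fun i hi => h2 _ (by omega)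
      by_contra h3
      refine this ⟨w 0, h1 0 (by omega), fun h4 => h3 ?_⟩
      convert h4 using 1
      funext i
      cases i <;> rfl
  obtain ⟨n, hn⟩ := H85.sat_congr N ∅ φ
  exact (hn w (fun i => if i < n then w i else b) fun i hi => (if_pos hi).symm).2
    (key n φ H _ (fun i hi => by rw [if_pos hi]; exact hw i) fun i hi => if_neg (by omega))

theorem df_up (P : Set V → (ℕ → V) → Prop) [hP : Df K P] {M N : Set V} {m : V → V → Prop}
    (h : PE M N m) (hM : K M) (hN : K N) (hd : ∀ x y, m x y → x ∈ M ∧ y ∈ N) {a b : V}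
    (hab : m a b) (H : ∀ v, (∀ i, v i ∈ M) → P M v) (w : ℕ → V) (hw : ∀ i, w i ∈ N) : P N w := by
  obtain ⟨φ, hφ⟩ := hP.ex id
  exact (hφ N hN w hw).2 (pe_all h hd hab φ (fun v hv => (hφ M hM v hv).1 (H v hv)) w hw)

/-- There are arbitrarily large rank initial segments that are elementary in the universe. -/
theorem exists_sub (α : Ordinal.{0}) : ∃ β, α < β ∧ Sub (vonNeumann β) Set.univ := by
  let w : Fml → List V → V := fun φ l =>
    Classical.epsilon fun y => Sat Set.univ ∅ φ (cons y (l.getD · ∅))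
  let F : Ordinal.{0} → Ordinal.{0} := fun ν => max ν (rank (range
    fun t : Fml × List (vonNeumann ν) => w t.1 (t.2.map Subtype.val)))
  let μ : ℕ → Ordinal.{0} := fun n => F^[n] (succ α)
  have hm : Monotone μ := monotone_nat_of_le_succ fun n => by
    simp only [μ, Function.iterate_succ_apply']; exact le_max_left _ _
  refine ⟨⨆ n, μ n, Ordinal.lt_iSup_iff.2 ⟨0, lt_succ _⟩, H85.sub_of_sk (Set.subset_univ _)
    fun φ l hl => ?_⟩
  obtain ⟨n, hn⟩ : ∃ n, ∀ y ∈ l, y ∈ vonNeumann (μ n) := by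
    induction l with
    | nil => exact ⟨0, by simp⟩
    | cons x l ih =>
      obtain ⟨n, hn⟩ := ih fun y hy => hl y (List.mem_cons_of_mem _ hy)
      obtain ⟨k, hk⟩ := Ordinal.lt_iSup_iff.1 (mem_vonNeumann.1 (hl x List.mem_cons_self))
      refine ⟨max n k, fun y hy => mem_vonNeumann.2 ?_⟩
      rcases List.mem_cons.1 hy with rfl | hy
      exacts [hk.trans_le (hm (le_max_right _ _)),
        (mem_vonNeumann.1 (hn y hy)).trans_le (hm (le_max_left _ _))]
  rintro ⟨y, -, H⟩
  refine ⟨w φ l, mem_vonNeumann.2 (Ordinal.lt_iSup_iff.2 ⟨n + 1, ?_⟩),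
    Classical.epsilon_spec (p := fun y => Sat Set.univ ∅ φ (cons y (l.getD · ∅))) ⟨y, H⟩⟩
  simp only [μ, Function.iterate_succ_apply']
  exact lt_max_of_lt_right (rank_lt_of_mem (mem_range.2 ⟨⟨φ, l.attachWith _ hn⟩, by simp⟩))

theorem rk_vonNeumann {β : Ordinal.{0}} (h : ZFm (vonNeumann β) ∅) : RK (vonNeumann β) :=
  ⟨h, fun _ hx _ hy => mem_vonNeumann.2 (hy.trans_lt (mem_vonNeumann.1 hx))⟩

theorem exists_rk (α : Ordinal.{0}) : ∃ β, α < β ∧ RK (vonNeumann β) := by
  obtain ⟨β, h1, h2⟩ := exists_sub α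
  exact ⟨β, h1, rk_vonNeumann (Emb.zfm h2 (fun x hx _ hy => isTransitive_vonNeumann β x hx hy)
    ⟨∅, mem_vonNeumann.2 (by rw [rank_empty]; exact bot_le.trans_lt h1)⟩ zfc_univ.1.1)⟩

end Pool.Agent.Lib.MP_095a31_lc
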