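import Pool.Agent.Lib.MP_095a31_lc.H87Calc

/-!
The category of towers: definitions.
-/

open ZFSet Order

namespace Pool.Agent.Lib.MP_095a31_lc

open MP_329f2d_lc

/-- Ordinals. -/
abbrev O : Type 1 := Ordinal.{0}

/-- Facts of level `η` and kind `t`. -/
noncomputable def tp (η : O) (t : ℕ) (k l y z : V) : V :=
  pair η.toZFSet (pair (nat t) (pair k (pair l (pair y z))))

/-- The facts of level below `γ`. -/
noncomputable def res (γ : O) (c : V) : V := ZFSet.sep (fun z => rank (fst z) < γ) c

/-- An arrow with source, target and body. -/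
noncomputable def ar (s t b : V) : V := pair s (pair t b)

/-- The source. -/
noncomputable def src (k : V) : V := fst k

/-- The target. -/
noncomputable def tgt (k : V) : V := fst (snd k)

/-- The body. -/
noncomputable def bod (k : V) : V := snd (snd k)

/-- Restriction of arrows. -/
noncomputable def resA (γ : O) (k : V) : V := ar (res γ (src k)) (res γ (tgt k)) (res γ (bod k))

/-- `y` is a point of level `η` of `c` at the stage `k`. -/
def El (c : V) (η : O) (k y : V) : Prop := tp η 0 k k y y ∈ c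

/-- The transition along `l` from the stage `k` sends `y` to `z`. -/
def Trn (c : V) (η : O) (k l y z : V) : Prop := tp η 1 k l y z ∈ c

/-- The point `y` contains the section `q` at the stage `k`. -/
def Bit (c : V) (η : O) (k y q : V) : Prop := tp η 2 k k y q ∈ c

/-- The component of `f` of level `η` at the stage `l` sends `y` to `z`. -/
def Ap (f : V) (η : O) (l y z : V) : Prop := tp η 3 l l y z ∈ bod f

/-- A bound for facts. -/
noncomputable def Tb (x : V) : V := prod x (prod omega (prod x (prod x (prod x x))))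

/-- The identity. -/
noncomputable def idA (c : V) : V :=
  ar c c (ZFSet.sep (fun u => ∃ η l y, u = tp η 3 l l y y ∧ El c η l y) (Tb (tc c)))

/-- Composition. -/
noncomputable def cmp : V → V → V :=
  (InvImage.wf rank Ordinal.lt_wf).fix (C := fun _ => V → V) fun g ih f =>
    ar (src f) (tgt g) (ZFSet.sep (fun u => ∃ η l y z w, u = tp η 3 l l y z ∧ Ap g η l w z ∧
      ∃ h : rank l < rank g, Ap f η (ih l h (resA η g)) y w) (Tb (tc (pair f g))))

/-- The current stage of level `η`. -/
noncomputable def top (c : V) (η : O) : V := idA (res η c)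

/-- Points at the current stage. -/
def Pt (c : V) (η : O) (y : V) : Prop := El c η (top c η) y

/-- The action of arrows on points. -/
def Act (l : V) (η : O) (y z : V) : Prop :=
  ∃ w, Trn (src l) η (top (src l) η) (resA η l) y w ∧ Ap l η (top (tgt l) η) w z

/-- The value of a section. -/
def At (q : V) (ζ : O) (y : V) : Prop := pair ζ.toZFSet y ∈ q

/-- The action of arrows on sections. -/
noncomputable def actS (l q : V) : V :=
  ZFSet.sep (fun u => ∃ ζ y z, u = pair (Ordinal.toZFSet ζ) z ∧ At q ζ y ∧ Act l ζ y z)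
    (prod (dom q) (tc l))

/-- `z` is in the image of `k`. -/
def Im (k : V) (η : O) (z : V) : Prop := ∃ y, Ap k η (top (tgt k) η) y z

/-- The domain of the sections of level `η`. -/
def QD (η ζ : O) : Prop := ζ < η ∧ (¬ IsSuccLimit ζ ∨ η = ζ + 1)

/-- Sections of level `η`. -/
structure Sec (e : V) (η : O) (q : V) : Prop where
  shp : ∀ u ∈ q, ∃ ζ y, u = pair (Ordinal.toZFSet ζ) y ∧ QD η ζ ∧ Pt e ζ y
  tot : ∀ ζ, QD η ζ → ∃ y, At q ζ y
  fn : ∀ ζ y z, At q ζ y → At q ζ z → y = z

/-- The section `q` is eventually in the image of `k`. -/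
def Fam (k q : V) : Prop := ∃ ζ₀ y₀, At q ζ₀ y₀ ∧ ∀ ζ y, ζ₀ ≤ ζ → At q ζ y → Im k ζ y

/-- The conditions on the level `η` of an object; `S` is the set of lower arrows. -/
structure ObLev (S : V) (η : O) (c : V) : Prop where
  el : ∀ k y, El c η k y → k ∈ S ∧ src k = res η c
  tr : ∀ k l y z, Trn c η k l y z → El c η k y ∧ l ∈ S ∧ src l = tgt k ∧ El c η (cmp l k) z
  tot : ∀ k l y, El c η k y → l ∈ S → src l = tgt k → ∃ z, Trn c η k l y z
  fn : ∀ k l y z z', Trn c η k l y z → Trn c η k l y z' → z = z'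
  inj : ∀ k l y y' z, Trn c η k l y z → Trn c η k l y' z → y = y'
  one : ∀ k y, El c η k y → Trn c η k (idA (tgt k)) y y
  mul : ∀ k l l' y z w, Trn c η k l y z → Trn c η (cmp l k) l' z w → Trn c η k (cmp l' l) y w
  bit : ∀ k y q, Bit c η k y q → El c η k y ∧ Sec (tgt k) η q ∧ Fam k q
  dec : ∀ k l y z q, Trn c η k l y z → Sec (tgt k) η q →
    (Bit c η k y q ↔ Bit c η (cmp l k) z (actS l q))
  fin : η = 0 → ∃ n : ℕ, ∀ k y, El c η k y → y ∈ nat n

/-- The conditions on the level `η` of an arrow. -/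
structure ArLev (S : V) (η : O) (f : V) : Prop where
  ap : ∀ l y z, Ap f η l y z → El (src f) η (cmp l (resA η f)) y ∧ El (tgt f) η l z
  tot : ∀ l y, l ∈ S → src l = res η (tgt f) → El (src f) η (cmp l (resA η f)) y →
    ∃ z, Ap f η l y z
  fn : ∀ l y z z', Ap f η l y z → Ap f η l y z' → z = z'
  inj : ∀ l y y' z, Ap f η l y z → Ap f η l y' z → y = y'
  nat : ∀ l l' y z y' z', Ap f η l y z → Trn (src f) η (cmp l (resA η f)) l' y y' →
    Trn (tgt f) η l l' z z' → Ap f η (cmp l' l) y' z'
  car : ∀ l l' z y' z', Trn (tgt f) η l l' z z' → Ap f η (cmp l' l) y' z' → ∃ y, Ap f η l y z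
  bit : ∀ l y z q, Ap f η l y z → Fam (cmp l (resA η f)) q →
    (Bit (src f) η (cmp l (resA η f)) y q ↔ Bit (tgt f) η l z q)
  zero : η = 0 → ∀ l y z, Ap f η l y z → y = z

/-- Limit ordinals whose cofinality is at least every smaller or equal member of `Lam`. -/
def Lm (β : O) : Prop :=
  IsSuccLimit β ∧ ∀ η, η ≤ β → Lam η → ∀ a : V, rank a < η → ∀ f : V → O, (∀ x ∈ a, f x < β) →
    ∃ b < β, ∀ x ∈ a, f x < b

theorem Lam.lm {β : O} (h : Lam β) : Lm β :=
  ⟨h.1, fun _ h1 _ a ha => h.2 a (ha.trans_le h1)⟩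

/-- The limit levels that carry points are bounded below each member of `Lm`. -/
def East (c : V) : Prop :=
  ∀ β, Lm β → ∃ γ < β, ∀ ζ, γ ≤ ζ → ζ < β → IsSuccLimit ζ → ∀ k y, ¬ El c ζ k y

/-- The bound for the facts of level `η`. -/
noncomputable def Lab (S : V) (η : O) : V :=
  vonNeumann (rank (pair η.toZFSet S) + Ordinal.omega0)

/-- Objects of height at most `h`. -/
def ObAt (F : O → V) (h : O) (c : V) : Prop :=
  (∀ u ∈ c, rank (fst u) < h ∧ u ∈ Lab (F (rank (fst u))) (rank (fst u))) ∧ East c ∧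
    ∀ η < h, ObLev (F η) η c

/-- Arrows of height at most `h`. -/
def ArAt (F : O → V) (h : O) (k : V) : Prop :=
  k = ar (src k) (tgt k) (bod k) ∧ ObAt F h (src k) ∧ ObAt F h (tgt k) ∧
    (∀ u ∈ bod k, ∃ η < h, ∃ l y z, u = tp η 3 l l y z) ∧ ∀ η < h, ArLev (F η) η k

/-- A bound for all facts of level below `h`. -/
noncomputable def Car (F : O → V) (h : O) : V :=
  powerset (⋃₀ img (fun x => Lab (F (rank x)) (rank x)) h.toZFSet)

/-- One step of the recursion. -/
noncomputable def Mst (F : O → V) (h : O) : V :=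
  ZFSet.sep (ArAt F h) (prod (Car F h) (prod (Car F h) (Car F h)))

open Classical in
/-- The set of the arrows of height at most `h`. -/
noncomputable def M : O → V :=
  Ordinal.lt_wf.fix fun h ih => Mst (fun η => if H : η < h then ih η H else ∅) h

/-- Objects. -/
def Ob (c : V) : Prop := ∃ h, ObAt M h c

/-- Arrows. -/
def Arr (k : V) : Prop := ∃ h, k ∈ M h

/-- The only arrow of height zero. -/
noncomputable def k0 : V := ar ∅ ∅ ∅

end Pool.Agent.Lib.MP_095a31_lc
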