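import Pool.Agent.Lib.MP_095a31_lc.H91Laws

/-!
Gluing of towers.
-/

open ZFSet Order

namespace Pool.Agent.Lib.MP_095a31_lc

open MP_329f2d_lc

namespace Glu

theorem exists_fix {α : Type 1} [Inhabited α] (step : O → (O → α) → α)
    (hs : ∀ h F G, (∀ z < h, F z = G z) → step h F = step h G) :
    ∃ R : O → α, ∀ h, R h = step h R := by
  classical
  let R : O → α := Ordinal.lt_wf.fix fun h ih =>
    step h fun z => if H : z < h then ih z H else default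
  refine ⟨R, fun h => ?_⟩
  rw [show R h = step h fun z => if z < h then R z else default from Ordinal.lt_wf.fix_eq _ h]
  exact hs _ _ _ fun z hz => if_pos hz

theorem lab_mono {z h : O} {u : V} (H : z ≤ h) (hu : u ∈ Lab (M z) z) : u ∈ Lab (M h) h := by
  rw [mem_Lab] at *
  refine hu.trans_le (add_le_add_left ?_ _)
  simp only [rank_opair, Ordinal.rank_toZFSet]
  exact succ_le_succ (succ_le_succ (max_le_max H (rank_mono fun _ => M_mono H)))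

/-- The point `y` of the side `i` is sent to `p` at the stage `l`. -/
def GA (f a : Bool → V) (z : O) (i : Bool) (l y p : V) : Prop :=
  l ∈ M z ∧ src l = tgt (a false) ∧ El (tgt (f i)) z (cmp l (a i)) y ∧
    ((∃ x, Ap (f i) z (cmp l (a i)) x y ∧ p = pair (nat 0) x) ∨
      (¬ ∃ x, Ap (f i) z (cmp l (a i)) x y) ∧ p = pair (nat (i.toNat + 1)) y)

/-- The facts of level `z` of the glued object. -/
def GF (f a : Bool → V) (z : O) (u : V) : Prop :=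
  ∃ i l y p, GA f a z i l y p ∧ (u = tp z 0 l l p p ∨
    (∃ l' y' p', u = tp z 1 l l' p p' ∧ Trn (tgt (f i)) z (cmp l (a i)) l' y y' ∧
      GA f a z i (cmp l' l) y' p') ∨
    ∃ q, u = tp z 2 l l p q ∧ Bit (tgt (f i)) z (cmp l (a i)) y q)

/-- The data below the level `z`. -/
structure Lv (f a : Bool → V) (z : O) : Prop where
  arr : ∀ i, Arr (f i)
  src : ∀ i j, src (f i) = src (f j)
  mem : ∀ i, a i ∈ M z
  sa : ∀ i, MP_095a31_lc.src (a i) = res z (tgt (f i))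
  ta : ∀ i, tgt (a i) = tgt (a false)
  cm : ∀ i j, cmp (a i) (resA z (f i)) = cmp (a j) (resA z (f j))
  bit : ∀ i j l x y y' q, l ∈ M z → MP_095a31_lc.src l = tgt (a false) →
    Ap (f i) z (cmp l (a i)) x y → Ap (f j) z (cmp l (a j)) x y' →
    Bit (tgt (f i)) z (cmp l (a i)) y q → Fam (cmp l (a j)) q → Bit (tgt (f j)) z (cmp l (a j)) y' q
  pos : z ≠ 0

variable {f a : Bool → V} {z : O} {i j : Bool} {l l' x y y' u u' p p' q : V}

theorem GA.lab (hf : ∀ i, Arr (f i)) (H : GA f a z i l y p) : p ∈ Lab (M z) z := by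
  obtain ⟨-, -, h1, ⟨x, h2, rfl⟩ | ⟨-, rfl⟩⟩ := H
  · exact Lab.pair (Lab.nat _ _ _) ((((hf i).lev z).ap _ _ _ h2).1.lab (hf i).src)
  · exact Lab.pair (Lab.nat _ _ _) (h1.lab (hf i).tgt)

theorem GF.lab (hf : ∀ i, Arr (f i)) (H : GF f a z u) :
    rank (fst u) = z ∧ u ∈ Lab (M z) z := by
  obtain ⟨i, l, y, p, h1, rfl | ⟨l', y', p', rfl, h2, h3⟩ | ⟨q, rfl, h2⟩⟩ := H <;>
    refine ⟨rank_fst_tp _ _ _ _ _ _, tp_mem_Lab.2 ⟨Lab.of_mem h1.1, ?_, h1.lab hf, ?_⟩⟩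
  · exact Lab.of_mem h1.1
  · exact h1.lab hf
  · exact Lab.of_mem (((hf i).tgt.lev z).tr _ _ _ _ h2).2.1
  · exact h3.lab hf
  · exact Lab.of_mem h1.1
  · exact h2.lab (hf i).tgt

theorem GA.tot (h1 : l ∈ M z) (h2 : src l = tgt (a false))
    (h3 : El (tgt (f i)) z (cmp l (a i)) y) : ∃ p, GA f a z i l y p := by
  by_cases H : ∃ x, Ap (f i) z (cmp l (a i)) x y
  · obtain ⟨x, H⟩ := H
    exact ⟨_, h1, h2, h3, .inl ⟨x, H, rfl⟩⟩
  · exact ⟨_, h1, h2, h3, .inr ⟨H, rfl⟩⟩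

theorem GA.of_ap (hf : ∀ i, Arr (f i)) (h1 : l ∈ M z) (h2 : src l = tgt (a false))
    (h3 : Ap (f i) z (cmp l (a i)) x y) : GA f a z i l y (pair (nat 0) x) :=
  ⟨h1, h2, (((hf i).lev z).ap _ _ _ h3).2, .inl ⟨x, h3, rfl⟩⟩

theorem GA.fn (hf : ∀ i, Arr (f i)) (H : GA f a z i l y p) (H' : GA f a z i l y p') : p = p' := by
  obtain ⟨-, -, -, ⟨x, h2, rfl⟩ | ⟨h2, rfl⟩⟩ := H <;>
    obtain ⟨-, -, -, ⟨x', h3, rfl⟩ | ⟨h3, rfl⟩⟩ := H'
  · rw [((hf i).lev z).inj _ _ _ _ h2 h3]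
  · exact (h3 ⟨_, h2⟩).elim
  · exact (h2 ⟨_, h3⟩).elim
  · rfl

theorem GA.com (H : GA f a z i l y p) (H' : GA f a z j l y' p) : i = j ∧ y = y' ∨
    ∃ x, Ap (f i) z (cmp l (a i)) x y ∧ Ap (f j) z (cmp l (a j)) x y' := by
  obtain ⟨-, -, -, ⟨x, h2, rfl⟩ | ⟨h2, rfl⟩⟩ := H <;>
    obtain ⟨-, -, -, ⟨x', h3, e⟩ | ⟨h3, e⟩⟩ := H' <;> simp only [pair_inj, nat_inj] at e
  · exact .inr ⟨x, h2, e.2 ▸ h3⟩
  · omega
  · omega
  · refine .inl ⟨?_, e.2⟩
    cases i <;> cases j <;> simp_all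

theorem GA.inj (hf : ∀ i, Arr (f i)) (H : GA f a z i l y p) (H' : GA f a z i l y' p) : y = y' := by
  rcases H.com H' with h | ⟨x, h1, h2⟩
  · exact h.2
  · exact ((hf i).lev z).fn _ _ _ _ h1 h2

namespace Lv

variable (L : Lv f a z)
include L

theorem cm' (i j : Bool) (l : V) :
    cmp (cmp l (a i)) (resA z (f i)) = cmp (cmp l (a j)) (resA z (f j)) := by
  rw [cmp_assoc, cmp_assoc, L.cm i j]

theorem cmem (h1 : l ∈ M z) (h2 : MP_095a31_lc.src l = tgt (a false)) (i : Bool) :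
    cmp l (a i) ∈ M z ∧ MP_095a31_lc.src (cmp l (a i)) = res z (tgt (f i)) :=
  ⟨cmp_mem_M h1 (L.mem i) (h2.trans (L.ta i).symm), by rw [src_cmp, L.sa]⟩

theorem other (h1 : l ∈ M z) (h2 : MP_095a31_lc.src l = tgt (a false))
    (H : Ap (f i) z (cmp l (a i)) x y) (j : Bool) : ∃ y', Ap (f j) z (cmp l (a j)) x y' := by
  have h3 := (((L.arr i).lev z).ap _ _ _ H).1
  rw [L.cm' i j, L.src i j] at h3
  exact ((L.arr j).lev z).tot _ x (L.cmem h1 h2 j).1 (L.cmem h1 h2 j).2 h3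

/-- Common points are moved to common points. -/
theorem fwd (h1 : GA f a z i l y p) (h2 : GA f a z j l y' p)
    (t1 : Trn (tgt (f i)) z (cmp l (a i)) l' y u) (t2 : Trn (tgt (f j)) z (cmp l (a j)) l' y' u')
    (h3 : GA f a z i (cmp l' l) u p') : GA f a z j (cmp l' l) u' p' := by
  rcases h1.com h2 with ⟨rfl, rfl⟩ | ⟨x, x1, x2⟩
  · rwa [← ((L.arr i).tgt.lev z).fn _ _ _ _ _ t1 t2]
  · obtain ⟨-, l1, l2, -⟩ := ((L.arr i).tgt.lev z).tr _ _ _ _ t1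
    obtain ⟨x', hx⟩ := ((L.arr i).src.lev z).tot _ l' x (((L.arr i).lev z).ap _ _ _ x1).1 l1
      (by simpa using l2)
    have n1 := ((L.arr i).lev z).nat _ _ _ _ _ _ x1 hx t1
    rw [L.cm' i j, L.src i j] at hx
    have n2 := ((L.arr j).lev z).nat _ _ _ _ _ _ x2 hx t2
    rw [← cmp_assoc] at n1 n2
    rw [h3.fn L.arr (GA.of_ap L.arr h3.1 h3.2.1 n1)]
    exact GA.of_ap L.arr h3.1 h3.2.1 n2

/-- Common points come from common points. -/
theorem bwd (h1 : GA f a z i l y p) (t1 : Trn (tgt (f i)) z (cmp l (a i)) l' y u)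
    (h3 : GA f a z i (cmp l' l) u p') (h4 : GA f a z j (cmp l' l) u' p') :
    ∃ y', GA f a z j l y' p ∧ Trn (tgt (f j)) z (cmp l (a j)) l' y' u' := by
  rcases h3.com h4 with ⟨rfl, rfl⟩ | ⟨x', x1, -⟩
  · exact ⟨y, h1, t1⟩
  · rw [cmp_assoc] at x1
    obtain ⟨x, hx⟩ := ((L.arr i).lev z).car _ _ _ _ _ t1 x1
    obtain ⟨y', hy⟩ := L.other h1.1 h1.2.1 hx j
    have h2 : GA f a z j l y' p := by
      rw [h1.fn L.arr (GA.of_ap L.arr h1.1 h1.2.1 hx)]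
      exact GA.of_ap L.arr h1.1 h1.2.1 hy
    obtain ⟨-, l1, l2, -⟩ := ((L.arr i).tgt.lev z).tr _ _ _ _ t1
    obtain ⟨v, hv⟩ := ((L.arr j).tgt.lev z).tot _ l' y' h2.2.2.1 l1 (by simpa using l2)
    obtain rfl := (L.fwd h1 h2 t1 hv h3).inj L.arr h4
    exact ⟨y', h2, hv⟩

theorem bit' (h1 : GA f a z i l y p) (h2 : GA f a z j l y' p)
    (b : Bit (tgt (f i)) z (cmp l (a i)) y q) (F : Fam (cmp l (a j)) q) :
    Bit (tgt (f j)) z (cmp l (a j)) y' q := by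
  rcases h1.com h2 with ⟨rfl, rfl⟩ | ⟨x, x1, x2⟩
  · exact b
  · exact L.bit i j l x y y' q h1.1 h1.2.1 x1 x2 b F

theorem step (h1 : GA f a z i l y p) (l1 : l' ∈ M z) (l2 : MP_095a31_lc.src l' = tgt l) :
    ∃ u p', Trn (tgt (f i)) z (cmp l (a i)) l' y u ∧ GA f a z i (cmp l' l) u p' := by
  obtain ⟨u, hu⟩ := ((L.arr i).tgt.lev z).tot _ l' y h1.2.2.1 l1 (by simpa using l2)
  have := (((L.arr i).tgt.lev z).tr _ _ _ _ hu).2.2.2
  rw [← cmp_assoc] at this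
  obtain ⟨p', hp⟩ := GA.tot (cmp_mem_M l1 h1.1 l2) (by simpa using h1.2.1) this
  exact ⟨u, p', hu, hp⟩

end Lv

/-- The level `z` of `c` consists of the glued facts. -/
structure Is (f a : Bool → V) (z : O) (c : V) : Prop where
  low : res z c = tgt (a false)
  fct : ∀ t k l y w, tp z t k l y w ∈ c ↔ GF f a z (tp z t k l y w)

namespace Is

variable {c g : V} (I : Is f a z c)
include I

theorem el : El c z l p ↔ ∃ i y, GA f a z i l y p := by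
  rw [El, I.fct]
  constructor
  · rintro ⟨i, l', y, p', h1, e | ⟨_, _, _, e, -⟩ | ⟨_, e, -⟩⟩ <;> simp only [tp_inj] at e
    · obtain ⟨-, -, rfl, -, rfl, -⟩ := e
      exact ⟨i, y, h1⟩
    all_goals omega
  · exact fun ⟨i, y, h⟩ => ⟨i, l, y, p, h, .inl rfl⟩

theorem trn : Trn c z l l' p p' ↔ ∃ i y u, GA f a z i l y p ∧
    Trn (tgt (f i)) z (cmp l (a i)) l' y u ∧ GA f a z i (cmp l' l) u p' := by
  rw [Trn, I.fct]
  constructor
  · rintro ⟨i, l', y, p', h1, e | ⟨_, u, _, e, h2⟩ | ⟨_, e, -⟩⟩ <;> simp only [tp_inj] at e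
    · omega
    · obtain ⟨-, -, rfl, rfl, rfl, rfl⟩ := e
      exact ⟨i, y, u, h1, h2⟩
    · omega
  · exact fun ⟨i, y, u, h, h'⟩ => ⟨i, l, y, p, h, .inr (.inl ⟨l', u, p', rfl, h'⟩)⟩

theorem bit : Bit c z l p q ↔ ∃ i y, GA f a z i l y p ∧ Bit (tgt (f i)) z (cmp l (a i)) y q := by
  rw [Bit, I.fct]
  constructor
  · rintro ⟨i, l', y, p', h1, e | ⟨_, u, _, e, -⟩ | ⟨_, e, h2⟩⟩ <;> simp only [tp_inj] at e
    · omega
    · omega
    · obtain ⟨-, -, rfl, -, rfl, rfl⟩ := e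
      exact ⟨i, y, h1, h2⟩
  · exact fun ⟨i, y, h, h'⟩ => ⟨i, l, y, p, h, .inr (.inr ⟨q, rfl, h'⟩)⟩

theorem obLev (L : Lv f a z) : ObLev (M z) z c := by
  have C : ∀ i, ObLev (M z) z (tgt (f i)) := fun i => (L.arr i).tgt.lev z
  refine ⟨fun l p H => ?_, fun l l' p p' H => ?_, fun l l' p H l1 l2 => ?_,
    fun l l' p p' p'' H H' => ?_, fun l l' p p' p'' H H' => ?_, fun l p H => ?_,
    fun l l' l'' p p' p'' H H' => ?_, fun l p q H => ?_, fun l l' p p' q H hq => ?_,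
    fun e => (L.pos e).elim⟩
  · obtain ⟨i, y, h⟩ := I.el.1 H
    exact ⟨h.1, h.2.1.trans I.low.symm⟩
  · obtain ⟨i, y, u, h1, h2, h3⟩ := I.trn.1 H
    obtain ⟨-, l1, l2, -⟩ := (C i).tr _ _ _ _ h2
    exact ⟨I.el.2 ⟨i, y, h1⟩, l1, by simpa using l2, I.el.2 ⟨i, u, h3⟩⟩
  · obtain ⟨i, y, h⟩ := I.el.1 H
    obtain ⟨u, p', h1, h2⟩ := L.step h l1 l2
    exact ⟨p', I.trn.2 ⟨i, y, u, h, h1, h2⟩⟩
  · obtain ⟨i, y, u, h1, h2, h3⟩ := I.trn.1 H
    obtain ⟨j, y', u', h4, h5, h6⟩ := I.trn.1 H'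
    exact (L.fwd h1 h4 h2 h5 h3).fn L.arr h6
  · obtain ⟨i, y, u, h1, h2, h3⟩ := I.trn.1 H
    obtain ⟨j, y', u', h4, h5, h6⟩ := I.trn.1 H'
    obtain ⟨y'', h7, h8⟩ := L.bwd h1 h2 h3 h6
    obtain rfl := (C j).inj _ _ _ _ _ h8 h5
    exact h7.fn L.arr h4
  · obtain ⟨i, y, h⟩ := I.el.1 H
    refine I.trn.2 ⟨i, y, y, h, by simpa using (C i).one _ _ h.2.2.1, ?_⟩
    rwa [(arr_of_mem h.1).id_cmp]
  · obtain ⟨i, y, u, h1, h2, h3⟩ := I.trn.1 H
    obtain ⟨j, y', u', h4, h5, h6⟩ := I.trn.1 H'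
    obtain ⟨-, l1, l2, -⟩ := (C j).tr _ _ _ _ h5
    obtain ⟨v, -, h7, -⟩ := L.step h3 l1 (by simpa using l2)
    have h8 := L.fwd h4 h3 h5 h7 h6
    rw [cmp_assoc] at h7
    rw [← cmp_assoc] at h8
    exact I.trn.2 ⟨i, y, v, h1, (C i).mul _ _ _ _ _ _ h2 h7, h8⟩
  · obtain ⟨i, y, h1, h2⟩ := I.bit.1 H
    obtain ⟨-, b1, b2⟩ := (C i).bit _ _ _ h2
    exact ⟨I.el.2 ⟨i, y, h1⟩, by simpa using b1, b2.of_cmp⟩
  · obtain ⟨i, y, u, h1, h2, h3⟩ := I.trn.1 H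
    obtain ⟨-, l1, l2, -⟩ := (C i).tr _ _ _ _ h2
    rw [I.bit, I.bit]
    constructor
    · rintro ⟨j, y', h4, h5⟩
      obtain ⟨u', -, h6, -⟩ := L.step h4 l1 (by simpa using l2)
      refine ⟨j, u', L.fwd h1 h4 h2 h6 h3, ?_⟩
      rw [cmp_assoc]
      exact ((C j).dec _ _ _ _ q h6 (by simpa using hq)).1 h5
    · rintro ⟨j, u', h4, h5⟩
      obtain ⟨y', h6, h7⟩ := L.bwd h1 h2 h3 h4
      rw [cmp_assoc] at h5
      exact ⟨j, y', h6, ((C j).dec _ _ _ _ q h7 (by simpa using hq)).2 h5⟩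

theorem arLev (L : Lv f a z) (e1 : Same z (src g) (tgt (f i))) (e2 : tgt g = c)
    (e3 : resA z g = a i) (e4 : ∀ l y p, Ap g z l y p ↔ GA f a z i l y p) : ArLev (M z) z g := by
  refine ⟨?_, ?_, ?_, ?_, ?_, ?_, ?_, fun e => (L.pos e).elim⟩ <;>
    simp only [e1.el, e1.trn, e1.bit, e2, e3, e4, I.low]
  · exact fun l y p H => ⟨H.2.2.1, I.el.2 ⟨i, y, H⟩⟩
  · exact fun l y h1 h2 h3 => GA.tot h1 h2 h3
  · exact fun l y p p' H H' => H.fn L.arr H'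
  · exact fun l y y' p H H' => H.inj L.arr H'
  · intro l l' y p u p' h1 h2 H
    obtain ⟨j, y', u', h4, h5, h6⟩ := I.trn.1 H
    exact L.fwd h4 h1 h5 h2 h6
  · intro l l' p u p' H h1
    obtain ⟨j, y', u', h4, h5, h6⟩ := I.trn.1 H
    obtain ⟨y, h7, -⟩ := L.bwd h4 h5 h6 h1
    exact ⟨y, h7⟩
  · intro l y p q h1 F
    exact ⟨fun H => I.bit.2 ⟨i, y, h1, H⟩, fun H => by
      obtain ⟨j, y', h2, h3⟩ := I.bit.1 H
      exact L.bit' h2 h1 h3 F⟩

end Is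

/-- The data of a gluing problem. -/
structure GD (γ : O) (f k : Bool → V) : Prop where
  pos : 1 ≤ γ
  arr : ∀ i, Arr (f i)
  src : ∀ i j, src (f i) = src (f j)
  mem : ∀ i, k i ∈ M γ
  sk : ∀ i, MP_095a31_lc.src (k i) = res γ (tgt (f i))
  tk : ∀ i, tgt (k i) = tgt (k false)
  cm : ∀ i j, cmp (k i) (resA γ (f i)) = cmp (k j) (resA γ (f j))
  bit : ∀ i j l x y y' q, l ∈ M γ → MP_095a31_lc.src l = tgt (k false) →
    Ap (f i) γ (cmp l (k i)) x y → Ap (f j) γ (cmp l (k j)) x y' →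
    Bit (tgt (f i)) γ (cmp l (k i)) y q → Bit (tgt (f j)) γ (cmp l (k j)) y' q

/-- The recursion that defines the glued object. -/
structure Tw (γ : O) (f k : Bool → V) (a : O → Bool → V) : Prop where
  shp : ∀ h i, a h i = ar (res h (tgt (f i))) (tgt (a h false)) (bod (a h i))
  mem : ∀ h u, u ∈ tgt (a h false) ↔
    u ∈ res h (tgt (k false)) ∨ ∃ z < h, γ ≤ z ∧ GF f (a z) z u
  bod : ∀ h i u, u ∈ bod (a h i) ↔ u ∈ res h (bod (k i)) ∨
    ∃ z < h, γ ≤ z ∧ ∃ l y p, u = tp z 3 l l y p ∧ GA f (a z) z i l y p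

theorem exists_tw (γ : O) (k : Bool → V) (hf : ∀ i, Arr (f i)) : ∃ a, Tw γ f k a := by
  obtain ⟨R, hR⟩ := exists_fix (α := Bool → V) (fun h F i => ar (res h (tgt (f i)))
    (res h (tgt (k false)) ∪ ZFSet.sep (fun u => ∃ z < h, γ ≤ z ∧ GF f (F z) z u) (Lab (M h) h))
    (res h (bod (k i)) ∪ ZFSet.sep (fun u => ∃ z < h, γ ≤ z ∧
      ∃ l y p, u = tp z 3 l l y p ∧ GA f (F z) z i l y p) (Lab (M h) h)))
    fun h F G e => by
      funext i
      congr 3 <;> funext u <;>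
        exact propext (exists_congr fun z => and_congr_right fun hz => by rw [e z hz])
  refine ⟨R, fun h i => ?_, fun h u => ?_, fun h i u => ?_⟩
  · rw [hR h]
    simp
  · conv_lhs => rw [hR h]
    rw [tgt_ar, mem_union, mem_sep]
    refine or_congr_right (and_iff_right_of_imp ?_)
    rintro ⟨z, hz, -, H⟩
    exact lab_mono hz.le (H.lab hf).2
  · conv_lhs => rw [hR h]
    rw [bod_ar, mem_union, mem_sep]
    refine or_congr_right (and_iff_right_of_imp ?_)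
    rintro ⟨z, hz, -, l, y, p, rfl, H⟩
    exact lab_mono hz.le (tp_mem_Lab.2 ⟨Lab.of_mem H.1, Lab.of_mem H.1,
      H.2.2.1.lab (hf i).tgt, H.lab hf⟩)

namespace Tw

variable {γ h : O} {k : Bool → V} {a : O → Bool → V} (T : Tw γ f k a) (D : GD γ f k)
include T

theorem src_a : src (a h i) = res h (tgt (f i)) := by rw [T.shp, src_ar]

theorem tgt_a : tgt (a h i) = tgt (a h false) := by rw [T.shp, tgt_ar]

include D

theorem shape : Shape (a h i) :=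
  ⟨by rw [T.src_a, T.tgt_a]; exact T.shp h i, fun u hu => by
    rcases (T.bod _ _ _).1 hu with H | ⟨z, -, -, l, y, p, e, -⟩
    · exact (arr_of_mem (D.mem i)).shape.2 u (mem_res.1 H).1
    · exact ⟨z, l, y, p, e⟩⟩

theorem res_a (hz : z ≤ h) : resA z (a h i) = a z i := by
  rw [resA, T.shp z i, T.src_a, T.tgt_a, res_res_le hz]
  congr 1 <;> ext u
  · rw [mem_res, T.mem, T.mem, mem_res, mem_res]
    constructor
    · rintro ⟨H | ⟨x, -, h1, H⟩, h2⟩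
      · exact .inl ⟨H.1, h2⟩
      · exact .inr ⟨x, (H.lab D.arr).1 ▸ h2, h1, H⟩
    · rintro (H | ⟨x, h1, h2, H⟩)
      · exact ⟨.inl ⟨H.1, H.2.trans_le hz⟩, H.2⟩
      · exact ⟨.inr ⟨x, h1.trans_le hz, h2, H⟩, (H.lab D.arr).1.symm ▸ h1⟩
  · rw [mem_res, T.bod, T.bod, mem_res, mem_res]
    constructor
    · rintro ⟨H | ⟨x, -, h1, l, y, p, rfl, H⟩, h2⟩
      · exact .inl ⟨H.1, h2⟩
      · exact .inr ⟨x, by simpa using h2, h1, l, y, p, rfl, H⟩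
    · rintro (H | ⟨x, h1, h2, l, y, p, rfl, H⟩)
      · exact ⟨.inl ⟨H.1, H.2.trans_le hz⟩, H.2⟩
      · exact ⟨.inr ⟨x, h1.trans_le hz, h2, l, y, p, rfl, H⟩, by simpa using h1⟩

theorem low (hz : z ≤ γ) : a z i = resA z (k i) := by
  rw [resA, T.shp z i, D.sk, res_res_le hz, D.tk]
  congr 1 <;> ext u
  · rw [T.mem]
    exact or_iff_left fun ⟨x, h1, h2, _⟩ => (h1.trans_le hz).not_ge h2
  · rw [T.bod]
    exact or_iff_left fun ⟨x, h1, h2, _⟩ => (h1.trans_le hz).not_ge h2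

theorem ap (hz : γ ≤ z) : Ap (a h i) z l y p ↔ z < h ∧ GA f (a z) z i l y p := by
  rw [Ap, T.bod]
  constructor
  · rintro (H | ⟨x, h1, -, l', y', p', e, H⟩)
    · have : Ap (resA γ (k i)) z l y p := by rw [resA_of_mem (D.mem i)]; exact (tp_mem_res.1 H).1
      exact absurd (Ap_resA.1 this).2 hz.not_gt
    · obtain ⟨rfl, -, rfl, -, rfl, rfl⟩ := tp_inj.1 e
      exact ⟨h1, H⟩
  · exact fun ⟨h1, H⟩ => .inr ⟨z, h1, hz, l, y, p, rfl, H⟩

theorem is (hz : γ ≤ z) (hh : z < h) : Is f (a z) z (tgt (a h false)) := by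
  refine ⟨by rw [← tgt_resA, T.res_a D hh.le], fun t n l y w => ?_⟩
  rw [T.mem]
  constructor
  · rintro (H | ⟨x, -, -, H⟩)
    · rw [← res_tgt_of_mem (D.mem false)] at H
      exact absurd (tp_mem_res.1 (tp_mem_res.1 H).1).2 hz.not_gt
    · obtain rfl : z = x := by simpa using (H.lab D.arr).1
      exact H
  · exact fun H => .inr ⟨z, hh, hz, H⟩

theorem dis (hz : γ ≤ z) (h1 : Ap (a h i) z l y p) (h2 : Ap (a h j) z l y' p) : i = j ∧ y = y' ∨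
    ∃ x, Ap (f i) z (cmp l (resA z (a h i))) x y ∧ Ap (f j) z (cmp l (resA z (a h j))) x y' := by
  obtain ⟨h3, h4⟩ := (T.ap D hz).1 h1
  rw [T.res_a D h3.le, T.res_a D h3.le]
  exact h4.com ((T.ap D hz).1 h2).2

theorem lv (hz : γ ≤ z) (h1 : ∀ i, a z i ∈ M z)
    (h2 : ∀ i j, cmp (a z i) (resA z (f i)) = cmp (a z j) (resA z (f j))) : Lv f (a z) z := by
  refine ⟨D.arr, D.src, h1, fun i => T.src_a, fun i => T.tgt_a, h2,
    fun i j l x y y' q l1 l2 x1 x2 b F => ?_, (zero_lt_one.trans_le (D.pos.trans hz)).ne'⟩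
  rcases hz.eq_or_lt with rfl | hz'
  · simp only [T.low D le_rfl, resA_of_mem (D.mem _)] at l2 x1 x2 b ⊢
    exact D.bit i j l x y y' q l1 l2 x1 x2 b
  by_cases e : i = j
  · subst e
    rwa [← ((D.arr i).lev z).fn _ _ _ _ x1 x2]
  obtain ⟨-, b1, b2⟩ := ((D.arr i).tgt.lev z).bit _ _ _ b
  have al := arr_of_mem l1
  have key : Fam (cmp (cmp l (a z i)) (resA z (f i))) q := by
    obtain ⟨ζ₁, a1, a2, a3⟩ := (b1.fam_iff hz').1 b2
    obtain ⟨ζ₂, -, c2, c3⟩ := (b1.fam_iff hz').1 F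
    refine (b1.fam_iff hz').2 ⟨max ζ₁ ζ₂, le_max_of_le_left a1, max_lt a2 c2, fun ζ w d1 d2 => ?_⟩
    obtain ⟨v, hv⟩ := a3 ζ w ((le_max_left _ _).trans d1) d2
    obtain ⟨v', hv'⟩ := c3 ζ w ((le_max_right _ _).trans d1) d2
    obtain ⟨w₁, p1, p2⟩ := Ap_cmp.1 hv
    obtain ⟨w₂, p3, p4⟩ := Ap_cmp.1 hv'
    rw [tgt_cmp] at p1 p2 p3 p4
    obtain rfl := (al.lev ζ).inj _ _ _ _ p1 p3
    rcases T.dis D (a1.trans ((le_max_left _ _).trans d1)) p2 p4 with H | ⟨t, t1, -⟩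
    · exact (e H.1).elim
    · refine ⟨t, Ap_cmp.2 ⟨v, by simpa using hv, Ap_resA.2 ⟨?_, (b1.at d2).1.1⟩⟩⟩
      rwa [tgt_cmp, tgt_cmp, resA_cmp, ← cmp_assoc]
  have e' : cmp (cmp l (a z i)) (resA z (f i)) = cmp (cmp l (a z j)) (resA z (f j)) := by
    rw [cmp_assoc, cmp_assoc, h2 i j]
  have b3 := (((D.arr i).lev z).bit _ _ _ q x1 key).2 b
  rw [e'] at key b3
  rw [D.src i j] at b3
  exact (((D.arr j).lev z).bit _ _ _ q x2 key).1 b3

theorem east : East (tgt (a h false)) := fun β hβ => by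
  obtain ⟨γ₀, a1, a2⟩ := (arr_of_mem (D.mem false)).tgt.east β hβ
  obtain ⟨γ₁, b1, b2⟩ := (D.arr false).tgt.east β hβ
  obtain ⟨γ₂, c1, c2⟩ := (D.arr true).tgt.east β hβ
  refine ⟨max γ₀ (max γ₁ γ₂), max_lt a1 (max_lt b1 c1), fun ζ h1 h2 h3 n p H => ?_⟩
  simp only [max_le_iff] at h1
  rcases (T.mem _ _).1 H with H' | ⟨x, x1, x2, H'⟩
  · exact a2 ζ h1.1 h2 h3 n p (tp_mem_res.1 H').1
  · obtain rfl : ζ = x := by simpa using (H'.lab D.arr).1
    obtain ⟨i, y, H''⟩ := (T.is D x2 x1).el.1 H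
    cases i
    · exact b2 ζ h1.2.1 h2 h3 _ _ H''.2.2.1
    · exact c2 ζ h1.2.2 h2 h3 _ _ H''.2.2.1

theorem main (h : O) : (∀ i, a h i ∈ M h) ∧
    ∀ i j, cmp (a h i) (resA h (f i)) = cmp (a h j) (resA h (f j)) := by
  induction h using WellFoundedLT.induction with
  | ind h ih =>
  have L : ∀ z < h, γ ≤ z → Lv f (a z) z := fun z h1 h2 => T.lv D h2 (ih z h1).1 (ih z h1).2
  have R : ∀ z < h, z < γ → ∀ i, resA (z + 1) (a h i) = resA (z + 1) (k i) := fun z h1 h2 i => by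
    rw [T.res_a D (add_one_le_of_lt h1), T.low D (add_one_le_of_lt h2)]
  have K : ∀ i, Arr (k i) := fun i => arr_of_mem (D.mem i)
  have hi : ∀ z, ¬ z < h → ∀ i l y p, ¬ Ap (a h i) z l y p := fun z hz i l y p H => by
    rw [← T.res_a D le_rfl] at H
    exact hz (Ap_resA.1 H).2
  have hO : Ob (tgt (a h false)) := by
    refine ob_of (fun u hu => ?_) (T.east D) fun z => ?_
    · rcases (T.mem _ _).1 hu with H | ⟨x, -, -, H⟩
      · exact (K false).tgt.lab u (mem_res.1 H).1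
      · rw [(H.lab D.arr).1]
        exact (H.lab D.arr).2
    by_cases hz : z < h
    swap
    · refine obLev_of_empty fun t n l y w H => hz ?_
      rw [← T.res_a D le_rfl, tgt_resA] at H
      exact (tp_mem_res.1 H).2
    rcases lt_or_ge z γ with h1 | h1
    · have e := congrArg tgt (R z hz h1 false)
      rw [tgt_resA, tgt_resA] at e
      refine ((K false).tgt.lev z).congr (same_of_res (lt_add_one z) e.symm) ?_
      rw [← res_res_le (lt_add_one z).le, ← e, res_res_le (lt_add_one z).le]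
    · exact (T.is D h1 hz).obLev (L z hz h1)
  refine ⟨fun i => mem_M_of (T.shape D) (by rw [T.src_a]; exact (D.arr i).tgt.res h)
    (by rw [T.tgt_a]; exact hO) (fun z => ?_) (T.res_a D le_rfl), ?_⟩
  · by_cases hz : z < h
    swap
    · exact arLev_of_empty (hi z hz i) fun l y H => hz (by rw [T.src_a] at H; exact (El_res.1 H).2)
    rcases lt_or_ge z γ with h1 | h1
    · have e := R z hz h1 i
      have e1 := congrArg src e
      have e2 := congrArg tgt e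
      rw [src_resA, src_resA] at e1
      rw [tgt_resA, tgt_resA] at e2
      refine ((K i).lev z).congr (same_of_res (lt_add_one z) e1.symm)
        (same_of_res (lt_add_one z) e2.symm) (fun l y p => ?_) ?_
      · simpa using (congrArg (fun x => Ap x z l y p) e).symm
      · rw [← resA_resA_le (lt_add_one z).le, ← e, resA_resA_le (lt_add_one z).le]
    · refine (T.is D h1 hz).arLev (L z hz h1) (i := i) ?_ T.tgt_a (T.res_a D hz.le)
        fun l y p => by rw [T.ap D h1, and_iff_right hz]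
      rw [T.src_a]
      exact (same_res hz).symm
  · have key : ∀ i j z l x p, Ap (cmp (a h i) (resA h (f i))) z l x p →
        Ap (cmp (a h j) (resA h (f j))) z l x p := fun i j z l x p H => by
      obtain ⟨y, h1, h2⟩ := Ap_cmp.1 H
      have hz : z < h := not_not.1 fun hz => hi z hz i l y p h1
      rcases lt_or_ge z γ with h3 | h3
      · have e : ∀ i, resA (z + 1) (cmp (a h i) (resA h (f i))) =
            resA (z + 1) (cmp (k i) (resA γ (f i))) := fun i => by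
          rw [resA_cmp, resA_cmp, R z hz h3, resA_resA_le (add_one_le_of_lt hz),
            resA_resA_le (add_one_le_of_lt h3)]
        have : Ap (resA (z + 1) (cmp (a h i) (resA h (f i)))) z l x p :=
          Ap_resA.2 ⟨H, lt_add_one z⟩
        rw [e, D.cm i j, ← e] at this
        exact (Ap_resA.1 this).1
      · have h4 := ((T.ap D h3).1 h1).2
        rw [T.res_a D hz.le] at h2
        obtain ⟨y', h5⟩ := (L z hz h3).other h4.1 h4.2.1 (Ap_resA.1 h2).1 j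
        refine Ap_cmp.2 ⟨y', (T.ap D h3).2 ⟨hz, ?_⟩, by rw [T.res_a D hz.le]; exact Ap_resA.2 ⟨h5, hz⟩⟩
        rw [h4.fn D.arr (GA.of_ap D.arr h4.1 h4.2.1 (Ap_resA.1 h2).1)]
        exact GA.of_ap D.arr h4.1 h4.2.1 h5
    exact fun i j => shape_cmp.ext shape_cmp (by simp [D.src i j])
      (by rw [tgt_cmp, tgt_cmp, T.tgt_a, T.tgt_a (i := j)]) fun z l x p =>
        ⟨key i j z l x p, key j i z l x p⟩

end Tw

end Glu

/-- Levelwise pushouts above the level `γ`. -/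
theorem glue {γ : O} (hγ : 1 ≤ γ) {f₁ f₂ k₁ k₂ : V} (hf₁ : Arr f₁) (hf₂ : Arr f₂)
    (hs : src f₁ = src f₂) (hk₁ : k₁ ∈ M γ) (hk₂ : k₂ ∈ M γ) (e₁ : src k₁ = res γ (tgt f₁))
    (e₂ : src k₂ = res γ (tgt f₂)) (ht : tgt k₁ = tgt k₂)
    (hc : cmp k₁ (resA γ f₁) = cmp k₂ (resA γ f₂))
    (hb : ∀ l y z₁ z₂ q, l ∈ M γ → src l = tgt k₁ → Ap f₁ γ (cmp l k₁) y z₁ →
      Ap f₂ γ (cmp l k₂) y z₂ →
      (Bit (tgt f₁) γ (cmp l k₁) z₁ q ↔ Bit (tgt f₂) γ (cmp l k₂) z₂ q)) :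
    ∃ g₁ g₂, Arr g₁ ∧ Arr g₂ ∧ src g₁ = tgt f₁ ∧ src g₂ = tgt f₂ ∧ tgt g₁ = tgt g₂ ∧
      resA γ g₁ = k₁ ∧ resA γ g₂ = k₂ ∧ cmp g₁ f₁ = cmp g₂ f₂ ∧
      ∀ η, γ ≤ η → ∀ l y₁ y₂ z, Ap g₁ η l y₁ z → Ap g₂ η l y₂ z →
        ∃ y, Ap f₁ η (cmp l (resA η g₁)) y y₁ ∧ Ap f₂ η (cmp l (resA η g₂)) y y₂ := by
  have D : Glu.GD γ (fun i => cond i f₂ f₁) (fun i => cond i k₂ k₁) := by
    refine ⟨hγ, fun i => ?_, fun i j => ?_, fun i => ?_, fun i => ?_, fun i => ?_, fun i j => ?_,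
      fun i j l x y y' q l1 l2 x1 x2 b => ?_⟩
    · cases i <;> assumption
    · cases i <;> cases j <;> simp [hs]
    · cases i <;> assumption
    · cases i <;> assumption
    · cases i <;> simp [ht]
    · cases i <;> cases j <;> simp [hc]
    · cases i <;> cases j
      · exact (hf₁.lev γ).fn _ _ _ _ x1 x2 ▸ b
      · exact (hb l x y y' q l1 l2 x1 x2).1 b
      · exact (hb l x y' y q l1 l2 x2 x1).2 b
      · exact (hf₂.lev γ).fn _ _ _ _ x1 x2 ▸ b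
  obtain ⟨a, T⟩ := Glu.exists_tw γ (fun i => cond i k₂ k₁) D.arr
  obtain ⟨h', h1, m1⟩ := hf₁.exists_mem γ
  obtain ⟨h, h2, m2⟩ := hf₂.exists_mem h'
  replace m1 := M_mono h2 m1
  obtain ⟨A, B⟩ := T.main D h
  have R : ∀ i, resA γ (a h i) = cond i k₂ k₁ := fun i => by
    rw [T.res_a D (h1.trans h2), T.low D le_rfl, resA_of_mem (D.mem i)]
  refine ⟨a h false, a h true, arr_of_mem (A _), arr_of_mem (A _),
    T.src_a.trans (res_tgt_of_mem m1), T.src_a.trans (res_tgt_of_mem m2), T.tgt_a.symm,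
    R false, R true, ?_, fun η hη l y₁ y₂ z p1 p2 => ?_⟩
  · simpa [resA_of_mem m1, resA_of_mem m2] using B false true
  · rcases T.dis D hη p1 p2 with H | H
    · exact absurd H.1 (by simp)
    · exact H

end Pool.Agent.Lib.MP_095a31_lc
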