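import Pool.Agent.Lib.MP_095a31_lc.H91Cat

/-!
The category of towers: laws.
-/

open ZFSet Order

namespace Pool.Agent.Lib.MP_095a31_lc

open MP_329f2d_lc

variable {γ γ' η ζ h : O} {c d e f g k l q y z w : V}

@[simp] theorem tp_inj {η η' : O} {t t' : ℕ} {k l y z k' l' y' z' : V} :
    tp η t k l y z = tp η' t' k' l' y' z' ↔
      η = η' ∧ t = t' ∧ k = k' ∧ l = l' ∧ y = y' ∧ z = z' := by
  simp [tp, pair_inj, Ordinal.toZFSet_injective.eq_iff]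

@[simp] theorem rank_fst_tp (η : O) (t : ℕ) (k l y z : V) : rank (fst (tp η t k l y z)) = η := by
  simp [tp]

@[simp] theorem src_ar (s t b : V) : src (ar s t b) = s := by simp [src, ar]
@[simp] theorem tgt_ar (s t b : V) : tgt (ar s t b) = t := by simp [tgt, ar]
@[simp] theorem bod_ar (s t b : V) : bod (ar s t b) = b := by simp [bod, ar]

@[simp] theorem ar_inj {s t b s' t' b' : V} : ar s t b = ar s' t' b' ↔ s = s' ∧ t = t' ∧ b = b' := by
  simp [ar, pair_inj]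

theorem mem_res {u : V} : u ∈ res γ c ↔ u ∈ c ∧ rank (fst u) < γ := mem_sep

@[simp] theorem tp_mem_res {t : ℕ} : tp η t k l y z ∈ res γ c ↔ tp η t k l y z ∈ c ∧ η < γ := by
  rw [mem_res, rank_fst_tp]

theorem res_res : res γ (res γ' c) = res (min γ γ') c := by
  ext u; simp only [mem_res, lt_min_iff]; tauto

theorem res_res_le (H : γ ≤ γ') : res γ (res γ' c) = res γ c := by rw [res_res, min_eq_left H]

theorem res_res_ge (H : γ' ≤ γ) : res γ (res γ' c) = res γ' c := by rw [res_res, min_eq_right H]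

@[simp] theorem res_res_self : res γ (res γ c) = res γ c := res_res_le le_rfl

@[simp] theorem res_zero : res 0 c = ∅ := by
  ext u; simp [mem_res]

@[simp] theorem res_empty : res γ ∅ = ∅ := by
  ext u; simp [mem_res]

@[simp] theorem src_resA : src (resA γ k) = res γ (src k) := src_ar _ _ _
@[simp] theorem tgt_resA : tgt (resA γ k) = res γ (tgt k) := tgt_ar _ _ _
@[simp] theorem bod_resA : bod (resA γ k) = res γ (bod k) := bod_ar _ _ _

theorem resA_resA : resA γ (resA γ' k) = resA (min γ γ') k := by simp [resA, res_res]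

theorem resA_resA_le (H : γ ≤ γ') : resA γ (resA γ' k) = resA γ k := by
  rw [resA_resA, min_eq_left H]

theorem resA_resA_ge (H : γ' ≤ γ) : resA γ (resA γ' k) = resA γ' k := by
  rw [resA_resA, min_eq_right H]

@[simp] theorem resA_resA_self : resA γ (resA γ k) = resA γ k := resA_resA_le le_rfl

@[simp] theorem resA_zero : resA 0 k = k0 := by simp [resA, k0]

@[simp] theorem El_res : El (res γ c) η k y ↔ El c η k y ∧ η < γ := tp_mem_res
@[simp] theorem Trn_res : Trn (res γ c) η k l y z ↔ Trn c η k l y z ∧ η < γ := tp_mem_res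
@[simp] theorem Bit_res : Bit (res γ c) η k y q ↔ Bit c η k y q ∧ η < γ := tp_mem_res

@[simp] theorem Ap_resA : Ap (resA γ f) η l y z ↔ Ap f η l y z ∧ η < γ := by
  rw [Ap, bod_resA]; exact tp_mem_res

@[simp] theorem src_idA : src (idA c) = c := src_ar _ _ _
@[simp] theorem tgt_idA : tgt (idA c) = c := tgt_ar _ _ _

theorem tp_mem_Tb {x : V} {t : ℕ} (h1 : η.toZFSet ∈ x) (h2 : k ∈ x) (h3 : l ∈ x) (h4 : y ∈ x)
    (h5 : z ∈ x) : tp η t k l y z ∈ Tb x := by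
  simp [tp, Tb, *]

theorem mem_tc_of_pair {x a b : V} (H : pair a b ∈ tc x) : a ∈ tc x ∧ b ∈ tc x :=
  ⟨mem_of_pair_left (W := tc x) (fun u hu _ hv => tc_trans x u hu hv) H,
    mem_of_pair_right (W := tc x) (fun u hu _ hv => tc_trans x u hu hv) H⟩

theorem mem_tc_of_tp {x : V} {t : ℕ} (H : tp η t k l y z ∈ tc x) :
    η.toZFSet ∈ tc x ∧ k ∈ tc x ∧ l ∈ tc x ∧ y ∈ tc x ∧ z ∈ tc x := by
  have h1 := mem_tc_of_pair H
  have h2 := mem_tc_of_pair (mem_tc_of_pair h1.2).2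
  have h3 := mem_tc_of_pair h2.2
  have h4 := mem_tc_of_pair h3.2
  exact ⟨h1.1, h2.1, h3.1, h4.1, h4.2⟩

theorem mem_bod_idA {u : V} : u ∈ bod (idA c) ↔ ∃ η l y, u = tp η 3 l l y y ∧ El c η l y := by
  rw [idA, bod_ar, mem_sep]
  refine and_iff_right_of_imp ?_
  rintro ⟨η, l, y, rfl, H⟩
  have := mem_tc_of_tp (subset_tc c H)
  exact tp_mem_Tb this.1 this.2.1 this.2.1 this.2.2.2.1 this.2.2.2.1

@[simp] theorem Ap_idA : Ap (idA c) η l y z ↔ y = z ∧ El c η l y := by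
  rw [Ap, mem_bod_idA]
  constructor
  · rintro ⟨η', l', y', e, H⟩
    obtain ⟨rfl, -, rfl, -, rfl, rfl⟩ := tp_inj.1 e
    exact ⟨rfl, H⟩
  · rintro ⟨rfl, H⟩
    exact ⟨_, _, _, rfl, H⟩

theorem rank_snd_le (x : V) : rank (snd x) ≤ rank x :=
  (rank_sUnion_le _).trans ((rank_mono sep_subset).trans (rank_sUnion_le _))

theorem rank_fst_le (x : V) : rank (fst x) ≤ rank x :=
  (rank_sUnion_le _).trans ((rank_mono sep_subset).trans (rank_sUnion_le _))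

theorem Ap.rank_lt (H : Ap g η l y z) : rank l < rank g :=
  (rank_lt_of_mem_tc _ (mem_tc_of_tp (subset_tc _ H)).2.1).trans_le
    ((rank_snd_le _).trans (rank_snd_le _))

theorem cmp_eq (g f : V) : cmp g f = ar (src f) (tgt g) (ZFSet.sep (fun u => ∃ η l y z w,
    u = tp η 3 l l y z ∧ Ap g η l w z ∧ Ap f η (cmp l (resA η g)) y w) (Tb (tc (pair f g)))) := by
  rw [cmp, WellFounded.fix_eq]
  congr 2
  funext u
  exact propext (exists₅_congr fun η l y z w => and_congr_right fun _ => and_congr_right fun H =>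
    ⟨fun ⟨_, H'⟩ => H', fun H' => ⟨H.rank_lt, H'⟩⟩)

@[simp] theorem src_cmp : src (cmp g f) = src f := by rw [cmp_eq, src_ar]
@[simp] theorem tgt_cmp : tgt (cmp g f) = tgt g := by rw [cmp_eq, tgt_ar]

theorem snd_subset {t x : V} (ht : IsTransitive t) (H : x ⊆ t) : snd x ⊆ t := fun u hu => by
  obtain ⟨a, ha, hu⟩ := mem_sUnion.1 hu
  obtain ⟨b, hb, ha⟩ := mem_sUnion.1 (mem_sep.1 ha).1
  exact ht _ (ht _ (H hb) ha) hu

theorem bod_subset {t x : V} (ht : IsTransitive t) (H : x ∈ t) : bod x ⊆ t :=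
  snd_subset ht (snd_subset ht (ht _ H))

theorem mem_tc_pair (f g : V) : f ∈ tc (pair f g) ∧ g ∈ tc (pair f g) :=
  ⟨tc_trans _ _ (subset_tc _ (show ({f, g} : V) ∈ pair f g by simp [pair])) (by simp),
    tc_trans _ _ (subset_tc _ (show ({f, g} : V) ∈ pair f g by simp [pair])) (by simp)⟩

theorem mem_bod_cmp {u : V} : u ∈ bod (cmp g f) ↔ ∃ η l y z w,
    u = tp η 3 l l y z ∧ Ap g η l w z ∧ Ap f η (cmp l (resA η g)) y w := by
  rw [cmp_eq, bod_ar, mem_sep]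
  refine and_iff_right_of_imp ?_
  rintro ⟨η, l, y, z, w, rfl, H, H'⟩
  have h1 := mem_tc_of_tp (bod_subset (tc_trans _) (mem_tc_pair f g).2 H)
  have h2 := mem_tc_of_tp (bod_subset (tc_trans _) (mem_tc_pair f g).1 H')
  exact tp_mem_Tb h1.1 h1.2.1 h1.2.1 h2.2.2.2.1 h1.2.2.2.2

theorem Ap_cmp : Ap (cmp g f) η l y z ↔ ∃ w, Ap g η l w z ∧ Ap f η (cmp l (resA η g)) y w := by
  rw [Ap, mem_bod_cmp]
  constructor
  · rintro ⟨η', l', y', z', w, e, H⟩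
    obtain ⟨rfl, -, rfl, -, rfl, rfl⟩ := tp_inj.1 e
    exact ⟨w, H⟩
  · rintro ⟨w, H⟩
    exact ⟨_, _, _, _, w, rfl, H⟩

/-- Sets that are coded as arrows, with a body of the right shape. -/
def Shape (k : V) : Prop :=
  k = ar (src k) (tgt k) (bod k) ∧ ∀ u ∈ bod k, ∃ η l y z, u = tp η 3 l l y z

theorem Shape.ext (hf : Shape f) (hg : Shape g) (h1 : src f = src g) (h2 : tgt f = tgt g)
    (h3 : ∀ η l y z, Ap f η l y z ↔ Ap g η l y z) : f = g := by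
  rw [hf.1, hg.1, h1, h2]
  congr 1
  ext u
  constructor
  · intro hu
    obtain ⟨η, l, y, z, rfl⟩ := hf.2 u hu
    exact (h3 η l y z).1 hu
  · intro hu
    obtain ⟨η, l, y, z, rfl⟩ := hg.2 u hu
    exact (h3 η l y z).2 hu

theorem shape_ar {s t b : V} (H : ∀ u ∈ b, ∃ η l y z, u = tp η 3 l l y z) : Shape (ar s t b) :=
  ⟨by simp, by simpa using H⟩

theorem shape_cmp : Shape (cmp g f) :=
  ⟨by conv_lhs => rw [cmp_eq]
      rw [src_cmp, tgt_cmp]; congr 1; conv_rhs => rw [cmp_eq, bod_ar], fun u hu => by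
    obtain ⟨η, l, y, z, w, e, -⟩ := mem_bod_cmp.1 hu
    exact ⟨η, l, y, z, e⟩⟩

theorem shape_idA : Shape (idA c) :=
  ⟨by simp [idA], fun u hu => by
    obtain ⟨η, l, y, e, -⟩ := mem_bod_idA.1 hu
    exact ⟨η, l, y, y, e⟩⟩

theorem Shape.resA (H : Shape f) : Shape (resA γ f) :=
  shape_ar fun u hu => H.2 u (mem_res.1 hu).1

theorem resA_cmp : resA γ (cmp g f) = cmp (resA γ g) (resA γ f) :=
  shape_cmp.resA.ext shape_cmp (by simp) (by simp) fun η l y z => by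
    simp only [Ap_resA, Ap_cmp]
    constructor
    · rintro ⟨⟨w, h1, h2⟩, h3⟩
      exact ⟨w, ⟨h1, h3⟩, by rwa [resA_resA_le h3.le], h3⟩
    · rintro ⟨w, ⟨h1, h3⟩, h2, -⟩
      exact ⟨⟨w, h1, by rwa [resA_resA_le h3.le] at h2⟩, h3⟩

theorem resA_idA : resA γ (idA c) = idA (res γ c) :=
  shape_idA.resA.ext shape_idA (by simp) (by simp) fun η l y z => by simp [and_assoc]

theorem cmp_assoc (k g f : V) : cmp (cmp k g) f = cmp k (cmp g f) := by
  induction k using (InvImage.wf rank Ordinal.lt_wf).induction generalizing g f with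
  | _ k ih =>
    refine shape_cmp.ext shape_cmp (by simp) (by simp) fun η l y z => ?_
    simp only [Ap_cmp, resA_cmp]
    constructor
    · rintro ⟨w, ⟨u, h1, h2⟩, h3⟩
      exact ⟨u, h1, w, h2, by rwa [ih l h1.rank_lt]⟩
    · rintro ⟨u, h1, w, h2, h3⟩
      exact ⟨w, ⟨u, h1, h2⟩, by rwa [ih l h1.rank_lt] at h3⟩

theorem shape_k0 : Shape k0 := shape_ar (by simp)

@[simp] theorem src_k0 : src k0 = ∅ := src_ar _ _ _
@[simp] theorem tgt_k0 : tgt k0 = ∅ := tgt_ar _ _ _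
@[simp] theorem not_Ap_k0 : ¬ Ap k0 η l y z := by simp [Ap, k0]

@[simp] theorem cmp_k0 : cmp k0 k0 = k0 :=
  shape_cmp.ext shape_k0 (by simp) (by simp) fun η l y z => by simp [Ap_cmp]

theorem mem_Lab {S u : V} : u ∈ Lab S η ↔ rank u < rank (pair η.toZFSet S) + Ordinal.omega0 :=
  mem_vonNeumann

theorem Lab.of_rank_le {S u v : V} (H : u ∈ Lab S η) (h' : rank v ≤ rank u) : v ∈ Lab S η :=
  mem_Lab.2 (h'.trans_lt (mem_Lab.1 H))

theorem Lab.mem {S u v : V} (H : u ∈ Lab S η) (h' : v ∈ u) : v ∈ Lab S η :=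
  Lab.of_rank_le H (rank_lt_of_mem h').le

theorem rank_lt_pair (a b : V) : rank a < rank (pair a b) ∧ rank b < rank (pair a b) :=
  ⟨rank_lt_of_mem_tc _ (mem_tc_pair a b).1, rank_lt_of_mem_tc _ (mem_tc_pair a b).2⟩

theorem Lab.of_mem {S : V} (H : k ∈ S) : k ∈ Lab S η :=
  mem_Lab.2 (((rank_lt_of_mem H).trans (rank_lt_pair _ _).2).trans_le le_self_add)

theorem Lab.lim (S : V) (η : O) : IsSuccLimit (rank (pair η.toZFSet S) + Ordinal.omega0) :=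
  Ordinal.isSuccLimit_add _ Ordinal.isSuccLimit_omega0

theorem Lab.pair {S u v : V} (H : u ∈ Lab S η) (h' : v ∈ Lab S η) : pair u v ∈ Lab S η := by
  have hl := Lab.lim S η
  rw [mem_Lab] at *
  conv_lhs => rw [ZFSet.pair]
  simp only [rank_insert, rank_singleton, max_lt_iff, hl.succ_lt_iff]
  tauto

theorem Lab.nat (S : V) (η : O) (n : ℕ) : nat n ∈ Lab S η :=
  mem_Lab.2 (by rw [rank_nat]; exact (Ordinal.natCast_lt_omega0 n).trans_le le_add_self)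

theorem Lab.pair_iff {S u v : V} : ZFSet.pair u v ∈ Lab S η ↔ u ∈ Lab S η ∧ v ∈ Lab S η :=
  ⟨fun H => ⟨Lab.of_rank_le H (rank_lt_pair _ _).1.le, Lab.of_rank_le H (rank_lt_pair _ _).2.le⟩,
    fun H => Lab.pair H.1 H.2⟩

theorem Lab.ord {S : V} (H : ζ ≤ η) : ζ.toZFSet ∈ Lab S η :=
  mem_Lab.2 (by
    have := (rank_lt_pair η.toZFSet S).1
    rw [Ordinal.rank_toZFSet] at this ⊢
    exact (H.trans_lt this).trans_le le_self_add)

theorem tp_mem_Lab {S : V} {t : ℕ} : tp η t k l y z ∈ Lab S η ↔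
    k ∈ Lab S η ∧ l ∈ Lab S η ∧ y ∈ Lab S η ∧ z ∈ Lab S η := by
  simp [tp, Lab.pair_iff, Lab.nat, Lab.ord]

theorem ObAt.congr {F F' : O → V} (H : ObAt F h c) (e : ∀ η < h, F η = F' η) : ObAt F' h c :=
  ⟨fun u hu => ⟨(H.1 u hu).1, e _ (H.1 u hu).1 ▸ (H.1 u hu).2⟩, H.2.1,
    fun η hη => e η hη ▸ H.2.2 η hη⟩

theorem ArAt.congr {F F' : O → V} (H : ArAt F h k) (e : ∀ η < h, F η = F' η) : ArAt F' h k :=
  ⟨H.1, H.2.1.congr e, H.2.2.1.congr e, H.2.2.2.1, fun η hη => e η hη ▸ H.2.2.2.2 η hη⟩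

theorem mem_Car {F : O → V} : c ∈ Car F h ↔ ∀ u ∈ c, ∃ η < h, u ∈ Lab (F η) η := by
  simp only [Car, mem_powerset]
  refine forall_congr' fun u => imp_congr_right fun _ => ?_
  simp only [mem_sUnion, mem_img, Ordinal.mem_toZFSet_iff]
  constructor
  · rintro ⟨_, ⟨_, ⟨η, h1, rfl⟩, rfl⟩, h2⟩
    exact ⟨η, h1, by simpa using h2⟩
  · rintro ⟨η, h1, h2⟩
    exact ⟨_, ⟨_, ⟨η, h1, rfl⟩, rfl⟩, by simpa using h2⟩

theorem mem_Mst {F : O → V} : k ∈ Mst F h ↔ ArAt F h k := by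
  rw [Mst, mem_sep]
  refine and_iff_right_of_imp fun H => ?_
  rw [H.1, ar, pair_mem_prod, pair_mem_prod]
  refine ⟨mem_Car.2 fun u hu => ⟨_, H.2.1.1 u hu⟩, mem_Car.2 fun u hu => ⟨_, H.2.2.1.1 u hu⟩,
    mem_Car.2 fun u hu => ?_⟩
  obtain ⟨η, hη, l, y, z, rfl⟩ := H.2.2.2.1 u hu
  obtain ⟨h1, h2⟩ := (H.2.2.2.2 η hη).ap l y z hu
  have h3 := (H.2.1.1 _ h1).2
  have h4 := (H.2.2.1.1 _ h2).2
  rw [rank_fst_tp, tp_mem_Lab] at h3 h4
  exact ⟨η, hη, tp_mem_Lab.2 ⟨h4.1, h4.1, h3.2.2.1, h4.2.2.1⟩⟩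

theorem M_eq (h : O) : M h = Mst M h := by
  rw [M, WellFounded.fix_eq]
  ext k
  rw [mem_Mst, mem_Mst]
  exact ⟨fun H => H.congr fun η hη => dif_pos hη, fun H => H.congr fun η hη => by rw [dif_pos hη]⟩

theorem mem_M : k ∈ M h ↔ ArAt M h k := by rw [M_eq, mem_Mst]

theorem arr_of_mem (H : k ∈ M h) : Arr k := ⟨h, H⟩

theorem Arr.shape (H : Arr f) : Shape f := by
  obtain ⟨h, H⟩ := H
  rw [mem_M] at H
  exact ⟨H.1, fun u hu => by
    obtain ⟨η, -, h'⟩ := H.2.2.2.1 u hu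
    exact ⟨η, h'⟩⟩

theorem obLev_of_empty {S : V} (H : ∀ t k l y z, tp η t k l y z ∉ c) : ObLev S η c :=
  ⟨fun _ _ h => (H _ _ _ _ _ h).elim, fun _ _ _ _ h => (H _ _ _ _ _ h).elim,
    fun _ _ _ h => (H _ _ _ _ _ h).elim, fun _ _ _ _ _ h => (H _ _ _ _ _ h).elim,
    fun _ _ _ _ _ h => (H _ _ _ _ _ h).elim, fun _ _ h => (H _ _ _ _ _ h).elim,
    fun _ _ _ _ _ _ h => (H _ _ _ _ _ h).elim, fun _ _ _ h => (H _ _ _ _ _ h).elim,
    fun _ _ _ _ _ h => (H _ _ _ _ _ h).elim, fun _ => ⟨0, fun _ _ h => (H _ _ _ _ _ h).elim⟩⟩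

theorem arLev_of_empty {S : V} (H : ∀ l y z, ¬ Ap f η l y z) (H' : ∀ l y, ¬ El (src f) η l y) :
    ArLev S η f :=
  ⟨fun _ _ _ h => (H _ _ _ h).elim, fun _ _ _ _ h => (H' _ _ h).elim,
    fun _ _ _ _ h => (H _ _ _ h).elim, fun _ _ _ _ h => (H _ _ _ h).elim,
    fun _ _ _ _ _ _ h => (H _ _ _ h).elim, fun _ _ _ _ _ _ h => (H _ _ _ h).elim,
    fun _ _ _ _ h => (H _ _ _ h).elim, fun _ _ _ _ h => (H _ _ _ h).elim⟩

theorem Ob.lev (H : Ob c) (η : O) : ObLev (M η) η c := by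
  obtain ⟨h, H⟩ := H
  by_cases hη : η < h
  · exact H.2.2 η hη
  · exact obLev_of_empty fun t k l y z h' => hη (by simpa using (H.1 _ h').1)

theorem Ob.east (H : Ob c) : East c := H.elim fun _ H => H.2.1

theorem Ob.lab (H : Ob c) : ∀ u ∈ c, u ∈ Lab (M (rank (fst u))) (rank (fst u)) :=
  H.elim fun _ H u hu => (H.1 u hu).2

theorem res_eq_self : res h c = c ↔ ∀ u ∈ c, rank (fst u) < h :=
  ⟨fun e _ hu => (mem_res.1 (e.symm ▸ hu)).2, fun H => ZFSet.ext fun u =>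
    mem_res.trans (and_iff_left_of_imp (H u))⟩

theorem res_rank (c : V) : res (rank c) c = c :=
  res_eq_self.2 fun _ hu => (rank_fst_le _).trans_lt (rank_lt_of_mem hu)

theorem res_eq_mono (H : res γ c = c) (h' : γ ≤ γ') : res γ' c = c :=
  res_eq_self.2 fun u hu => (res_eq_self.1 H u hu).trans_le h'

/-- Every set has a height. -/
theorem exists_height (c : V) : ∃ h, res h c = c := ⟨_, res_rank c⟩

theorem Ob.obAt (H : Ob c) (e : res h c = c) : ObAt M h c :=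
  ⟨fun u hu => ⟨res_eq_self.1 e u hu, H.lab u hu⟩, H.east, fun η _ => H.lev η⟩

theorem ob_of (h1 : ∀ u ∈ c, u ∈ Lab (M (rank (fst u))) (rank (fst u))) (h2 : East c)
    (h3 : ∀ η, ObLev (M η) η c) : Ob c :=
  ⟨rank c, fun u hu => ⟨res_eq_self.1 (res_rank c) u hu, h1 u hu⟩, h2, fun η _ => h3 η⟩

theorem Arr.lev (H : Arr f) (η : O) : ArLev (M η) η f := by
  obtain ⟨h, H⟩ := H
  rw [mem_M] at H
  by_cases hη : η < h
  · exact H.2.2.2.2 η hη
  · refine arLev_of_empty (fun l y z h' => ?_) fun l y h' => hη (by simpa using (H.2.1.1 _ h').1)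
    obtain ⟨η', h1, _, _, _, e⟩ := H.2.2.2.1 _ h'
    exact hη ((tp_inj.1 e).1 ▸ h1)

theorem Arr.src (H : Arr f) : Ob (src f) := H.elim fun h H => ⟨h, (mem_M.1 H).2.1⟩
theorem Arr.tgt (H : Arr f) : Ob (tgt f) := H.elim fun h H => ⟨h, (mem_M.1 H).2.2.1⟩

theorem mem_M_of (h0 : Shape f) (h1 : Ob (src f)) (h2 : Ob (tgt f))
    (h3 : ∀ η, ArLev (M η) η f) (e : resA h f = f) : f ∈ M h := by
  have e1 := congrArg src e
  have e2 := congrArg tgt e
  have e3 := congrArg bod e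
  rw [src_resA] at e1; rw [tgt_resA] at e2; rw [bod_resA] at e3
  refine mem_M.2 ⟨h0.1, h1.obAt e1, h2.obAt e2, fun u hu => ?_, fun η _ => h3 η⟩
  obtain ⟨η, l, y, z, rfl⟩ := h0.2 u hu
  exact ⟨η, by simpa using res_eq_self.1 e3 _ hu, l, y, z, rfl⟩

theorem Shape.exists_resA (h0 : Shape f) (γ : O) : ∃ h, γ ≤ h ∧ MP_095a31_lc.resA h f = f := by
  refine ⟨max γ (max (rank (src f)) (max (rank (tgt f)) (rank (bod f)))), le_max_left _ _, ?_⟩
  rw [MP_095a31_lc.resA, res_eq_mono (res_rank _) (by simp), res_eq_mono (res_rank _) (by simp),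
    res_eq_mono (res_rank _) (by simp), ← h0.1]

theorem arr_of (h0 : Shape f) (h1 : Ob (src f)) (h2 : Ob (tgt f))
    (h3 : ∀ η, ArLev (M η) η f) : Arr f := by
  obtain ⟨h, -, e⟩ := h0.exists_resA 0
  exact ⟨h, mem_M_of h0 h1 h2 h3 e⟩

theorem mem_M_iff : k ∈ M h ↔ Arr k ∧ resA h k = k := by
  refine ⟨fun H => ⟨⟨h, H⟩, ?_⟩, fun H => mem_M_of H.1.shape H.1.src H.1.tgt H.1.lev H.2⟩
  rw [mem_M] at H
  rw [resA, res_eq_self.2 fun u hu => (H.2.1.1 u hu).1, res_eq_self.2 fun u hu => (H.2.2.1.1 u hu).1,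
    res_eq_self.2 fun u hu => ?_, ← H.1]
  obtain ⟨η, hη, l, y, z, rfl⟩ := H.2.2.2.1 u hu
  simpa using hη

theorem resA_of_mem (H : k ∈ M h) : resA h k = k := (mem_M_iff.1 H).2

theorem resA_of_mem_le (H : k ∈ M γ) (h' : γ ≤ γ') : resA γ' k = k := by
  rw [← resA_of_mem H, resA_resA_ge h']

theorem M_mono (H : γ ≤ γ') (hk : k ∈ M γ) : k ∈ M γ' :=
  mem_M_iff.2 ⟨⟨_, hk⟩, resA_of_mem_le hk H⟩

theorem res_src_of_mem (H : k ∈ M h) : res h (src k) = src k := by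
  rw [← src_resA, resA_of_mem H]

theorem res_tgt_of_mem (H : k ∈ M h) : res h (tgt k) = tgt k := by
  rw [← tgt_resA, resA_of_mem H]

theorem Arr.exists_mem (H : Arr f) (γ : O) : ∃ h, γ ≤ h ∧ f ∈ M h := by
  obtain ⟨h, h1, e⟩ := H.shape.exists_resA γ
  exact ⟨h, h1, mem_M_iff.2 ⟨H, e⟩⟩

theorem El.lab (hc : Ob c) (H : El c η k y) : y ∈ Lab (M η) η := by
  have := hc.lab _ H
  rw [rank_fst_tp, tp_mem_Lab] at this
  exact this.2.2.1

theorem Bit.lab (hc : Ob c) (H : Bit c η k y q) : q ∈ Lab (M η) η := by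
  have := hc.lab _ H
  rw [rank_fst_tp, tp_mem_Lab] at this
  exact this.2.2.2

/-- The sets `c` and `d` have the same facts of level `η`. -/
def Same (η : O) (c d : V) : Prop := ∀ t k l y z, tp η t k l y z ∈ c ↔ tp η t k l y z ∈ d

theorem Same.el (H : Same η c d) : El c η = El d η := by ext; exact H _ _ _ _ _
theorem Same.trn (H : Same η c d) : Trn c η = Trn d η := by ext; exact H _ _ _ _ _
theorem Same.bit (H : Same η c d) : Bit c η = Bit d η := by ext; exact H _ _ _ _ _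
theorem Same.symm (H : Same η c d) : Same η d c := fun _ _ _ _ _ => (H _ _ _ _ _).symm
theorem Same.rfl : Same η c c := fun _ _ _ _ _ => Iff.rfl
theorem same_res (H : η < γ) : Same η c (res γ c) := fun _ _ _ _ _ => by simp [H]
theorem same_of_res (H : η < γ) (e : res γ c = res γ d) : Same η c d := fun t k l y z => by
  rw [same_res H t k l y z, e, ← same_res H t k l y z]

theorem ObLev.congr {S : V} (H : ObLev S η c) (h1 : Same η c d) (h2 : res η c = res η d) :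
    ObLev S η d := by
  obtain ⟨a1, a2, a3, a4, a5, a6, a7, a8, a9, a10⟩ := H
  rw [h1.el] at a1 a2 a3 a6 a8 a10
  rw [h1.trn] at a2 a3 a4 a5 a6 a7 a9
  rw [h1.bit] at a8 a9
  rw [h2] at a1
  exact ⟨a1, a2, a3, a4, a5, a6, a7, a8, a9, a10⟩

theorem ArLev.congr {S : V} (H : ArLev S η f) (h1 : Same η (src f) (src g))
    (h2 : Same η (tgt f) (tgt g)) (h3 : ∀ l y z, Ap f η l y z ↔ Ap g η l y z)
    (h4 : resA η f = resA η g) : ArLev S η g := by
  have h5 : Ap f η = Ap g η := by ext; exact h3 _ _ _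
  have h6 : res η (tgt f) = res η (tgt g) := by rw [← tgt_resA, h4, tgt_resA]
  obtain ⟨a1, a2, a3, a4, a5, a6, a7, a8⟩ := H
  rw [h5] at a1 a2 a3 a4 a5 a6 a7 a8
  rw [h4] at a1 a2 a5 a7
  rw [h1.el] at a1 a2
  rw [h2.el] at a1
  rw [h1.trn] at a5
  rw [h2.trn] at a5 a6
  rw [h1.bit, h2.bit] at a7
  rw [h6] at a2
  exact ⟨a1, a2, a3, a4, a5, a6, a7, a8⟩

theorem East.mono (H : East c) (h' : ∀ ζ k y, El d ζ k y → ∃ k y, El c ζ k y) : East d :=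
  fun β hβ => (H β hβ).imp fun _ h1 => ⟨h1.1, fun ζ h2 h3 h4 k y h5 => by
    obtain ⟨k', y', h6⟩ := h' ζ k y h5
    exact h1.2 ζ h2 h3 h4 k' y' h6⟩

theorem ob_empty : Ob ∅ :=
  ob_of (by simp) (fun β hβ => ⟨0, hβ.1.bot_lt, by simp [El]⟩) fun _ => obLev_of_empty (by simp)

theorem Ob.res (H : Ob c) (γ : O) : Ob (res γ c) :=
  ob_of (fun u hu => H.lab u (mem_res.1 hu).1) (H.east.mono fun _ k y h => ⟨k, y, (El_res.1 h).1⟩)
    fun η => by
      by_cases hη : η < γ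
      · exact (H.lev η).congr (same_res hη) (res_res_le hη.le).symm
      · exact obLev_of_empty (by simp [hη])

theorem Arr.resA (H : Arr f) (γ : O) : Arr (resA γ f) :=
  arr_of H.shape.resA (src_resA ▸ H.src.res γ) (tgt_resA ▸ H.tgt.res γ) fun η => by
    by_cases hη : η < γ
    · exact (H.lev η).congr (src_resA ▸ same_res hη) (tgt_resA ▸ same_res hη) (by simp [hη])
        (resA_resA_le hη.le).symm
    · exact arLev_of_empty (by simp [hη]) (by simp [hη])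

theorem Arr.resA_mem (H : Arr f) (γ : O) : MP_095a31_lc.resA γ f ∈ M γ :=
  mem_M_iff.2 ⟨H.resA γ, resA_resA_self⟩

theorem Arr.cmp_id (H : Arr f) : cmp f (idA (MP_095a31_lc.src f)) = f :=
  shape_cmp.ext H.shape (by simp) (by simp) fun η l y z => by
    simp only [Ap_cmp, Ap_idA]
    exact ⟨fun ⟨_, h1, e, _⟩ => e ▸ h1, fun h => ⟨y, h, rfl, ((H.lev η).ap l y z h).1⟩⟩

theorem El.cmp_top (hc : Ob c) (H : El c η l y) : cmp l (top c η) = l := by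
  obtain ⟨h1, h2⟩ := (hc.lev η).el l y H
  rw [top, ← h2, (arr_of_mem h1).cmp_id]

theorem Arr.id_cmp (H : Arr f) : cmp (idA (MP_095a31_lc.tgt f)) f = f :=
  shape_cmp.ext H.shape (by simp) (by simp) fun η l y z => by
    simp only [Ap_cmp, Ap_idA, resA_idA]
    constructor
    · rintro ⟨_, ⟨rfl, h1⟩, h2⟩
      rwa [← top, h1.cmp_top H.tgt] at h2
    · intro h
      have h1 := ((H.lev η).ap l y z h).2
      exact ⟨z, ⟨rfl, h1⟩, by rwa [← top, h1.cmp_top H.tgt]⟩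

theorem Ob.idA (H : Ob c) : Arr (idA c) :=
  arr_of shape_idA (src_idA ▸ H) (tgt_idA ▸ H) fun η => by
    have L := H.lev η
    have e : ∀ l ∈ M η, src l = MP_095a31_lc.res η c → cmp l (resA η (MP_095a31_lc.idA c)) = l :=
      fun l h1 h2 => by rw [resA_idA, ← h2, (arr_of_mem h1).cmp_id]
    have e' : ∀ l y, El c η l y → cmp l (resA η (MP_095a31_lc.idA c)) = l := fun l y h =>
      e l (L.el l y h).1 (L.el l y h).2
    refine ⟨?_, ?_, ?_, ?_, ?_, ?_, ?_, ?_⟩ <;> simp only [Ap_idA, src_idA, tgt_idA]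
    · rintro l y _ ⟨rfl, h⟩
      rw [e' l y h]; exact ⟨h, h⟩
    · intro l y h1 h2 h3
      rw [e l h1 h2] at h3; exact ⟨y, rfl, h3⟩
    · rintro l y _ _ ⟨rfl, -⟩ ⟨rfl, -⟩; rfl
    · rintro l y _ _ ⟨rfl, -⟩ ⟨rfl, -⟩; rfl
    · rintro l l' y _ y' z' ⟨rfl, h⟩ h1 h2
      rw [e' l y h] at h1
      exact ⟨L.fn _ _ _ _ _ h1 h2, (L.tr _ _ _ _ h1).2.2.2⟩
    · intro l l' z y' z' h1 _
      exact ⟨z, rfl, (L.tr _ _ _ _ h1).1⟩
    · rintro l y _ q ⟨rfl, h⟩ _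
      rw [e' l y h]
    · rintro - l y z ⟨h, -⟩; exact h

theorem Ob.idA_mem (H : Ob c) (e : MP_095a31_lc.res γ c = c) : MP_095a31_lc.idA c ∈ M γ :=
  mem_M_iff.2 ⟨H.idA, by rw [resA_idA, e]⟩

theorem Ob.top_mem (H : Ob c) (η : O) : top c η ∈ M η := (H.res η).idA_mem res_res_self

theorem Ob.bang (H : Ob c) : Arr (ar ∅ c ∅) :=
  arr_of (shape_ar (by simp)) (by simpa using ob_empty) (by simpa using H) fun _ =>
    arLev_of_empty (by simp [Ap]) (by simp [El])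

theorem mem_M_zero : k ∈ M 0 ↔ k = k0 :=
  mem_M_iff.trans ⟨fun H => H.2.symm.trans resA_zero, fun e => e ▸ ⟨ob_empty.bang, resA_zero⟩⟩

theorem Im.of_cmp (H : Im (cmp k f) η z) : Im k η z := by
  obtain ⟨y, H⟩ := H
  obtain ⟨w, h1, -⟩ := Ap_cmp.1 H
  exact ⟨w, by simpa using h1⟩

theorem Fam.of_cmp (H : Fam (cmp k f) q) : Fam k q := by
  obtain ⟨ζ₀, y₀, h1, h2⟩ := H
  exact ⟨ζ₀, y₀, h1, fun ζ y h3 h4 => (h2 ζ y h3 h4).of_cmp⟩

theorem cmp_mem_M (hg : g ∈ M γ) (hf : f ∈ M γ) (e : src g = tgt f) : cmp g f ∈ M γ := by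
  induction γ using Ordinal.lt_wf.induction generalizing g f with
  | _ γ ih =>
    have ag := arr_of_mem hg
    have af := arr_of_mem hf
    refine mem_M_of shape_cmp (by simpa using af.src) (by simpa using ag.tgt) (fun η => ?_)
      (by rw [resA_cmp, resA_of_mem hg, resA_of_mem hf])
    by_cases hη : η < γ
    swap
    · refine arLev_of_empty (fun l y z h => ?_) fun l y h => ?_
      · obtain ⟨w, h1, -⟩ := Ap_cmp.1 h
        rw [← resA_of_mem hg] at h1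
        exact hη (Ap_resA.1 h1).2
      · rw [src_cmp, ← res_src_of_mem hf] at h
        exact hη (El_res.1 h).2
    have G := ag.lev η
    have F := af.lev η
    have C := af.src.lev η
    have D := af.tgt.lev η
    have E := ag.tgt.lev η
    refine ⟨?_, ?_, ?_, ?_, ?_, ?_, ?_, ?_⟩ <;>
      simp only [Ap_cmp, src_cmp, tgt_cmp, resA_cmp, ← cmp_assoc]
    · rintro l y z ⟨w, h1, h2⟩
      exact ⟨(F.ap _ _ _ h2).1, (G.ap _ _ _ h1).2⟩
    · intro l y h1 h2 h3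
      obtain ⟨w, h4⟩ := F.tot _ y (ih η hη h1 (ag.resA_mem η) (by simpa using h2))
        (by simp [e]) h3
      obtain ⟨z, h5⟩ := G.tot l w h1 h2 (e ▸ (F.ap _ _ _ h4).2)
      exact ⟨z, w, h5, h4⟩
    · rintro l y z z' ⟨w, h1, h2⟩ ⟨w', h3, h4⟩
      obtain rfl := F.fn _ _ _ _ h2 h4
      exact G.fn _ _ _ _ h1 h3
    · rintro l y y' z ⟨w, h1, h2⟩ ⟨w', h3, h4⟩
      obtain rfl := G.inj _ _ _ _ h1 h3
      exact F.inj _ _ _ _ h2 h4
    · rintro l l' y z y' z' ⟨w, h1, h2⟩ h3 h4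
      obtain ⟨-, h5, h6, -⟩ := E.tr _ _ _ _ h4
      obtain ⟨w', h7⟩ := D.tot _ l' w (F.ap _ _ _ h2).2 h5 (by simpa using h6)
      exact ⟨w', G.nat _ _ _ _ _ _ h1 (e ▸ h7) h4, by
        rw [cmp_assoc]; exact F.nat _ _ _ _ _ _ h2 h3 h7⟩
    · rintro l l' z y' z' h1 ⟨w', h2, h3⟩
      obtain ⟨w, h4⟩ := G.car _ _ _ _ _ h1 h2
      obtain ⟨-, h5, h6, -⟩ := E.tr _ _ _ _ h1
      obtain ⟨w'', h7⟩ := D.tot _ l' w (e ▸ (G.ap _ _ _ h4).1) h5 (by simpa using h6)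
      obtain rfl := G.inj _ _ _ _ h2 (G.nat _ _ _ _ _ _ h4 (e ▸ h7) h1)
      rw [cmp_assoc] at h3
      obtain ⟨y, h8⟩ := F.car _ _ _ _ _ h7 h3
      exact ⟨y, w, h4, h8⟩
    · rintro l y z q ⟨w, h1, h2⟩ h3
      exact (F.bit _ _ _ q h2 h3).trans (e ▸ G.bit _ _ _ q h1 h3.of_cmp)
    · rintro h0 l y z ⟨w, h1, h2⟩
      exact (F.zero h0 _ _ _ h2).trans (G.zero h0 _ _ _ h1)

theorem Arr.cmp (hg : Arr g) (hf : Arr f) (e : MP_095a31_lc.src g = MP_095a31_lc.tgt f) :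
    Arr (cmp g f) := by
  obtain ⟨h, hf⟩ := hf
  obtain ⟨h', h1, hg⟩ := hg.exists_mem h
  exact ⟨h', cmp_mem_M hg (M_mono h1 hf) e⟩

theorem Arr.top_cmp (H : Arr f) (η : O) :
    MP_095a31_lc.cmp (top (MP_095a31_lc.tgt f) η) (MP_095a31_lc.resA η f) = MP_095a31_lc.resA η f := by
  rw [top, ← tgt_resA, (H.resA η).id_cmp]

theorem Arr.cmp_top (H : Arr f) (η : O) :
    MP_095a31_lc.cmp (MP_095a31_lc.resA η f) (top (MP_095a31_lc.src f) η) = MP_095a31_lc.resA η f := by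
  rw [top, ← src_resA, (H.resA η).cmp_id]

@[simp] theorem src_top : src (top c η) = res η c := src_idA
@[simp] theorem tgt_top : tgt (top c η) = res η c := tgt_idA
theorem top_res (H : η ≤ γ) : top (res γ c) η = top c η := by rw [top, res_res_le H, top]
theorem Pt_res (H : η < γ) : Pt (res γ c) η y ↔ Pt c η y := by simp [Pt, top_res H.le, H]
theorem Act_resA (H : η < γ) : Act (resA γ l) η y z ↔ Act l η y z := by
  simp [Act, top_res H.le, resA_resA_le H.le, H]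
theorem Im_resA (H : η < γ) : Im (resA γ k) η z ↔ Im k η z := by simp [Im, top_res H.le, H]

theorem Act.pt (hl : Arr l) (H : Act l η y z) : Pt (src l) η y ∧ Pt (tgt l) η z := by
  obtain ⟨w, h1, h2⟩ := H
  exact ⟨((hl.src.lev η).tr _ _ _ _ h1).1, ((hl.lev η).ap _ _ _ h2).2⟩

theorem Pt.trn (hl : Arr l) (H : Pt (src l) η y) :
    ∃ w, Trn (src l) η (top (src l) η) (resA η l) y w ∧ El (src l) η (resA η l) w := by
  obtain ⟨w, h1⟩ := (hl.src.lev η).tot _ _ y H (hl.resA_mem η) (by simp)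
  have := ((hl.src.lev η).tr _ _ _ _ h1).2.2.2
  rw [hl.cmp_top] at this
  exact ⟨w, h1, this⟩

theorem Pt.act (hl : Arr l) (H : Pt (src l) η y) : ∃ z, Act l η y z := by
  obtain ⟨w, h1, h2⟩ := H.trn hl
  obtain ⟨z, h3⟩ := (hl.lev η).tot _ w (hl.tgt.top_mem η) src_top (by rwa [hl.top_cmp])
  exact ⟨z, w, h1, h3⟩

theorem Act.fn {z' : V} (hl : Arr l) (H : Act l η y z) (H' : Act l η y z') : z = z' := by
  obtain ⟨w, h1, h2⟩ := H
  obtain ⟨w', h3, h4⟩ := H'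
  obtain rfl := (hl.src.lev η).fn _ _ _ _ _ h1 h3
  exact (hl.lev η).fn _ _ _ _ h2 h4

theorem Act.inj {y' : V} (hl : Arr l) (H : Act l η y z) (H' : Act l η y' z) : y = y' := by
  obtain ⟨w, h1, h2⟩ := H
  obtain ⟨w', h3, h4⟩ := H'
  obtain rfl := (hl.lev η).inj _ _ _ _ h2 h4
  exact (hl.src.lev η).inj _ _ _ _ _ h1 h3

theorem Act.im (H : Act l η y z) : Im l η z := H.elim fun w h => ⟨w, h.2⟩

theorem Pt.trn_top (hc : Ob c) (H : Pt c η y) : Trn c η (top c η) (top c η) y y := by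
  have := (hc.lev η).one _ _ H
  rwa [tgt_top] at this

theorem act_id (hc : Ob c) : Act (idA c) η y z ↔ y = z ∧ Pt c η y := by
  simp only [Act, src_idA, tgt_idA, resA_idA, Ap_idA]
  constructor
  · rintro ⟨w, h1, rfl, -⟩
    have h2 : Pt c η y := ((hc.lev η).tr _ _ _ _ h1).1
    exact ⟨(hc.lev η).fn _ _ _ _ _ (h2.trn_top hc) h1, h2⟩
  · rintro ⟨rfl, h⟩
    exact ⟨y, h.trn_top hc, rfl, h⟩

theorem Act.cmp (hg : Arr g) (hf : Arr f) (e : src g = tgt f) (h1 : Act f η y z)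
    (h2 : Act g η z w) : Act (cmp g f) η y w := by
  obtain ⟨y1, a1, a2⟩ := h1
  obtain ⟨z1, b1, b2⟩ := h2
  have C := hf.src.lev η
  have h3 := (C.tr _ _ _ _ a1).2.2.2
  obtain ⟨u, h4⟩ := C.tot _ _ y1 h3 (hg.resA_mem η) (by simp [e])
  have h5 := C.mul _ _ _ _ _ _ a1 h4
  rw [hf.cmp_top, ← hf.top_cmp] at h4
  have h6 := (hf.lev η).nat _ _ _ _ _ _ a2 h4 (e ▸ b1)
  rw [← e, hg.cmp_top] at h6
  refine ⟨u, by simpa [resA_cmp] using h5, Ap_cmp.2 ⟨z1, by simpa using b2, ?_⟩⟩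
  rwa [tgt_cmp, hg.top_cmp]

theorem act_cmp (hg : Arr g) (hf : Arr f) (e : src g = tgt f) :
    Act (cmp g f) η y w ↔ ∃ z, Act f η y z ∧ Act g η z w := by
  refine ⟨fun H => ?_, fun ⟨_, h1, h2⟩ => h1.cmp hg hf e h2⟩
  have h0 := (H.pt (hg.cmp hf e)).1
  rw [src_cmp] at h0
  obtain ⟨z, h1⟩ := h0.act hf
  obtain ⟨w', h2⟩ := Pt.act hg (e ▸ (h1.pt hf).2)
  exact ⟨z, h1, (h1.cmp hg hf e h2).fn (hg.cmp hf e) H ▸ h2⟩

theorem im_id (_hc : Ob c) : Im (idA c) η z ↔ Pt c η z := by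
  simp only [Im, tgt_idA, Ap_idA]
  exact ⟨fun ⟨_, e, h⟩ => e ▸ h, fun h => ⟨z, rfl, h⟩⟩

theorem Im.pt (hk : Arr k) (H : Im k η z) : Pt (tgt k) η z :=
  H.elim fun _ h => ((hk.lev η).ap _ _ _ h).2

theorem im_act (hl : Arr l) (hk : Arr k) (e : src l = tgt k) (H : Act l η y z) :
    Im (cmp l k) η z ↔ Im k η y := by
  obtain ⟨w, h1, h2⟩ := H
  simp only [Im, Ap_cmp, tgt_cmp, hl.top_cmp]
  rw [e] at h1
  constructor
  · rintro ⟨u, w', h3, h4⟩
    obtain rfl := (hl.lev η).inj _ _ _ _ h2 h3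
    exact (hk.lev η).car _ _ _ _ _ h1 (by rwa [← e, hl.cmp_top])
  · rintro ⟨u, h3⟩
    obtain ⟨u', h4⟩ := (hk.src.lev η).tot _ _ u ((hk.lev η).ap _ _ _ h3).1 (hl.resA_mem η)
      (by simp [e])
    have := (hk.lev η).nat _ _ _ _ _ _ h3 h4 h1
    rw [← e, hl.cmp_top] at this
    exact ⟨u', w, h2, this⟩

theorem mem_tc_of_Ap (H : Ap l η k y z) : z ∈ tc l :=
  (mem_tc_of_tp (snd_subset (tc_trans l) (snd_subset (tc_trans l) (subset_tc l)) H)).2.2.2.2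

theorem mem_actS {u : V} :
    u ∈ actS l q ↔ ∃ ζ y z, u = pair (Ordinal.toZFSet ζ) z ∧ At q ζ y ∧ Act l ζ y z := by
  rw [actS, mem_sep]
  refine and_iff_right_of_imp ?_
  rintro ⟨ζ, y, z, rfl, h1, w, -, h2⟩
  exact pair_mem_prod.2 ⟨mem_dom.2 ⟨y, h1⟩, mem_tc_of_Ap h2⟩

theorem At_actS : At (actS l q) ζ z ↔ ∃ y, At q ζ y ∧ Act l ζ y z := by
  rw [At, mem_actS]
  constructor
  · rintro ⟨ζ', y, z', e, h⟩
    obtain ⟨e1, rfl⟩ := pair_inj.1 e
    obtain rfl := Ordinal.toZFSet_injective e1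
    exact ⟨y, h⟩
  · rintro ⟨y, h⟩
    exact ⟨ζ, y, z, rfl, h⟩

theorem Sec.at (H : Sec e η q) (h' : At q ζ y) : QD η ζ ∧ Pt e ζ y := by
  obtain ⟨ζ', y', e, h⟩ := H.shp _ h'
  obtain ⟨e1, rfl⟩ := pair_inj.1 e
  obtain rfl := Ordinal.toZFSet_injective e1
  exact h

theorem Sec.ext {q' e' : V} (H : Sec e η q) (H' : Sec e' η q')
    (h' : ∀ ζ y, At q ζ y → At q' ζ y) : q = q' := by
  ext u
  constructor
  · intro hu
    obtain ⟨ζ, y, rfl, -⟩ := H.shp u hu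
    exact h' ζ y hu
  · intro hu
    obtain ⟨ζ, y, rfl, h1, -⟩ := H'.shp u hu
    obtain ⟨y', h2⟩ := H.tot ζ h1
    exact H'.fn ζ _ _ (h' ζ y' h2) hu ▸ h2

theorem Sec_res (H : η ≤ γ) : Sec (res γ e) η q ↔ Sec e η q :=
  ⟨fun h => ⟨fun u hu => (h.shp u hu).imp fun _ => Exists.imp fun _ h' =>
      ⟨h'.1, h'.2.1, (Pt_res (h'.2.1.1.trans_le H)).1 h'.2.2⟩, h.tot, h.fn⟩,
    fun h => ⟨fun u hu => (h.shp u hu).imp fun _ => Exists.imp fun _ h' =>
      ⟨h'.1, h'.2.1, (Pt_res (h'.2.1.1.trans_le H)).2 h'.2.2⟩, h.tot, h.fn⟩⟩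

theorem actS_congr {l' : V} (H : ∀ ζ y z, At q ζ y → (Act l ζ y z ↔ Act l' ζ y z)) :
    actS l q = actS l' q := by
  ext u
  simp only [mem_actS]
  exact exists₃_congr fun ζ y z => and_congr_right fun _ => and_congr_right (H ζ y z)

theorem Sec.actS_resA (H : Sec e η q) (h' : η ≤ γ) : actS (resA γ l) q = actS l q :=
  actS_congr fun _ _ _ h => Act_resA ((H.at h).1.1.trans_le h')

theorem Sec.act (hl : Arr l) (H : Sec (src l) η q) : Sec (tgt l) η (actS l q) := by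
  refine ⟨fun u hu => ?_, fun ζ hζ => ?_, fun ζ z z' h1 h2 => ?_⟩
  · obtain ⟨ζ, y, z, rfl, h1, h2⟩ := mem_actS.1 hu
    exact ⟨ζ, z, rfl, (H.at h1).1, (h2.pt hl).2⟩
  · obtain ⟨y, h1⟩ := H.tot ζ hζ
    obtain ⟨z, h2⟩ := (H.at h1).2.act hl
    exact ⟨z, At_actS.2 ⟨y, h1, h2⟩⟩
  · obtain ⟨y, h3, h4⟩ := At_actS.1 h1
    obtain ⟨y', h5, h6⟩ := At_actS.1 h2
    obtain rfl := H.fn _ _ _ h3 h5
    exact h4.fn hl h6

theorem Sec.actS_id (hc : Ob e) (H : Sec e η q) : actS (idA e) q = q :=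
  (Sec.act hc.idA (by simpa using H)).ext H fun ζ z h => by
    obtain ⟨y, h1, h2⟩ := At_actS.1 h
    exact ((act_id hc).1 h2).1 ▸ h1

theorem actS_cmp (hg : Arr g) (hf : Arr f) (e : src g = tgt f) :
    actS (cmp g f) q = actS g (actS f q) := by
  ext u
  simp only [mem_actS, At_actS, act_cmp hg hf e]
  constructor
  · rintro ⟨ζ, y, w, h1, h2, z, h3, h4⟩
    exact ⟨ζ, z, w, h1, ⟨y, h2, h3⟩, h4⟩
  · rintro ⟨ζ, z, w, h1, ⟨y, h2, h3⟩, h4⟩
    exact ⟨ζ, y, w, h1, h2, z, h3, h4⟩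

theorem Sec.actS_inj {q' : V} (hl : Arr l) (H : Sec (src l) η q) (H' : Sec (src l) η q')
    (e : actS l q = actS l q') : q = q' :=
  H.ext H' fun ζ y h => by
    obtain ⟨z, h1⟩ := (H.at h).2.act hl
    obtain ⟨y', h2, h3⟩ := At_actS.1 (e ▸ At_actS.2 ⟨y, h, h1⟩)
    exact h3.inj hl h1 ▸ h2

theorem rank_tgt_le (k : V) : rank (tgt k) ≤ rank k := (rank_fst_le _).trans (rank_snd_le _)

theorem rank_opair (a b : V) : rank (pair a b) = succ (succ (max (rank a) (rank b))) := by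
  simp only [ZFSet.pair, rank_insert, rank_singleton, Order.succ_max]
  exact max_eq_right (le_max_left _ _)

theorem Sec.lab (hk : k ∈ M η) (H : Sec (tgt k) η q) : q ∈ Lab (M η) η := by
  have h1 : pair η.toZFSet (tgt k) ∈ Lab (M η) η :=
    Lab.pair (Lab.ord le_rfl) (Lab.of_rank_le (Lab.of_mem hk) (rank_tgt_le k))
  refine Lab.of_rank_le h1 (rank_le_iff.2 fun u hu => ?_)
  obtain ⟨ζ, y, rfl, h2, h3⟩ := H.shp u hu
  have h4 := rank_lt_of_mem_tc _ (mem_tc_of_tp (subset_tc _ h3)).2.2.2.1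
  simp only [rank_opair, Ordinal.rank_toZFSet, succ_lt_succ_iff]
  exact max_lt (lt_max_of_lt_left h2.1) (lt_max_of_lt_right h4)

theorem Sec.fam_resA (H : Sec e η q) (h' : η ≤ γ) : Fam (resA γ k) q ↔ Fam k q :=
  exists₂_congr fun _ _ => and_congr_right fun _ => forall₂_congr fun _ _ =>
    imp_congr_right fun _ => imp_congr_right fun h => Im_resA ((H.at h).1.1.trans_le h')

theorem Sec.fam_act (hl : Arr l) (hk : Arr k) (e : src l = tgt k) (H : Sec (tgt k) η q) :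
    Fam (cmp l k) (actS l q) ↔ Fam k q := by
  constructor
  · rintro ⟨ζ₀, z₀, h1, h2⟩
    obtain ⟨y₀, h3, -⟩ := At_actS.1 h1
    refine ⟨ζ₀, y₀, h3, fun ζ y h4 h5 => ?_⟩
    obtain ⟨z, h6⟩ := Pt.act hl (e ▸ (H.at h5).2)
    exact (im_act hl hk e h6).1 (h2 ζ z h4 (At_actS.2 ⟨y, h5, h6⟩))
  · rintro ⟨ζ₀, y₀, h1, h2⟩
    obtain ⟨z₀, h3⟩ := Pt.act hl (e ▸ (H.at h1).2)
    refine ⟨ζ₀, z₀, At_actS.2 ⟨y₀, h1, h3⟩, fun ζ z h4 h5 => ?_⟩
    obtain ⟨y, h6, h7⟩ := At_actS.1 h5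
    exact (im_act hl hk e h7).2 (h2 ζ y h4 h6)

theorem not_lam_succ (ζ : O) : ¬ IsSuccLimit (ζ + 1) := fun h => not_isSuccLimit_succ ζ h

/-- The domain of the sections is cofinal. -/
theorem exists_QD (H : ζ < η) : ∃ ξ, ζ ≤ ξ ∧ QD η ξ := by
  rcases (add_one_le_of_lt H).eq_or_lt with h | h
  · exact ⟨ζ, le_rfl, H, .inr h.symm⟩
  · exact ⟨ζ + 1, le_self_add, h, .inl (not_lam_succ ζ)⟩

theorem Sec.fam_id (hc : Ob e) (H : Sec e η q) (h0 : 0 < η) : Fam (idA e) q := by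
  obtain ⟨ξ, -, h1⟩ := exists_QD h0
  obtain ⟨y, h2⟩ := H.tot ξ h1
  exact ⟨ξ, y, h2, fun ζ z _ h => (im_id hc).2 (H.at h).2⟩

/-- Membership in the family can be tested above any level below `η`. -/
theorem Sec.fam_iff (H : Sec e η q) (h' : γ < η) :
    Fam k q ↔ ∃ ζ₀, γ ≤ ζ₀ ∧ ζ₀ < η ∧ ∀ ζ y, ζ₀ ≤ ζ → At q ζ y → Im k ζ y := by
  constructor
  · rintro ⟨ζ₀, y₀, h1, h2⟩
    exact ⟨max γ ζ₀, le_max_left _ _, max_lt h' (H.at h1).1.1, fun ζ y h3 =>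
      h2 ζ y ((le_max_right _ _).trans h3)⟩
  · rintro ⟨ζ₀, -, h1, h2⟩
    obtain ⟨ξ, h3, h4⟩ := exists_QD h1
    obtain ⟨y, h5⟩ := H.tot ξ h4
    exact ⟨ξ, y, h5, fun ζ z h6 => h2 ζ z (h3.trans h6)⟩

theorem Sec.not_fam_zero (H : Sec e 0 q) : ¬ Fam k q := fun ⟨_, _, h, _⟩ =>
  not_lt_zero (H.at h).1.1

/-- Bits at the current stage are absolute. -/
theorem bit_act (hl : Arr l) (H : Act l η y z) (hq : Sec (src l) η q) :
    Bit (src l) η (top (src l) η) y q ↔ Bit (tgt l) η (top (tgt l) η) z (actS l q) := by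
  rcases eq_zero_or_pos η with rfl | h0
  · exact iff_of_false (fun h => hq.not_fam_zero ((hl.src.lev 0).bit _ _ _ h).2.2)
      fun h => (hq.act hl).not_fam_zero ((hl.tgt.lev 0).bit _ _ _ h).2.2
  obtain ⟨w, h1, h2⟩ := H
  have hq' : Sec (tgt (top (src l) η)) η q := by rw [tgt_top]; exact (Sec_res le_rfl).2 hq
  have h3 := (hl.src.lev η).dec _ _ _ _ q h1 hq'
  have h4 := (Sec.fam_act (hl.resA η) (arr_of_mem (hl.src.top_mem η)) (by simp) hq').2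
    (((Sec_res le_rfl).2 hq).fam_id (hl.src.res η) h0)
  rw [hl.cmp_top, hq.actS_resA le_rfl] at h3 h4
  have h5 := (hl.lev η).bit _ _ _ (actS l q) h2 (by rwa [hl.top_cmp])
  rw [hl.top_cmp] at h5
  exact h3.trans h5

end Pool.Agent.Lib.MP_095a31_lc
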