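import Pool.Agent.Lib.MP_095a31_lc.H91Pts

/-!
Names and forcing over the category of towers: definitions.
-/

open ZFSet Order

namespace Pool.Agent.Lib.MP_095a31_lc

open MP_329f2d_lc

/-- A name of level `γ`: an arrow `n` from its base, and a set of entries. -/
noncomputable def nm (γ : O) (n y : V) : V := pair γ.toZFSet (pair n y)

/-- The level of a name. -/
noncomputable def lev (t : V) : O := rank (fst t)

/-- The arrow of a name. -/
noncomputable def arw (t : V) : V := fst (snd t)

/-- The entries of a name. -/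
noncomputable def ents (t : V) : V := snd (snd t)

/-- The name `t` lives at the stage `c`. -/
def Ty (c t : V) : Prop := arw t ∈ M (lev t) ∧ tgt (arw t) = res (lev t) c

open Classical in
/-- Transport of names along arrows. -/
noncomputable def push (f t : V) : V :=
  if Ty (src f) t then nm (lev t) (cmp (resA (lev t) f) (arw t)) (ents t) else nm 0 k0 ∅

/-- `z` is a basic element of `t` at the current stage. -/
def Ac (t z : V) : Prop :=
  ∃ k t' l, pair k t' ∈ ents t ∧ l ∈ M (lev t) ∧ src l = tgt k ∧ arw t = cmp l k ∧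
    lev t' ≤ lev t ∧ z = push l t'

/-- One step of the definition of forced equality; `C` is the class of arrows. -/
def EStep (C : Set V) (X : V → V → V → Prop) (c x x' : V) : Prop :=
  (∀ f ∈ C, src f = c → ∀ y, Ac (push f x) y → ∃ g ∈ C, src g = tgt f ∧
    ∃ z, Ac (push (cmp g f) x') z ∧ X (tgt g) (push g y) z) ∧
  (∀ f ∈ C, src f = c → ∀ z, Ac (push f x') z → ∃ g ∈ C, src g = tgt f ∧
    ∃ y, Ac (push (cmp g f) x) y ∧ X (tgt g) y (push g z))

/-- Auxiliary recursion. -/
def Eq0 (C : Set V) : V → V → V → Prop :=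
  (InvImage.wf (fun x => rank (ents x)) Ordinal.lt_wf).fix (C := fun _ => V → V → Prop)
    fun x ih c x' =>
      EStep C (fun d y z => ∃ h : rank (ents y) < rank (ents x), ih y h d z) c x x'

/-- The stage `c` forces `x = x'`. -/
def Eqf (C : Set V) (c x x' : V) : Prop := Eq0 C x c x'

/-- The stage `c` forces `y ∈ x`. -/
def Mef (C : Set V) (c y x : V) : Prop :=
  ∀ f ∈ C, src f = c → ∃ g ∈ C, src g = tgt f ∧
    ∃ z, Ac (push (cmp g f) x) z ∧ Eqf C (tgt g) (push (cmp g f) y) z

/-- Transport of assignments. -/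
noncomputable def pushv (f : V) (v : ℕ → V) : ℕ → V := fun i => push f (v i)

/-- Forcing with arrows from `C` and witnesses from `K`. -/
def Fo (C K : Set V) : Fml → V → (ℕ → V) → Prop
  | .mem i j, c, v => Mef C c (v i) (v j)
  | .eq i j, c, v => Eqf C c (v i) (v j)
  | .pred _, _, _ => False
  | .neg φ, c, v => ∀ f ∈ C, src f = c → ¬ Fo C K φ (tgt f) (pushv f v)
  | .and φ ψ, c, v => Fo C K φ c v ∧ Fo C K ψ c v
  | .ex φ, c, v => ∀ f ∈ C, src f = c → ∃ g ∈ C, src g = tgt f ∧ ∃ z ∈ K, Ty (tgt g) z ∧
      Fo C K φ (tgt g) (cons z (pushv (cmp g f) v))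

/-- The class of all arrows. -/
def AA : Set V := {k | Arr k}

/-- Check names. -/
noncomputable def ck : V → V :=
  mem_wf.fix fun x ih => nm 0 k0 (range fun y : x => pair k0 (ih y.1 y.2))

/-- The name at the stage `c` with the entries `S`. -/
noncomputable def mkN (γ : O) (c S : V) : V := nm γ (idA (res γ c)) S

/-- Unordered pairs. -/
noncomputable def upN (γ : O) (c a b : V) : V :=
  mkN γ c {pair (idA (res γ c)) a, pair (idA (res γ c)) b}

/-- Ordered pairs. -/
noncomputable def opN (γ : O) (c a b : V) : V := upN γ c (upN γ c a a) (upN γ c a b)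

/-- One step in the hierarchy of names. -/
noncomputable def Ast (β : O) (S : V) : V :=
  ZFSet.sep (fun t => ∃ γ ≤ β + 2, ∃ n y, t = nm γ n y ∧ n ∈ M γ ∧ y ⊆ prod (M γ) S)
    (prod (β + 3).toZFSet (prod (M (β + 2)) (powerset (prod (M (β + 2)) S))))

/-- The hierarchy of names. -/
noncomputable def AN : O → V :=
  Ordinal.lt_wf.fix fun α ih => ZFSet.iUnion fun β : Set.Iio α => Ast β.1 (ih β.1 β.2)

/-- The name of the set of all members of `AN α`. -/
noncomputable def vN (α : O) (c : V) : V := mkN (α + 1) c (prod (M (α + 1)) (AN α))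

end Pool.Agent.Lib.MP_095a31_lc
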