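import Pool.Agent.Lib.MP_095a31_lc.H91Glue

/-!
Consequences of gluing: lifting, amalgamation, separation of points, new points.
-/

open ZFSet Order

namespace Pool.Agent.Lib.MP_095a31_lc

open MP_329f2d_lc

section Tools

variable {η ζ h : O} {S c c' d e f f' k l q y z : V}

theorem pts_lev_congr (H : res (η + 1) c = res (η + 1) c') {t : ℕ} :
    tp η t k l y z ∈ c ↔ tp η t k l y z ∈ c' := by
  have h1 : tp η t k l y z ∈ res (η + 1) c ↔ tp η t k l y z ∈ res (η + 1) c' := by rw [H]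
  simpa only [tp_mem_res, lt_add_one, and_true] using h1

theorem pts_res_congr (H : res (η + 1) c = res (η + 1) c') : res η c = res η c' := by
  rw [← res_res_le (c := c) (lt_add_one η).le, H, res_res_le (lt_add_one η).le]

theorem ObLev.pts_congr (H : res (η + 1) c = res (η + 1) c') (h : ObLev S η c) :
    ObLev S η c' := by
  have hE : ∀ k y, El c' η k y ↔ El c η k y := fun _ _ => (pts_lev_congr H).symm
  have hT : ∀ k l y z, Trn c' η k l y z ↔ Trn c η k l y z := fun _ _ _ _ => (pts_lev_congr H).symm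
  have hB : ∀ k y q, Bit c' η k y q ↔ Bit c η k y q := fun _ _ _ => (pts_lev_congr H).symm
  have hr := (pts_res_congr H).symm
  constructor
  · simpa only [hE, hr] using h.el
  · simpa only [hE, hT] using h.tr
  · simpa only [hE, hT] using h.tot
  · simpa only [hT] using h.fn
  · simpa only [hT] using h.inj
  · simpa only [hE, hT] using h.one
  · simpa only [hT] using h.mul
  · simpa only [hE, hB] using h.bit
  · simpa only [hT, hB] using h.dec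
  · simpa only [hE] using h.fin

theorem ArLev.pts_congr (H : resA (η + 1) f = resA (η + 1) f') (h : ArLev S η f) :
    ArLev S η f' := by
  obtain ⟨H1, H2, H3⟩ := ar_inj.1 H
  have hE : ∀ k y, El (src f') η k y ↔ El (src f) η k y := fun _ _ => (pts_lev_congr H1).symm
  have hT : ∀ k l y z, Trn (src f') η k l y z ↔ Trn (src f) η k l y z :=
    fun _ _ _ _ => (pts_lev_congr H1).symm
  have hB : ∀ k y q, Bit (src f') η k y q ↔ Bit (src f) η k y q :=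
    fun _ _ _ => (pts_lev_congr H1).symm
  have hE' : ∀ k y, El (tgt f') η k y ↔ El (tgt f) η k y := fun _ _ => (pts_lev_congr H2).symm
  have hT' : ∀ k l y z, Trn (tgt f') η k l y z ↔ Trn (tgt f) η k l y z :=
    fun _ _ _ _ => (pts_lev_congr H2).symm
  have hB' : ∀ k y q, Bit (tgt f') η k y q ↔ Bit (tgt f) η k y q :=
    fun _ _ _ => (pts_lev_congr H2).symm
  have hA : ∀ l y z, Ap f' η l y z ↔ Ap f η l y z := fun _ _ _ => (pts_lev_congr H3).symm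
  have hr := (pts_res_congr H2).symm
  have hR : resA η f' = resA η f := by
    rw [← resA_resA_le (k := f') (lt_add_one η).le, ← H, resA_resA_le (lt_add_one η).le]
  constructor
  · simpa only [hE, hE', hA, hR] using h.ap
  · simpa only [hE, hA, hR, hr] using h.tot
  · simpa only [hA] using h.fn
  · simpa only [hA] using h.inj
  · simpa only [hT, hT', hA, hR] using h.nat
  · simpa only [hT', hA] using h.car
  · simpa only [hB, hB', hA, hR] using h.bit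
  · simpa only [hA] using h.zero

theorem pts_obLev_vac (H : ∀ t k l y z, tp η t k l y z ∉ c) : ObLev S η c where
  el _ _ h := (H _ _ _ _ _ h).elim
  tr _ _ _ _ h := (H _ _ _ _ _ h).elim
  tot _ _ _ h := (H _ _ _ _ _ h).elim
  fn _ _ _ _ _ h := (H _ _ _ _ _ h).elim
  inj _ _ _ _ _ h := (H _ _ _ _ _ h).elim
  one _ _ h := (H _ _ _ _ _ h).elim
  mul _ _ _ _ _ _ h := (H _ _ _ _ _ h).elim
  bit _ _ _ h := (H _ _ _ _ _ h).elim
  dec _ _ _ _ _ h := (H _ _ _ _ _ h).elim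
  fin _ := ⟨0, fun _ _ h => (H _ _ _ _ _ h).elim⟩

theorem pts_arLev_vac (H : ∀ l y z, ¬ Ap f η l y z) (H' : ∀ k y, ¬ El (src f) η k y) :
    ArLev S η f where
  ap _ _ _ h := (H _ _ _ h).elim
  tot _ _ _ _ h := (H' _ _ h).elim
  fn _ _ _ _ h := (H _ _ _ h).elim
  inj _ _ _ _ h := (H _ _ _ h).elim
  nat _ _ _ _ _ _ h := (H _ _ _ h).elim
  car _ _ _ _ _ _ h := (H _ _ _ h).elim
  bit _ _ _ _ h := (H _ _ _ h).elim
  zero _ _ _ _ h := (H _ _ _ h).elim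

theorem pts_res_tgt (hk : k ∈ M η) : res η (tgt k) = tgt k := by
  rw [← tgt_resA, resA_of_mem hk]

theorem pts_res_src (hk : k ∈ M η) : res η (src k) = src k := by
  rw [← src_resA, resA_of_mem hk]

theorem pts_res_bod (hk : k ∈ M η) : res η (bod k) = bod k := by
  rw [← bod_resA, resA_of_mem hk]

theorem pts_idA_tgt (hk : k ∈ M η) : idA (tgt k) ∈ M η := by
  have := (arr_of_mem hk).tgt.top_mem η
  rwa [top, pts_res_tgt hk] at this

theorem pts_idA_empty : idA ∅ = k0 := by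
  have := ob_empty.top_mem 0
  rwa [top, res_zero, mem_M_zero] at this

theorem pts_src_k0 : src k0 = ∅ := src_ar _ _ _
theorem pts_tgt_k0 : tgt k0 = ∅ := tgt_ar _ _ _

theorem Ob.pts_el0 (hc : Ob c) (H : El c 0 k y) : k = k0 := mem_M_zero.1 ((hc.lev 0).el _ _ H).1

theorem Ob.pts_tr0 (hc : Ob c) :
    Trn c 0 k l y z ↔ k = k0 ∧ l = k0 ∧ y = z ∧ El c 0 k0 y := by
  constructor
  · intro H
    obtain ⟨h1, h2, -, -⟩ := (hc.lev 0).tr _ _ _ _ H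
    obtain rfl := hc.pts_el0 h1
    obtain rfl := mem_M_zero.1 h2
    have h3 := (hc.lev 0).one _ _ h1
    rw [pts_tgt_k0, pts_idA_empty] at h3
    exact ⟨rfl, rfl, (hc.lev 0).fn _ _ _ _ _ h3 H, h1⟩
  · rintro ⟨rfl, rfl, rfl, h1⟩
    have h3 := (hc.lev 0).one _ _ h1
    rwa [pts_tgt_k0, pts_idA_empty] at h3

theorem Ob.pts_bit0 (hc : Ob c) : ¬ Bit c 0 k y q := fun H => by
  obtain ⟨-, h1, ζ, y0, h2, -⟩ := (hc.lev 0).bit _ _ _ H
  exact absurd (h1.at h2).1.1 (by simp)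

theorem pts_not_ap_bang : ¬ Ap (ar ∅ c ∅) η l y z := by
  rw [Ap, bod_ar]
  exact notMem_empty _

theorem pts_lam_pos (H : Lm η) : 0 < η := H.1.pos

theorem pts_lam_succ (H : Lm η) (h' : ζ < η) : ζ + 1 < η := H.1.add_one_lt h'

/-- Composites out of the empty object agree. -/
theorem pts_cmp_bang {γ : O} {k₁ k₂ : V} (ht : tgt k₁ = tgt k₂) :
    cmp k₁ (resA γ (ar ∅ c ∅)) = cmp k₂ (resA γ (ar ∅ d ∅)) := by
  refine Shape.ext shape_cmp shape_cmp (by simp) (by simpa using ht) fun η l y z => ?_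
  simp only [Ap_cmp, Ap_resA, pts_not_ap_bang, false_and, and_false, exists_false]

/-- Inclusions at level zero. -/
theorem pts_inc {a b : V} (ha : Ob a) (hb : Ob b) (ea : res 1 a = a) (eb : res 1 b = b)
    (H : ∀ y, El a 0 k0 y → El b 0 k0 y) : ar a b (bod (idA a)) ∈ M 1 := by
  have hA : ∀ η l y z, Ap (ar a b (bod (idA a))) η l y z ↔ y = z ∧ El a η l y := by
    intro η l y z
    rw [← Ap_idA, Ap, Ap, bod_ar]
  refine mem_M_iff.2 ⟨arr_of ⟨by simp, ?_⟩ (by simpa using ha) (by simpa using hb) fun η => ?_, ?_⟩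
  · intro u hu
    rw [bod_ar, mem_bod_idA] at hu
    obtain ⟨η, l, y, rfl, -⟩ := hu
    exact ⟨_, _, _, _, rfl⟩
  · by_cases h0 : η = 0
    · subst h0
      constructor
      · intro l y z h
        obtain ⟨rfl, h1⟩ := (hA _ _ _ _).1 h
        obtain rfl := ha.pts_el0 h1
        simpa using ⟨h1, H _ h1⟩
      · intro l y hl _ h
        obtain rfl := mem_M_zero.1 hl
        exact ⟨y, (hA _ _ _ _).2 ⟨rfl, by simpa using h⟩⟩
      · intro l y z z' h h'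
        exact ((hA _ _ _ _).1 h).1.symm.trans ((hA _ _ _ _).1 h').1
      · intro l y y' z h h'
        exact ((hA _ _ _ _).1 h).1.trans ((hA _ _ _ _).1 h').1.symm
      · intro l l' y z y' z' h h1 h2
        obtain ⟨rfl, h3⟩ := (hA _ _ _ _).1 h
        rw [src_ar] at h1
        rw [tgt_ar] at h2
        obtain ⟨-, rfl, rfl, -⟩ := ha.pts_tr0.1 h1
        obtain ⟨rfl, -, rfl, -⟩ := hb.pts_tr0.1 h2
        exact (hA _ _ _ _).2 ⟨rfl, by simpa using h3⟩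
      · intro l l' z y' z' h1 h
        rw [tgt_ar] at h1
        obtain ⟨rfl, rfl, rfl, -⟩ := hb.pts_tr0.1 h1
        exact ⟨y', by simpa using h⟩
      · intro l y z q _ _
        rw [src_ar, tgt_ar]
        exact iff_of_false ha.pts_bit0 hb.pts_bit0
      · intro _ l y z h
        exact ((hA _ _ _ _).1 h).1
    · have hn : ∀ k y, ¬ El a η k y := fun k y h => by
        rw [← ea, El_res, Order.lt_one_iff] at h
        exact h0 h.2
      exact pts_arLev_vac (fun l y z h => hn _ _ ((hA _ _ _ _).1 h).2) (by simpa using hn)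
  · rw [resA, src_ar, tgt_ar, bod_ar, ea, eb, ← bod_resA, resA_idA, ea]

theorem pts_ob_union0 (hc : Ob c) (hd : Ob d) : Ob (res 1 c ∪ res 1 d) := by
  have hm : ∀ η t k l y z, tp η t k l y z ∈ res 1 c ∪ res 1 d ↔
      η = 0 ∧ (tp η t k l y z ∈ c ∨ tp η t k l y z ∈ d) := by
    intro η t k l y z
    simp only [mem_union, tp_mem_res, Order.lt_one_iff]
    tauto
  have hE : ∀ k y, El (res 1 c ∪ res 1 d) 0 k y ↔ k = k0 ∧ (El c 0 k0 y ∨ El d 0 k0 y) := by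
    intro k y
    rw [El, hm]
    constructor
    · rintro ⟨-, h | h⟩
      · obtain rfl := hc.pts_el0 h
        exact ⟨rfl, Or.inl h⟩
      · obtain rfl := hd.pts_el0 h
        exact ⟨rfl, Or.inr h⟩
    · rintro ⟨rfl, h⟩
      exact ⟨rfl, h⟩
  have hT : ∀ k l y z, Trn (res 1 c ∪ res 1 d) 0 k l y z ↔
      k = k0 ∧ l = k0 ∧ y = z ∧ (El c 0 k0 y ∨ El d 0 k0 y) := by
    intro k l y z
    rw [Trn, hm]
    have h1 := hc.pts_tr0 (k := k) (l := l) (y := y) (z := z)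
    have h2 := hd.pts_tr0 (k := k) (l := l) (y := y) (z := z)
    rw [Trn] at h1 h2
    rw [h1, h2]
    constructor
    · rintro ⟨-, ⟨a1, a2, a3, a4⟩ | ⟨a1, a2, a3, a4⟩⟩
      · exact ⟨a1, a2, a3, Or.inl a4⟩
      · exact ⟨a1, a2, a3, Or.inr a4⟩
    · rintro ⟨a1, a2, a3, a4 | a4⟩
      · exact ⟨rfl, Or.inl ⟨a1, a2, a3, a4⟩⟩
      · exact ⟨rfl, Or.inr ⟨a1, a2, a3, a4⟩⟩
  have hB : ∀ k y q, ¬ Bit (res 1 c ∪ res 1 d) 0 k y q := by
    intro k y q h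
    rw [Bit, hm] at h
    exact h.2.elim hc.pts_bit0 hd.pts_bit0
  refine ob_of ?_ ?_ fun η => ?_
  · intro u hu
    rcases mem_union.1 hu with h | h
    · exact hc.lab u (mem_res.1 h).1
    · exact hd.lab u (mem_res.1 h).1
  · intro β hβ
    refine ⟨0, pts_lam_pos hβ, fun ζ _ _ hζ k y h => ?_⟩
    exact (hζ.pos).ne' ((hm _ _ _ _ _ _).1 h).1
  · by_cases h0 : η = 0
    · subst h0
      constructor
      · intro k y h
        obtain ⟨rfl, -⟩ := (hE _ _).1 h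
        exact ⟨mem_M_zero.2 rfl, by rw [pts_src_k0, res_zero]⟩
      · intro k l y z h
        obtain ⟨rfl, rfl, rfl, h1⟩ := (hT _ _ _ _).1 h
        exact ⟨(hE _ _).2 ⟨rfl, h1⟩, mem_M_zero.2 rfl, by rw [pts_src_k0, pts_tgt_k0],
          (hE _ _).2 ⟨cmp_k0, h1⟩⟩
      · intro k l y h hl _
        obtain ⟨rfl, h1⟩ := (hE _ _).1 h
        exact ⟨y, (hT _ _ _ _).2 ⟨rfl, mem_M_zero.1 hl, rfl, h1⟩⟩
      · intro k l y z z' h h'
        exact ((hT _ _ _ _).1 h).2.2.1.symm.trans ((hT _ _ _ _).1 h').2.2.1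
      · intro k l y y' z h h'
        exact ((hT _ _ _ _).1 h).2.2.1.trans ((hT _ _ _ _).1 h').2.2.1.symm
      · intro k y h
        obtain ⟨rfl, h1⟩ := (hE _ _).1 h
        exact (hT _ _ _ _).2 ⟨rfl, by rw [pts_tgt_k0, pts_idA_empty], rfl, h1⟩
      · intro k l l' y z w h h'
        obtain ⟨rfl, rfl, rfl, h1⟩ := (hT _ _ _ _).1 h
        obtain ⟨-, rfl, rfl, -⟩ := (hT _ _ _ _).1 h'
        exact (hT _ _ _ _).2 ⟨rfl, cmp_k0, rfl, h1⟩
      · intro k y q h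
        exact (hB _ _ _ h).elim
      · intro k l y z q _ _
        exact iff_of_false (hB _ _ _) (hB _ _ _)
      · intro _
        obtain ⟨n, hn⟩ := (hc.lev 0).fin rfl
        obtain ⟨m, hm'⟩ := (hd.lev 0).fin rfl
        refine ⟨max n m, fun k y h => ?_⟩
        rcases ((hE _ _).1 h).2 with h1 | h1
        · obtain ⟨j, hj, rfl⟩ := mem_nat.1 (hn _ _ h1)
          exact nat_mem_nat.2 (lt_max_of_lt_left hj)
        · obtain ⟨j, hj, rfl⟩ := mem_nat.1 (hm' _ _ h1)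
          exact nat_mem_nat.2 (lt_max_of_lt_right hj)
    · exact pts_obLev_vac fun t k l y z h => h0 ((hm _ _ _ _ _ _).1 h).1

/-- Joint embedding, disjoint above level zero. -/
theorem pts_join (hc : Ob c) (hd : Ob d) : ∃ g₁ g₂, Arr g₁ ∧ Arr g₂ ∧ src g₁ = c ∧ src g₂ = d ∧
    tgt g₁ = tgt g₂ ∧ ∀ η, 1 ≤ η → ∀ l y₁ y₂ z, Ap g₁ η l y₁ z → ¬ Ap g₂ η l y₂ z := by
  have he := pts_ob_union0 hc hd
  have ee : res 1 (res 1 c ∪ res 1 d) = res 1 c ∪ res 1 d := by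
    ext u
    simp only [mem_res, mem_union]
    tauto
  have h1 := pts_inc (hc.res 1) he res_res_self ee fun y h => mem_union.2 (Or.inl h)
  have h2 := pts_inc (hd.res 1) he res_res_self ee fun y h => mem_union.2 (Or.inr h)
  obtain ⟨g₁, g₂, a1, a2, s1, s2, t, -, -, -, H⟩ := glue le_rfl hc.bang hd.bang (by simp) h1 h2
    (by simp) (by simp) (by simp) (pts_cmp_bang (by simp))
    (fun _ _ _ _ _ _ _ h => (pts_not_ap_bang h).elim)
  refine ⟨g₁, g₂, a1, a2, by simpa using s1, by simpa using s2, t, fun η hη l y₁ y₂ z b1 b2 => ?_⟩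
  obtain ⟨y, b3, -⟩ := H η hη l y₁ y₂ z b1 b2
  exact pts_not_ap_bang b3

/-- One point `p` at each level in `D` below `h`. -/
noncomputable def ptsOne (D : O → Prop) (p : V) : O → V :=
  Ordinal.lt_wf.fix fun h ih => ZFSet.sep (fun u => ∃ ζ, ∃ H : ζ < h, D ζ ∧ ∃ k ∈ M ζ,
    src k = ih ζ H ∧ (u = tp ζ 0 k k p p ∨ ∃ l ∈ M ζ, src l = tgt k ∧ u = tp ζ 1 k l p p))
    (⋃₀ img (fun x => Lab (M (rank x)) (rank x)) h.toZFSet)

theorem mem_ptsOne {D : O → Prop} {n : ℕ} {u : V} : u ∈ ptsOne D (nat n) h ↔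
    ∃ ζ, ζ < h ∧ D ζ ∧ ∃ k ∈ M ζ, src k = ptsOne D (nat n) ζ ∧
      (u = tp ζ 0 k k (nat n) (nat n) ∨
        ∃ l ∈ M ζ, src l = tgt k ∧ u = tp ζ 1 k l (nat n) (nat n)) := by
  rw [ptsOne, WellFounded.fix_eq, mem_sep]
  simp only [exists_prop]
  refine and_iff_right_of_imp ?_
  rintro ⟨ζ, hζ, -, k, hk, -, H⟩
  refine mem_sUnion.2 ⟨Lab (M ζ) ζ, mem_img.2 ⟨ζ.toZFSet,
    Ordinal.toZFSet_mem_toZFSet_iff.2 hζ, by simp⟩, ?_⟩
  rcases H with rfl | ⟨l, hl, -, rfl⟩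
  · exact tp_mem_Lab.2 ⟨Lab.of_mem hk, Lab.of_mem hk, Lab.nat _ _ _, Lab.nat _ _ _⟩
  · exact tp_mem_Lab.2 ⟨Lab.of_mem hk, Lab.of_mem hl, Lab.nat _ _ _, Lab.nat _ _ _⟩

theorem res_ptsOne {D : O → Prop} {n : ℕ} (H : ζ ≤ h) :
    res ζ (ptsOne D (nat n) h) = ptsOne D (nat n) ζ := by
  ext u
  rw [mem_res, mem_ptsOne, mem_ptsOne]
  constructor
  · rintro ⟨⟨ξ, -, hD, k, hk, e, H'⟩, hr⟩
    refine ⟨ξ, ?_, hD, k, hk, e, H'⟩
    rcases H' with rfl | ⟨l, -, -, rfl⟩ <;> simpa using hr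
  · rintro ⟨ξ, hξ, hD, k, hk, e, H'⟩
    refine ⟨⟨ξ, hξ.trans_le H, hD, k, hk, e, H'⟩, ?_⟩
    rcases H' with rfl | ⟨l, -, -, rfl⟩ <;> simpa using hξ

theorem El_ptsOne {D : O → Prop} {n : ℕ} : El (ptsOne D (nat n) h) ζ k y ↔
    ζ < h ∧ D ζ ∧ k ∈ M ζ ∧ src k = ptsOne D (nat n) ζ ∧ y = nat n := by
  rw [El, mem_ptsOne]
  constructor
  · rintro ⟨ξ, hξ, hD, k', hk, e, H | ⟨l, -, -, H⟩⟩
    · obtain ⟨rfl, -, rfl, -, rfl, -⟩ := tp_inj.1 H
      exact ⟨hξ, hD, hk, e, rfl⟩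
    · simp at H
  · rintro ⟨hξ, hD, hk, e, rfl⟩
    exact ⟨ζ, hξ, hD, k, hk, e, Or.inl rfl⟩

theorem Trn_ptsOne {D : O → Prop} {n : ℕ} : Trn (ptsOne D (nat n) h) ζ k l y z ↔
    ζ < h ∧ D ζ ∧ k ∈ M ζ ∧ src k = ptsOne D (nat n) ζ ∧ l ∈ M ζ ∧ src l = tgt k ∧
      y = nat n ∧ z = nat n := by
  rw [Trn, mem_ptsOne]
  constructor
  · rintro ⟨ξ, hξ, hD, k', hk, e, H | ⟨l', hl, e', H⟩⟩
    · simp at H
    · obtain ⟨rfl, -, rfl, rfl, rfl, rfl⟩ := tp_inj.1 H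
      exact ⟨hξ, hD, hk, e, hl, e', rfl, rfl⟩
  · rintro ⟨hξ, hD, hk, e, hl, e', rfl, rfl⟩
    exact ⟨ζ, hξ, hD, k, hk, e, Or.inr ⟨l, hl, e', rfl⟩⟩

theorem not_Bit_ptsOne {D : O → Prop} {n : ℕ} : ¬ Bit (ptsOne D (nat n) h) ζ k y q := by
  rw [Bit, mem_ptsOne]
  rintro ⟨ξ, -, -, k', -, -, H | ⟨l', -, -, H⟩⟩ <;> simp at H

theorem ob_ptsOne {D : O → Prop} {n : ℕ}
    (hD : ∀ β, Lm β → ∃ γ < β, ∀ ζ, γ ≤ ζ → ζ < β → IsSuccLimit ζ → ¬ D ζ) :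
    Ob (ptsOne D (nat n) h) := by
  refine ob_of ?_ ?_ fun η => ?_
  · intro u hu
    obtain ⟨ζ, -, -, k, hk, -, rfl | ⟨l, hl, -, rfl⟩⟩ := mem_ptsOne.1 hu
    · rw [rank_fst_tp]
      exact tp_mem_Lab.2 ⟨Lab.of_mem hk, Lab.of_mem hk, Lab.nat _ _ _, Lab.nat _ _ _⟩
    · rw [rank_fst_tp]
      exact tp_mem_Lab.2 ⟨Lab.of_mem hk, Lab.of_mem hl, Lab.nat _ _ _, Lab.nat _ _ _⟩
  · intro β hβ
    obtain ⟨γ, hγ, H⟩ := hD β hβ
    exact ⟨γ, hγ, fun ζ h1 h2 h3 k y h4 => H ζ h1 h2 h3 (El_ptsOne.1 h4).2.1⟩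
  · constructor
    · intro k y H
      obtain ⟨h1, -, h2, h3, -⟩ := El_ptsOne.1 H
      exact ⟨h2, by rw [h3, res_ptsOne h1.le]⟩
    · intro k l y z H
      obtain ⟨h1, h2, h3, h4, h5, h6, rfl, rfl⟩ := Trn_ptsOne.1 H
      exact ⟨El_ptsOne.2 ⟨h1, h2, h3, h4, rfl⟩, h5, h6,
        El_ptsOne.2 ⟨h1, h2, cmp_mem_M h5 h3 h6, by rw [src_cmp, h4], rfl⟩⟩
    · intro k l y H hl e
      obtain ⟨h1, h2, h3, h4, rfl⟩ := El_ptsOne.1 H
      exact ⟨_, Trn_ptsOne.2 ⟨h1, h2, h3, h4, hl, e, rfl, rfl⟩⟩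
    · intro k l y z z' H H'
      exact (Trn_ptsOne.1 H).2.2.2.2.2.2.2.trans (Trn_ptsOne.1 H').2.2.2.2.2.2.2.symm
    · intro k l y y' z H H'
      exact (Trn_ptsOne.1 H).2.2.2.2.2.2.1.trans (Trn_ptsOne.1 H').2.2.2.2.2.2.1.symm
    · intro k y H
      obtain ⟨h1, h2, h3, h4, rfl⟩ := El_ptsOne.1 H
      exact Trn_ptsOne.2 ⟨h1, h2, h3, h4, pts_idA_tgt h3, src_idA, rfl, rfl⟩
    · intro k l l' y z w H H'
      obtain ⟨h1, h2, h3, h4, h5, h6, rfl, rfl⟩ := Trn_ptsOne.1 H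
      obtain ⟨-, -, -, -, h7, h8, -, rfl⟩ := Trn_ptsOne.1 H'
      rw [tgt_cmp] at h8
      exact Trn_ptsOne.2 ⟨h1, h2, h3, h4, cmp_mem_M h7 h5 h8, by rw [src_cmp, h6], rfl, rfl⟩
    · intro k y q H
      exact (not_Bit_ptsOne H).elim
    · intro k l y z q _ _
      exact iff_of_false not_Bit_ptsOne not_Bit_ptsOne
    · intro _
      refine ⟨n + 1, fun k y H => ?_⟩
      obtain ⟨-, -, -, -, rfl⟩ := El_ptsOne.1 H
      exact nat_mem_nat.2 n.lt_succ_self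

theorem pt_ptsOne {D : O → Prop} {n : ℕ} (hc : Ob (ptsOne D (nat n) h)) (h1 : ζ < h) (h2 : D ζ) :
    Pt (ptsOne D (nat n) h) ζ (nat n) :=
  El_ptsOne.2 ⟨h1, h2, hc.top_mem ζ, by rw [src_top, res_ptsOne h1.le], rfl⟩

theorem pts_east_single (ξ : O) {D : O → Prop} (H : ∀ ζ, IsSuccLimit ζ → D ζ → ζ ≤ ξ → ζ = ξ)
    (H' : ∀ ζ, D ζ → ζ ≤ ξ) :
    ∀ β, Lm β → ∃ γ < β, ∀ ζ, γ ≤ ζ → ζ < β → IsSuccLimit ζ → ¬ D ζ := by
  intro β hβ
  by_cases h : ξ < β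
  · exact ⟨ξ + 1, pts_lam_succ hβ h, fun ζ h1 _ _ h4 =>
      absurd (H' ζ h4) (not_le.2 (add_one_le_iff.1 h1))⟩
  · exact ⟨0, pts_lam_pos hβ, fun ζ _ h2 h3 h4 => h (H ζ h3 h4 (H' ζ h4) ▸ h2)⟩

/-- A section that is nowhere in the image. -/
theorem pts_fresh (he : Ob e) (η : O) :
    ∃ k q, k ∈ M η ∧ src k = res η e ∧ Sec (tgt k) η q ∧ ¬ Fam k q := by
  obtain ⟨n, hn⟩ := (he.lev 0).fin rfl
  have hD : ∀ β, Lm β → ∃ γ < β, ∀ ζ, γ ≤ ζ → ζ < β → IsSuccLimit ζ → ¬ QD η ζ := by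
    by_cases h : ∃ ξ, η = ξ + 1
    · obtain ⟨ξ, rfl⟩ := h
      refine pts_east_single ξ (fun ζ h1 h2 _ => ?_) fun ζ h2 => lt_add_one_iff.1 h2.1
      have h3 := h2.2.resolve_left (not_not.2 h1)
      exact le_antisymm (lt_add_one_iff.1 h2.1) (lt_add_one_iff.1 (h3 ▸ lt_add_one ξ))
    · exact fun β hβ => ⟨0, pts_lam_pos hβ, fun ζ _ _ h3 h4 =>
        h ⟨ζ, h4.2.resolve_left (not_not.2 h3)⟩⟩
  have hc : Ob (ptsOne (QD η) (nat n) η) := ob_ptsOne hD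
  obtain ⟨g₁, g₂, a1, a2, s1, s2, t, H⟩ := pts_join he hc
  let q₁ : V := img (fun x => pair x (nat n)) (ZFSet.sep (fun x => QD η (rank x)) η.toZFSet)
  have hq : ∀ u, u ∈ q₁ ↔ ∃ ζ, QD η ζ ∧ u = pair (Ordinal.toZFSet ζ) (nat n) := by
    intro u
    simp only [q₁, mem_img, mem_sep, Ordinal.mem_toZFSet_iff]
    constructor
    · rintro ⟨_, ⟨⟨ζ, -, rfl⟩, h2⟩, rfl⟩
      exact ⟨ζ, by simpa using h2, rfl⟩
    · rintro ⟨ζ, h2, rfl⟩
      exact ⟨_, ⟨⟨ζ, h2.1, rfl⟩, by simpa using h2⟩, rfl⟩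
  have hAt : ∀ ζ y, At q₁ ζ y → y = nat n := by
    intro ζ y h
    obtain ⟨ξ, -, h2⟩ := (hq _).1 h
    exact (pair_inj.1 h2).2
  have hs : Sec (src g₂) η q₁ := by
    rw [s2]
    refine ⟨fun u hu => ?_, fun ζ hζ => ⟨_, (hq _).2 ⟨ζ, hζ, rfl⟩⟩, fun ζ y z h1 h2 => ?_⟩
    · obtain ⟨ζ, h1, rfl⟩ := (hq _).1 hu
      exact ⟨ζ, _, rfl, h1, pt_ptsOne hc h1.1 h1⟩
    · rw [hAt _ _ h1, hAt _ _ h2]
  have hs' := hs.act a2
  refine ⟨resA η g₁, actS g₂ q₁, a1.resA_mem η, by rw [src_resA, s1], ?_, ?_⟩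
  · rw [tgt_resA, Sec_res le_rfl, t]
    exact hs'
  · rw [hs'.fam_resA le_rfl]
    rintro ⟨ζ, y, h1, h2⟩
    obtain ⟨x, h3⟩ := h2 ζ y le_rfl h1
    obtain ⟨y', -, w, h4, h5⟩ := At_actS.1 h1
    rw [t] at h3
    by_cases h0 : ζ = 0
    · subst h0
      obtain rfl := (a1.lev 0).zero rfl _ _ _ h3
      obtain rfl := (a2.lev 0).zero rfl _ _ _ h5
      rw [s2] at h4
      obtain ⟨-, -, -, -, -, -, -, rfl⟩ := Trn_ptsOne.1 h4
      have h6 := ((a1.lev 0).ap _ _ _ h3).1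
      rw [s1] at h6
      exact lt_irrefl n (nat_mem_nat.1 (hn _ _ h6))
    · exact H ζ (Order.one_le_iff_ne_zero.2 h0) _ _ _ _ h3 h5

/-- Reindexing of the level `η` along `k₀`, with one more bit. -/
theorem pts_flip_ob {k₀ q₀ : V} (hη : 0 < η) (he : Ob e) (hk : k₀ ∈ M η) (hs : src k₀ = res η e)
    (hq : Sec (tgt k₀) η q₀) (y : V) : ∃ a, Ob a ∧ res η a = tgt k₀ ∧ res (η + 1) a = a ∧
      (∀ k w, El a η k w ↔ k ∈ M η ∧ src k = tgt k₀ ∧ El e η (cmp k k₀) w) ∧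
      (∀ k l w w', Trn a η k l w w' ↔ k ∈ M η ∧ src k = tgt k₀ ∧ Trn e η (cmp k k₀) l w w') ∧
      ∀ k w q, Bit a η k w q ↔ k ∈ M η ∧ src k = tgt k₀ ∧ (Bit e η (cmp k k₀) w q ∨
        (Trn e η (top e η) (cmp k k₀) y w ∧ q = actS k q₀)) := by
  have hk' := arr_of_mem hk
  have L := he.lev η
  have ct : ∀ k, k ∈ M η → src k = tgt k₀ → cmp (cmp k k₀) (top e η) = cmp k k₀ := by
    intro k h1 h2
    have := ((arr_of_mem h1).cmp hk' h2).cmp_id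
    rwa [src_cmp, hs] at this
  have sa : ∀ k, k ∈ M η → src k = tgt k₀ → Sec (tgt k) η (actS k q₀) :=
    fun k h1 h2 => Sec.act (arr_of_mem h1) (h2 ▸ hq)
  let P : V → Prop := fun u => ∃ k ∈ M η, src k = tgt k₀ ∧
    ((∃ w, El e η (cmp k k₀) w ∧ u = tp η 0 k k w w) ∨
      (∃ l w w', Trn e η (cmp k k₀) l w w' ∧ u = tp η 1 k l w w') ∨
      ∃ w q, (Bit e η (cmp k k₀) w q ∨ (Trn e η (top e η) (cmp k k₀) y w ∧ q = actS k q₀)) ∧
        u = tp η 2 k k w q)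
  have hP : ∀ u, P u → rank (fst u) = η ∧ u ∈ Lab (M η) η := by
    rintro u ⟨k, h1, h2, ⟨w, h3, rfl⟩ | ⟨l, w, w', h3, rfl⟩ | ⟨w, q, h3 | ⟨h3, rfl⟩, rfl⟩⟩
    · exact ⟨by simp, tp_mem_Lab.2 ⟨Lab.of_mem h1, Lab.of_mem h1, h3.lab he, h3.lab he⟩⟩
    · obtain ⟨b1, b2, -, b4⟩ := L.tr _ _ _ _ h3
      exact ⟨by simp, tp_mem_Lab.2 ⟨Lab.of_mem h1, Lab.of_mem b2, b1.lab he, b4.lab he⟩⟩
    · exact ⟨by simp, tp_mem_Lab.2 ⟨Lab.of_mem h1, Lab.of_mem h1,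
        (L.bit _ _ _ h3).1.lab he, h3.lab he⟩⟩
    · exact ⟨by simp, tp_mem_Lab.2 ⟨Lab.of_mem h1, Lab.of_mem h1,
        (L.tr _ _ _ _ h3).2.2.2.lab he, Sec.lab h1 (sa k h1 h2)⟩⟩
  obtain ⟨a, ha⟩ : ∃ a : V, ∀ u, u ∈ a ↔ u ∈ tgt k₀ ∨ P u :=
    ⟨tgt k₀ ∪ ZFSet.sep P (Lab (M η) η), fun u => by
      rw [mem_union, mem_sep, and_iff_right_of_imp fun h => (hP u h).2]⟩
  have hlt : ∀ u ∈ tgt k₀, rank (fst u) < η := fun u hu => by
    rw [← pts_res_tgt hk] at hu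
    exact (mem_res.1 hu).2
  have hr : res η a = tgt k₀ := by
    ext u
    rw [mem_res, ha]
    exact ⟨fun h => h.1.resolve_right fun h' => (hP u h').1.not_lt h.2,
      fun h => ⟨Or.inl h, hlt u h⟩⟩
  have hr' : res (η + 1) a = a := by
    ext u
    rw [mem_res]
    refine and_iff_left_of_imp fun h => lt_add_one_iff.2 ?_
    exact ((ha u).1 h).elim (fun h' => (hlt u h').le) fun h' => (hP u h').1.le
  have hm : ∀ t k l w w', tp η t k l w w' ∈ a ↔ P (tp η t k l w w') := fun t k l w w' => by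
    rw [ha]
    exact or_iff_right fun h => by simpa using hlt _ h
  have hE : ∀ k w, El a η k w ↔ k ∈ M η ∧ src k = tgt k₀ ∧ El e η (cmp k k₀) w := by
    intro k w
    rw [El, hm]
    constructor
    · rintro ⟨k', h1, h2, ⟨w', h3, h4⟩ | ⟨l, w', w'', -, h4⟩ | ⟨w', q, -, h4⟩⟩
      · obtain ⟨-, -, rfl, -, rfl, -⟩ := tp_inj.1 h4
        exact ⟨h1, h2, h3⟩
      · simp at h4
      · simp at h4
    · rintro ⟨h1, h2, h3⟩
      exact ⟨k, h1, h2, Or.inl ⟨w, h3, rfl⟩⟩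
  have hT : ∀ k l w w', Trn a η k l w w' ↔
      k ∈ M η ∧ src k = tgt k₀ ∧ Trn e η (cmp k k₀) l w w' := by
    intro k l w w'
    rw [Trn, hm]
    constructor
    · rintro ⟨k', h1, h2, ⟨v, -, h4⟩ | ⟨l', v, v', h3, h4⟩ | ⟨v, q, -, h4⟩⟩
      · simp at h4
      · obtain ⟨-, -, rfl, rfl, rfl, rfl⟩ := tp_inj.1 h4
        exact ⟨h1, h2, h3⟩
      · simp at h4
    · rintro ⟨h1, h2, h3⟩
      exact ⟨k, h1, h2, Or.inr (Or.inl ⟨l, w, w', h3, rfl⟩)⟩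
  have hB : ∀ k w q, Bit a η k w q ↔ k ∈ M η ∧ src k = tgt k₀ ∧ (Bit e η (cmp k k₀) w q ∨
      (Trn e η (top e η) (cmp k k₀) y w ∧ q = actS k q₀)) := by
    intro k w q
    rw [Bit, hm]
    constructor
    · rintro ⟨k', h1, h2, ⟨v, -, h4⟩ | ⟨l', v, v', -, h4⟩ | ⟨v, q', h3, h4⟩⟩
      · simp at h4
      · simp at h4
      · obtain ⟨-, -, rfl, -, rfl, rfl⟩ := tp_inj.1 h4
        exact ⟨h1, h2, h3⟩
    · rintro ⟨h1, h2, h3⟩
      exact ⟨k, h1, h2, Or.inr (Or.inr ⟨w, q, h3, rfl⟩)⟩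
  refine ⟨a, ob_of ?_ ?_ fun ζ => ?_, hr, hr', hE, hT, hB⟩
  · intro u hu
    rcases (ha u).1 hu with h | h
    · exact hk'.tgt.lab u h
    · rw [(hP u h).1]
      exact (hP u h).2
  · intro β hβ
    obtain ⟨γ, hγ, H⟩ := hk'.tgt.east β hβ
    by_cases h : η < β
    · refine ⟨η + 1, pts_lam_succ hβ h, fun ζ h1 _ _ k w h4 => ?_⟩
      rw [← hr', El_res] at h4
      exact h4.2.not_ge h1
    · refine ⟨γ, hγ, fun ζ h1 h2 h3 k w h4 => H ζ h1 h2 h3 k w ?_⟩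
      rw [← hr, El_res]
      exact ⟨h4, h2.trans_le (not_lt.1 h)⟩
  · rcases lt_trichotomy ζ η with h | rfl | h
    · refine ObLev.pts_congr ?_ (hk'.tgt.lev ζ)
      rw [← hr, res_res_le (add_one_le_iff.2 h)]
    · constructor
      · intro k w h
        obtain ⟨h1, h2, -⟩ := (hE _ _).1 h
        exact ⟨h1, h2.trans hr.symm⟩
      · intro k l w w' h
        obtain ⟨h1, h2, h3⟩ := (hT _ _ _ _).1 h
        obtain ⟨b1, b2, b3, b4⟩ := L.tr _ _ _ _ h3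
        rw [tgt_cmp] at b3
        rw [← cmp_assoc] at b4
        exact ⟨(hE _ _).2 ⟨h1, h2, b1⟩, b2, b3,
          (hE _ _).2 ⟨cmp_mem_M b2 h1 b3, by rw [src_cmp, h2], b4⟩⟩
      · intro k l w h hl e1
        obtain ⟨h1, h2, h3⟩ := (hE _ _).1 h
        obtain ⟨w', h4⟩ := L.tot _ _ _ h3 hl (by rw [tgt_cmp, e1])
        exact ⟨w', (hT _ _ _ _).2 ⟨h1, h2, h4⟩⟩
      · intro k l w z z' h h'
        exact L.fn _ _ _ _ _ ((hT _ _ _ _).1 h).2.2 ((hT _ _ _ _).1 h').2.2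
      · intro k l w w' z h h'
        exact L.inj _ _ _ _ _ ((hT _ _ _ _).1 h).2.2 ((hT _ _ _ _).1 h').2.2
      · intro k w h
        obtain ⟨h1, h2, h3⟩ := (hE _ _).1 h
        have h4 := L.one _ _ h3
        rw [tgt_cmp] at h4
        exact (hT _ _ _ _).2 ⟨h1, h2, h4⟩
      · intro k l l' w z v h h'
        obtain ⟨h1, h2, h3⟩ := (hT _ _ _ _).1 h
        obtain ⟨-, -, h4⟩ := (hT _ _ _ _).1 h'
        rw [cmp_assoc] at h4
        exact (hT _ _ _ _).2 ⟨h1, h2, L.mul _ _ _ _ _ _ h3 h4⟩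
      · intro k w q h
        obtain ⟨h1, h2, h3 | ⟨h3, rfl⟩⟩ := (hB _ _ _).1 h
        · obtain ⟨b1, b2, b3⟩ := L.bit _ _ _ h3
          rw [tgt_cmp] at b2
          exact ⟨(hE _ _).2 ⟨h1, h2, b1⟩, b2, b3.of_cmp⟩
        · have b1 := (L.tr _ _ _ _ h3).2.2.2
          rw [ct k h1 h2] at b1
          refine ⟨(hE _ _).2 ⟨h1, h2, b1⟩, sa k h1 h2, ?_⟩
          have b2 := (Sec.fam_act (arr_of_mem h1) hk'.tgt.idA (by rw [tgt_idA, h2])
            (by rw [tgt_idA]; exact hq)).2 (hq.fam_id hk'.tgt hη)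
          rwa [← h2, (arr_of_mem h1).cmp_id] at b2
      · intro k l w w' q h hq'
        obtain ⟨h1, h2, h3⟩ := (hT _ _ _ _).1 h
        obtain ⟨-, b2, b3, -⟩ := L.tr _ _ _ _ h3
        rw [tgt_cmp] at b3
        have b4 := L.dec _ _ _ _ q h3 (by rw [tgt_cmp]; exact hq')
        have b5 := actS_cmp (q := q₀) (arr_of_mem b2) (arr_of_mem h1) b3
        have h3' := h3
        rw [← ct k h1 h2] at h3'
        rw [hB, hB, cmp_assoc, ← b4, b5]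
        constructor
        · rintro ⟨-, -, h4⟩
          refine ⟨cmp_mem_M b2 h1 b3, by rw [src_cmp, h2], h4.imp_right ?_⟩
          rintro ⟨h5, rfl⟩
          exact ⟨L.mul _ _ _ _ _ _ h5 h3', rfl⟩
        · rintro ⟨-, -, h4⟩
          refine ⟨h1, h2, h4.imp_right ?_⟩
          rintro ⟨h5, h6⟩
          refine ⟨?_, Sec.actS_inj (arr_of_mem b2) (b3 ▸ hq') (b3 ▸ sa k h1 h2) h6⟩
          obtain ⟨v, h7⟩ := L.tot _ (cmp k k₀) _ (L.tr _ _ _ _ h5).1 (cmp_mem_M h1 hk h2)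
            (by rw [src_cmp, tgt_top, hs])
          obtain ⟨v', h8⟩ := L.tot _ l _ (L.tr _ _ _ _ h7).2.2.2 b2 (by simpa using b3)
          obtain rfl := L.fn _ _ _ _ _ (L.mul _ _ _ _ _ _ h7 h8) h5
          obtain rfl := L.inj _ _ _ _ _ h8 h3'
          exact h7
      · intro h0
        exact (hη.ne' h0).elim
    · refine pts_obLev_vac fun t k l w w' h1 => ?_
      rw [← hr', tp_mem_res] at h1
      exact (lt_add_one_iff.1 h1.2).not_gt h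

/-- Separation of two points at the top level. -/
theorem pts_sep_top {y' : V} (hη : 0 < η) (he : Ob e) (hy : Pt e η y) (hy' : Pt e η y')
    (hne : y ≠ y') : ∃ K z z' q, K ∈ M (η + 1) ∧ src K = res (η + 1) e ∧ Act K η y z ∧
      Act K η y' z' ∧ Sec (tgt K) η q ∧ Bit (tgt K) η (top (tgt K) η) z q ∧
      ¬ Bit (tgt K) η (top (tgt K) η) z' q := by
  obtain ⟨k₀, q₀, hk, hs, hq, hF⟩ := pts_fresh he η
  obtain ⟨a, ha, hr, hr', hE, hT, hB⟩ := pts_flip_ob hη he hk hs hq y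
  have hk' := arr_of_mem hk
  have L := he.lev η
  obtain ⟨b, hb⟩ : ∃ b : V, ∀ u, u ∈ b ↔ u ∈ bod k₀ ∨ ∃ l w, El a η l w ∧ u = tp η 3 l l w w := by
    refine ⟨bod k₀ ∪ ZFSet.sep (fun u => ∃ l w, El a η l w ∧ u = tp η 3 l l w w) (bod (idA a)),
      fun u => ?_⟩
    rw [mem_union, mem_sep, and_iff_right_of_imp]
    rintro ⟨l, w, h, rfl⟩
    exact mem_bod_idA.2 ⟨_, _, _, rfl, h⟩
  have hlt : ∀ u ∈ bod k₀, rank (fst u) < η := fun u hu => by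
    rw [← pts_res_bod hk] at hu
    exact (mem_res.1 hu).2
  have hrb : res η b = bod k₀ := by
    ext u
    rw [mem_res, hb]
    refine ⟨fun h => h.1.resolve_right ?_, fun h => ⟨Or.inl h, hlt u h⟩⟩
    rintro ⟨l, w, -, rfl⟩
    simpa using h.2
  have hrb' : res (η + 1) b = b := by
    ext u
    rw [mem_res]
    refine and_iff_left_of_imp fun h => lt_add_one_iff.2 ?_
    rcases (hb u).1 h with h' | ⟨l, w, -, rfl⟩
    · exact (hlt u h').le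
    · simp
  obtain ⟨K, hK⟩ : ∃ K, K = ar (res (η + 1) e) a b := ⟨_, rfl⟩
  have e1 : src K = res (η + 1) e := by rw [hK, src_ar]
  have e2 : tgt K = a := by rw [hK, tgt_ar]
  have e3 : bod K = b := by rw [hK, bod_ar]
  have hR : resA η K = k₀ := by
    rw [resA, e1, e2, e3, res_res_le (lt_add_one η).le, hr, hrb, ← hs]
    exact hk'.shape.1.symm
  have hR' : resA (η + 1) K = K := by
    rw [resA, e1, e2, e3, res_res_self, hr', hrb', hK]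
  have hA : ∀ l w w', Ap K η l w w' ↔ w = w' ∧ El a η l w := by
    intro l w w'
    rw [Ap, e3, hb]
    constructor
    · rintro (h | ⟨l', v, h, h'⟩)
      · simpa using hlt _ h
      · obtain ⟨-, -, rfl, -, rfl, rfl⟩ := tp_inj.1 h'
        exact ⟨rfl, h⟩
    · rintro ⟨rfl, h⟩
      exact Or.inr ⟨l, w, h, rfl⟩
  have hKa : Arr K := by
    refine arr_of ⟨by rw [e1, e2, e3, hK], fun u hu => ?_⟩ (e1 ▸ he.res _) (e2 ▸ ha) fun ζ => ?_
    · rw [e3] at hu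
      rcases (hb u).1 hu with h | ⟨l, w, -, rfl⟩
      · exact hk'.shape.2 u h
      · exact ⟨_, _, _, _, rfl⟩
    · rcases lt_trichotomy ζ η with h | rfl | h
      · refine ArLev.pts_congr ?_ (hk'.lev ζ)
        rw [← hR, resA_resA_le (add_one_le_iff.2 h)]
      · constructor
        · intro l w w' h
          obtain ⟨rfl, h1⟩ := (hA _ _ _).1 h
          rw [e1, e2, hR, El_res]
          exact ⟨⟨((hE _ _).1 h1).2.2, lt_add_one _⟩, h1⟩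
        · intro l w hl h1 h2
          rw [e2, hr] at h1
          rw [e1, hR, El_res] at h2
          exact ⟨w, (hA _ _ _).2 ⟨rfl, (hE _ _).2 ⟨hl, h1, h2.1⟩⟩⟩
        · intro l w z z' h h'
          exact ((hA _ _ _).1 h).1.symm.trans ((hA _ _ _).1 h').1
        · intro l w w' z h h'
          exact ((hA _ _ _).1 h).1.trans ((hA _ _ _).1 h').1.symm
        · intro l l' w z w' z' h h1 h2
          obtain ⟨rfl, -⟩ := (hA _ _ _).1 h
          rw [e1, hR, Trn_res] at h1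
          rw [e2] at h2
          obtain rfl := L.fn _ _ _ _ _ h1.1 ((hT _ _ _ _).1 h2).2.2
          exact (hA _ _ _).2 ⟨rfl, ((ha.lev _).tr _ _ _ _ h2).2.2.2⟩
        · intro l l' z w' z' h1 _
          rw [e2] at h1
          exact ⟨z, (hA _ _ _).2 ⟨rfl, ((ha.lev _).tr _ _ _ _ h1).1⟩⟩
        · intro l w z q h h1
          obtain ⟨rfl, h2⟩ := (hA _ _ _).1 h
          obtain ⟨h3, h4, -⟩ := (hE _ _).1 h2
          rw [hR] at h1
          rw [e1, e2, hR, Bit_res, hB]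
          constructor
          · exact fun h5 => ⟨h3, h4, Or.inl h5.1⟩
          · rintro ⟨-, -, h5 | ⟨-, rfl⟩⟩
            · exact ⟨h5, lt_add_one _⟩
            · exact (hF ((Sec.fam_act (arr_of_mem h3) hk' h4 hq).1 h1)).elim
        · intro h0
          exact (hη.ne' h0).elim
      · refine pts_arLev_vac (fun l w w' h1 => ?_) fun k w h1 => ?_
        · rw [← hR', Ap_resA] at h1
          exact (lt_add_one_iff.1 h1.2).not_gt h
        · rw [e1, El_res] at h1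
          exact (lt_add_one_iff.1 h1.2).not_gt h
  have hact : ∀ v, Pt e η v → ∃ z, Act K η v z ∧ Trn e η (top e η) k₀ v z := by
    intro v hv
    obtain ⟨z, hz⟩ := Pt.act hKa (e1 ▸ (Pt_res (lt_add_one η)).2 hv)
    refine ⟨z, hz, ?_⟩
    obtain ⟨w, h1, h2⟩ := hz
    obtain ⟨rfl, -⟩ := (hA _ _ _).1 h2
    rw [e1, top_res (lt_add_one η).le, hR, Trn_res] at h1
    exact h1.1
  obtain ⟨z, hz, tz⟩ := hact y hy
  obtain ⟨z', hz', tz'⟩ := hact y' hy'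
  have ht : top a η = idA (tgt k₀) := by rw [top, hr]
  refine ⟨K, z, z', q₀, mem_M_iff.2 ⟨hKa, hR'⟩, e1, hz, hz', ?_, ?_, ?_⟩
  · rw [e2, ← Sec_res le_rfl, hr]
    exact hq
  · rw [e2, hB, ht, hk'.id_cmp, hq.actS_id hk'.tgt]
    exact ⟨pts_idA_tgt hk, src_idA, Or.inr ⟨tz, rfl⟩⟩
  · rw [e2, hB, ht, hk'.id_cmp]
    rintro ⟨-, -, h | ⟨h, -⟩⟩
    · exact hF (L.bit _ _ _ h).2.2
    · exact hne (L.inj _ _ _ _ _ h tz')

end Tools

/-- Lifting of an arrow between restrictions. -/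
theorem lift_arr {γ : O} {c d k : V} (hc : Ob c) (hd : Ob d) (hk : k ∈ M γ)
    (e₁ : src k = res γ c) (e₂ : tgt k = res γ d) :
    ∃ u v, Arr u ∧ Arr v ∧ src u = c ∧ src v = d ∧ tgt u = tgt v ∧
      resA γ u = cmp (resA γ v) k := by
  by_cases h0 : γ = 0
  · subst h0
    obtain ⟨g₁, g₂, a1, a2, s1, s2, t, -⟩ := pts_join hc hd
    refine ⟨g₁, g₂, a1, a2, s1, s2, t, ?_⟩
    rw [mem_M_zero.1 hk, resA_zero, resA_zero, cmp_k0]
  · obtain ⟨g₁, g₂, a1, a2, s1, s2, t, r1, r2, -, -⟩ := glue (Order.one_le_iff_ne_zero.2 h0)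
      hc.bang hd.bang (by simp) hk (hd.top_mem γ) (by simpa using e₁) (by simp)
      (by simpa using e₂) (pts_cmp_bang (by simpa using e₂))
      (fun _ _ _ _ _ _ _ h => (pts_not_ap_bang h).elim)
    refine ⟨g₁, g₂, a1, a2, by simpa using s1, by simpa using s2, t, ?_⟩
    rw [r1, r2, top, ← e₂, (arr_of_mem hk).id_cmp]

/-- Amalgamation. -/
theorem amal {γ : O} (hγ : 1 ≤ γ) {f₁ f₂ : V} (hf₁ : Arr f₁) (hf₂ : Arr f₂)
    (hs : src f₁ = src f₂) (e : resA (γ + 1) f₁ = resA (γ + 1) f₂) :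
    ∃ g₁ g₂, Arr g₁ ∧ Arr g₂ ∧ src g₁ = tgt f₁ ∧ src g₂ = tgt f₂ ∧ tgt g₁ = tgt g₂ ∧
      cmp g₁ f₁ = cmp g₂ f₂ ∧ resA γ g₁ = resA γ g₂ := by
  obtain ⟨-, H2, H3⟩ := ar_inj.1 e
  have hR : resA γ f₁ = resA γ f₂ := by
    rw [← resA_resA_le (k := f₁) (lt_add_one γ).le, e, resA_resA_le (lt_add_one γ).le]
  obtain ⟨g₁, g₂, a1, a2, s1, s2, t, r1, r2, cc, -⟩ := glue hγ hf₁ hf₂ hs (hf₁.tgt.top_mem γ)
    (hf₁.tgt.top_mem γ) src_top (by rw [src_top, pts_res_congr H2]) rfl (by rw [hR])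
    (fun l y z₁ z₂ q _ _ h1 h2 => by
      obtain rfl := (hf₁.lev γ).fn _ _ _ _ h1 ((pts_lev_congr H3).2 h2)
      exact pts_lev_congr H2)
  exact ⟨g₁, g₂, a1, a2, s1, s2, t, cc, r1.trans r2.symm⟩

/-- Distinct points can be separated by a section. -/
theorem sep_pt {η : O} (hη : 0 < η) {e y y' : V} (he : Ob e) (hy : Pt e η y) (hy' : Pt e η y')
    (hne : y ≠ y') : ∃ l z z' q, Arr l ∧ src l = e ∧ Act l η y z ∧ Act l η y' z' ∧
      Sec (tgt l) η q ∧ Bit (tgt l) η (top (tgt l) η) z q ∧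
      ¬ Bit (tgt l) η (top (tgt l) η) z' q := by
  obtain ⟨K, z, z', q, hK, hs, hz, hz', hq, hb, hb'⟩ := pts_sep_top hη he hy hy' hne
  have hK' := arr_of_mem hK
  obtain ⟨u, v, a1, a2, s1, s2, t, r⟩ := lift_arr he hK'.tgt hK hs (pts_res_tgt hK).symm
  have key : ∀ x w w', Act K η x w → Act v η w w' → Act u η x w' := by
    intro x w w' h1 h2
    rw [← Act_resA (lt_add_one η), r,
      act_cmp (a2.resA _) hK' (by rw [src_resA, s2, pts_res_tgt hK])]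
    exact ⟨w, h1, (Act_resA (lt_add_one η)).2 h2⟩
  obtain ⟨w, hw⟩ := Pt.act a2 (s2 ▸ (hz.pt hK').2)
  obtain ⟨w', hw'⟩ := Pt.act a2 (s2 ▸ (hz'.pt hK').2)
  rw [← s2] at hq hb hb'
  refine ⟨u, w, w', actS v q, a1, s1, key _ _ _ hz hw, key _ _ _ hz' hw', t ▸ hq.act a2, ?_, ?_⟩
  · rw [t, ← bit_act a2 hw hq]
    exact hb
  · rw [t, ← bit_act a2 hw' hq]
    exact hb'

/-- A new point can be added. -/
theorem new_pt {η : O} (hη : 1 ≤ η) {e : V} (he : Ob e) :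
    ∃ l y, Arr l ∧ src l = e ∧ Pt (tgt l) η y ∧ ¬ Im l η y := by
  have hc : Ob (ptsOne (fun ζ => ζ = η) (nat 0) (η + 1)) :=
    ob_ptsOne (pts_east_single η (fun _ _ h _ => h) fun _ h => h.le)
  obtain ⟨g₁, g₂, a1, a2, s1, s2, t, H⟩ := pts_join he hc
  obtain ⟨z, hz⟩ := Pt.act a2 (s2 ▸ pt_ptsOne hc (lt_add_one η) rfl)
  refine ⟨g₁, z, a1, s1, t ▸ (hz.pt a2).2, ?_⟩
  rintro ⟨x, hx⟩
  obtain ⟨w, -, hw⟩ := hz
  rw [t] at hx
  exact H η hη _ _ _ _ hx hw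

/-- A point outside the image of `l` can be doubled over `l`. -/
theorem double_pt {η : O} (hη : 1 ≤ η) {l y : V} (hl : Arr l) (hy : Pt (tgt l) η y)
    (hn : ¬ Im l η y) :
    ∃ g₁ g₂ y₁ y₂, Arr g₁ ∧ Arr g₂ ∧ src g₁ = tgt l ∧ src g₂ = tgt l ∧ tgt g₁ = tgt g₂ ∧
      cmp g₁ l = cmp g₂ l ∧ resA η g₁ = resA η g₂ ∧ Act g₁ η y y₁ ∧ Act g₂ η y y₂ ∧ y₁ ≠ y₂ := by
  obtain ⟨g₁, g₂, a1, a2, s1, s2, t, r1, r2, cc, H⟩ := glue hη hl hl rfl (hl.tgt.top_mem η)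
    (hl.tgt.top_mem η) src_top src_top rfl rfl
    (fun l' y z₁ z₂ q _ _ h1 h2 => by rw [(hl.lev η).fn _ _ _ _ h1 h2])
  obtain ⟨y₁, h1⟩ := Pt.act a1 (s1 ▸ hy)
  obtain ⟨y₂, h2⟩ := Pt.act a2 (s2 ▸ hy)
  refine ⟨g₁, g₂, y₁, y₂, a1, a2, s1, s2, t, cc, r1.trans r2.symm, h1, h2, ?_⟩
  rintro rfl
  obtain ⟨w₁, b1, b2⟩ := h1
  obtain ⟨w₂, b3, b4⟩ := h2
  have b5 := (hl.tgt.lev η).one _ _ hy
  rw [tgt_top] at b5
  rw [s1, r1] at b1
  rw [s2, r2] at b3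
  obtain rfl := (hl.tgt.lev η).fn _ _ _ _ _ b5 b1
  obtain rfl := (hl.tgt.lev η).fn _ _ _ _ _ b5 b3
  rw [← t] at b4
  obtain ⟨x, hx, -⟩ := H η le_rfl _ _ _ _ b2 b4
  rw [a1.top_cmp, r1] at hx
  exact hn ⟨x, hx⟩

end Pool.Agent.Lib.MP_095a31_lc
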