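import Pool.Agent.Lib.MP_329f2d_lc.H59Defs

/-!
Extendible cardinals, the collapse of `V_δ` and the Axiom of Choice, read in a transitive class
`W` of sets.
-/

namespace Pool.Agent.Lib.MP_095a31_lc

open ZFSet Pool.Agent.Lib.MP_329f2d_lc

/-- `W` is a transitive model of ZF. -/
def ZFull (W : Set V) : Prop :=
  ZFm W ∅ ∧ ∀ a ∈ W, ∃ p ∈ W, ∀ z ∈ W, z ⊆ a → z ∈ p

/-- `M` is the level `V_a` of the cumulative hierarchy of `W`. -/
def IsVh (W : Set V) (a M : V) : Prop := ∀ x, x ∈ M ↔ x ∈ W ∧ rank x < rank a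

/-- `d` is an extendible cardinal in `W`: for every ordinal `l > d` of `W` there are an ordinal `t`
and an elementary embedding `j : V_l → V_t` in `W` with critical point `d` and `j d > l`. -/
def Extendible (W : Set V) (d : V) : Prop :=
  d ∈ W ∧ IsOrdinal d ∧ ∀ l ∈ W, IsOrdinal l → d ∈ l →
    ∃ t ∈ W, IsOrdinal t ∧ ∃ M ∈ W, ∃ N ∈ W, ∃ j ∈ W, IsVh W l M ∧ IsVh W t N ∧
      Elem j M ∅ N ∅ ∧ (∀ a ∈ d, pair a a ∈ j) ∧ ∃ d', pair d d' ∈ j ∧ l ∈ d'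

/-- `p` is a finite function from a subset of `ω` into the `V_d` of `W`. -/
def FinP (W : Set V) (d p : V) : Prop :=
  (p : Set V).Finite ∧ (∀ z ∈ p, ∃ n ∈ omega, ∃ x ∈ W, rank x < rank d ∧ z = pair n x) ∧
    ∀ n x y, pair n x ∈ p → pair n y ∈ p → x = y

/-- `P` is the forcing `Col(ω, V_d)` of `W`, ordered by reverse inclusion. -/
def IsCol (W : Set V) (d P : V) : Prop :=
  ∀ z, z ∈ P ↔ ∃ p q, z = pair p q ∧ FinP W d p ∧ FinP W d q ∧ q ⊆ p

/-- The Axiom of Choice holds in `W`: every set of nonempty sets has a choice function. -/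
def AC (W : Set V) : Prop :=
  ∀ a ∈ W, ∅ ∉ a → ∃ f ∈ W, IsFunc a (⋃₀ a) f ∧ ∀ x y, pair x y ∈ f → y ∈ x

end Pool.Agent.Lib.MP_095a31_lc
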